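import Mathlib


/-! ## Part Cech -/

set_option autoImplicit false

/-! Cochains on finite subsets of a linear order: sign, differential, the standard homotopy,
cochain, cocycle and coboundary submodules for a family of submodules. -/

namespace Pool.Agent.MP8049

variable {ι : Type*} [LinearOrder ι]

/-- The sign with which `g` is removed from (or added to) `G`. -/
def sg (G : Finset ι) (g : ι) : ℤ := (-1) ^ (G.filter (fun u => u < g)).card

lemma sg_mul_self (G : Finset ι) (g : ι) : sg G g * sg G g = 1 := by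
  unfold sg
  rw [← pow_add, ← two_mul, pow_mul]
  simp

lemma sg_erase_of_lt {G : Finset ι} {g h : ι} (hh : h ∈ G) (hlt : h < g) :
    sg (G.erase h) g = - sg G g := by
  unfold sg
  have h1 : (G.erase h).filter (fun u => u < g) = (G.filter (fun u => u < g)).erase h := by
    ext u
    simp only [Finset.mem_filter, Finset.mem_erase]
    tauto
  have h2 : h ∈ G.filter (fun u => u < g) := by simp [hh, hlt]
  have h3 : (G.filter (fun u => u < g)).card = ((G.filter (fun u => u < g)).erase h).card + 1 := by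
    rw [Finset.card_erase_of_mem h2]
    have : 0 < (G.filter (fun u => u < g)).card := Finset.card_pos.mpr ⟨h, h2⟩
    omega
  rw [h1, h3, pow_succ]
  ring

lemma sg_erase_of_le {G : Finset ι} {g h : ι} (hle : g ≤ h) :
    sg (G.erase h) g = sg G g := by
  unfold sg
  have h1 : (G.erase h).filter (fun u => u < g) = G.filter (fun u => u < g) := by
    ext u
    simp only [Finset.mem_filter, Finset.mem_erase]
    constructor
    · rintro ⟨⟨_, h2⟩, h3⟩
      exact ⟨h2, h3⟩
    · rintro ⟨h2, h3⟩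
      exact ⟨⟨ne_of_lt (lt_of_lt_of_le h3 hle), h2⟩, h3⟩
  rw [h1]

/-- The antisymmetry of signs, for two distinct elements of `G`. -/
lemma sg_anti {G : Finset ι} {g h : ι} (hg : g ∈ G) (hh : h ∈ G) (hne : g ≠ h) :
    sg G g * sg (G.erase g) h = - (sg G h * sg (G.erase h) g) := by
  rcases lt_or_gt_of_ne hne with hlt | hgt
  · rw [sg_erase_of_lt hg hlt, sg_erase_of_le (le_of_lt hlt)]
    ring
  · rw [sg_erase_of_lt hh hgt, sg_erase_of_le (le_of_lt hgt)]
    ring

section cd

variable {M : Type*} [AddCommGroup M]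

/-- The simplicial coboundary on all cochains. -/
def cd (c : Finset ι → M) : Finset ι → M := fun G => ∑ g ∈ G, sg G g • c (G.erase g)

lemma cd_apply (c : Finset ι → M) (G : Finset ι) :
    cd c G = ∑ g ∈ G, sg G g • c (G.erase g) := rfl

lemma cd_add (c d : Finset ι → M) : cd (c + d) = cd c + cd d := by
  funext G
  simp [cd, Finset.sum_add_distrib]

lemma cd_zero : cd (0 : Finset ι → M) = 0 := by
  funext G
  simp [cd]

lemma cd_neg (c : Finset ι → M) : cd (-c) = - cd c := by
  funext G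
  simp [cd]

lemma cd_sub (c d : Finset ι → M) : cd (c - d) = cd c - cd d := by
  rw [sub_eq_add_neg, cd_add, cd_neg, ← sub_eq_add_neg]

lemma cd_sum {α : Type*} (s : Finset α) (c : α → Finset ι → M) :
    cd (∑ a ∈ s, c a) = ∑ a ∈ s, cd (c a) := by
  classical
  induction s using Finset.induction_on with
  | empty => simp [cd_zero]
  | insert a s ha ih => rw [Finset.sum_insert ha, Finset.sum_insert ha, cd_add, ih]

/-- Additive maps commute with the coboundary. -/
lemma cd_map {N : Type*} [AddCommGroup N] (φ : M →+ N) (c : Finset ι → M) :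
    cd (fun G => φ (c G)) = fun G => φ (cd c G) := by
  funext G
  simp [cd, map_sum]

lemma cd_smul {R : Type*} [Ring R] [Module R M] (r : R) (c : Finset ι → M) :
    cd (r • c) = r • cd c := by
  funext G
  simp only [cd, Pi.smul_apply, Finset.smul_sum]
  refine Finset.sum_congr rfl fun g _ => ?_
  rw [smul_comm]

lemma cd_cd (c : Finset ι → M) : cd (cd c) = 0 := by
  classical
  funext G
  simp only [cd, Finset.smul_sum, Pi.zero_apply]
  rw [Finset.sum_sigma']
  refine Finset.sum_involution (fun (p : Σ _ : ι, ι) _ => ⟨p.2, p.1⟩) ?_ ?_ ?_ ?_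
  · rintro ⟨g, h⟩ hp
    simp only [Finset.mem_sigma, Finset.mem_erase] at hp
    obtain ⟨hg, hne, hh⟩ := hp
    simp only
    rw [smul_smul, smul_smul, sg_anti hg hh (Ne.symm hne), Finset.erase_right_comm]
    simp
  · rintro ⟨g, h⟩ hp _
    simp only [Finset.mem_sigma, Finset.mem_erase] at hp
    intro heq
    simp only [Sigma.mk.injEq] at heq
    exact hp.2.1 heq.1
  · rintro ⟨g, h⟩ hp
    simp only [Finset.mem_sigma, Finset.mem_erase] at hp ⊢
    exact ⟨hp.2.2, Ne.symm hp.2.1, hp.1⟩
  · rintro ⟨g, h⟩ _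
    rfl

/-- The standard homotopy attached to a vertex `k`. -/
def hm (k : ι) (c : Finset ι → M) : Finset ι → M :=
  fun G => if k ∈ G then 0 else sg (insert k G) k • c (insert k G)

lemma sg_insert_self (G : Finset ι) (k : ι) : sg (insert k G) k = sg G k := by
  unfold sg
  have : (insert k G).filter (fun u => u < k) = G.filter (fun u => u < k) := by
    ext u
    simp only [Finset.mem_filter, Finset.mem_insert]
    constructor
    · rintro ⟨h1 | h1, h2⟩
      · exact absurd h2 (by simp [h1])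
      · exact ⟨h1, h2⟩
    · rintro ⟨h1, h2⟩
      exact ⟨Or.inr h1, h2⟩
  rw [this]

/-- The homotopy identity. -/
lemma cd_hm_add (k : ι) (c : Finset ι → M) : cd (hm k c) + hm k (cd c) = c := by
  classical
  funext G
  simp only [Pi.add_apply]
  by_cases hk : k ∈ G
  · have h1 : hm k (cd c) G = 0 := by simp [hm, hk]
    rw [h1, add_zero, cd_apply, Finset.sum_eq_single k]
    · simp only [hm, Finset.notMem_erase, if_false, Finset.insert_erase hk]
      rw [smul_smul, sg_mul_self, one_smul]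
    · intro g hg hne
      simp only [hm, Finset.mem_erase]
      rw [if_pos ⟨Ne.symm hne, hk⟩, smul_zero]
    · intro h
      exact absurd hk h
  · have h1 : hm k (cd c) G = sg (insert k G) k • ∑ g ∈ insert k G,
        sg (insert k G) g • c ((insert k G).erase g) := by simp [hm, hk, cd]
    rw [h1, Finset.sum_insert hk, smul_add, smul_smul, sg_mul_self, one_smul,
      Finset.erase_insert hk, cd_apply, Finset.smul_sum]
    have h2 : ∀ g ∈ G, sg G g • hm k c (G.erase g) =
        - (sg (insert k G) k • (sg (insert k G) g • c ((insert k G).erase g))) := by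
      intro g hg
      have hgk : g ≠ k := fun h => hk (h ▸ hg)
      have hk' : k ∉ G.erase g := fun h => hk (Finset.mem_of_mem_erase h)
      simp only [hm, if_neg hk']
      have h3 : insert k (G.erase g) = (insert k G).erase g := by
        rw [Finset.erase_insert_of_ne (Ne.symm hgk)]
      rw [h3, smul_smul, smul_smul]
      have hgi : g ∈ insert k G := Finset.mem_insert_of_mem hg
      have hki : k ∈ insert k G := Finset.mem_insert_self k G
      have h4 := sg_anti hgi hki hgk
      have h5 : sg ((insert k G).erase k) g = sg G g := by rw [Finset.erase_insert hk]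
      rw [h5] at h4
      -- h4 : sg (insert k G) g * sg (erase) k = - (sg (insert k G) k * sg G g)
      have h6 : sg G g * sg ((insert k G).erase g) k =
          - (sg (insert k G) k * sg (insert k G) g) := by
        have e1 := sg_mul_self (insert k G) g
        have e2 := sg_mul_self (insert k G) k
        have e3 := sg_mul_self G g
        have e4 := sg_mul_self ((insert k G).erase g) k
        generalize sg (insert k G) g = a at *
        generalize sg ((insert k G).erase g) k = b at *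
        generalize sg (insert k G) k = c at *
        generalize sg G g = d at *
        have h7 : d * b = - (c * a) * (a * a) * (d * d) * (b * b) := by
          calc d * b = d * b * (c * c) * (a * a) := by rw [e1, e2]; ring
            _ = (a * b) * (c * d) * (c * a) := by ring
            _ = (- (c * d)) * (c * d) * (c * a) := by rw [h4]
            _ = - (c * c) * (d * d) * (c * a) := by ring
            _ = - (c * a) * (a * a) * (d * d) * (b * b) := by rw [e1, e2, e3, e4]; ring
        rw [h7, e1, e3, e4]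
        ring
      rw [h6, neg_smul]
    rw [Finset.sum_congr rfl h2, Finset.sum_neg_distrib]
    abel

end cd

section Coch

variable {k : Type*} [Field k] {M : Type*} [AddCommGroup M] [Module k M]

/-- Cochains of degree `q` with values in the family `P`. -/
def Coch (P : Finset ι → Submodule k M) (q : ℕ) : Submodule k (Finset ι → M) where
  carrier := {c | ∀ G, c G ∈ P G ∧ (G.card ≠ q → c G = 0)}
  add_mem' := by
    intro a b ha hb G
    refine ⟨(P G).add_mem (ha G).1 (hb G).1, fun h => ?_⟩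
    simp [(ha G).2 h, (hb G).2 h]
  zero_mem' := fun G => ⟨(P G).zero_mem, fun _ => rfl⟩
  smul_mem' := by
    intro r a ha G
    refine ⟨(P G).smul_mem r (ha G).1, fun h => ?_⟩
    simp [(ha G).2 h]

lemma mem_Coch {P : Finset ι → Submodule k M} {q : ℕ} {c : Finset ι → M} :
    c ∈ Coch P q ↔ ∀ G, c G ∈ P G ∧ (G.card ≠ q → c G = 0) := Iff.rfl

variable (k M) in
/-- The coboundary as a linear map. -/
def cdL : (Finset ι → M) →ₗ[k] (Finset ι → M) where
  toFun := cd
  map_add' := cd_add
  map_smul' := fun r c => cd_smul r c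

@[simp] lemma cdL_apply (c : Finset ι → M) : cdL k M c = cd c := rfl

/-- Cocycles. -/
def Cyc (P : Finset ι → Submodule k M) (q : ℕ) : Submodule k (Finset ι → M) :=
  Coch P q ⊓ LinearMap.ker (cdL k M)

lemma mem_Cyc {P : Finset ι → Submodule k M} {q : ℕ} {c : Finset ι → M} :
    c ∈ Cyc P q ↔ c ∈ Coch P q ∧ cd c = 0 := Iff.rfl

/-- Coboundaries. -/
def Bdy (P : Finset ι → Submodule k M) : ℕ → Submodule k (Finset ι → M)
  | 0 => ⊥
  | q + 1 => (Coch P q).map (cdL k M)

lemma mem_Bdy_zero {P : Finset ι → Submodule k M} {c : Finset ι → M} :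
    c ∈ Bdy P 0 ↔ c = 0 := Iff.rfl

lemma mem_Bdy_succ {P : Finset ι → Submodule k M} {q : ℕ} {c : Finset ι → M} :
    c ∈ Bdy P (q + 1) ↔ ∃ b ∈ Coch P q, cd b = c := Iff.rfl

/-- Monotone families. -/
def FMono (P : Finset ι → Submodule k M) : Prop := ∀ G H, G ⊆ H → P G ≤ P H

lemma cd_mem_Coch {P : Finset ι → Submodule k M} (hP : FMono P) {q : ℕ} {c : Finset ι → M}
    (hc : c ∈ Coch P q) : cd c ∈ Coch P (q + 1) := by
  intro G
  refine ⟨?_, fun h => ?_⟩
  · refine (P G).sum_mem fun g hg => ?_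
    exact (P G).smul_of_tower_mem _ (hP _ _ (Finset.erase_subset g G) (hc _).1)
  · rw [cd_apply]
    refine Finset.sum_eq_zero fun g hg => ?_
    have h1 : (G.erase g).card ≠ q := by
      rw [Finset.card_erase_of_mem hg]
      have : 0 < G.card := Finset.card_pos.mpr ⟨g, hg⟩
      omega
    rw [(hc _).2 h1, smul_zero]

lemma Bdy_le_Cyc {P : Finset ι → Submodule k M} (hP : FMono P) (q : ℕ) : Bdy P q ≤ Cyc P q := by
  cases q with
  | zero => exact bot_le
  | succ q =>
    rintro c ⟨b, hb, rfl⟩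
    exact ⟨cd_mem_Coch hP hb, cd_cd b⟩

lemma Coch_mono {P Q : Finset ι → Submodule k M} (h : ∀ G, P G ≤ Q G) (q : ℕ) :
    Coch P q ≤ Coch Q q := fun _ hc G => ⟨h G (hc G).1, (hc G).2⟩

lemma Bdy_mono {P Q : Finset ι → Submodule k M} (h : ∀ G, P G ≤ Q G) (q : ℕ) :
    Bdy P q ≤ Bdy Q q := by
  cases q with
  | zero => exact bot_le
  | succ q => exact Submodule.map_mono (Coch_mono h q)

lemma Cyc_mono {P Q : Finset ι → Submodule k M} (h : ∀ G, P G ≤ Q G) (q : ℕ) :
    Cyc P q ≤ Cyc Q q := inf_le_inf_right _ (Coch_mono h q)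

/-- Exactness in degree `q`. -/
def Ex (P : Finset ι → Submodule k M) (q : ℕ) : Prop := Cyc P q ≤ Bdy P q

end Coch

end Pool.Agent.MP8049


/-! ## Part Mon -/

set_option autoImplicit false

/-! Laurent monomials in a field, spans of sets of monomials, weights, degrees. -/

namespace Pool.Agent.MP8049

open Finsupp

section Basic

variable {ι : Type*} [Fintype ι]

/-- total degree -/
def dg (a : ι → ℤ) : ℤ := ∑ i, a i

/-- weight -/
noncomputable def wt (v : ι → ℝ) (a : ι → ℤ) : ℝ := ∑ i, (a i : ℝ) * v i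

lemma dg_add (a b : ι → ℤ) : dg (a + b) = dg a + dg b := by
  simp [dg, Finset.sum_add_distrib]

lemma dg_zero : dg (0 : ι → ℤ) = 0 := by simp [dg]

lemma dg_neg (a : ι → ℤ) : dg (-a) = - dg a := by simp [dg]

lemma dg_sub (a b : ι → ℤ) : dg (a - b) = dg a - dg b := by simp [dg]

lemma wt_add (v : ι → ℝ) (a b : ι → ℤ) : wt v (a + b) = wt v a + wt v b := by
  simp [wt, Finset.sum_add_distrib, add_mul]

lemma wt_zero (v : ι → ℝ) : wt v (0 : ι → ℤ) = 0 := by simp [wt]

lemma wt_neg (v : ι → ℝ) (a : ι → ℤ) : wt v (-a) = - wt v a := by simp [wt]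

lemma wt_sub (v : ι → ℝ) (a b : ι → ℤ) : wt v (a - b) = wt v a - wt v b := by
  rw [sub_eq_add_neg, wt_add, wt_neg, sub_eq_add_neg]

lemma dg_nsmul (n : ℕ) (a : ι → ℤ) : dg (n • a) = n * dg a := by
  simp [dg, Finset.mul_sum]

lemma wt_nsmul (v : ι → ℝ) (n : ℕ) (a : ι → ℤ) : wt v (n • a) = n * wt v a := by
  simp only [wt, Finset.mul_sum, Pi.smul_apply]
  refine Finset.sum_congr rfl fun i _ => ?_
  push_cast
  simp only [nsmul_eq_mul]
  push_cast
  ring

variable {L : Type*} [Field L]

/-- Laurent monomial. -/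
def mon (x : ι → L) (a : ι → ℤ) : L := ∏ i, x i ^ a i

lemma mon_zero (x : ι → L) : mon x 0 = 1 := by simp [mon]

lemma mon_add {x : ι → L} (hx : ∀ i, x i ≠ 0) (a b : ι → ℤ) :
    mon x (a + b) = mon x a * mon x b := by
  simp only [mon, Pi.add_apply, ← Finset.prod_mul_distrib]
  exact Finset.prod_congr rfl fun i _ => zpow_add₀ (hx i) _ _

lemma mon_ne_zero {x : ι → L} (hx : ∀ i, x i ≠ 0) (a : ι → ℤ) : mon x a ≠ 0 :=
  Finset.prod_ne_zero_iff.mpr fun i _ => zpow_ne_zero _ (hx i)

lemma mon_neg {x : ι → L} (a : ι → ℤ) : mon x (-a) = (mon x a)⁻¹ := by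
  simp [mon, zpow_neg]

lemma mon_sub {x : ι → L} (hx : ∀ i, x i ≠ 0) (a b : ι → ℤ) :
    mon x (a - b) = mon x a * (mon x b)⁻¹ := by
  rw [sub_eq_add_neg, mon_add hx, mon_neg]

lemma mon_nsmul {x : ι → L} (hx : ∀ i, x i ≠ 0) (n : ℕ) (a : ι → ℤ) :
    mon x (n • a) = mon x a ^ n := by
  induction n with
  | zero => simp [mon_zero]
  | succ n ih => rw [succ_nsmul, mon_add hx, ih, pow_succ]

lemma mon_single [DecidableEq ι] (x : ι → L) (i : ι) (n : ℤ) :
    mon x (Pi.single i n) = x i ^ n := by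
  unfold mon
  rw [Finset.prod_eq_single i]
  · simp
  · intro j _ hj
    simp [hj]
  · simp

lemma wt_single [DecidableEq ι] (v : ι → ℝ) (i : ι) (n : ℤ) :
    wt v (Pi.single i n) = n * v i := by
  unfold wt
  rw [Finset.sum_eq_single i]
  · simp
  · intro j _ hj
    simp [hj]
  · simp

lemma dg_single [DecidableEq ι] (i : ι) (n : ℤ) : dg (Pi.single i n : ι → ℤ) = n := by
  unfold dg
  rw [Finset.sum_eq_single i]
  · simp
  · intro j _ hj
    simp [hj]
  · simp

end Basic

section Span

variable {ι : Type*} [Fintype ι] {L : Type*} [Field L] (k : Type*) [Field k] [Algebra k L]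

/-- The span of the monomials with exponent in `S`. -/
def Sp (x : ι → L) (S : Set (ι → ℤ)) : Submodule k L := Submodule.span k (mon x '' S)

/-- evaluation of a formal Laurent polynomial -/
noncomputable def lc (x : ι → L) : ((ι → ℤ) →₀ k) →ₗ[k] L := Finsupp.linearCombination k (mon x)

variable {k}

lemma lc_single (x : ι → L) (a : ι → ℤ) (c : k) : lc k x (single a c) = c • mon x a := by
  simp [lc]

lemma lc_apply (x : ι → L) (t : (ι → ℤ) →₀ k) :
    lc k x t = ∑ a ∈ t.support, t a • mon x a := by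
  simp [lc, Finsupp.linearCombination_apply, Finsupp.sum]

lemma mem_Sp {x : ι → L} {S : Set (ι → ℤ)} {f : L} :
    f ∈ Sp k x S ↔ ∃ t : (ι → ℤ) →₀ k, (↑t.support ⊆ S) ∧ lc k x t = f := by
  unfold Sp lc
  rw [Finsupp.mem_span_image_iff_linearCombination]
  simp only [Finsupp.mem_supported]

lemma lc_mem_Sp {x : ι → L} {S : Set (ι → ℤ)} {t : (ι → ℤ) →₀ k} (h : ↑t.support ⊆ S) :
    lc k x t ∈ Sp k x S := mem_Sp.mpr ⟨t, h, rfl⟩

lemma mon_mem_Sp {x : ι → L} {S : Set (ι → ℤ)} {a : ι → ℤ} (h : a ∈ S) :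
    mon x a ∈ Sp k x S := Submodule.subset_span ⟨a, h, rfl⟩

lemma Sp_mono {x : ι → L} {S T : Set (ι → ℤ)} (h : S ⊆ T) : Sp k x S ≤ Sp k x T :=
  Submodule.span_mono (Set.image_mono h)

lemma Sp_le {x : ι → L} {S : Set (ι → ℤ)} {P : Submodule k L} (h : ∀ a ∈ S, mon x a ∈ P) :
    Sp k x S ≤ P := by
  unfold Sp
  rw [Submodule.span_le]
  rintro _ ⟨a, ha, rfl⟩
  exact h a ha

lemma Sp_mul {x : ι → L} (hx : ∀ i, x i ≠ 0) {S T U : Set (ι → ℤ)}
    (h : ∀ a ∈ S, ∀ b ∈ T, a + b ∈ U) {f g : L} (hf : f ∈ Sp k x S) (hg : g ∈ Sp k x T) :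
    f * g ∈ Sp k x U := by
  unfold Sp at hf
  induction hf using Submodule.span_induction with
  | mem f hf =>
    obtain ⟨a, ha, rfl⟩ := hf
    unfold Sp at hg
    induction hg using Submodule.span_induction with
    | mem g hg =>
      obtain ⟨b, hb, rfl⟩ := hg
      rw [← mon_add hx]
      exact mon_mem_Sp (h a ha b hb)
    | zero => simp
    | add g g' _ _ ih ih' =>
      rw [mul_add]
      exact Submodule.add_mem _ ih ih'
    | smul c g _ ih =>
      rw [mul_smul_comm]
      exact Submodule.smul_mem _ _ ih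
  | zero => simp
  | add f f' _ _ ih ih' =>
    rw [add_mul]
    exact Submodule.add_mem _ ih ih'
  | smul c f _ ih =>
    rw [smul_mul_assoc]
    exact Submodule.smul_mem _ _ ih

lemma Sp_mul_mon {x : ι → L} (hx : ∀ i, x i ≠ 0) {S U : Set (ι → ℤ)} {b : ι → ℤ}
    (h : ∀ a ∈ S, a + b ∈ U) {f : L} (hf : f ∈ Sp k x S) :
    f * mon x b ∈ Sp k x U :=
  Sp_mul hx (T := {b}) (fun a ha c hc => by rw [Set.mem_singleton_iff] at hc; subst hc; exact h a ha)
    hf (mon_mem_Sp (Set.mem_singleton b))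

lemma Sp_union {x : ι → L} {S T U : Set (ι → ℤ)} (hU : U ⊆ S ∪ T) {f : L} (hf : f ∈ Sp k x U) :
    ∃ g ∈ Sp k x S, ∃ h ∈ Sp k x T, f = g + h := by
  have h1 : Sp k x (S ∪ T) = Sp k x S ⊔ Sp k x T := by
    unfold Sp
    rw [Set.image_union, Submodule.span_union]
  have h2 : f ∈ Sp k x S ⊔ Sp k x T := h1 ▸ Sp_mono hU hf
  obtain ⟨g, hg, h, hh, he⟩ := Submodule.mem_sup.mp h2
  exact ⟨g, hg, h, hh, he.symm⟩

lemma Sp_inf_univ {x : ι → L} {S : Set (ι → ℤ)} : Sp k x S ≤ Sp k x Set.univ :=
  Sp_mono (Set.subset_univ _)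

/-! ### Sets of exponents -/

/-- exponents of elements of the localization at `∏_{i ∈ G} x i` -/
def EG (G : Finset ι) : Set (ι → ℤ) := {a | ∀ i, i ∉ G → 0 ≤ a i}

/-- degree `j` -/
def Dj (j : ℤ) : Set (ι → ℤ) := {a | dg a = j}

/-- weight at least `ν` -/
def Wge (v : ι → ℝ) (ν : ℝ) : Set (ι → ℤ) := {a | ν ≤ wt v a}

/-- weight larger than `ν` -/
def Wgt (v : ι → ℝ) (ν : ℝ) : Set (ι → ℤ) := {a | ν < wt v a}

/-- nonnegative exponents -/
def Nn : Set (ι → ℤ) := {a | ∀ i, 0 ≤ a i}

lemma EG_mono {G H : Finset ι} (h : G ⊆ H) : (EG G : Set (ι → ℤ)) ⊆ EG H :=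
  fun _ ha i hi => ha i (fun hG => hi (h hG))

lemma EG_empty : (EG (∅ : Finset ι) : Set (ι → ℤ)) = Nn := by
  ext a; simp [EG, Nn]

variable (k) in
/-- The homogeneous pieces of the localizations. -/
def RG (x : ι → L) (j : ℤ) (G : Finset ι) : Submodule k L := Sp k x (EG G ∩ Dj j)

variable (k) in
/-- The filtered homogeneous pieces of the localizations. -/
def RF (x : ι → L) (v : ι → ℝ) (j : ℤ) (ν : ℝ) (G : Finset ι) : Submodule k L :=
  Sp k x (EG G ∩ Dj j ∩ Wge v ν)

variable (k) in
/-- The total localization. -/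
def TG (x : ι → L) (G : Finset ι) : Submodule k L := Sp k x (EG G)

variable (k) in
/-- The filtered total localization. -/
def TF (x : ι → L) (v : ι → ℝ) (ν : ℝ) (G : Finset ι) : Submodule k L :=
  Sp k x (EG G ∩ Wge v ν)

lemma RG_FMono [LinearOrder ι] (x : ι → L) (j : ℤ) : FMono (RG k x j) :=
  fun _ _ h => Sp_mono (Set.inter_subset_inter_left _ (EG_mono h))

lemma RF_FMono [LinearOrder ι] (x : ι → L) (v : ι → ℝ) (j : ℤ) (ν : ℝ) : FMono (RF k x v j ν) :=
  fun _ _ h => Sp_mono (Set.inter_subset_inter_left _ (Set.inter_subset_inter_left _ (EG_mono h)))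

lemma TG_FMono [LinearOrder ι] (x : ι → L) : FMono (TG k x) := fun _ _ h => Sp_mono (EG_mono h)

lemma TF_FMono [LinearOrder ι] (x : ι → L) (v : ι → ℝ) (ν : ℝ) : FMono (TF k x v ν) :=
  fun _ _ h => Sp_mono (Set.inter_subset_inter_left _ (EG_mono h))

lemma RF_le_RG (x : ι → L) (v : ι → ℝ) (j : ℤ) (ν : ℝ) (G : Finset ι) :
    RF k x v j ν G ≤ RG k x j G := Sp_mono Set.inter_subset_left

lemma RG_le_TG (x : ι → L) (j : ℤ) (G : Finset ι) : RG k x j G ≤ TG k x G :=
  Sp_mono Set.inter_subset_left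

lemma TF_le_TG (x : ι → L) (v : ι → ℝ) (ν : ℝ) (G : Finset ι) : TF k x v ν G ≤ TG k x G :=
  Sp_mono Set.inter_subset_left

lemma RF_le_TF (x : ι → L) (v : ι → ℝ) (j : ℤ) (ν : ℝ) (G : Finset ι) :
    RF k x v j ν G ≤ TF k x v ν G :=
  Sp_mono fun _ ha => ⟨ha.1.1, ha.2⟩

lemma RF_anti (x : ι → L) (v : ι → ℝ) (j : ℤ) {ν ν' : ℝ} (h : ν ≤ ν') (G : Finset ι) :
    RF k x v j ν' G ≤ RF k x v j ν G :=
  Sp_mono fun _ ha => ⟨ha.1, le_trans h ha.2⟩

lemma TF_anti (x : ι → L) (v : ι → ℝ) {ν ν' : ℝ} (h : ν ≤ ν') (G : Finset ι) :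
    TF k x v ν' G ≤ TF k x v ν G :=
  Sp_mono fun _ ha => ⟨ha.1, le_trans h ha.2⟩

lemma RG_mul {x : ι → L} (hx : ∀ i, x i ≠ 0) {G : Finset ι} {i j : ℤ} {f g : L}
    (hf : f ∈ RG k x i G) (hg : g ∈ RG k x j G) : f * g ∈ RG k x (i + j) G := by
  refine Sp_mul hx ?_ hf hg
  rintro a ⟨ha1, ha2⟩ b ⟨hb1, hb2⟩
  refine ⟨fun l hl => add_nonneg (ha1 l hl) (hb1 l hl), ?_⟩
  simp only [Dj, Set.mem_ofPred_eq] at *
  rw [dg_add, ha2, hb2]

lemma RF_mul {x : ι → L} (hx : ∀ i, x i ≠ 0) {v : ι → ℝ} {G : Finset ι} {i j : ℤ} {ν ν' : ℝ}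
    {f g : L} (hf : f ∈ RF k x v i ν G) (hg : g ∈ RF k x v j ν' G) :
    f * g ∈ RF k x v (i + j) (ν + ν') G := by
  refine Sp_mul hx ?_ hf hg
  rintro a ⟨⟨ha1, ha2⟩, ha3⟩ b ⟨⟨hb1, hb2⟩, hb3⟩
  simp only [Dj, Wge, Set.mem_ofPred_eq] at *
  refine ⟨⟨fun l hl => add_nonneg (ha1 l hl) (hb1 l hl), ?_⟩, ?_⟩
  · simp only [Set.mem_ofPred_eq]; rw [dg_add, ha2, hb2]
  · simp only [Set.mem_ofPred_eq]; rw [wt_add]; linarith

lemma TF_mul {x : ι → L} (hx : ∀ i, x i ≠ 0) {v : ι → ℝ} {G : Finset ι} {ν ν' : ℝ}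
    {f g : L} (hf : f ∈ TF k x v ν G) (hg : g ∈ TF k x v ν' G) :
    f * g ∈ TF k x v (ν + ν') G := by
  refine Sp_mul hx ?_ hf hg
  rintro a ⟨ha1, ha3⟩ b ⟨hb1, hb3⟩
  simp only [Wge, Set.mem_ofPred_eq] at *
  refine ⟨fun l hl => add_nonneg (ha1 l hl) (hb1 l hl), ?_⟩
  simp only [Set.mem_ofPred_eq]; rw [wt_add]; linarith

lemma TG_mul {x : ι → L} (hx : ∀ i, x i ≠ 0) {G : Finset ι}
    {f g : L} (hf : f ∈ TG k x G) (hg : g ∈ TG k x G) : f * g ∈ TG k x G := by
  refine Sp_mul hx ?_ hf hg
  rintro a ha b hb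
  exact fun l hl => add_nonneg (ha l hl) (hb l hl)

/-- The homogeneous coordinate ring. -/
lemma one_mem_TG {x : ι → L} (G : Finset ι) : (1 : L) ∈ TG k x G := by
  rw [← mon_zero x]
  exact mon_mem_Sp (fun _ _ => le_refl _)

lemma x_mem_RG [DecidableEq ι] {x : ι → L} (G : Finset ι) (i : ι) : x i ∈ RG k x 1 G := by
  have h : x i = mon x (Pi.single i 1) := by rw [mon_single]; simp
  rw [h]
  refine mon_mem_Sp ⟨fun l _ => ?_, ?_⟩
  · by_cases hl : l = i
    · subst hl; simp
    · simp [hl]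
  · simp [Dj, dg_single]

lemma mem_Sp_finite_wt {x : ι → L} {v : ι → ℝ} {S : Set (ι → ℤ)} {f : L} (hf : f ∈ Sp k x S) :
    ∃ ν : ℝ, f ∈ Sp k x (S ∩ Wge v ν) := by
  obtain ⟨t, ht, rfl⟩ := mem_Sp.mp hf
  obtain ⟨ν, hν⟩ : ∃ ν : ℝ, ∀ a ∈ t.support, ν ≤ wt v a := by
    rcases t.support.eq_empty_or_nonempty with h | h
    · exact ⟨0, fun a ha => by simp [h] at ha⟩
    · refine ⟨(t.support.image (wt v)).min' (h.image _), fun a ha => ?_⟩
      exact Finset.min'_le _ _ (Finset.mem_image_of_mem _ ha)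
  exact ⟨ν, lc_mem_Sp fun a ha => ⟨ht ha, hν a ha⟩⟩

end Span

section Homog

variable {ι : Type*} [Fintype ι] {L : Type*} [Field L] (k : Type*) [Field k] [Algebra k L]

/-- All linear relations between the Laurent monomials are homogeneous. -/
def Homog (x : ι → L) : Prop :=
  ∀ t : (ι → ℤ) →₀ k, lc k x t = 0 → ∀ j : ℤ, lc k x (t.filter (fun a => dg a = j)) = 0

variable {k}

/-- Existence of homogeneous component maps, defined on all of `L`. -/
lemma exists_hc {x : ι → L} (H : Homog k x) :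
    ∃ hc : ℤ → (L →ₗ[k] L), ∀ j t, hc j (lc k x t) = lc k x (t.filter (fun a => dg a = j)) := by
  have h : ∀ j : ℤ, ∃ φ : L →ₗ[k] L, ∀ t, φ (lc k x t) = lc k x (t.filter (fun a => dg a = j)) := by
    intro j
    let F : ((ι → ℤ) →₀ k) →ₗ[k] L :=
      (lc k x).comp (Finsupp.lsum k (fun a => if dg a = j then Finsupp.lsingle a else 0))
    have hF : ∀ t, F t = lc k x (t.filter (fun a => dg a = j)) := by
      intro t
      simp only [F, LinearMap.comp_apply]
      congr 1
      induction t using Finsupp.induction_linear with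
      | zero => rw [map_zero, Finsupp.filter_zero]
      | add f g hf hg => rw [map_add, hf, hg, Finsupp.filter_add]
      | single a c =>
        rw [Finsupp.lsum_single]
        by_cases ha : dg a = j
        · simp [ha, Finsupp.filter_single_of_pos]
        · simp [ha, Finsupp.filter_single_of_neg]
    have hker : LinearMap.ker (lc k x) ≤ LinearMap.ker F := by
      intro t ht
      rw [LinearMap.mem_ker] at ht ⊢
      rw [hF, H t ht]
    obtain ⟨φ, hφ⟩ : ∃ φ : LinearMap.range (lc k x) →ₗ[k] L, ∀ t, φ ⟨lc k x t, t, rfl⟩ = F t := by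
      let e := (lc k x).quotKerEquivRange
      refine ⟨((LinearMap.ker (lc k x)).liftQ F hker).comp e.symm.toLinearMap, fun t => ?_⟩
      have : e.symm ⟨lc k x t, t, rfl⟩ = (LinearMap.ker (lc k x)).mkQ t := by
        rw [LinearEquiv.symm_apply_eq]
        rfl
      simp only [LinearMap.comp_apply, LinearEquiv.coe_coe, this]
      rfl
    obtain ⟨ψ, hψ⟩ := LinearMap.exists_extend φ
    refine ⟨ψ, fun t => ?_⟩
    rw [← hF, ← hφ, ← hψ]
    rfl
  choose φ hφ using h
  exact ⟨φ, hφ⟩

/-- A chosen family of homogeneous component maps. -/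
noncomputable def hc {x : ι → L} (H : Homog k x) : ℤ → (L →ₗ[k] L) := Classical.choose (exists_hc H)

lemma hc_lc {x : ι → L} (H : Homog k x) (j : ℤ) (t : (ι → ℤ) →₀ k) :
    hc H j (lc k x t) = lc k x (t.filter (fun a => dg a = j)) :=
  Classical.choose_spec (exists_hc H) j t

lemma hc_mon {x : ι → L} (H : Homog k x) (j : ℤ) (a : ι → ℤ) :
    hc H j (mon x a) = if dg a = j then mon x a else 0 := by
  have h := hc_lc H j (single a (1 : k))
  rw [lc_single, one_smul] at h
  rw [h]
  by_cases ha : dg a = j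
  · rw [Finsupp.filter_single_of_pos (fun a => dg a = j) ha, lc_single, one_smul, if_pos ha]
  · rw [Finsupp.filter_single_of_neg (fun a => dg a = j) ha, map_zero, if_neg ha]

lemma hc_mem {x : ι → L} (H : Homog k x) {j : ℤ} {S : Set (ι → ℤ)} {f : L} (hf : f ∈ Sp k x S) :
    hc H j f ∈ Sp k x (S ∩ Dj j) := by
  unfold Sp at hf
  induction hf using Submodule.span_induction with
  | mem f hf =>
    obtain ⟨a, ha, rfl⟩ := hf
    rw [hc_mon]
    split_ifs with h
    · exact mon_mem_Sp ⟨ha, h⟩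
    · exact Submodule.zero_mem _
  | zero => simp
  | add f g _ _ hf hg => rw [map_add]; exact Submodule.add_mem _ hf hg
  | smul c f _ hf => rw [map_smul]; exact Submodule.smul_mem _ _ hf

lemma hc_of_mem {x : ι → L} (H : Homog k x) {j : ℤ} {S : Set (ι → ℤ)} (hS : S ⊆ Dj j) {f : L}
    (hf : f ∈ Sp k x S) : hc H j f = f := by
  unfold Sp at hf
  induction hf using Submodule.span_induction with
  | mem f hf =>
    obtain ⟨a, ha, rfl⟩ := hf
    rw [hc_mon, if_pos (show dg a = j from hS ha)]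
  | zero => simp
  | add f g _ _ hf hg => rw [map_add, hf, hg]
  | smul c f _ hf => rw [map_smul, hf]

lemma hc_of_mem_ne {x : ι → L} (H : Homog k x) {i j : ℤ} (hij : i ≠ j) {S : Set (ι → ℤ)}
    (hS : S ⊆ Dj i) {f : L} (hf : f ∈ Sp k x S) : hc H j f = 0 := by
  unfold Sp at hf
  induction hf using Submodule.span_induction with
  | mem f hf =>
    obtain ⟨a, ha, rfl⟩ := hf
    rw [hc_mon, if_neg]
    intro h
    exact hij ((hS ha).symm.trans h)
  | zero => simp
  | add f g _ _ hf hg => rw [map_add, hf, hg, add_zero]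
  | smul c f _ hf => rw [map_smul, hf, smul_zero]

/-- Multiplication by a homogeneous element of degree `i` shifts components. -/
lemma hc_mul {x : ι → L} (hx : ∀ i, x i ≠ 0) (H : Homog k x) {i j : ℤ} {S T : Set (ι → ℤ)}
    (hS : S ⊆ Dj i) {f g : L} (hf : f ∈ Sp k x S) (hg : g ∈ Sp k x T) :
    hc H (i + j) (f * g) = f * hc H j g := by
  unfold Sp at hf
  induction hf using Submodule.span_induction with
  | mem f hf =>
    obtain ⟨a, ha, rfl⟩ := hf
    unfold Sp at hg
    induction hg using Submodule.span_induction with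
    | mem g hg =>
      obtain ⟨b, hb, rfl⟩ := hg
      rw [← mon_add hx, hc_mon, hc_mon]
      have h1 : dg a = i := hS ha
      have h2 : dg (a + b) = i + j ↔ dg b = j := by rw [dg_add, h1]; constructor <;> intro h <;> linarith
      by_cases h : dg b = j
      · rw [if_pos h, if_pos (h2.mpr h), mon_add hx]
      · rw [if_neg h, if_neg (fun h' => h (h2.mp h')), mul_zero]
    | zero => simp
    | add g g' _ _ ih ih' => rw [mul_add, map_add, map_add, ih, ih', mul_add]
    | smul c g _ ih => rw [mul_smul_comm, map_smul, map_smul, ih, mul_smul_comm]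
  | zero => simp
  | add f f' _ _ ih ih' => rw [add_mul, map_add, ih, ih', add_mul]
  | smul c f _ ih => rw [smul_mul_assoc, map_smul, ih, smul_mul_assoc]

/-- Every element of the span of the monomials is the sum of its components, which vanish
outside a finite set of degrees. -/
lemma sum_hc {x : ι → L} (H : Homog k x) {S : Set (ι → ℤ)} {f : L} (hf : f ∈ Sp k x S) :
    ∃ J : Finset ℤ, (∀ J', J ⊆ J' → f = ∑ j ∈ J', hc H j f) ∧ ∀ j ∉ J, hc H j f = 0 := by
  classical
  unfold Sp at hf
  induction hf using Submodule.span_induction with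
  | mem f hf =>
    obtain ⟨a, ha, rfl⟩ := hf
    refine ⟨{dg a}, fun J' hJ => ?_, fun j hj => ?_⟩
    · rw [Finset.sum_eq_single (dg a)]
      · rw [hc_mon, if_pos rfl]
      · intro j _ hj
        rw [hc_mon, if_neg (Ne.symm hj)]
      · intro h
        exact absurd (hJ (Finset.mem_singleton_self _)) h
    · rw [hc_mon, if_neg]
      intro h
      exact hj (by simp [h])
  | zero => exact ⟨∅, fun J' _ => by simp, fun j _ => by simp⟩
  | add f g _ _ hf hg =>
    obtain ⟨J1, h1, h1'⟩ := hf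
    obtain ⟨J2, h2, h2'⟩ := hg
    refine ⟨J1 ∪ J2, fun J' hJ => ?_, fun j hj => ?_⟩
    · simp only [map_add, Finset.sum_add_distrib]
      rw [← h1 J' (Finset.union_subset_left hJ), ← h2 J' (Finset.union_subset_right hJ)]
    · rw [Finset.mem_union, not_or] at hj
      rw [map_add, h1' j hj.1, h2' j hj.2, add_zero]
  | smul c f _ hf =>
    obtain ⟨J1, h1, h1'⟩ := hf
    refine ⟨J1, fun J' hJ => ?_, fun j hj => ?_⟩
    · simp only [map_smul, ← Finset.smul_sum]
      rw [← h1 J' hJ]
    · rw [map_smul, h1' j hj, smul_zero]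

end Homog

end Pool.Agent.MP8049


/-! ## Part Window -/

set_option autoImplicit false

/-! The abstract window lemma: passing from the associated graded complexes to the filtered one. -/

namespace Pool.Agent.MP8049

variable {ι : Type*} [LinearOrder ι]

/-- Exactness at degree `q` of the cochain complex supported on the sets satisfying `F`. -/
def GrEx (k : Type*) [Field k] (F : Finset ι → Prop) (q : ℕ) : Prop :=
  ∀ z : Finset ι → k, (∀ G, z G ≠ 0 → F G ∧ G.card = q) →
    (∀ G, F G → G.card = q + 1 → cd z G = 0) →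
    ∃ s : Finset ι → k, (∀ G, s G ≠ 0 → F G ∧ G.card + 1 = q) ∧
      ∀ G, F G → G.card = q → cd s G = z G

/-- Toggling a vertex gives exactness. -/
lemma grEx_of_toggle (k : Type*) [Field k] (F : Finset ι → Prop) (i : ι)
    (h1 : ∀ G, i ∉ G → F G → F (insert i G)) (h2 : ∀ G, i ∉ G → F (insert i G) → F G) (q : ℕ) :
    GrEx k F q := by
  classical
  intro z hz hcz
  refine ⟨hm i z, fun G hG => ?_, fun G hF hq => ?_⟩
  · by_cases hi : i ∈ G
    · exact absurd (by simp [hm, hi]) hG
    · have h3 : z (insert i G) ≠ 0 := by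
        intro h
        apply hG
        simp [hm, hi, h]
      obtain ⟨h4, h5⟩ := hz _ h3
      refine ⟨h2 G hi h4, ?_⟩
      rw [Finset.card_insert_of_notMem hi] at h5
      exact h5
  · have h3 := congrFun (cd_hm_add i z) G
    rw [Pi.add_apply] at h3
    have h4 : hm i (cd z) G = 0 := by
      by_cases hi : i ∈ G
      · simp [hm, hi]
      · have h5 : cd z (insert i G) = 0 := by
          apply hcz _ (h1 G hi hF)
          rw [Finset.card_insert_of_notMem hi, hq]
        simp [hm, hi, h5]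
    rw [h4, add_zero] at h3
    exact h3

variable {α : Type*} {k : Type*} [Field k] {L : Type*} [AddCommGroup L] [Module k L]

/-- The hypotheses of the window lemma. -/
structure Win (P P' : Finset ι → Submodule k L) (m : α → L) (W : Set α)
    (Adm Std : Finset ι → α → Prop) : Prop where
  le : ∀ G, P' G ≤ P G
  mono' : FMono P'
  std_adm : ∀ G a, Std G a → Adm G a
  adm_mono : ∀ G H a, G ⊆ H → Adm G a → Adm H a
  mem : ∀ a ∈ W, ∀ G, Adm G a → m a ∈ P G
  nonstd : ∀ a ∈ W, ∀ G, Adm G a → ¬ Std G a → m a ∈ P' G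
  exp : ∀ G, ∀ f ∈ P G, ∃ t : α →₀ k, (∀ a ∈ t.support, a ∈ W ∧ Std G a) ∧
    f - Finsupp.linearCombination k m t ∈ P' G
  uniq : ∀ G, ∀ t : α →₀ k, (∀ a ∈ t.support, a ∈ W ∧ Std G a) →
    Finsupp.linearCombination k m t ∈ P' G → t = 0

variable {P P' : Finset ι → Submodule k L} {m : α → L} {W : Set α} {Adm Std : Finset ι → α → Prop}

lemma Win.coefs (w : Win P P' m W Adm Std) {q : ℕ} {c : Finset ι → L} (hc : c ∈ Coch P q)
    (hcd : ∀ G, G.card = q + 1 → cd c G ∈ P' G) :
    ∃ t : Finset ι → (α →₀ k), (∀ G, G.card ≠ q → t G = 0) ∧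
      (∀ G, ∀ a ∈ (t G).support, a ∈ W ∧ Std G a) ∧
      (∀ G, c G - Finsupp.linearCombination k m (t G) ∈ P' G) ∧
      (∀ a, ∀ G, Std G a → G.card = q + 1 → cd (fun H => t H a) G = 0) := by
  classical
  have h1 : ∀ G, ∃ t : α →₀ k, (G.card ≠ q → t = 0) ∧ (∀ a ∈ t.support, a ∈ W ∧ Std G a) ∧
      c G - Finsupp.linearCombination k m t ∈ P' G := by
    intro G
    by_cases hG : G.card = q
    · obtain ⟨t, ht1, ht2⟩ := w.exp G (c G) (hc G).1
      exact ⟨t, fun h => absurd hG h, ht1, ht2⟩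
    · refine ⟨0, fun _ => rfl, by simp, ?_⟩
      rw [(hc G).2 hG]
      simp
  choose t ht0 ht1 ht2 using h1
  refine ⟨t, ht0, ht1, ht2, ?_⟩
  intro a G hStd hG
  set T : α →₀ k := ∑ g ∈ G, sg G g • t (G.erase g) with hT
  have hTlc : Finsupp.linearCombination k m T ∈ P' G := by
    have h2 : Finsupp.linearCombination k m T =
        cd c G - ∑ g ∈ G, sg G g • (c (G.erase g) -
          Finsupp.linearCombination k m (t (G.erase g))) := by
      rw [hT, map_sum, cd_apply, ← Finset.sum_sub_distrib]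
      refine Finset.sum_congr rfl fun g _ => ?_
      rw [map_zsmul, smul_sub]
      abel
    rw [h2]
    refine (P' G).sub_mem (hcd G hG) ((P' G).sum_mem fun g _ => ?_)
    exact (P' G).smul_of_tower_mem _ (w.mono' _ _ (Finset.erase_subset g G) (ht2 _))
  have hTsupp : ∀ b ∈ T.support, b ∈ W ∧ Adm G b := by
    intro b hb
    have h3 : ∃ g ∈ G, b ∈ (t (G.erase g)).support := by
      by_contra hcon
      push Not at hcon
      rw [Finsupp.mem_support_iff] at hb
      apply hb
      rw [hT, Finsupp.finsetSum_apply]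
      refine Finset.sum_eq_zero fun g hg => ?_
      have h4 := hcon g hg
      rw [Finsupp.notMem_support_iff] at h4
      simp [h4]
    obtain ⟨g, hg, hb'⟩ := h3
    obtain ⟨h5, h6⟩ := ht1 _ _ hb'
    exact ⟨h5, w.adm_mono _ _ _ (Finset.erase_subset g G) (w.std_adm _ _ h6)⟩
  have hsplit : T = T.filter (fun b => Std G b) + T.filter (fun b => ¬ Std G b) :=
    (Finsupp.filter_add_filter_not T _).symm
  have hnon : Finsupp.linearCombination k m (T.filter (fun b => ¬ Std G b)) ∈ P' G := by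
    rw [Finsupp.linearCombination_apply, Finsupp.sum]
    refine (P' G).sum_mem fun b hb => (P' G).smul_mem _ ?_
    rw [Finsupp.support_filter, Finset.mem_filter] at hb
    obtain ⟨h5, h6⟩ := hTsupp b hb.1
    exact w.nonstd b h5 G h6 hb.2
  have hstd : Finsupp.linearCombination k m (T.filter (fun b => Std G b)) ∈ P' G := by
    rw [hsplit, map_add] at hTlc
    exact ((P' G).add_mem_iff_left hnon).mp hTlc
  have hzero := w.uniq G (T.filter (fun b => Std G b)) (by
    intro b hb
    rw [Finsupp.support_filter, Finset.mem_filter] at hb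
    exact ⟨(hTsupp b hb.1).1, hb.2⟩) hstd
  have h7 : T a = 0 := by
    have h8 := DFunLike.congr_fun hzero a
    rw [Finsupp.filter_apply_pos _ _ hStd] at h8
    simpa using h8
  rw [cd_apply]
  rw [hT, Finsupp.finsetSum_apply] at h7
  simpa using h7

variable [Fintype ι]

lemma cd_smul_fixed (s : Finset ι → k) (f : L) :
    cd (fun G => s G • f) = fun G => cd s G • f := by
  have := cd_map (((LinearMap.toSpanSingleton k L f) : k →ₗ[k] L).toAddMonoidHom) s
  simpa using this

/-- The window lemma. -/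
lemma Win.main (w : Win P P' m W Adm Std) {q : ℕ} {c : Finset ι → L} (hc : c ∈ Coch P q)
    (hcd : ∀ G, G.card = q + 1 → cd c G ∈ P' G) (ex : α → Prop)
    (hex : ∀ a ∈ W, ex a → GrEx k (fun G => Std G a) q) :
    ∃ b ∈ Bdy P q, ∃ A : Finset α, (∀ a ∈ A, a ∈ W ∧ ¬ ex a) ∧ ∃ z : α → Finset ι → k,
      (∀ a ∈ A, (∀ G, z a G ≠ 0 → Std G a ∧ G.card = q) ∧
        (∀ G, Std G a → G.card = q + 1 → cd (z a) G = 0)) ∧
      ∀ G, c G - b G - ∑ a ∈ A, z a G • m a ∈ P' G := by
  classical
  obtain ⟨t, ht0, ht1, ht2, ht3⟩ := w.coefs hc hcd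
  set A0 : Finset α := Finset.univ.biUnion (fun G : Finset ι => (t G).support) with hA0
  have hA0W : ∀ a ∈ A0, a ∈ W := by
    intro a ha
    rw [hA0, Finset.mem_biUnion] at ha
    obtain ⟨G, _, hG⟩ := ha
    exact (ht1 G a hG).1
  have hcoc : ∀ a, (∀ G, t G a ≠ 0 → Std G a ∧ G.card = q) := by
    intro a G hG
    refine ⟨(ht1 G a (Finsupp.mem_support_iff.mpr hG)).2, ?_⟩
    by_contra h
    exact hG (by rw [ht0 G h]; rfl)
  have hs : ∀ a : α, ∃ s : Finset ι → k, (a ∈ W → ex a → (∀ G, s G ≠ 0 → Std G a ∧ G.card + 1 = q) ∧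
      ∀ G, Std G a → G.card = q → cd s G = t G a) := by
    intro a
    by_cases ha : a ∈ W ∧ ex a
    · obtain ⟨s, hs1, hs2⟩ := hex a ha.1 ha.2 (fun G => t G a) (hcoc a) (ht3 a)
      exact ⟨s, fun _ _ => ⟨hs1, hs2⟩⟩
    · exact ⟨0, fun h1 h2 => absurd ⟨h1, h2⟩ ha⟩
  choose s hs using hs
  set e : Finset ι → L := ∑ a ∈ A0.filter ex, (fun G => s a G • m a) with he
  have heP : ∀ G, e G ∈ P G ∧ (G.card + 1 ≠ q → e G = 0) := by
    intro G
    have hterm : ∀ a ∈ A0.filter ex, s a G • m a ∈ P G ∧ (G.card + 1 ≠ q → s a G • m a = 0) := by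
      intro a ha
      rw [Finset.mem_filter] at ha
      obtain ⟨h1, h2⟩ := hs a (hA0W a ha.1) ha.2
      by_cases h0 : s a G = 0
      · rw [h0, zero_smul]
        exact ⟨(P G).zero_mem, fun _ => rfl⟩
      · obtain ⟨h3, h4⟩ := h1 G h0
        exact ⟨(P G).smul_mem _ (w.mem a (hA0W a ha.1) G (w.std_adm _ _ h3)),
          fun h => absurd h4 h⟩
    refine ⟨?_, fun h => ?_⟩
    · rw [he, Finset.sum_apply]
      exact (P G).sum_mem fun a ha => (hterm a ha).1
    · rw [he, Finset.sum_apply]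
      exact Finset.sum_eq_zero fun a ha => (hterm a ha).2 h
  have hbdy : cd e ∈ Bdy P q := by
    cases q with
    | zero =>
      have h0 : e = 0 := by
        funext G
        exact (heP G).2 (by omega)
      rw [h0, cd_zero]
      exact Submodule.zero_mem _
    | succ q =>
      refine ⟨e, fun G => ⟨(heP G).1, fun h => (heP G).2 (by omega)⟩, rfl⟩
  refine ⟨cd e, hbdy, A0.filter (fun a => ¬ ex a), ?_, fun a G => t G a, ?_, ?_⟩
  · intro a ha
    rw [Finset.mem_filter] at ha
    exact ⟨hA0W a ha.1, ha.2⟩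
  · intro a ha
    exact ⟨hcoc a, ht3 a⟩
  · intro G
    have hcde : cd e G = ∑ a ∈ A0.filter ex, cd (s a) G • m a := by
      rw [he, cd_sum, Finset.sum_apply]
      refine Finset.sum_congr rfl fun a _ => ?_
      rw [cd_smul_fixed]
    have hlc : Finsupp.linearCombination k m (t G) = ∑ a ∈ A0, t G a • m a := by
      rw [Finsupp.linearCombination_apply, Finsupp.sum]
      refine Finset.sum_subset ?_ ?_
      · intro a ha
        rw [hA0, Finset.mem_biUnion]
        exact ⟨G, Finset.mem_univ _, ha⟩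
      · intro a _ ha
        rw [Finsupp.notMem_support_iff] at ha
        rw [ha, zero_smul]
    have hsum : ∑ a ∈ A0, t G a • m a = ∑ a ∈ A0.filter ex, t G a • m a +
        ∑ a ∈ A0.filter (fun a => ¬ ex a), t G a • m a :=
      (Finset.sum_filter_add_sum_filter_not A0 ex _).symm
    have hkey : c G - cd e G - ∑ a ∈ A0.filter (fun a => ¬ ex a), t G a • m a =
        (c G - Finsupp.linearCombination k m (t G)) +
          ∑ a ∈ A0.filter ex, (t G a - cd (s a) G) • m a := by
      rw [hlc, hsum, hcde]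
      simp only [sub_smul, Finset.sum_sub_distrib]
      abel
    rw [hkey]
    refine (P' G).add_mem (ht2 G) ((P' G).sum_mem fun a ha => ?_)
    rw [Finset.mem_filter] at ha
    have haW := hA0W a ha.1
    obtain ⟨h1, h2⟩ := hs a haW ha.2
    by_cases hq : G.card = q
    · by_cases hS : Std G a
      · rw [h2 G hS hq, sub_self, zero_smul]
        exact (P' G).zero_mem
      · by_cases hA : Adm G a
        · exact (P' G).smul_mem _ (w.nonstd a haW G hA hS)
        · have h3 : t G a = 0 := by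
            by_contra h
            exact hS (hcoc a G h).1
          have h4 : cd (s a) G = 0 := by
            rw [cd_apply]
            refine Finset.sum_eq_zero fun g hg => ?_
            by_cases h5 : s a (G.erase g) = 0
            · rw [h5, smul_zero]
            · exact absurd (w.adm_mono _ _ _ (Finset.erase_subset g G)
                (w.std_adm _ _ (h1 _ h5).1)) hA
          rw [h3, h4, sub_zero, zero_smul]
          exact (P' G).zero_mem
    · have h3 : t G a = 0 := by
        by_contra h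
        exact hq (hcoc a G h).2
      have h4 : cd (s a) G = 0 := by
        rw [cd_apply]
        refine Finset.sum_eq_zero fun g hg => ?_
        by_cases h5 : s a (G.erase g) = 0
        · rw [h5, smul_zero]
        · have h6 := (h1 _ h5).2
          rw [Finset.card_erase_of_mem hg] at h6
          have : 0 < G.card := Finset.card_pos.mpr ⟨g, hg⟩
          omega
      rw [h3, h4, sub_zero, zero_smul]
      exact (P' G).zero_mem

end Pool.Agent.MP8049
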