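import Mathlib
import Pool.Agent.Lib.MP_8049df_ag.Mon

set_option autoImplicit false

/-! Acyclicity of the deep part of the filtered Cech complex. -/

namespace Pool.Agent.MP8049

variable {ι : Type*} [Fintype ι] [LinearOrder ι]
variable {L : Type*} [Field L] (k : Type*) [Field k] [Algebra k L]

/-- `b` is a nonstandard exponent. -/
def NS (x : ι → L) (v : ι → ℝ) (b : ι → ℤ) : Prop :=
  mon x b ∈ Sp k x (Nn ∩ Dj (dg b) ∩ Wgt v (wt v b))

/-- The toggling property with bound `ρ`. -/
def Tog (x : ι → L) (v : ι → ℝ) (ρ : ℤ) : Prop :=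
  ∀ b ∈ (Nn : Set (ι → ℤ)), ∀ i, ρ ≤ b i → NS k x v (b + Pi.single i 1) → NS k x v b

variable {k}

lemma NS_add {x : ι → L} (hx : ∀ i, x i ≠ 0) {v : ι → ℝ} {b c : ι → ℤ} (hb : NS k x v b)
    (hc : c ∈ (Nn : Set (ι → ℤ))) : NS k x v (b + c) := by
  unfold NS at hb ⊢
  rw [mon_add hx]
  refine Sp_mul_mon hx ?_ hb
  rintro a ⟨⟨h1, h2⟩, h3⟩
  refine ⟨⟨fun i => add_nonneg (h1 i) (hc i), ?_⟩, ?_⟩
  · simp only [Dj, Set.mem_ofPred_eq] at *
    rw [dg_add, dg_add, h2]
  · simp only [Wgt, Set.mem_ofPred_eq] at *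
    rw [wt_add, wt_add]
    linarith

lemma tog_iterate {x : ι → L} {v : ι → ℝ} {ρ : ℤ} (ht : Tog k x v ρ) (b : ι → ℤ)
    (hb : b ∈ (Nn : Set (ι → ℤ))) (i : ι) (hi : ρ ≤ b i) (N : ℕ) :
    NS k x v (b + Pi.single i (N : ℤ)) → NS k x v b := by
  induction N with
  | zero => intro h; simpa using h
  | succ N ih =>
    intro h
    apply ih
    apply ht _ _ i
    · rw [Pi.add_apply, Pi.single_eq_same]
      have : (0 : ℤ) ≤ N := Int.natCast_nonneg N
      linarith
    · have h1 : b + Pi.single i (N : ℤ) + Pi.single i 1 = b + Pi.single i ((N + 1 : ℕ) : ℤ) := by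
        rw [add_assoc, ← Pi.single_add]
        push_cast
        rfl
      rw [h1]
      exact h
    · intro l
      rw [Pi.add_apply]
      refine add_nonneg (hb l) ?_
      by_cases hl : l = i
      · subst hl; rw [Pi.single_eq_same]; exact Int.natCast_nonneg N
      · rw [Pi.single_eq_of_ne hl]

/-- Dickson's lemma gives the toggling property. -/
lemma exists_tog {x : ι → L} (hx : ∀ i, x i ≠ 0) (v : ι → ℝ) :
    ∃ ρ : ℤ, 1 ≤ ρ ∧ Tog k x v ρ := by
  classical
  let P : (ι →₀ ℕ) → Prop := fun b => NS k x v (fun i => (b i : ℤ))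
  have hfin : {b | Minimal P b}.Finite :=
    WellQuasiOrderedLE.finite_of_isAntichain (setOfPred_minimal_antichain P)
  obtain ⟨ρ, hρ⟩ : ∃ ρ : ℕ, ∀ b ∈ {b | Minimal P b}, ∀ i, b i ≤ ρ := by
    refine ⟨hfin.toFinset.sup (fun b => Finset.univ.sup (fun i => b i)), fun b hb i => ?_⟩
    have h1 : b i ≤ Finset.univ.sup (fun i => b i) :=
      Finset.le_sup (f := fun i => b i) (Finset.mem_univ i)
    have h2 : Finset.univ.sup (fun i => b i) ≤
        hfin.toFinset.sup (fun b => Finset.univ.sup (fun i => b i)) :=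
      Finset.le_sup (f := fun b : ι →₀ ℕ => Finset.univ.sup (fun i => b i))
        (hfin.mem_toFinset.mpr hb)
    exact h1.trans h2
  refine ⟨ρ + 1, by omega, ?_⟩
  · intro b hb i hi hns
    have hb0 : 0 ≤ b i := hb i
    let b' : ι →₀ ℕ := Finsupp.equivFunOnFinite.symm (fun l => (b l).toNat)
    have hb' : ∀ l, ((b' l : ℕ) : ℤ) = b l := fun l => by
      simp only [b', Finsupp.equivFunOnFinite_symm_apply_apply]
      exact Int.toNat_of_nonneg (hb l)
    have h1 : P (b' + Finsupp.single i 1) := by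
      have h2 : (fun l => (((b' + Finsupp.single i 1 : ι →₀ ℕ) l : ℕ) : ℤ)) = b + Pi.single i 1 := by
        funext l
        rw [Finsupp.add_apply, Pi.add_apply, Nat.cast_add, hb']
        congr 1
        by_cases hl : l = i
        · subst hl; simp
        · rw [Pi.single_eq_of_ne hl, Finsupp.single_eq_of_ne hl]; simp
      show NS k x v _
      rw [h2]
      exact hns
    obtain ⟨m, hmle, hmin⟩ := exists_minimal_le_of_wellFoundedLT P _ h1
    have hm1 : m i ≤ ρ := hρ m hmin i
    have hm2 : ∀ l, (m l : ℤ) ≤ b l := by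
      intro l
      by_cases hl : l = i
      · subst hl
        have : (m l : ℤ) ≤ ρ := by exact_mod_cast hm1
        linarith
      · have h3 := hmle l
        rw [Finsupp.add_apply, Finsupp.single_eq_of_ne hl, add_zero] at h3
        rw [← hb']
        exact_mod_cast h3
    have h4 : NS k x v (fun l => (m l : ℤ)) := hmin.1
    have h5 : b = (fun l => (m l : ℤ)) + (fun l => b l - m l) := by
      funext l
      simp
    rw [h5]
    exact NS_add hx h4 (fun l => sub_nonneg.mpr (hm2 l))

/-- exponents of level `N` -/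
def EN (N : ℕ) (G : Finset ι) : Set (ι → ℤ) :=
  {a | (∀ i ∈ G, -(N : ℤ) ≤ a i) ∧ ∀ i, i ∉ G → 0 ≤ a i}

/-- the exponent of `x_G^N` -/
def ind (N : ℕ) (G : Finset ι) : ι → ℤ := fun i => if i ∈ G then (N : ℤ) else 0

lemma EN_iff {N : ℕ} {G : Finset ι} {a : ι → ℤ} :
    a ∈ (EN N G : Set (ι → ℤ)) ↔ a + ind N G ∈ (Nn : Set (ι → ℤ)) := by
  constructor
  · rintro ⟨h1, h2⟩ i
    by_cases hi : i ∈ G
    · simp only [Pi.add_apply, ind, hi, if_true]
      have := h1 i hi
      linarith
    · simp only [Pi.add_apply, ind, hi, if_false, add_zero]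
      exact h2 i hi
  · intro h
    refine ⟨fun i hi => ?_, fun i hi => ?_⟩
    · have := h i
      simp only [Pi.add_apply, ind, hi, if_true] at this
      linarith
    · have := h i
      simpa only [Pi.add_apply, ind, hi, if_false, add_zero] using this

lemma ind_insert {N : ℕ} {G : Finset ι} {i : ι} (hi : i ∉ G) :
    (ind N (insert i G) : ι → ℤ) = ind N G + Pi.single i (N : ℤ) := by
  funext l
  by_cases hl : l = i
  · subst hl
    simp [ind, hi]
  · simp [ind, hl]

lemma EN_mono {N : ℕ} {G H : Finset ι} (h : G ⊆ H) : (EN N G : Set (ι → ℤ)) ⊆ EN N H := by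
  rintro a ⟨h1, h2⟩
  refine ⟨fun i _ => ?_, fun i hi => h2 i (fun hG => hi (h hG))⟩
  by_cases hi : i ∈ G
  · exact h1 i hi
  · have := h2 i hi
    have h0 : (0 : ℤ) ≤ N := Int.natCast_nonneg N
    linarith

lemma EN_subset_EG {N : ℕ} {G : Finset ι} : (EN N G : Set (ι → ℤ)) ⊆ EG G := fun _ h => h.2

lemma EN_level {N M : ℕ} (h : N ≤ M) {G : Finset ι} : (EN N G : Set (ι → ℤ)) ⊆ EN M G := by
  rintro a ⟨h1, h2⟩
  refine ⟨fun i hi => ?_, h2⟩
  have := h1 i hi
  have h0 : (N : ℤ) ≤ M := by exact_mod_cast h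
  linarith

/-- Every element of the span of exponents in `EG G ∩ S` is of some finite level. -/
lemma exists_level {x : ι → L} {G : Finset ι} {S : Set (ι → ℤ)} {f : L}
    (hf : f ∈ Sp k x (EG G ∩ S)) : ∃ N : ℕ, ∀ M, N ≤ M → f ∈ Sp k x (EN M G ∩ S) := by
  obtain ⟨t, ht, rfl⟩ := mem_Sp.mp hf
  refine ⟨t.support.sup (fun a => Finset.univ.sup (fun i => (a i).natAbs)), fun M hM => ?_⟩
  refine lc_mem_Sp fun a ha => ⟨⟨fun i _ => ?_, (ht ha).1⟩, (ht ha).2⟩
  have h1 : (a i).natAbs ≤ Finset.univ.sup (fun i => (a i).natAbs) :=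
    Finset.le_sup (f := fun i => (a i).natAbs) (Finset.mem_univ i)
  have h2 : Finset.univ.sup (fun i => (a i).natAbs) ≤
      t.support.sup (fun a => Finset.univ.sup (fun i => (a i).natAbs)) :=
    Finset.le_sup (f := fun a : ι → ℤ => Finset.univ.sup (fun i => (a i).natAbs)) ha
  have h3 : (a i).natAbs ≤ M := (h1.trans h2).trans hM
  omega

variable (k) in
/-- Level `N` complexes with weights in the set `U`. -/
def PN (x : ι → L) (v : ι → ℝ) (N : ℕ) (j : ℤ) (U : Set ℝ) (G : Finset ι) : Submodule k L :=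
  Sp k x (EN N G ∩ Dj j ∩ {a | wt v a ∈ U})

lemma PN_FMono (x : ι → L) (v : ι → ℝ) (N : ℕ) (j : ℤ) (U : Set ℝ) :
    FMono (PN k x v N j U) := fun _ _ h =>
  Sp_mono (Set.inter_subset_inter_left _ (Set.inter_subset_inter_left _ (EN_mono h)))

/-- All exponents of level `N` in degree `j`. -/
lemma box_finite (N : ℕ) (j : ℤ) : {a : ι → ℤ | dg a = j ∧ ∀ i, -(N : ℤ) ≤ a i}.Finite := by
  refine Set.Finite.subset (Set.finite_Icc (fun _ : ι => -(N : ℤ))
    (fun _ => j + Fintype.card ι * N)) ?_
  rintro a ⟨h1, h2⟩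
  refine ⟨fun i => h2 i, fun i => ?_⟩
  have h3 : a i = j - ∑ l ∈ Finset.univ.erase i, a l := by
    have := Finset.add_sum_erase Finset.univ a (Finset.mem_univ i)
    unfold dg at h1
    linarith
  have h4 : ∑ l ∈ Finset.univ.erase i, (-(N : ℤ)) ≤ ∑ l ∈ Finset.univ.erase i, a l :=
    Finset.sum_le_sum fun l _ => h2 l
  rw [Finset.sum_const, nsmul_eq_mul] at h4
  have h5 : ((Finset.univ.erase i).card : ℤ) ≤ Fintype.card ι := by
    have := Finset.card_le_card (Finset.erase_subset i (Finset.univ : Finset ι))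
    rw [Finset.card_univ] at this
    exact_mod_cast this
  have h0 : (0 : ℤ) ≤ N := Int.natCast_nonneg N
  show a i ≤ j + Fintype.card ι * N
  rw [h3]
  nlinarith

lemma acyc_level {x : ι → L} (hx : ∀ i, x i ≠ 0) {v : ι → ℝ}
    (hinj : ∀ a : ι → ℤ, wt v a = 0 → a = 0) {ρ : ℤ} (hρ : 0 ≤ ρ) (htog : Tog k x v ρ)
    (N : ℕ) (j : ℤ) (q : ℕ) (n : ℕ) :
    ∀ U : Set ℝ, (∀ r ∈ U, ∀ r', r ≤ r' → r' ∈ U) →
      (∀ a : ι → ℤ, dg a = j → wt v a ∈ U → ∃ i, ρ ≤ a i) →
      {a : ι → ℤ | (dg a = j ∧ ∀ i, -(N : ℤ) ≤ a i) ∧ wt v a ∈ U}.ncard ≤ n →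
      Ex (PN k x v N j U) q := by
  have hfin : ∀ U : Set ℝ, {a : ι → ℤ | (dg a = j ∧ ∀ i, -(N : ℤ) ≤ a i) ∧ wt v a ∈ U}.Finite :=
    fun U => (box_finite N j).subset fun a ha => ha.1
  have hbox : ∀ (G : Finset ι) (a : ι → ℤ), a ∈ (EN N G : Set (ι → ℤ)) → ∀ i, -(N : ℤ) ≤ a i := by
    intro G a ha i
    by_cases hi : i ∈ G
    · exact ha.1 i hi
    · have := ha.2 i hi
      have h0 : (0 : ℤ) ≤ N := Int.natCast_nonneg N
      linarith
  induction n with
  | zero =>
    intro U _ _ hcard c hc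
    have hemp : {a : ι → ℤ | (dg a = j ∧ ∀ i, -(N : ℤ) ≤ a i) ∧ wt v a ∈ U} = ∅ := by
      rw [← Set.ncard_eq_zero (hfin U)]
      omega
    have hbot : ∀ G, PN k x v N j U G = ⊥ := by
      intro G
      rw [eq_bot_iff]
      refine Sp_le fun a ha => ?_
      have : a ∈ {a : ι → ℤ | (dg a = j ∧ ∀ i, -(N : ℤ) ≤ a i) ∧ wt v a ∈ U} :=
        ⟨⟨ha.1.2, hbox G a ha.1.1⟩, ha.2⟩
      rw [hemp] at this
      exact absurd this (Set.notMem_empty _)
    have h0 : c = 0 := by
      funext G
      have := (hc.1 G).1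
      rw [hbot] at this
      simpa using this
    rw [h0]
    exact Submodule.zero_mem _
  | succ n ih =>
    intro U hU hρU hcard c hc
    by_cases hne : {a : ι → ℤ | (dg a = j ∧ ∀ i, -(N : ℤ) ≤ a i) ∧ wt v a ∈ U} = ∅
    · refine ih U hU hρU ?_ hc
      rw [hne]
      simp
    · obtain ⟨a₀, ha₀, hmin⟩ : ∃ a₀ ∈ {a : ι → ℤ | (dg a = j ∧ ∀ i, -(N : ℤ) ≤ a i) ∧ wt v a ∈ U},
          ∀ a ∈ {a : ι → ℤ | (dg a = j ∧ ∀ i, -(N : ℤ) ≤ a i) ∧ wt v a ∈ U},
            wt v a₀ ≤ wt v a :=
        Set.exists_min_image _ (wt v) (hfin U) (Set.nonempty_iff_ne_empty.mpr hne)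
      set U' : Set ℝ := {r | r ∈ U ∧ wt v a₀ < r} with hU'
      have hU'up : ∀ r ∈ U', ∀ r', r ≤ r' → r' ∈ U' := fun r hr r' hrr' =>
        ⟨hU r hr.1 r' hrr', lt_of_lt_of_le hr.2 hrr'⟩
      have hinj' : ∀ a b : ι → ℤ, wt v a = wt v b → a = b := by
        intro a b hab
        have : a - b = 0 := hinj _ (by rw [wt_sub, hab, sub_self])
        exact sub_eq_zero.mp this
      obtain ⟨i₀, hi₀⟩ := hρU a₀ ha₀.1.1 ha₀.2
      -- the window structure
      have hwin : Win (PN k x v N j U) (PN k x v N j U') (mon x) ({a₀} : Set (ι → ℤ))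
          (fun G a => a ∈ (EN N G : Set (ι → ℤ)))
          (fun G a => a ∈ (EN N G : Set (ι → ℤ)) ∧ ¬ NS k x v (a + ind N G)) := by
        refine ⟨?_, PN_FMono x v N j U', ?_, ?_, ?_, ?_, ?_, ?_⟩
        · intro G
          exact Sp_mono fun a ha => ⟨ha.1, ha.2.1⟩
        · intro G a h
          exact h.1
        · intro G H a hGH h
          exact EN_mono hGH h
        · intro a ha G hG
          rw [Set.mem_singleton_iff] at ha
          subst ha
          exact mon_mem_Sp ⟨⟨hG, ha₀.1.1⟩, ha₀.2⟩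
        · intro a ha G hG hns
          rw [Set.mem_singleton_iff] at ha
          subst ha
          have h1 : NS k x v (a + ind N G) := by
            by_contra h
            exact hns ⟨hG, h⟩
          unfold NS at h1
          have h2 : mon x a = mon x (a + ind N G) * mon x (-(ind N G)) := by
            rw [← mon_add hx]
            congr 1
            abel
          rw [h2]
          refine Sp_mul_mon hx ?_ h1
          rintro b ⟨⟨hb1, hb2⟩, hb3⟩
          simp only [Dj, Wgt, Set.mem_ofPred_eq, dg_add, wt_add] at hb2 hb3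
          have h3 : wt v a < wt v (b + -(ind N G)) := by
            rw [wt_add, wt_neg]
            linarith
          refine ⟨⟨?_, ?_⟩, ?_⟩
          · rw [EN_iff]
            simpa using hb1
          · simp only [Dj, Set.mem_ofPred_eq, dg_add, dg_neg]
            have := ha₀.1.1
            linarith
          · exact ⟨hU _ ha₀.2 _ h3.le, h3⟩
        · intro G f hf
          have hsub : (EN N G ∩ Dj j ∩ {a | wt v a ∈ U} : Set (ι → ℤ)) ⊆
              ({a | a = a₀ ∧ a ∈ (EN N G : Set (ι → ℤ))} : Set (ι → ℤ)) ∪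
                (EN N G ∩ Dj j ∩ {a | wt v a ∈ U'}) := by
            rintro a ⟨⟨h1, h2⟩, h3⟩
            have h4 : wt v a₀ ≤ wt v a := hmin a ⟨⟨h2, hbox G a h1⟩, h3⟩
            rcases h4.lt_or_eq with h5 | h5
            · exact Or.inr ⟨⟨h1, h2⟩, ⟨h3, h5⟩⟩
            · exact Or.inl ⟨(hinj' _ _ h5).symm, h1⟩
          obtain ⟨g, hg, h, hh, rfl⟩ := Sp_union hsub hf
          by_cases hG : a₀ ∈ (EN N G : Set (ι → ℤ))
          · have hg' : ∃ c : k, g = c • mon x a₀ := by
              have h6 : Sp k x {a | a = a₀ ∧ a ∈ (EN N G : Set (ι → ℤ))} ≤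
                  Submodule.span k {mon x a₀} := by
                refine Sp_le fun a ha => ?_
                rw [ha.1]
                exact Submodule.mem_span_singleton_self _
              obtain ⟨c, hc⟩ := Submodule.mem_span_singleton.mp (h6 hg)
              exact ⟨c, hc.symm⟩
            obtain ⟨c, rfl⟩ := hg'
            by_cases hS : NS k x v (a₀ + ind N G)
            · refine ⟨0, by simp, ?_⟩
              rw [map_zero, sub_zero]
              refine Submodule.add_mem _ (Submodule.smul_mem _ _ ?_) hh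
              -- as in `nonstd`
              unfold NS at hS
              have h2 : mon x a₀ = mon x (a₀ + ind N G) * mon x (-(ind N G)) := by
                rw [← mon_add hx]
                congr 1
                abel
              rw [h2]
              refine Sp_mul_mon hx ?_ hS
              rintro b ⟨⟨hb1, hb2⟩, hb3⟩
              simp only [Dj, Wgt, Set.mem_ofPred_eq, dg_add, wt_add] at hb2 hb3
              have h3 : wt v a₀ < wt v (b + -(ind N G)) := by
                rw [wt_add, wt_neg]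
                linarith
              refine ⟨⟨?_, ?_⟩, ?_⟩
              · rw [EN_iff]
                simpa using hb1
              · simp only [Dj, Set.mem_ofPred_eq, dg_add, dg_neg]
                have := ha₀.1.1
                linarith
              · exact ⟨hU _ ha₀.2 _ h3.le, h3⟩
            · refine ⟨Finsupp.single a₀ c, ?_, ?_⟩
              · intro a ha
                have := Finsupp.support_single_subset ha
                rw [Finset.mem_singleton] at this
                subst this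
                exact ⟨rfl, hG, hS⟩
              · rw [Finsupp.linearCombination_single, add_sub_cancel_left]
                exact hh
          · refine ⟨0, by simp, ?_⟩
            have h6 : g = 0 := by
              have h7 : ({a | a = a₀ ∧ a ∈ (EN N G : Set (ι → ℤ))} : Set (ι → ℤ)) = ∅ := by
                ext a
                simp only [Set.mem_ofPred_eq, Set.mem_empty_iff_false, iff_false, not_and]
                rintro rfl
                exact hG
              rw [h7] at hg
              simpa [Sp] using hg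
            rw [h6, zero_add, map_zero, sub_zero]
            exact hh
        · intro G t ht1 ht2
          by_contra hne0
          have hsupp : t = Finsupp.single a₀ (t a₀) := by
            ext a
            by_cases haa : a = a₀
            · subst haa; simp
            · rw [Finsupp.single_eq_of_ne haa]
              by_contra h
              exact haa (ht1 a (Finsupp.mem_support_iff.mpr h)).1
          have ht0 : t a₀ ≠ 0 := by
            intro h
            apply hne0
            rw [hsupp, h, Finsupp.single_zero]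
          obtain ⟨_, hstd1, hstd2⟩ := ht1 a₀ (Finsupp.mem_support_iff.mpr ht0)
          rw [hsupp, Finsupp.linearCombination_single] at ht2
          have h6 : mon x a₀ ∈ PN k x v N j U' G := by
            have := (PN k x v N j U' G).smul_mem (t a₀)⁻¹ ht2
            rwa [smul_smul, inv_mul_cancel₀ ht0, one_smul] at this
          apply hstd2
          unfold NS
          rw [mon_add hx]
          refine Sp_mul_mon hx ?_ h6
          rintro b ⟨⟨hb1, hb2⟩, hb3⟩
          refine ⟨⟨EN_iff.mp hb1, ?_⟩, ?_⟩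
          · simp only [Dj, Set.mem_ofPred_eq, dg_add] at *
            rw [hb2, ha₀.1.1]
          · simp only [Wgt, Set.mem_ofPred_eq, wt_add]
            have := hb3.2
            linarith
      obtain ⟨b, hb, A, hA, z, _, hfinal⟩ := hwin.main hc.1 (by
        intro G _
        have h0 : cd c = 0 := hc.2
        have h1 : cd c G = 0 := by rw [h0]; rfl
        rw [h1]
        exact Submodule.zero_mem _) (fun _ => True) (by
        intro a ha _
        rw [Set.mem_singleton_iff] at ha
        subst ha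
        refine grEx_of_toggle k _ i₀ ?_ ?_ q
        · rintro G hi ⟨h1, h2⟩
          refine ⟨EN_mono (Finset.subset_insert _ _) h1, fun h3 => h2 ?_⟩
          rw [ind_insert hi, ← add_assoc] at h3
          refine tog_iterate htog _ (EN_iff.mp h1) i₀ ?_ N h3
          simp only [Pi.add_apply, ind, hi, if_false, add_zero]
          exact hi₀
        · rintro G hi ⟨h1, h2⟩
          have h4 : a ∈ (EN N G : Set (ι → ℤ)) := by
            refine ⟨fun l hl => h1.1 l (Finset.mem_insert_of_mem hl), fun l hl => ?_⟩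
            by_cases hli : l = i₀
            · subst hli
              linarith
            · exact h1.2 l (by simp [hli, hl])
          refine ⟨h4, fun h3 => h2 ?_⟩
          rw [ind_insert hi, ← add_assoc]
          refine NS_add hx h3 ?_
          intro l
          by_cases hl : l = i₀
          · subst hl; rw [Pi.single_eq_same]; exact Int.natCast_nonneg N
          · rw [Pi.single_eq_of_ne hl])
      have hAe : A = ∅ := by
        rw [Finset.eq_empty_iff_forall_notMem]
        intro a ha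
        exact (hA a ha).2 trivial
      subst hAe
      simp only [Finset.sum_empty, sub_zero] at hfinal
      have hbC := Bdy_le_Cyc (PN_FMono (k := k) x v N j U) q hb
      have hc' : c - b ∈ Cyc (PN k x v N j U') q := by
        refine ⟨fun G => ⟨hfinal G, fun hG => ?_⟩, ?_⟩
        · rw [Pi.sub_apply, (hc.1 G).2 hG, (hbC.1 G).2 hG, sub_zero]
        · show cd (c - b) = 0
          have h1 : cd c = 0 := hc.2
          have h2 : cd b = 0 := hbC.2
          rw [cd_sub, h1, h2, sub_zero]
      have h8 : Ex (PN k x v N j U') q := by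
        refine ih U' hU'up (fun a h1 h2 => hρU a h1 h2.1) ?_
        have h9 : {a : ι → ℤ | (dg a = j ∧ ∀ i, -(N : ℤ) ≤ a i) ∧ wt v a ∈ U'} ⊂
            {a : ι → ℤ | (dg a = j ∧ ∀ i, -(N : ℤ) ≤ a i) ∧ wt v a ∈ U} := by
          refine ⟨fun a ha => ⟨ha.1, ha.2.1⟩, fun h => ?_⟩
          exact absurd (h ha₀).2.2 (lt_irrefl _)
        have h10 := Set.ncard_lt_ncard h9 (hfin U)
        omega
      have h11 : c - b ∈ Bdy (PN k x v N j U) q :=
        Bdy_mono (fun G => hwin.le G) q (h8 hc')
      have h12 := Submodule.add_mem _ h11 hb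
      rwa [sub_add_cancel] at h12

/-- Acyclicity of the full filtered complexes. -/
theorem acyc {x : ι → L} (hx : ∀ i, x i ≠ 0) {v : ι → ℝ}
    (hinj : ∀ a : ι → ℤ, wt v a = 0 → a = 0) {ρ : ℤ} (hρ : 0 ≤ ρ) (htog : Tog k x v ρ)
    (j : ℤ) (q : ℕ) (U : Set ℝ) (hU : ∀ r ∈ U, ∀ r', r ≤ r' → r' ∈ U)
    (h : ∀ a : ι → ℤ, dg a = j → wt v a ∈ U → ∃ i, ρ ≤ a i) :
    Ex (fun G => Sp k x (EG G ∩ (Dj j ∩ {a | wt v a ∈ U}))) q := by
  intro c hc
  have h1 : ∀ G, ∃ N : ℕ, ∀ M, N ≤ M → c G ∈ Sp k x (EN M G ∩ (Dj j ∩ {a | wt v a ∈ U})) :=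
    fun G => exists_level (hc.1 G).1
  choose N hN using h1
  set M := Finset.univ.sup N with hM
  have h2 : c ∈ Cyc (PN k x v M j U) q := by
    refine ⟨fun G => ⟨?_, (hc.1 G).2⟩, hc.2⟩
    have := hN G M (Finset.le_sup (Finset.mem_univ G))
    unfold PN
    rwa [Set.inter_assoc]
  have h3 := acyc_level hx hinj hρ htog M j q _ U hU h (le_refl _) h2
  refine Bdy_mono (fun G => ?_) q h3
  unfold PN
  rw [Set.inter_assoc]
  exact Sp_mono (Set.inter_subset_inter_left _ EN_subset_EG)

theorem acyc_RF {x : ι → L} (hx : ∀ i, x i ≠ 0) {v : ι → ℝ}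
    (hinj : ∀ a : ι → ℤ, wt v a = 0 → a = 0) {ρ : ℤ} (hρ : 0 ≤ ρ) (htog : Tog k x v ρ)
    (j : ℤ) (q : ℕ) (ν : ℝ) (h : ∀ a : ι → ℤ, dg a = j → ν ≤ wt v a → ∃ i, ρ ≤ a i) :
    Ex (RF k x v j ν) q := by
  have h1 := acyc hx hinj hρ htog j q (Set.Ici ν) (fun r hr r' hrr' => le_trans hr hrr')
    (fun a h1 h2 => h a h1 h2)
  have h2 : (fun G => Sp k x (EG G ∩ (Dj j ∩ {a | wt v a ∈ Set.Ici ν}))) = RF k x v j ν := by
    funext G
    unfold RF
    rw [Set.inter_assoc]
    rfl
  rwa [h2] at h1

theorem acyc_RG {x : ι → L} (hx : ∀ i, x i ≠ 0) {v : ι → ℝ}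
    (hinj : ∀ a : ι → ℤ, wt v a = 0 → a = 0) {ρ : ℤ} (hρ : 0 ≤ ρ) (htog : Tog k x v ρ)
    (j : ℤ) (q : ℕ) (h : ∀ a : ι → ℤ, dg a = j → ∃ i, ρ ≤ a i) :
    Ex (RG k x j) q := by
  have h1 := acyc hx hinj hρ htog j q Set.univ (fun r _ r' _ => Set.mem_univ _)
    (fun a h1 _ => h a h1)
  have h2 : (fun G => Sp k x (EG G ∩ (Dj j ∩ {a | wt v a ∈ (Set.univ : Set ℝ)}))) =
      RG k x j := by
    funext G
    unfold RG
    congr 1
    ext a
    simp
  rwa [h2] at h1

end Pool.Agent.MP8049
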