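import Mathlib
import Pool.Agent.Lib.MP_8049df_ag.Mon

set_option autoImplicit false

/-! Truncated Hasse-Schmidt maps on a field and the notion of Hasse-Schmidt simplicity. -/

namespace Pool.Agent.MP8049

/-- A truncated Hasse-Schmidt map of order `M` on the field `L`. -/
structure HSm (L : Type*) [Field L] (M : ℕ) where
  D : ℕ → L → L
  add : ∀ t f g, D t (f + g) = D t f + D t g
  D0 : ∀ f, D 0 f = f
  leib : ∀ t, t < M → ∀ f g, D t (f * g) = ∑ p ∈ Finset.HasAntidiagonal.antidiagonal t, D p.1 f * D p.2 g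

/-- `D` preserves the set `R`. -/
def HSm.Pres {L : Type*} [Field L] {M : ℕ} (D : HSm L M) (R : Set L) : Prop :=
  ∀ t, t < M → ∀ f ∈ R, D.D t f ∈ R

variable {ι : Type*} [Fintype ι]

/-- `R` (a subring of `L` containing the `x i`, given as a set) is Hasse-Schmidt simple away from
the ideal generated by the `x i`: every nonzero ideal that is stable under all
truncated Hasse-Schmidt maps preserving `R` contains a power of every `x i`. -/
def HSSimple {L : Type*} [Field L] (R : Set L) (x : ι → L) : Prop :=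
  ∀ J : Set L, J ⊆ R → (∀ f ∈ J, ∀ g ∈ J, f + g ∈ J) → (∀ r ∈ R, ∀ f ∈ J, r * f ∈ J) →
    (∃ f ∈ J, f ≠ 0) →
    (∀ (M : ℕ) (D : HSm L M), D.Pres R → ∀ t, t < M → ∀ f ∈ J, D.D t f ∈ J) →
    ∀ i, ∃ N : ℕ, x i ^ N ∈ J

/-- Smoothness of the chart `x i ≠ 0`: up to inverting elements of the base field `k`, the
localization of `k[x]` at `x i` is a smooth `K₀`-algebra. -/
def SmAt (K₀ k : Type*) {L : Type*} [Field K₀] [Field k] [Field L] [Algebra K₀ k] [Algebra K₀ L]
    [Algebra k L] (x : ι → L) (i : ι) : Prop :=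
  ∃ B : Subalgebra K₀ L, Algebra.Smooth K₀ B ∧ (∀ l, x l ∈ B) ∧ (x i)⁻¹ ∈ B ∧
    (∀ b ∈ B, b ∈ TG k x {i}) ∧
    (∀ f ∈ TG k x {i}, ∃ w : k, w ≠ 0 ∧ algebraMap k L w ∈ B ∧ algebraMap k L w * f ∈ B) ∧
    ∃ U : Set k, U.Finite ∧ (∀ u ∈ U, algebraMap k L u ∈ B) ∧ IntermediateField.adjoin K₀ U = ⊤

end Pool.Agent.MP8049
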