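import Mathlib
import Pool.Agent.Lib.MP_8049df_ag.Mon

set_option autoImplicit false

/-! Additive maps on cochains. -/

namespace Pool.Agent.MP8049

variable {ι : Type*} [LinearOrder ι] {k k' : Type*} [Field k] [Field k'] {M N : Type*}
  [AddCommGroup M] [AddCommGroup N] [Module k M] [Module k' N]
  {P : Finset ι → Submodule k M} {Q : Finset ι → Submodule k' N}

lemma Coch_map (φ : M →+ N) (hφ : ∀ G, ∀ u ∈ P G, φ u ∈ Q G) {q : ℕ} {c : Finset ι → M}
    (hc : c ∈ Coch P q) : (fun G => φ (c G)) ∈ Coch Q q :=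
  fun G => ⟨hφ G _ (hc G).1, fun h => by simp only [(hc G).2 h, map_zero]⟩

lemma Cyc_map (φ : M →+ N) (hφ : ∀ G, ∀ u ∈ P G, φ u ∈ Q G) {q : ℕ} {c : Finset ι → M}
    (hc : c ∈ Cyc P q) : (fun G => φ (c G)) ∈ Cyc Q q := by
  refine ⟨Coch_map φ hφ hc.1, ?_⟩
  show cd (fun G => φ (c G)) = 0
  rw [cd_map]
  have h0 : cd c = 0 := hc.2
  rw [h0]
  funext G
  simp

lemma Bdy_map (φ : M →+ N) (hφ : ∀ G, ∀ u ∈ P G, φ u ∈ Q G) {q : ℕ} {c : Finset ι → M}
    (hc : c ∈ Bdy P q) : (fun G => φ (c G)) ∈ Bdy Q q := by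
  cases q with
  | zero =>
    rw [mem_Bdy_zero] at hc ⊢
    subst hc
    funext G
    simp
  | succ q =>
    obtain ⟨b, hb, rfl⟩ := hc
    exact ⟨fun G => φ (b G), Coch_map φ hφ hb, by
      show cd (fun G => φ (b G)) = fun G => φ (cd b G)
      rw [cd_map]⟩

end Pool.Agent.MP8049
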