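import Mathlib
import Pool.Agent.Lib.MP_8049df_ag.HSDef
import Pool.Agent.Lib.MP_8049df_ag.Maps
import Pool.Agent.Lib.MP_8049df_ag.Acyc

set_option autoImplicit false

/-! Action of Hasse-Schmidt maps on localizations and on cohomology. Homogeneous versus total
cochains. -/

namespace Pool.Agent.MP8049

variable {ι : Type*} [Fintype ι] [LinearOrder ι]
variable {L : Type*} [Field L] {k : Type*} [Field k] [Algebra k L]

section HS

/-- The additive map underlying `D t`. -/
def HSm.hom {M : ℕ} (D : HSm L M) (t : ℕ) : L →+ L where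
  toFun := D.D t
  map_zero' := by
    have h := D.add t 0 0
    rw [add_zero] at h
    exact left_eq_add.mp h
  map_add' := D.add t

@[simp] lemma HSm.hom_apply {M : ℕ} (D : HSm L M) (t : ℕ) (f : L) : D.hom t f = D.D t f := rfl

/-- The Leibniz rule with the top term isolated. -/
lemma HSm.leib_top {M : ℕ} (D : HSm L M) {t : ℕ} (ht : t < M) (f g : L) :
    D.D t f * g = D.D t (f * g) - ∑ i ∈ Finset.range t, D.D i f * D.D (t - i) g := by
  rw [D.leib t ht, Finset.Nat.sum_antidiagonal_eq_sum_range_succ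
    (fun i j => D.D i f * D.D j g) t, Finset.sum_range_succ, Nat.sub_self, D.D0]
  ring

lemma TG_smul_mem {x : ι → L} (hx : ∀ i, x i ≠ 0) {G : Finset ι} {r f : L}
    (hr : r ∈ TG k x ∅) (hf : f ∈ TG k x G) : r * f ∈ TG k x G :=
  TG_mul hx (TG_FMono x _ _ (Finset.empty_subset G) hr) hf

/-- HS maps preserving the coordinate ring preserve all localizations. -/
lemma HSm.pres_TG {x : ι → L} (hx : ∀ i, x i ≠ 0) {M : ℕ} (D : HSm L M)
    (hD : D.Pres (TG k x ∅ : Set L)) (G : Finset ι) : D.Pres (TG k x G : Set L) := by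
  intro t
  induction t using Nat.strong_induction_on with
  | _ t ih =>
    intro ht f hf
    have hf' : f ∈ Sp k x (EG G ∩ Set.univ) := by rw [Set.inter_univ]; exact hf
    obtain ⟨N, hN⟩ := exists_level hf'
    have h1 := hN N (le_refl _)
    set m : L := mon x (ind N G) with hm
    have hmR : m ∈ TG k x ∅ := by
      refine mon_mem_Sp ?_
      rw [EG_empty]
      intro i
      simp only [ind]
      split_ifs
      · exact Int.natCast_nonneg N
      · exact le_refl _
    have hminv : m⁻¹ ∈ TG k x G := by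
      rw [hm, ← mon_neg]
      refine mon_mem_Sp fun i hi => ?_
      simp [ind, hi]
    have hfm : f * m ∈ TG k x ∅ := by
      refine Sp_mul_mon hx ?_ h1
      rintro a ⟨ha, _⟩
      rw [EG_empty]
      exact EN_iff.mp ha
    have hmne : m ≠ 0 := mon_ne_zero hx _
    have h2 : D.D t f * m ∈ TG k x G := by
      rw [D.leib_top ht]
      refine Submodule.sub_mem _ (TG_FMono x _ _ (Finset.empty_subset G) (hD t ht _ hfm))
        (Submodule.sum_mem _ fun i hi => ?_)
      rw [Finset.mem_range] at hi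
      refine TG_mul hx (ih i hi (by omega) f hf) ?_
      exact TG_FMono x _ _ (Finset.empty_subset G) (hD (t - i) (by omega) _ hmR)
    have h3 : D.D t f = (D.D t f * m) * m⁻¹ := by
      rw [mul_assoc, mul_inv_cancel₀ hmne, mul_one]
    show D.D t f ∈ TG k x G
    rw [h3]
    exact TG_mul hx h2 hminv

/-- The annihilator of the total cohomology, as a set. -/
def AnnH (k : Type*) [Field k] [Algebra k L] (x : ι → L) (q : ℕ) : Set L :=
  {r | r ∈ TG k x ∅ ∧ ∀ ξ ∈ Cyc (TG k x) q, (fun G => r * ξ G) ∈ Bdy (TG k x) q}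

lemma mul_Bdy {x : ι → L} (hx : ∀ i, x i ≠ 0) {q : ℕ} {r : L} (hr : r ∈ TG k x ∅)
    {c : Finset ι → L} (hc : c ∈ Bdy (TG k x) q) : (fun G => r * c G) ∈ Bdy (TG k x) q :=
  Bdy_map (AddMonoidHom.mulLeft r) (fun _ _ hu => TG_smul_mem hx hr hu) hc

lemma mul_Cyc {x : ι → L} (hx : ∀ i, x i ≠ 0) {q : ℕ} {r : L} (hr : r ∈ TG k x ∅)
    {c : Finset ι → L} (hc : c ∈ Cyc (TG k x) q) : (fun G => r * c G) ∈ Cyc (TG k x) q :=
  Cyc_map (AddMonoidHom.mulLeft r) (fun _ _ hu => TG_smul_mem hx hr hu) hc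

lemma AnnH_stable {x : ι → L} (hx : ∀ i, x i ≠ 0) {q : ℕ} {M : ℕ} (D : HSm L M)
    (hD : D.Pres (TG k x ∅ : Set L)) : ∀ t, t < M → ∀ f ∈ AnnH k x q, D.D t f ∈ AnnH k x q := by
  intro t
  induction t using Nat.strong_induction_on with
  | _ t ih =>
    intro ht f hf
    refine ⟨hD t ht f hf.1, fun ξ hξ => ?_⟩
    have h1 : (fun G => D.D t f * ξ G) = (fun G => D.hom t (f * ξ G)) -
        ∑ i ∈ Finset.range t, (fun G => D.D i f * D.hom (t - i) (ξ G)) := by
      funext G
      simp only [Pi.sub_apply, Finset.sum_apply, HSm.hom_apply]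
      exact D.leib_top ht f (ξ G)
    rw [h1]
    refine Submodule.sub_mem _ ?_ (Submodule.sum_mem _ fun i hi => ?_)
    · exact Bdy_map (D.hom t) (fun G u hu => D.pres_TG hx hD G t ht u hu) (hf.2 ξ hξ)
    · rw [Finset.mem_range] at hi
      refine (ih i hi (by omega) f hf).2 _ ?_
      exact Cyc_map (D.hom (t - i)) (fun G u hu => D.pres_TG hx hD G (t - i) (by omega) u hu) hξ

lemma AnnH_pow {x : ι → L} (hx : ∀ i, x i ≠ 0) (hs : HSSimple (TG k x ∅ : Set L) x) {q : ℕ}
    (hne : ∃ f ∈ AnnH k x q, f ≠ 0) (i : ι) : ∃ N : ℕ, x i ^ N ∈ AnnH k x q := by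
  refine hs (AnnH k x q) (fun f hf => hf.1) ?_ ?_ hne (fun M D hD => AnnH_stable hx D hD) i
  · intro f hf g hg
    refine ⟨Submodule.add_mem _ hf.1 hg.1, fun ξ hξ => ?_⟩
    have h1 : (fun G => (f + g) * ξ G) = (fun G => f * ξ G) + (fun G => g * ξ G) := by
      funext G
      simp [add_mul]
    rw [h1]
    exact Submodule.add_mem _ (hf.2 ξ hξ) (hg.2 ξ hξ)
  · intro r hr f hf
    refine ⟨TG_mul hx hr hf.1, fun ξ hξ => ?_⟩
    have h1 : (fun G => r * f * ξ G) = (fun G => r * (fun G => f * ξ G) G) := by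
      funext G
      simp [mul_assoc]
    rw [h1]
    exact mul_Bdy hx hr (hf.2 ξ hξ)

end HS

section Total

lemma hc_RG {x : ι → L} (H : Homog k x) {j : ℤ} {G : Finset ι} {f : L} (hf : f ∈ TG k x G) :
    hc H j f ∈ RG k x j G := hc_mem H hf

/-- homogeneous total coboundaries are homogeneous coboundaries -/
lemma Bdy_total {x : ι → L} (H : Homog k x) {j : ℤ} {q : ℕ} {c : Finset ι → L}
    (hc1 : c ∈ Bdy (TG k x) q) (hc2 : c ∈ Coch (RG k x j) q) : c ∈ Bdy (RG k x j) q := by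
  have h1 : c = fun G => (hc H j).toAddMonoidHom (c G) := by
    funext G
    exact (hc_of_mem H (j := j) (Set.inter_subset_right) (hc2 G).1).symm
  rw [h1]
  exact Bdy_map (hc H j).toAddMonoidHom (fun G u hu => hc_RG H hu) hc1

/-- homogeneous components of a total cochain -/
lemma sum_hc_cochain {x : ι → L} (H : Homog k x) {q : ℕ} {c : Finset ι → L}
    (hc1 : c ∈ Coch (TG k x) q) :
    ∃ J : Finset ℤ, c = ∑ j ∈ J, (fun G => hc H j (c G)) := by
  have h1 : ∀ G, ∃ J : Finset ℤ, (∀ J', J ⊆ J' → c G = ∑ j ∈ J', hc H j (c G)) := fun G => by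
    obtain ⟨J, hJ, _⟩ := sum_hc H (hc1 G).1
    exact ⟨J, hJ⟩
  choose J hJ using h1
  classical
  refine ⟨Finset.univ.biUnion J, ?_⟩
  funext G
  rw [Finset.sum_apply]
  exact hJ G _ (Finset.subset_biUnion_of_mem J (Finset.mem_univ G))

/-- A total cocycle all of whose components are coboundaries is a coboundary. -/
lemma Bdy_of_components {x : ι → L} (H : Homog k x) {q : ℕ} {c : Finset ι → L}
    (hc1 : c ∈ Cyc (TG k x) q)
    (h : ∀ j, (fun G => hc H j (c G)) ∈ Bdy (RG k x j) q) : c ∈ Bdy (TG k x) q := by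
  obtain ⟨J, hJ⟩ := sum_hc_cochain H hc1.1
  rw [hJ]
  exact Submodule.sum_mem _ fun j _ => Bdy_mono (RG_le_TG x j) q (h j)

lemma hc_Cyc {x : ι → L} (H : Homog k x) {j : ℤ} {q : ℕ} {c : Finset ι → L}
    (hc1 : c ∈ Cyc (TG k x) q) : (fun G => hc H j (c G)) ∈ Cyc (RG k x j) q :=
  Cyc_map (hc H j).toAddMonoidHom (fun _ _ hu => hc_RG H hu) hc1

end Total

end Pool.Agent.MP8049
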