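import Mathlib
import Pool.Agent.Lib.MP_8049df_ag.HSAct

set_option autoImplicit false

/-! Algebraic independence of subfamilies expressed by linear independence of monomials;
nonfaces of size larger than the transcendence degree. -/

namespace Pool.Agent.MP8049

variable {ι : Type} [Fintype ι] [LinearOrder ι]
variable {L : Type} [Field L] {k : Type} [Field k] [Algebra k L]

/-- extension by zero of an exponent on `T` -/
def extT (T : Finset ι) (s : T →₀ ℕ) : ι → ℤ := fun i => if h : i ∈ T then (s ⟨i, h⟩ : ℤ) else 0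

lemma extT_inj (T : Finset ι) : Function.Injective (extT T) := by
  intro s s' h
  ext ⟨i, hi⟩
  have := congrFun h i
  simp only [extT, hi, dif_pos] at this
  exact_mod_cast this

lemma extT_Nn (T : Finset ι) (s : T →₀ ℕ) : extT T s ∈ (Nn : Set (ι → ℤ)) := by
  intro i
  simp only [extT]
  split_ifs
  · exact Int.natCast_nonneg _
  · exact le_refl _

lemma extT_out (T : Finset ι) (s : T →₀ ℕ) (i : ι) (hi : i ∉ T) : extT T s i = 0 := by
  simp [extT, hi]

lemma exists_extT (T : Finset ι) {a : ι → ℤ} (ha : a ∈ (Nn : Set (ι → ℤ)))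
    (h : ∀ i, i ∉ T → a i = 0) : ∃ s : T →₀ ℕ, extT T s = a := by
  refine ⟨Finsupp.equivFunOnFinite.symm (fun i => (a i).toNat), ?_⟩
  funext i
  by_cases hi : i ∈ T
  · simp only [extT, hi, dif_pos, Finsupp.equivFunOnFinite_symm_apply_apply]
    exact Int.toNat_of_nonneg (ha i)
  · rw [extT_out _ _ _ hi, h i hi]

lemma mon_extT (x : ι → L) (T : Finset ι) (s : T →₀ ℕ) :
    mon x (extT T s) = s.prod (fun i n => x i ^ n) := by
  rw [Finsupp.prod_fintype _ _ (fun i => pow_zero _)]
  unfold mon
  rw [← Finset.prod_subset (Finset.subset_univ T)]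
  · rw [← Finset.prod_coe_sort]
    refine Finset.prod_congr rfl fun i _ => ?_
    simp [extT]
  · intro i _ hi
    rw [extT_out _ _ _ hi, zpow_zero]

lemma algInd_iff (x : ι → L) (T : Finset ι) :
    AlgebraicIndependent k (fun i : T => x i) ↔
      ∀ t : (ι → ℤ) →₀ k, (∀ a ∈ t.support, a ∈ (Nn : Set (ι → ℤ)) ∧ ∀ i, i ∉ T → a i = 0) →
        lc k x t = 0 → t = 0 := by
  classical
  have haev : ∀ p : MvPolynomial T k, MvPolynomial.aeval (fun i : T => x i) p =
      ∑ s ∈ p.support, p.coeff s • mon x (extT T s) := by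
    intro p
    rw [MvPolynomial.aeval_def, MvPolynomial.eval₂_eq]
    refine Finset.sum_congr rfl fun s _ => ?_
    rw [mon_extT, Algebra.smul_def, Finsupp.prod]
  rw [algebraicIndependent_iff]
  constructor
  · intro h t ht hlc
    -- the polynomial
    have hex : ∀ a ∈ t.support, ∃ s : T →₀ ℕ, extT T s = a := fun a ha =>
      exists_extT T (ht a ha).1 (ht a ha).2
    let p : MvPolynomial T k := ∑ a ∈ t.support.attach,
      MvPolynomial.monomial (hex a.1 a.2).choose (t a.1)
    have hp : MvPolynomial.aeval (fun i : T => x i) p = 0 := by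
      rw [← hlc, lc_apply, ← Finset.sum_attach]
      simp only [p, map_sum]
      refine Finset.sum_congr rfl fun a _ => ?_
      rw [MvPolynomial.aeval_monomial, ← mon_extT, (hex a.1 a.2).choose_spec, Algebra.smul_def]
    have hp0 := h p hp
    ext a
    by_contra hne
    have ha : a ∈ t.support := Finsupp.mem_support_iff.mpr hne
    have h1 : p.coeff (hex a ha).choose = t a := by
      simp only [p, MvPolynomial.coeff_sum, MvPolynomial.coeff_monomial]
      rw [Finset.sum_eq_single ⟨a, ha⟩]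
      · simp
      · intro b _ hb
        rw [if_neg]
        intro he
        apply hb
        apply Subtype.ext
        have h2 := (hex b.1 b.2).choose_spec
        have h3 := (hex a ha).choose_spec
        exact h2.symm.trans ((congrArg (extT T) he).trans h3)
      · intro hn
        exact absurd (Finset.mem_attach _ _) hn
    rw [hp0, MvPolynomial.coeff_zero] at h1
    exact hne (by simpa using h1.symm)
  · intro h p hp
    rw [haev] at hp
    have h1 := h (∑ s ∈ p.support, Finsupp.single (extT T s) (p.coeff s)) (by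
      intro a ha
      have h2 := Finsupp.support_finsetSum ha
      rw [Finset.mem_biUnion] at h2
      obtain ⟨s, _, hs⟩ := h2
      have := Finsupp.support_single_subset hs
      rw [Finset.mem_singleton] at this
      subst this
      exact ⟨extT_Nn T s, extT_out T s⟩) (by
      rw [map_sum]
      simp only [lc_single]
      exact hp)
    ext s
    by_contra hne
    rw [MvPolynomial.coeff_zero] at hne
    have h2 := congrArg (fun f : (ι → ℤ) →₀ k => f (extT T s)) h1
    simp only [Finsupp.finsetSum_apply, Finsupp.coe_zero, Pi.zero_apply] at h2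
    rw [Finset.sum_eq_single s] at h2
    · rw [Finsupp.single_eq_same] at h2
      exact hne h2
    · intro b _ hb
      rw [Finsupp.single_eq_of_ne]
      intro he
      exact hb (extT_inj T he).symm
    · intro hn
      rw [MvPolynomial.notMem_support_iff.mp hn, Finsupp.single_zero, Finsupp.zero_apply]

/-- A dependent subfamily gives an expression of `1` by monomials of positive weight. -/
lemma one_mem_of_dep {x : ι → L} (hx : ∀ i, x i ≠ 0) {v : ι → ℝ}
    (hinj : ∀ a : ι → ℤ, wt v a = 0 → a = 0) (H : Homog k x) {G : Finset ι}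
    (hdep : ¬ AlgebraicIndependent k (fun i : G => x i)) :
    ∃ ε : ℝ, 0 < ε ∧ (1 : L) ∈ RF k x v 0 ε G := by
  classical
  rw [algInd_iff] at hdep
  push Not at hdep
  obtain ⟨t, ht1, ht2, ht0⟩ := hdep
  -- choose a degree
  obtain ⟨a₁, ha₁⟩ := Finsupp.support_nonempty_iff.mpr ht0
  set t' := t.filter (fun a => dg a = dg a₁) with ht'
  have hlc' : lc k x t' = 0 := H t ht2 _
  have ht'0 : t'.support.Nonempty := by
    refine ⟨a₁, ?_⟩
    rw [ht', Finsupp.support_filter, Finset.mem_filter]
    exact ⟨ha₁, rfl⟩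
  have hsub : ∀ a ∈ t'.support, a ∈ t.support ∧ dg a = dg a₁ := by
    intro a ha
    rw [ht', Finsupp.support_filter, Finset.mem_filter] at ha
    exact ha
  obtain ⟨b, hb, hmin⟩ := Finset.exists_min_image t'.support (wt v) ht'0
  have hstrict : ∀ a ∈ t'.support, a ≠ b → wt v b < wt v a := by
    intro a ha hab
    refine lt_of_le_of_ne (hmin a ha) fun h => hab ?_
    have : a - b = 0 := hinj _ (by rw [wt_sub, h, sub_self])
    exact sub_eq_zero.mp this
  obtain ⟨ε, hε, hε'⟩ : ∃ ε : ℝ, 0 < ε ∧ ∀ a ∈ t'.support.erase b, wt v b + ε ≤ wt v a := by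
    rcases (t'.support.erase b).eq_empty_or_nonempty with h | h
    · exact ⟨1, one_pos, fun a ha => by simp [h] at ha⟩
    · obtain ⟨c, hc, hcmin⟩ := Finset.exists_min_image _ (wt v) h
      rw [Finset.mem_erase] at hc
      refine ⟨wt v c - wt v b, sub_pos.mpr (hstrict c hc.2 hc.1), fun a ha => ?_⟩
      have := hcmin a ha
      linarith
  refine ⟨ε, hε, ?_⟩
  have hbne : t' b ≠ 0 := Finsupp.mem_support_iff.mp hb
  have h1 : (t' b) • mon x b = - ∑ a ∈ t'.support.erase b, t' a • mon x a := by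
    rw [lc_apply, ← Finset.add_sum_erase _ _ hb] at hlc'
    exact eq_neg_of_add_eq_zero_left hlc'
  have h2 : (1 : L) = (t' b)⁻¹ • - ∑ a ∈ t'.support.erase b, t' a • (mon x a * (mon x b)⁻¹) := by
    have h3 : (t' b) • (1 : L) = - ∑ a ∈ t'.support.erase b, t' a • (mon x a * (mon x b)⁻¹) := by
      have h4 := congrArg (fun u => u * (mon x b)⁻¹) h1
      simp only [smul_mul_assoc, neg_mul, Finset.sum_mul] at h4
      rw [mul_inv_cancel₀ (mon_ne_zero hx b)] at h4
      exact h4
    rw [← h3, smul_smul, inv_mul_cancel₀ hbne, one_smul]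
  rw [h2]
  refine Submodule.smul_mem _ _ (Submodule.neg_mem _ (Submodule.sum_mem _ fun a ha =>
    Submodule.smul_mem _ _ ?_))
  rw [← mon_sub hx]
  have ha' := Finset.mem_of_mem_erase ha
  refine mon_mem_Sp ⟨⟨fun i hi => ?_, ?_⟩, ?_⟩
  · rw [Pi.sub_apply, (ht1 a (hsub a ha').1).2 i hi, (ht1 b (hsub b hb).1).2 i hi, sub_zero]
  · show dg (a - b) = 0
    rw [dg_sub, (hsub a ha').2, (hsub b hb).2, sub_self]
  · show ε ≤ wt v (a - b)
    rw [wt_sub]
    have := hε' a ha
    linarith

lemma one_mem_pow {x : ι → L} (hx : ∀ i, x i ≠ 0) {v : ι → ℝ} {G : Finset ι} {ε : ℝ}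
    (h : (1 : L) ∈ RF k x v 0 ε G) (m : ℕ) : (1 : L) ∈ RF k x v 0 (m * ε) G := by
  induction m with
  | zero =>
    rw [← mon_zero x]
    refine mon_mem_Sp ⟨⟨fun i _ => le_refl _, dg_zero⟩, ?_⟩
    show ((0 : ℕ) : ℝ) * ε ≤ wt v 0
    rw [wt_zero]
    simp
  | succ m ih =>
    have := RF_mul hx ih h
    rw [one_mul, add_zero] at this
    push_cast
    rw [add_mul, one_mul]
    exact this

lemma RG_le_RF_of_one {x : ι → L} (hx : ∀ i, x i ≠ 0) {v : ι → ℝ} {G : Finset ι} {ε : ℝ}
    (hε : 0 < ε) (h : (1 : L) ∈ RF k x v 0 ε G) (j : ℤ) (ν : ℝ) : RG k x j G ≤ RF k x v j ν G := by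
  intro f hf
  obtain ⟨μ, hμ⟩ := mem_Sp_finite_wt (v := v) hf
  obtain ⟨m, hm⟩ := exists_nat_gt ((ν - μ) / ε)
  rw [div_lt_iff₀ hε] at hm
  have h1 := RF_mul hx hμ (one_mem_pow hx h m)
  rw [mul_one, add_zero] at h1
  exact RF_anti x v j (by linarith) G h1

lemma TG_le_TF_of_one {x : ι → L} (hx : ∀ i, x i ≠ 0) {v : ι → ℝ} {G : Finset ι} {ε : ℝ}
    (hε : 0 < ε) (h : (1 : L) ∈ RF k x v 0 ε G) (ν : ℝ) : TG k x G ≤ TF k x v ν G := by
  intro f hf
  obtain ⟨μ, hμ⟩ := mem_Sp_finite_wt (v := v) hf
  obtain ⟨m, hm⟩ := exists_nat_gt ((ν - μ) / ε)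
  rw [div_lt_iff₀ hε] at hm
  have h1 := TF_mul hx hμ (RF_le_TF x v 0 _ G (one_mem_pow hx h m))
  rw [mul_one] at h1
  exact TF_anti x v (by linarith) G h1

/-- A family with more elements than the transcendence degree is dependent. -/
lemma not_algInd_of_card {x : ι → L} {D : ℕ} (hD : Algebra.trdeg k L = D) {G : Finset ι}
    (hG : D < G.card) : ¬ AlgebraicIndependent k (fun i : G => x i) := by
  intro h
  have h1 := h.cardinalMk_le_trdeg
  rw [hD, Cardinal.mk_coe_finset] at h1
  have : G.card ≤ D := by exact_mod_cast h1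
  omega

end Pool.Agent.MP8049
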