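import Mathlib

set_option autoImplicit false

/-! Facts on an ideal whose initial ideal is a square-free monomial ideal. -/

namespace Pool.Agent.MP8049

open MvPolynomial

section ideal

variable {K : Type} [Field K] {n : ℕ} {Δ : Finset (Finset (Fin n))}
  {I : Ideal (MvPolynomial (Fin n) K)} {ord : MonomialOrder (Fin n)}

/-- The square-free exponent with support `S`. -/
noncomputable def sqf (S : Finset (Fin n)) : Fin n →₀ ℕ := ∑ i ∈ S, Finsupp.single i 1

lemma sqf_apply (S : Finset (Fin n)) (i : Fin n) : sqf S i = if i ∈ S then 1 else 0 := by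
  classical
  simp [sqf, Finsupp.finsetSum_apply, Finsupp.single_apply]

lemma sqf_le_iff (S : Finset (Fin n)) (β : Fin n →₀ ℕ) : sqf S ≤ β ↔ S ⊆ β.support := by
  constructor
  · intro h i hi
    have h1 := h i
    rw [sqf_apply, if_pos hi] at h1
    rw [Finsupp.mem_support_iff]
    omega
  · intro h i
    rw [sqf_apply]
    split_ifs with hi
    · have := Finsupp.mem_support_iff.mp (h hi)
      omega
    · exact Nat.zero_le _

lemma lead_iff (hin : Ideal.span {p : MvPolynomial (Fin n) K | ∃ f ∈ I, f ≠ 0 ∧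
          p = MvPolynomial.monomial (ord.degree f) (1 : K)} =
        Ideal.span {p : MvPolynomial (Fin n) K | ∃ S : Finset (Fin n), S ∉ Δ ∧
          p = MvPolynomial.monomial (∑ i ∈ S, Finsupp.single i 1) (1 : K)})
    (β : Fin n →₀ ℕ) : (∃ f ∈ I, f ≠ 0 ∧ ord.degree f ≤ β) ↔ ∃ S, S ∉ Δ ∧ S ⊆ β.support := by
  have e1 : {p : MvPolynomial (Fin n) K | ∃ f ∈ I, f ≠ 0 ∧
          p = MvPolynomial.monomial (ord.degree f) (1 : K)} =
      (fun s => monomial s (1 : K)) '' {s | ∃ f ∈ I, f ≠ 0 ∧ s = ord.degree f} := by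
    ext p
    simp only [Set.mem_ofPred_eq, Set.mem_image]
    constructor
    · rintro ⟨f, hf, hf0, rfl⟩
      exact ⟨_, ⟨f, hf, hf0, rfl⟩, rfl⟩
    · rintro ⟨s, ⟨f, hf, hf0, rfl⟩, rfl⟩
      exact ⟨f, hf, hf0, rfl⟩
  have e2 : {p : MvPolynomial (Fin n) K | ∃ S : Finset (Fin n), S ∉ Δ ∧
          p = MvPolynomial.monomial (∑ i ∈ S, Finsupp.single i 1) (1 : K)} =
      (fun s => monomial s (1 : K)) '' {s | ∃ S : Finset (Fin n), S ∉ Δ ∧ s = sqf S} := by
    ext p
    simp only [Set.mem_ofPred_eq, Set.mem_image]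
    constructor
    · rintro ⟨S, hS, rfl⟩
      exact ⟨_, ⟨S, hS, rfl⟩, rfl⟩
    · rintro ⟨s, ⟨S, hS, rfl⟩, rfl⟩
      exact ⟨S, hS, rfl⟩
  have hm : (monomial β (1 : K)).support = {β} := by
    classical
    rw [support_monomial, if_neg one_ne_zero]
  have h1 : monomial β (1 : K) ∈ Ideal.span {p : MvPolynomial (Fin n) K | ∃ f ∈ I, f ≠ 0 ∧
          p = MvPolynomial.monomial (ord.degree f) (1 : K)} ↔
      ∃ f ∈ I, f ≠ 0 ∧ ord.degree f ≤ β := by
    rw [e1, mem_ideal_span_monomial_image, hm]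
    simp only [Finset.mem_singleton, forall_eq, Set.mem_ofPred_eq]
    constructor
    · rintro ⟨_, ⟨f, hf, hf0, rfl⟩, h⟩
      exact ⟨f, hf, hf0, h⟩
    · rintro ⟨f, hf, hf0, h⟩
      exact ⟨_, ⟨f, hf, hf0, rfl⟩, h⟩
  have h2 : monomial β (1 : K) ∈ Ideal.span {p : MvPolynomial (Fin n) K |
      ∃ S : Finset (Fin n), S ∉ Δ ∧
          p = MvPolynomial.monomial (∑ i ∈ S, Finsupp.single i 1) (1 : K)} ↔
      ∃ S, S ∉ Δ ∧ S ⊆ β.support := by
    rw [e2, mem_ideal_span_monomial_image, hm]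
    simp only [Finset.mem_singleton, forall_eq, Set.mem_ofPred_eq]
    constructor
    · rintro ⟨_, ⟨S, hS, rfl⟩, h⟩
      exact ⟨S, hS, (sqf_le_iff _ _).mp h⟩
    · rintro ⟨S, hS, h⟩
      exact ⟨_, ⟨S, hS, rfl⟩, (sqf_le_iff _ _).mpr h⟩
  rw [← h1, hin, h2]

/-- The rewriting rule of a nonface. -/
lemma exists_rule (hhom : ∀ f ∈ I, ∀ d : ℕ, MvPolynomial.homogeneousComponent d f ∈ I)
    (hin : Ideal.span {p : MvPolynomial (Fin n) K | ∃ f ∈ I, f ≠ 0 ∧
          p = MvPolynomial.monomial (ord.degree f) (1 : K)} =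
        Ideal.span {p : MvPolynomial (Fin n) K | ∃ S : Finset (Fin n), S ∉ Δ ∧
          p = MvPolynomial.monomial (∑ i ∈ S, Finsupp.single i 1) (1 : K)})
    (S : Finset (Fin n)) (hS : S ∉ Δ) :
    ∃ f ∈ I, coeff (sqf S) f = 1 ∧ ∀ β ∈ f.support, β.degree = (sqf S).degree ∧
      (β ≠ sqf S → ord.toSyn β < ord.toSyn (sqf S)) := by
  obtain ⟨f, hf, hf0, hle⟩ := (lead_iff hin (sqf S)).mpr ⟨S, hS, (sqf_le_iff S _).mp le_rfl⟩
  obtain ⟨γ, hγ⟩ := exists_add_of_le hle
  -- multiply by a monomial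
  let f' := f * monomial γ (1 : K)
  have hm0 : monomial γ (1 : K) ≠ 0 := by
    rw [Ne, monomial_eq_zero]
    exact one_ne_zero
  have hf' : f' ∈ I := I.mul_mem_right _ hf
  have hdeg : ord.degree f' = sqf S := by
    classical
    simp only [f']
    rw [MonomialOrder.degree_mul hf0 hm0, MonomialOrder.degree_monomial, if_neg one_ne_zero, ← hγ]
  have hf'0 : f' ≠ 0 := mul_ne_zero hf0 hm0
  have hc : coeff (sqf S) f' ≠ 0 := by
    rw [← hdeg]
    exact MonomialOrder.coeff_degree_ne_zero_iff.mpr hf'0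
  refine ⟨C (coeff (sqf S) f')⁻¹ * homogeneousComponent (sqf S).degree f',
    I.mul_mem_left _ (hhom _ hf' _), ?_, ?_⟩
  · rw [coeff_C_mul, coeff_homogeneousComponent, if_pos rfl, inv_mul_cancel₀ hc]
  · intro β hβ
    rw [mem_support_iff, coeff_C_mul, coeff_homogeneousComponent] at hβ
    have h1 : β.degree = (sqf S).degree := by
      by_contra h
      rw [if_neg h, mul_zero] at hβ
      exact hβ rfl
    rw [if_pos h1] at hβ
    have h2 : β ∈ f'.support := mem_support_iff.mpr (right_ne_zero_of_mul hβ)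
    refine ⟨h1, fun hne => lt_of_le_of_ne ?_ ?_⟩
    · rw [← hdeg]
      exact MonomialOrder.le_degree h2
    · intro h
      exact hne (ord.toSyn.injective h)

lemma empty_mem (hhom : ∀ f ∈ I, ∀ d : ℕ, MvPolynomial.homogeneousComponent d f ∈ I)
    (hprime : I.IsPrime)
    (hin : Ideal.span {p : MvPolynomial (Fin n) K | ∃ f ∈ I, f ≠ 0 ∧
          p = MvPolynomial.monomial (ord.degree f) (1 : K)} =
        Ideal.span {p : MvPolynomial (Fin n) K | ∃ S : Finset (Fin n), S ∉ Δ ∧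
          p = MvPolynomial.monomial (∑ i ∈ S, Finsupp.single i 1) (1 : K)}) : ∅ ∈ Δ := by
  by_contra hS
  obtain ⟨f, hf, h1, h2⟩ := exists_rule hhom hin ∅ hS
  have h0 : sqf (∅ : Finset (Fin n)) = 0 := by simp [sqf]
  have hf1 : f = 1 := by
    classical
    ext β
    by_cases hβ : β ∈ f.support
    · have h3 := (h2 β hβ).1
      rw [h0, map_zero] at h3
      have h4 : β = 0 := (Finsupp.degree_eq_zero_iff β).mp h3
      rw [h4, ← h0, h1, h0]
      simp
    · have hβ0 : coeff β f = 0 := by simpa using hβ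
      have hne : β ≠ 0 := by
        rintro rfl
        rw [← h0, h1] at hβ0
        exact one_ne_zero hβ0
      rw [hβ0, coeff_one, if_neg (Ne.symm hne)]
  rw [hf1] at hf
  exact hprime.ne_top ((Ideal.eq_top_iff_one I).mpr hf)

lemma vertex_notMem (hdown : ∀ F ∈ Δ, ∀ G : Finset (Fin n), G ⊆ F → G ∈ Δ)
    (hin : Ideal.span {p : MvPolynomial (Fin n) K | ∃ f ∈ I, f ≠ 0 ∧
          p = MvPolynomial.monomial (ord.degree f) (1 : K)} =
        Ideal.span {p : MvPolynomial (Fin n) K | ∃ S : Finset (Fin n), S ∉ Δ ∧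
          p = MvPolynomial.monomial (∑ i ∈ S, Finsupp.single i 1) (1 : K)})
    (F : Finset (Fin n)) (hF : F ∈ Δ) (i : Fin n) (hi : i ∈ F) :
    (X i : MvPolynomial (Fin n) K) ∉ I := by
  intro hX
  obtain ⟨S, hS, hS2⟩ := (lead_iff hin (Finsupp.single i 1)).mp
    ⟨X i, hX, X_ne_zero i, by rw [MonomialOrder.degree_X]⟩
  apply hS
  apply hdown F hF
  intro j hj
  have h1 := hS2 hj
  rw [Finsupp.support_single_ne_zero _ one_ne_zero, Finset.mem_singleton] at h1
  rw [h1]
  exact hi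

/-- The standard monomials are independent modulo `I`. -/
lemma eq_zero_of_support (hin : Ideal.span {p : MvPolynomial (Fin n) K | ∃ f ∈ I, f ≠ 0 ∧
          p = MvPolynomial.monomial (ord.degree f) (1 : K)} =
        Ideal.span {p : MvPolynomial (Fin n) K | ∃ S : Finset (Fin n), S ∉ Δ ∧
          p = MvPolynomial.monomial (∑ i ∈ S, Finsupp.single i 1) (1 : K)})
    (hdown : ∀ F ∈ Δ, ∀ G : Finset (Fin n), G ⊆ F → G ∈ Δ)
    (f : MvPolynomial (Fin n) K) (hf : f ∈ I) (hs : ∀ β ∈ f.support, β.support ∈ Δ) : f = 0 := by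
  by_contra hf0
  obtain ⟨S, hS, hS2⟩ := (lead_iff hin (ord.degree f)).mp ⟨f, hf, hf0, le_rfl⟩
  exact hS (hdown _ (hs _ (MonomialOrder.degree_mem_support hf0)) _ hS2)

end ideal

end Pool.Agent.MP8049
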