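import Mathlib
import Pool.Agent.Lib.MP_8049df_ag.HSDef

set_option autoImplicit false

/-! The two main bundles of hypotheses. -/

namespace Pool.Agent.MP8049

/-- support of an exponent -/
def sp {ι : Type*} [Fintype ι] (a : ι → ℤ) : Finset ι := Finset.univ.filter (fun i => a i ≠ 0)

/-- The data produced by a smooth homogeneous prime with square-free initial ideal. -/
structure Stage0 {ι : Type} [Fintype ι] [LinearOrder ι] (K₀ k : Type) {L : Type} [Field K₀]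
    [Field k] [Field L] [Algebra K₀ k] [Algebra K₀ L] [Algebra k L] (x : ι → L) (v : ι → ℝ)
    (Face : Finset ι → Prop) : Prop where
  hx : ∀ i, x i ≠ 0
  hv : ∀ i, 0 < v i
  hinj : ∀ a : ι → ℤ, wt v a = 0 → a = 0
  inf : Infinite k
  hom : Homog k x
  down : ∀ F G, Face F → G ⊆ F → Face G
  emp : Face ∅
  R1 : ∃ g : ℝ, 0 < g ∧ ∀ b : ι → ℤ, b ∈ (Nn : Set (ι → ℤ)) → ¬ Face (sp b) →
    mon x b ∈ Sp k x (Nn ∩ Dj (dg b) ∩ Wge v (wt v b + g))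
  R2 : ∀ t : (ι → ℤ) →₀ k, (∀ a ∈ t.support, a ∈ (Nn : Set (ι → ℤ)) ∧ Face (sp a)) →
    lc k x t = 0 → t = 0
  fr : ∀ f : L, ∃ p ∈ TG k x ∅, ∃ q ∈ TG k x ∅, q ≠ 0 ∧ f = p / q
  sm : ∀ i, SmAt K₀ k x i

/-- The data preserved by generic hyperplane sections. -/
structure IsState {ι : Type} [Fintype ι] [LinearOrder ι] (K₀ k : Type) {L : Type} [Field K₀]
    [Field k] [Field L] [Algebra K₀ k] [Algebra K₀ L] [Algebra k L] (x : ι → L)
    (D : ℕ) (σ : ℤ) : Prop where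
  hx : ∀ i, x i ≠ 0
  inf : Infinite k
  hom : Homog k x
  tr : Algebra.trdeg k L = D
  fr : ∀ f : L, ∃ p ∈ TG k x ∅, ∃ q ∈ TG k x ∅, q ≠ 0 ∧ f = p / q
  van : ∀ q : ℕ, q < D → ∀ j : ℤ, j < 0 → Ex (RG k x j) q
  soc : ∀ j : ℤ, j < - σ → ∀ c ∈ Cyc (RG k x j) D,
    (∀ i, (fun G => x i * c G) ∈ Bdy (RG k x (j + 1)) D) → c ∈ Bdy (RG k x j) D
  sm : ∀ i, SmAt K₀ k x i

end Pool.Agent.MP8049
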