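import Mathlib
import Pool.Agent.Lib.MP_8049df_ag.StateDef
import Pool.Agent.Lib.MP_8049df_ag.IdealFacts

set_option autoImplicit false

/-! The fields `k = Frac K[t]` and `L = Frac (S/I)[t]`, abstractly. -/

namespace Pool.Agent.MP8049

open MvPolynomial

/-- The abstract situation: `Ψ` embeds `A[t]` in `L` and `θ` embeds `K[t]` in `k`, both with
fields of fractions the whole of the target. -/
structure Setup {K k L A : Type} [Field K] [Field k] [Field L] [CommRing A] [Algebra K k]
    [Algebra K L] [Algebra k L] [Algebra K A] (θ : Polynomial K →ₐ[K] k)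
    (Ψ : Polynomial A →ₐ[K] L) : Prop where
  inj : Function.Injective Ψ
  tinj : Function.Injective θ
  compat : ∀ p, algebraMap k L (θ p) = Ψ (p.map (algebraMap K A))
  frk : ∀ c : k, ∃ p q : Polynomial K, q ≠ 0 ∧ c * θ q = θ p
  frL : ∀ f : L, ∃ P Q : Polynomial A, Q ≠ 0 ∧ f * Ψ Q = Ψ P

section denominators

variable {K k L A : Type} [Field K] [Field k] [Field L] [CommRing A] [Algebra K k]
    [Algebra K L] [Algebra k L] [Algebra K A] {θ : Polynomial K →ₐ[K] k}
    {Ψ : Polynomial A →ₐ[K] L}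

lemma Setup.exists_den (H : Setup θ Ψ) {σ : Type} (s : Finset σ) (t : σ → k) :
    ∃ (d : Polynomial K) (C : σ → Polynomial K), d ≠ 0 ∧ ∀ a ∈ s, θ (C a) = t a * θ d := by
  classical
  induction s using Finset.induction_on with
  | empty => exact ⟨1, fun _ => 0, one_ne_zero, fun a ha => by simp at ha⟩
  | insert b s hb ih =>
    obtain ⟨d, C, hd, hC⟩ := ih
    obtain ⟨p, q, hq, hpq⟩ := H.frk (t b)
    refine ⟨d * q, fun a => if a = b then p * d else C a * q, mul_ne_zero hd hq, ?_⟩
    intro a ha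
    by_cases hab : a = b
    · subst hab
      simp only [if_true, map_mul]
      rw [← hpq]
      ring
    · rw [Finset.mem_insert] at ha
      simp only [if_neg hab, map_mul]
      rw [hC a (ha.resolve_left hab)]
      ring

end denominators

section main

variable {K : Type} [Field K] {n : ℕ} (I : Ideal (MvPolynomial (Fin n) K))

/-- The variables that do not vanish. -/
abbrev Vx : Type := {i : Fin n // (X i : MvPolynomial (Fin n) K) ∉ I}

noncomputable instance instFintypeVx : Fintype (Vx I) := Fintype.ofFinite _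

variable {I}

/-- Extension of an exponent by zero. -/
noncomputable def exo (a : Vx I → ℤ) : Fin n →₀ ℕ := by
  classical
  exact Finsupp.equivFunOnFinite.symm
    (fun i => if h : (X i : MvPolynomial (Fin n) K) ∉ I then (a ⟨i, h⟩).toNat else 0)

lemma exo_apply (a : Vx I → ℤ) (i : Vx I) : exo a i.1 = (a i).toNat := by
  simp only [exo, Finsupp.equivFunOnFinite_symm_apply_apply]
  rw [dif_pos i.2]

lemma exo_apply_of_mem (a : Vx I → ℤ) (i : Fin n) (h : (X i : MvPolynomial (Fin n) K) ∈ I) :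
    exo a i = 0 := by
  simp only [exo, Finsupp.equivFunOnFinite_symm_apply_apply]
  rw [dif_neg (by simpa using h)]

/-- Restriction of an exponent. -/
def rst (β : Fin n →₀ ℕ) : Vx I → ℤ := fun i => β i.1

lemma rst_exo {a : Vx I → ℤ} (ha : a ∈ (Nn : Set (Vx I → ℤ))) : rst (exo a) = a := by
  funext i
  simp only [rst, exo_apply]
  exact Int.toNat_of_nonneg (ha i)

lemma exo_inj {a b : Vx I → ℤ} (ha : a ∈ (Nn : Set (Vx I → ℤ))) (hb : b ∈ (Nn : Set (Vx I → ℤ)))
    (h : exo a = exo b) : a = b := by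
  rw [← rst_exo ha, ← rst_exo hb, h]

lemma rst_mem_Nn (β : Fin n →₀ ℕ) : rst β ∈ (Nn : Set (Vx I → ℤ)) := fun i => by
  simp [rst]

lemma prod_Vx {M : Type} [CommMonoid M] (f : Fin n → M)
    (hf : ∀ i, (X i : MvPolynomial (Fin n) K) ∈ I → f i = 1) : ∏ i : Vx I, f i.1 = ∏ i, f i := by
  classical
  rw [← Finset.prod_subtype (Finset.univ.filter fun i => (X i : MvPolynomial (Fin n) K) ∉ I)
    (by simp) f]
  refine Finset.prod_filter_of_ne ?_
  intro i _ hne hI
  exact hne (hf i hI)

lemma sum_Vx {M : Type} [AddCommMonoid M] (f : Fin n → M)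
    (hf : ∀ i, (X i : MvPolynomial (Fin n) K) ∈ I → f i = 0) : ∑ i : Vx I, f i.1 = ∑ i, f i := by
  classical
  rw [← Finset.sum_subtype (Finset.univ.filter fun i => (X i : MvPolynomial (Fin n) K) ∉ I)
    (by simp) f]
  refine Finset.sum_filter_of_ne ?_
  intro i _ hne hI
  exact hne (hf i hI)

lemma degree_eq_sum (β : Fin n →₀ ℕ) : β.degree = ∑ i, β i := by
  rw [Finsupp.degree_eq_sum]

lemma degree_exo {a : Vx I → ℤ} (ha : a ∈ (Nn : Set (Vx I → ℤ))) :
    ((exo a).degree : ℤ) = dg a := by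
  rw [degree_eq_sum, ← sum_Vx (I := I) (fun i => exo a i) (fun i hi => exo_apply_of_mem a i hi)]
  simp only [exo_apply, dg]
  push_cast
  refine Finset.sum_congr rfl fun i _ => ?_
  exact Int.toNat_of_nonneg (ha i)

lemma dg_rst {β : Fin n →₀ ℕ} (hβ : ∀ i, (X i : MvPolynomial (Fin n) K) ∈ I → β i = 0) :
    dg (rst β : Vx I → ℤ) = (β.degree : ℤ) := by
  rw [degree_eq_sum, ← sum_Vx (I := I) (fun i => β i) hβ]
  simp only [rst, dg]
  push_cast
  rfl

lemma wt_rst {β : Fin n →₀ ℕ} (v : Fin n → ℝ)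
    (hβ : ∀ i, (X i : MvPolynomial (Fin n) K) ∈ I → β i = 0) :
    wt (fun i : Vx I => v i.1) (rst β) = ∑ i, (β i : ℝ) * v i := by
  rw [← sum_Vx (I := I) (fun i => (β i : ℝ) * v i) (fun i hi => by rw [hβ i hi]; simp)]
  simp only [rst, wt]
  refine Finset.sum_congr rfl fun i _ => ?_
  push_cast
  rfl

lemma support_exo {a : Vx I → ℤ} (ha : a ∈ (Nn : Set (Vx I → ℤ))) :
    (exo a).support = (sp a).map (OrderEmbedding.subtype _).toEmbedding := by
  ext i
  simp only [Finsupp.mem_support_iff, Finset.mem_map, sp, Finset.mem_filter, Finset.mem_univ,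
    true_and]
  constructor
  · intro h
    have hi : (X i : MvPolynomial (Fin n) K) ∉ I := fun hI => h (exo_apply_of_mem a i hI)
    refine ⟨⟨i, hi⟩, ?_, rfl⟩
    intro h0
    apply h
    have h1 := exo_apply a ⟨i, hi⟩
    rw [h0] at h1
    simpa using h1
  · rintro ⟨j, hj, rfl⟩
    have h1 := exo_apply a j
    have h2 : exo a ((OrderEmbedding.subtype _).toEmbedding j) = (a j).toNat := h1
    rw [h2]
    have h3 := ha j
    intro h0
    apply hj
    omega

section values

variable {k L : Type} [Field k] [Field L] [Algebra K k] [Algebra K L] [Algebra k L]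
  [IsScalarTower K k L] {θ : Polynomial K →ₐ[K] k}
  {Ψ : Polynomial (MvPolynomial (Fin n) K ⧸ I) →ₐ[K] L}

/-- The image in `L` of an element of the polynomial ring. -/
noncomputable def ev (Ψ : Polynomial (MvPolynomial (Fin n) K ⧸ I) →ₐ[K] L)
    (f : MvPolynomial (Fin n) K) : L := Ψ (Polynomial.C (Ideal.Quotient.mk I f))

/-- The variables in `L`. -/
noncomputable def vx (Ψ : Polynomial (MvPolynomial (Fin n) K ⧸ I) →ₐ[K] L) (i : Vx I) : L :=
  ev Ψ (X i.1)

lemma ev_mul (f g : MvPolynomial (Fin n) K) : ev Ψ (f * g) = ev Ψ f * ev Ψ g := by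
  simp [ev]

lemma ev_add (f g : MvPolynomial (Fin n) K) : ev Ψ (f + g) = ev Ψ f + ev Ψ g := by
  simp [ev]

lemma ev_zero : ev Ψ (0 : MvPolynomial (Fin n) K) = 0 := by simp [ev]

lemma ev_one : ev Ψ (1 : MvPolynomial (Fin n) K) = 1 := by simp [ev]

lemma ev_pow (f : MvPolynomial (Fin n) K) (N : ℕ) : ev Ψ (f ^ N) = ev Ψ f ^ N := by
  simp [ev]

lemma ev_prod {σ : Type} (s : Finset σ) (f : σ → MvPolynomial (Fin n) K) :
    ev Ψ (∏ a ∈ s, f a) = ∏ a ∈ s, ev Ψ (f a) := by
  simp [ev]

lemma ev_sum {σ : Type} (s : Finset σ) (f : σ → MvPolynomial (Fin n) K) :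
    ev Ψ (∑ a ∈ s, f a) = ∑ a ∈ s, ev Ψ (f a) := by
  simp [ev]

lemma ev_C (c : K) : ev Ψ (MvPolynomial.C c) = algebraMap K L c := by
  have h1 : (Polynomial.C (Ideal.Quotient.mk I (MvPolynomial.C c)) :
      Polynomial (MvPolynomial (Fin n) K ⧸ I)) = algebraMap K _ c := rfl
  unfold ev
  rw [h1, AlgHom.commutes]

lemma ev_monomial (β : Fin n →₀ ℕ) (c : K) :
    ev Ψ (monomial β c) = algebraMap K L c * ∏ i, ev Ψ (X i) ^ β i := by
  rw [monomial_eq, ev_mul, ev_C, Finsupp.prod_fintype _ _ (by simp), ev_prod]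
  simp only [ev_pow]

lemma ev_eq_zero_iff (H : Setup θ Ψ) (f : MvPolynomial (Fin n) K) : ev Ψ f = 0 ↔ f ∈ I := by
  unfold ev
  rw [map_eq_zero_iff Ψ H.inj, Polynomial.C_eq_zero, Ideal.Quotient.eq_zero_iff_mem]

lemma vx_ne_zero (H : Setup θ Ψ) (i : Vx I) : vx Ψ i ≠ 0 := by
  intro h
  exact i.2 ((ev_eq_zero_iff H _).mp h)

lemma ev_monomial_of_forall {β : Fin n →₀ ℕ} (H : Setup θ Ψ)
    (hβ : ∀ i, (X i : MvPolynomial (Fin n) K) ∈ I → β i = 0) (c : K) :
    ev Ψ (monomial β c) = algebraMap K L c * mon (vx Ψ) (rst β) := by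
  rw [ev_monomial]
  congr 1
  rw [← prod_Vx (I := I) (fun i => ev Ψ (X i) ^ β i) (fun i hi => by rw [hβ i hi, pow_zero])]
  simp only [mon, vx, rst, zpow_natCast]

lemma ev_monomial_of_exists {β : Fin n →₀ ℕ} (H : Setup θ Ψ)
    (hβ : ∃ i, (X i : MvPolynomial (Fin n) K) ∈ I ∧ β i ≠ 0) (c : K) :
    ev Ψ (monomial β c) = 0 := by
  obtain ⟨i, hi, h0⟩ := hβ
  rw [ev_monomial]
  apply mul_eq_zero_of_right
  apply Finset.prod_eq_zero (Finset.mem_univ i)
  rw [(ev_eq_zero_iff H _).mpr hi, zero_pow h0]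

lemma ev_monomial_exo (H : Setup θ Ψ) {a : Vx I → ℤ} (ha : a ∈ (Nn : Set (Vx I → ℤ))) (c : K) :
    ev Ψ (monomial (exo a) c) = algebraMap K L c * mon (vx Ψ) a := by
  rw [ev_monomial_of_forall H (fun i hi => exo_apply_of_mem a i hi), rst_exo ha]

/-- Vanishing of a Laurent polynomial, in terms of the ideal. -/
lemma lc_eq_zero_iff (H : Setup θ Ψ) (t : (Vx I → ℤ) →₀ k) (b : Vx I → ℤ)
    (hb : ∀ a ∈ t.support, a + b ∈ (Nn : Set (Vx I → ℤ))) (d : Polynomial K) (hd : d ≠ 0)
    (D : (Vx I → ℤ) → Polynomial K) (hD : ∀ a ∈ t.support, θ (D a) = t a * θ d) :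
    lc k (vx Ψ) t = 0 ↔ ∀ m, ∑ a ∈ t.support, monomial (exo (a + b)) ((D a).coeff m) ∈ I := by
  have hx := vx_ne_zero H
  have hθd : algebraMap k L (θ d) ≠ 0 := by
    rw [Ne, map_eq_zero, map_eq_zero_iff θ H.tinj]
    exact hd
  have hmb := mon_ne_zero hx b
  -- multiply by the denominator and the monomial
  have h1 : algebraMap k L (θ d) * (lc k (vx Ψ) t * mon (vx Ψ) b) =
      Ψ (∑ a ∈ t.support, (D a).map (algebraMap K _) *
        Polynomial.C (Ideal.Quotient.mk I (monomial (exo (a + b)) (1 : K)))) := by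
    rw [lc_apply, map_sum, Finset.sum_mul, Finset.mul_sum]
    refine Finset.sum_congr rfl fun a ha => ?_
    rw [map_mul, ← H.compat, hD a ha]
    have h2 := ev_monomial_exo H (hb a ha) (1 : K)
    unfold ev at h2
    rw [h2, mon_add hx, map_one, one_mul, Algebra.smul_def, map_mul]
    ring
  have h2 : lc k (vx Ψ) t = 0 ↔ (∑ a ∈ t.support, (D a).map (algebraMap K _) *
        Polynomial.C (Ideal.Quotient.mk I (monomial (exo (a + b)) (1 : K)))) = 0 := by
    rw [← map_eq_zero_iff Ψ H.inj, ← h1, mul_eq_zero, mul_eq_zero]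
    constructor
    · intro h; exact Or.inr (Or.inl h)
    · rintro (h | h | h)
      · exact (hθd h).elim
      · exact h
      · exact (hmb h).elim
  rw [h2, Polynomial.ext_iff]
  refine forall_congr' fun m => ?_
  rw [Polynomial.finsetSum_coeff, Polynomial.coeff_zero, ← Ideal.Quotient.eq_zero_iff_mem,
    map_sum]
  have h3 : ∀ a, ((D a).map (algebraMap K (MvPolynomial (Fin n) K ⧸ I)) *
        Polynomial.C (Ideal.Quotient.mk I (monomial (exo (a + b)) (1 : K)))).coeff m =
      Ideal.Quotient.mk I (monomial (exo (a + b)) ((D a).coeff m)) := by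
    intro a
    rw [Polynomial.coeff_mul_C, Polynomial.coeff_map]
    have h4 : algebraMap K (MvPolynomial (Fin n) K ⧸ I) ((D a).coeff m) =
        Ideal.Quotient.mk I (MvPolynomial.C ((D a).coeff m)) := rfl
    rw [h4, ← map_mul, C_mul_monomial, mul_one]
  simp only [h3]

lemma homog (H : Setup θ Ψ)
    (hhom : ∀ f ∈ I, ∀ d : ℕ, MvPolynomial.homogeneousComponent d f ∈ I) :
    Homog k (vx Ψ) := by
  classical
  intro t ht j
  obtain ⟨d, D, hd, hD⟩ := H.exists_den t.support t
  -- a shift making all exponents nonnegative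
  let b : Vx I → ℤ := fun i => ∑ a ∈ t.support, |a i|
  have hb : ∀ a ∈ t.support, a + b ∈ (Nn : Set (Vx I → ℤ)) := by
    intro a ha i
    have h1 : |a i| ≤ ∑ a ∈ t.support, |a i| :=
      Finset.single_le_sum (f := fun a : Vx I → ℤ => |a i|) (fun _ _ => abs_nonneg _) ha
    have h2 := neg_abs_le (a i)
    show 0 ≤ a i + b i
    simp only [b]
    linarith
  have h1 := (lc_eq_zero_iff H t b hb d hd D hD).mp ht
  have hsub : (t.filter (fun a => dg a = j)).support ⊆ t.support := by
    intro a ha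
    rw [Finsupp.support_filter, Finset.mem_filter] at ha
    exact ha.1
  rw [lc_eq_zero_iff H _ b (fun a ha => hb a (hsub ha)) d hd D]
  · intro m
    have h2 := hhom _ (h1 m) (j + dg b).toNat
    by_cases hneg : ∃ a ∈ t.support, dg a = j
    · obtain ⟨a0, ha0, haj⟩ := hneg
      have hjb : 0 ≤ j + dg b := by
        rw [← haj, ← dg_add]
        exact Finset.sum_nonneg fun i _ => hb a0 ha0 i
      convert h2 using 1
      rw [map_sum, Finsupp.support_filter, Finset.sum_filter]
      refine Finset.sum_congr rfl fun a ha => ?_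
      rw [homogeneousComponent_of_mem (isHomogeneous_monomial _ rfl)]
      have h3 : ((j + dg b).toNat = (exo (a + b)).degree) ↔ dg a = j := by
        rw [← Int.natCast_inj, degree_exo (hb a ha), Int.toNat_of_nonneg hjb, dg_add]
        constructor
        · intro h; linarith
        · intro h; linarith
      by_cases h4 : dg a = j
      · rw [if_pos h4, if_pos (h3.mpr h4)]
      · rw [if_neg h4, if_neg (fun h => h4 (h3.mp h))]
    · push Not at hneg
      have h3 : (t.filter (fun a => dg a = j)).support = ∅ := by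
        rw [Finsupp.support_filter, Finset.filter_eq_empty_iff]
        intro a ha
        exact hneg a ha
      rw [h3, Finset.sum_empty]
      exact I.zero_mem
  · intro a ha
    have ha' := ha
    rw [Finsupp.support_filter, Finset.mem_filter] at ha'
    rw [hD a (hsub ha), Finsupp.filter_apply_pos (fun a => dg a = j) t ha'.2]

lemma indep {Δ : Finset (Finset (Fin n))} {ord : MonomialOrder (Fin n)} (H : Setup θ Ψ)
    (hdown : ∀ F ∈ Δ, ∀ G : Finset (Fin n), G ⊆ F → G ∈ Δ)
    (hin : Ideal.span {p : MvPolynomial (Fin n) K | ∃ f ∈ I, f ≠ 0 ∧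
          p = MvPolynomial.monomial (ord.degree f) (1 : K)} =
        Ideal.span {p : MvPolynomial (Fin n) K | ∃ S : Finset (Fin n), S ∉ Δ ∧
          p = MvPolynomial.monomial (∑ i ∈ S, Finsupp.single i 1) (1 : K)})
    (t : (Vx I → ℤ) →₀ k)
    (ht : ∀ a ∈ t.support, a ∈ (Nn : Set (Vx I → ℤ)) ∧
      (sp a).map (OrderEmbedding.subtype _).toEmbedding ∈ Δ)
    (h0 : lc k (vx Ψ) t = 0) : t = 0 := by
  classical
  obtain ⟨d, D, hd, hD⟩ := H.exists_den t.support t
  have hb : ∀ a ∈ t.support, a + 0 ∈ (Nn : Set (Vx I → ℤ)) := by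
    intro a ha
    rw [add_zero]
    exact (ht a ha).1
  have h1 := (lc_eq_zero_iff H t 0 hb d hd D hD).mp h0
  have h2 : ∀ m, ∑ a ∈ t.support, monomial (exo (a + 0)) ((D a).coeff m) = 0 := by
    intro m
    apply eq_zero_of_support hin hdown _ (h1 m)
    intro β hβ
    obtain ⟨a, ha, hβa⟩ : ∃ a ∈ t.support, β = exo (a + 0) := by
      have h3 := support_sum hβ
      simp only [Finset.mem_biUnion] at h3
      obtain ⟨a, ha, h4⟩ := h3
      exact ⟨a, ha, Finset.mem_singleton.mp (support_monomial_subset h4)⟩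
    rw [hβa, add_zero, support_exo (ht a ha).1]
    exact (ht a ha).2
  ext a
  rw [Finsupp.coe_zero, Pi.zero_apply]
  by_contra hne
  have ha : a ∈ t.support := Finsupp.mem_support_iff.mpr hne
  have h3 : D a = 0 := by
    ext m
    have h4 := congrArg (coeff (exo a)) (h2 m)
    rw [coeff_sum, Finset.sum_eq_single a] at h4
    · rw [add_zero, coeff_monomial, if_pos rfl] at h4
      simpa using h4
    · intro a' ha' hne'
      rw [add_zero, coeff_monomial, if_neg]
      intro h5
      exact hne' (exo_inj (ht a' ha').1 (ht a ha).1 h5)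
    · intro h; exact (h ha).elim
  have h4 := hD a ha
  rw [h3, map_zero] at h4
  rcases mul_eq_zero.mp h4.symm with h5 | h5
  · exact hne h5
  · exact hd ((map_eq_zero_iff θ H.tinj).mp h5)

/-- The rewriting rule. -/
lemma rule {Δ : Finset (Finset (Fin n))} (H : Setup θ Ψ) (v : Fin n → ℝ) (g : ℝ)
    (f : Finset (Fin n) → MvPolynomial (Fin n) K)
    (hf : ∀ S, S ∉ Δ → f S ∈ I ∧ coeff (sqf S) (f S) = 1 ∧ ∀ β ∈ (f S).support,
      β.degree = (sqf S).degree ∧ (β ≠ sqf S →
        (∑ i, (sqf S i : ℝ) * v i) + g ≤ ∑ i, (β i : ℝ) * v i))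
    (b : Vx I → ℤ) (hb : b ∈ (Nn : Set (Vx I → ℤ)))
    (hS : (sp b).map (OrderEmbedding.subtype _).toEmbedding ∉ Δ) :
    mon (vx Ψ) b ∈ Sp k (vx Ψ) (Nn ∩ Dj (dg b) ∩ Wge (fun i => v i.1) (wt (fun i => v i.1) b + g)) := by
  classical
  rw [← support_exo hb] at hS
  obtain ⟨hfI, hf1, hf2⟩ := hf _ hS
  obtain ⟨γ, hγ⟩ := exists_add_of_le ((sqf_le_iff (exo b).support (exo b)).mpr (Finset.Subset.refl _))
  have h0 : ev Ψ (monomial γ (1 : K) * f (exo b).support) = 0 :=
    (ev_eq_zero_iff H _).mpr (I.mul_mem_left _ hfI)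
  have h1 : ev Ψ (monomial γ (1 : K) * f (exo b).support) =
      ∑ β ∈ (f (exo b).support).support, ev Ψ (monomial (γ + β) (coeff β (f (exo b).support))) := by
    conv_lhs => rw [(f (exo b).support).as_sum, Finset.mul_sum, ev_sum]
    refine Finset.sum_congr rfl fun β _ => ?_
    rw [monomial_mul, one_mul]
  have hmem : sqf (exo b).support ∈ (f (exo b).support).support := by
    rw [mem_support_iff, hf1]
    exact one_ne_zero
  rw [h1, ← Finset.add_sum_erase _ _ hmem, hf1] at h0
  have h2 : ev Ψ (monomial (γ + sqf (exo b).support) (1 : K)) = mon (vx Ψ) b := by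
    rw [add_comm, ← hγ, ev_monomial_exo H hb, map_one, one_mul]
  rw [h2] at h0
  rw [eq_neg_of_add_eq_zero_left h0]
  apply Submodule.neg_mem
  apply Submodule.sum_mem
  intro β hβ
  rw [Finset.mem_erase] at hβ
  by_cases hz : ∀ i, (X i : MvPolynomial (Fin n) K) ∈ I → (γ + β) i = 0
  · rw [ev_monomial_of_forall H hz, IsScalarTower.algebraMap_apply K k L, ← Algebra.smul_def]
    apply Submodule.smul_mem
    apply mon_mem_Sp
    obtain ⟨h3, h4⟩ := hf2 β hβ.2
    have h5 := h4 hβ.1
    have hγz : ∀ i, (X i : MvPolynomial (Fin n) K) ∈ I → exo b i = 0 :=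
      fun i hi => exo_apply_of_mem b i hi
    have hrb : rst (exo b) = b := rst_exo hb
    refine ⟨⟨rst_mem_Nn _, ?_⟩, ?_⟩
    · show dg _ = dg b
      rw [dg_rst hz]
      rw [← degree_exo hb, hγ]
      simp only [map_add]
      rw [h3, add_comm]
    · show wt _ b + g ≤ wt _ _
      rw [wt_rst v hz]
      have h6 : wt (fun i : Vx I => v i.1) b = ∑ i, (exo b i : ℝ) * v i := by
        conv_lhs => rw [← hrb]
        exact wt_rst v hγz
      rw [h6]
      have h7 : ∑ i, (exo b i : ℝ) * v i =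
          ∑ i, (sqf (exo b).support i : ℝ) * v i + ∑ i, (γ i : ℝ) * v i := by
        rw [← Finset.sum_add_distrib]
        refine Finset.sum_congr rfl fun i _ => ?_
        have h8 : exo b i = sqf (exo b).support i + γ i := by
          conv_lhs => rw [hγ]
          rfl
        rw [h8]
        push_cast
        ring
      have h9 : ∑ i, (((γ + β) i : ℕ) : ℝ) * v i =
          ∑ i, (γ i : ℝ) * v i + ∑ i, (β i : ℝ) * v i := by
        rw [← Finset.sum_add_distrib]
        refine Finset.sum_congr rfl fun i _ => ?_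
        rw [Finsupp.add_apply]
        push_cast
        ring
      rw [h7, h9]
      linarith
  · push Not at hz
    obtain ⟨i, hi, hne⟩ := hz
    rw [ev_monomial_of_exists H ⟨i, hi, hne⟩]
    exact Submodule.zero_mem _

end values

end main

end Pool.Agent.MP8049
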