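import Mathlib
import Pool.Agent.Lib.MP_8049df_ag.Setup

set_option autoImplicit false

/-! Fractions and smooth charts for the coordinate ring of an ideal. -/

namespace Pool.Agent.MP8049

open MvPolynomial

section charts

variable {K : Type} [Field K] {n : ℕ} {I : Ideal (MvPolynomial (Fin n) K)}
  {k L : Type} [Field k] [Field L] [Algebra K k] [Algebra K L] [Algebra k L]
  [IsScalarTower K k L] {θ : Polynomial K →ₐ[K] k}
  {Ψ : Polynomial (MvPolynomial (Fin n) K ⧸ I) →ₐ[K] L}

lemma ev_mem_TG (H : Setup θ Ψ) (f : MvPolynomial (Fin n) K) (G : Finset (Vx I)) :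
    ev Ψ f ∈ TG k (vx Ψ) G := by
  rw [f.as_sum, ev_sum]
  apply Submodule.sum_mem
  intro β _
  by_cases hz : ∀ i, (X i : MvPolynomial (Fin n) K) ∈ I → β i = 0
  · rw [ev_monomial_of_forall H hz, IsScalarTower.algebraMap_apply K k L, ← Algebra.smul_def]
    apply Submodule.smul_mem
    apply mon_mem_Sp
    intro l _
    exact rst_mem_Nn β l
  · push Not at hz
    obtain ⟨i, hi, hne⟩ := hz
    rw [ev_monomial_of_exists H ⟨i, hi, hne⟩]
    exact Submodule.zero_mem _

lemma Psi_X (H : Setup θ Ψ) : Ψ Polynomial.X = algebraMap k L (θ Polynomial.X) := by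
  rw [H.compat, Polynomial.map_X]

lemma Psi_mem_TG (H : Setup θ Ψ) (P : Polynomial (MvPolynomial (Fin n) K ⧸ I))
    (G : Finset (Vx I)) : Ψ P ∈ TG k (vx Ψ) G := by
  induction P using Polynomial.induction_on' with
  | add p q hp hq => rw [map_add]; exact Submodule.add_mem _ hp hq
  | monomial m a =>
    obtain ⟨f, rfl⟩ := Ideal.Quotient.mk_surjective a
    rw [← Polynomial.C_mul_X_pow_eq_monomial, map_mul, map_pow, Psi_X H, ← map_pow, mul_comm,
      ← Algebra.smul_def]
    exact Submodule.smul_mem _ _ (ev_mem_TG H f G)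

lemma fracs (H : Setup θ Ψ) (f : L) : ∃ p ∈ TG k (vx Ψ) ∅, ∃ q ∈ TG k (vx Ψ) ∅, q ≠ 0 ∧ f = p / q := by
  obtain ⟨P, Q, hQ, h⟩ := H.frL f
  have hQ0 : Ψ Q ≠ 0 := by
    rw [Ne, map_eq_zero_iff Ψ H.inj]
    exact hQ
  exact ⟨Ψ P, Psi_mem_TG H P ∅, Ψ Q, Psi_mem_TG H Q ∅, hQ0, by rw [← h]; field_simp⟩

lemma adjoin_top (H : Setup θ Ψ) :
    IntermediateField.adjoin K ({θ Polynomial.X} : Set k) = ⊤ := by
  have h1 : ∀ p : Polynomial K, θ p ∈ IntermediateField.adjoin K ({θ Polynomial.X} : Set k) := by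
    intro p
    have h2 : θ p = Polynomial.aeval (θ Polynomial.X) p := by
      rw [Polynomial.aeval_algHom_apply, Polynomial.aeval_X_left_apply]
    rw [h2]
    exact (IntermediateField.algebra_adjoin_le_adjoin K _)
      (Polynomial.aeval_mem_adjoin_singleton K _)
  rw [eq_top_iff]
  intro c _
  obtain ⟨p, q, hq, h⟩ := H.frk c
  have hq0 : θ q ≠ 0 := by
    rw [Ne, map_eq_zero_iff θ H.tinj]
    exact hq
  have h3 : c = θ p / θ q := by rw [← h]; field_simp
  rw [h3]
  exact div_mem (h1 p) (h1 q)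

lemma smAt (H : Setup θ Ψ) (i : Vx I) (hsm : Algebra.Smooth K
        (Localization.Away (Ideal.Quotient.mk I (MvPolynomial.X i.1)))) :
    SmAt K k (vx Ψ) i := by
  classical
  have hx := vx_ne_zero H
  let y : MvPolynomial (Fin n) K ⧸ I := Ideal.Quotient.mk I (MvPolynomial.X i.1)
  let ψ₀ : (MvPolynomial (Fin n) K ⧸ I) →ₐ[K] L := Ψ.comp Polynomial.CAlgHom
  have hψ₀ : ∀ a, ψ₀ a = Ψ (Polynomial.C a) := fun a => rfl
  have hy : ψ₀ y = vx Ψ i := rfl
  let φ₀ : Localization.Away y →ₐ[K] L := IsLocalization.liftAlgHom (M := Submonoid.powers y)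
    (f := ψ₀) (by
      rintro ⟨_, N, rfl⟩
      simp only [map_pow, hy]
      exact (IsUnit.mk0 _ (hx i)).pow N)
  have hφ₀ : ∀ a, φ₀ (algebraMap _ _ a) = ψ₀ a := by
    intro a
    simp only [φ₀, IsLocalization.liftAlgHom_apply]
    exact IsLocalization.lift_eq _ _
  let Φ : Polynomial (Localization.Away y) →ₐ[K] L :=
    Polynomial.eval₂AlgHom φ₀ (Ψ Polynomial.X) (fun a => Commute.all _ _)
  have hΦC : ∀ a, Φ (Polynomial.C a) = φ₀ a := by
    intro a
    exact Polynomial.eval₂_C _ _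
  have hΦX : Φ Polynomial.X = Ψ Polynomial.X := by
    exact Polynomial.eval₂_X _ _
  have hΦΨ : ∀ Q : Polynomial (MvPolynomial (Fin n) K ⧸ I),
      Φ (Q.map (algebraMap _ (Localization.Away y))) = Ψ Q := by
    intro Q
    induction Q using Polynomial.induction_on' with
    | add p q hp hq => rw [Polynomial.map_add, map_add, map_add, hp, hq]
    | monomial m a =>
      rw [Polynomial.map_monomial, ← Polynomial.C_mul_X_pow_eq_monomial,
        ← Polynomial.C_mul_X_pow_eq_monomial, map_mul, map_mul, map_pow, map_pow, hΦC, hΦX, hφ₀,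
        hψ₀]
  have hden : ∀ P : Polynomial (Localization.Away y), ∃ (N : ℕ)
      (Q : Polynomial (MvPolynomial (Fin n) K ⧸ I)),
      Q.map (algebraMap _ (Localization.Away y)) =
        Polynomial.C (algebraMap _ (Localization.Away y) y ^ N) * P := by
    intro P
    obtain ⟨b, ⟨N, rfl⟩, hb⟩ := IsLocalization.integerNormalization_spec (Submonoid.powers y) P
    refine ⟨N, _, hb.trans ?_⟩
    rw [← map_pow, Algebra.smul_def]
    rfl
  have hyu : IsUnit (algebraMap (MvPolynomial (Fin n) K ⧸ I) (Localization.Away y) y) :=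
    IsLocalization.Away.algebraMap_isUnit y
  have hinj : Function.Injective Φ := by
    rw [injective_iff_map_eq_zero]
    intro P hP
    obtain ⟨N, Q, hQ⟩ := hden P
    have h1 : Ψ Q = 0 := by rw [← hΦΨ, hQ, map_mul, hP, mul_zero]
    have h2 : Q = 0 := (map_eq_zero_iff Ψ H.inj).mp h1
    rw [h2, Polynomial.map_zero] at hQ
    have h3 : IsUnit (Polynomial.C (algebraMap (MvPolynomial (Fin n) K ⧸ I)
      (Localization.Away y) y ^ N)) := (hyu.pow N).map Polynomial.C
    exact (h3.mul_right_eq_zero).mp hQ.symm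
  have hmemΨ : ∀ Q, Ψ Q ∈ Φ.range := fun Q => ⟨_, hΦΨ Q⟩
  have hmemθ : ∀ q, algebraMap k L (θ q) ∈ Φ.range := fun q => by
    rw [H.compat]; exact hmemΨ _
  have hinv : (vx Ψ i)⁻¹ ∈ Φ.range := by
    refine ⟨Polynomial.C (IsLocalization.Away.invSelf y), ?_⟩
    have h1 : φ₀ (algebraMap _ _ y * IsLocalization.Away.invSelf y) = 1 := by
      rw [IsLocalization.Away.mul_invSelf, map_one]
    rw [map_mul, hφ₀, hy] at h1
    show Φ (Polynomial.C (IsLocalization.Away.invSelf y)) = _
    rw [hΦC]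
    exact eq_inv_of_mul_eq_one_right h1
  have hxmem : ∀ l, vx Ψ l ∈ Φ.range := fun l => hmemΨ _
  have hmon : ∀ a ∈ (EG {i} : Set (Vx I → ℤ)), mon (vx Ψ) a ∈ Φ.range := by
    intro a ha
    apply Subalgebra.prod_mem
    intro l _
    by_cases hl : l = i
    · subst hl
      rcases le_total 0 (a l) with h | h
      · obtain ⟨m, hm⟩ := Int.eq_ofNat_of_zero_le h
        rw [hm, zpow_natCast]
        exact Subalgebra.pow_mem _ (hxmem l) m
      · obtain ⟨m, hm⟩ := Int.eq_ofNat_of_zero_le (neg_nonneg.mpr h)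
        have h2 : a l = -(m : ℤ) := by omega
        rw [h2, zpow_neg, zpow_natCast, ← inv_pow]
        exact Subalgebra.pow_mem _ hinv m
    · obtain ⟨m, hm⟩ := Int.eq_ofNat_of_zero_le (ha l (by simpa using hl))
      rw [hm, zpow_natCast]
      exact Subalgebra.pow_mem _ (hxmem l) m
  refine ⟨Φ.range, ?_, hxmem, hinv, ?_, ?_, {θ Polynomial.X}, Set.finite_singleton _, ?_,
    adjoin_top H⟩
  · have h1 : Algebra.Smooth K (Localization.Away y) := hsm
    have h2 : Algebra.Smooth (Localization.Away y) (Polynomial (Localization.Away y)) :=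
      ⟨inferInstance, inferInstance⟩
    have h3 : Algebra.Smooth K (Polynomial (Localization.Away y)) :=
      Algebra.Smooth.comp K (Localization.Away y) (Polynomial (Localization.Away y))
    exact Algebra.Smooth.of_equiv (AlgEquiv.ofInjective Φ hinj)
  · rintro _ ⟨P, rfl⟩
    obtain ⟨N, Q, hQ⟩ := hden P
    have h1 : Ψ Q = vx Ψ i ^ N * Φ P := by
      rw [← hΦΨ, hQ, map_mul, hΦC, map_pow, hφ₀, hy]
    have h2 : Φ P = Ψ Q * mon (vx Ψ) (Pi.single i (-(N : ℤ))) := by
      rw [h1, mon_single, zpow_neg, zpow_natCast]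
      field_simp [hx i]
    show Φ P ∈ _
    rw [h2]
    apply TG_mul hx (Psi_mem_TG H Q _)
    apply mon_mem_Sp
    intro l hl
    have : l ≠ i := by simpa using hl
    simp [this]
  · intro f hf
    obtain ⟨t, ht, rfl⟩ := mem_Sp.mp hf
    obtain ⟨d, D, hd, hD⟩ := H.exists_den t.support t
    have hd0 : θ d ≠ 0 := by
      rw [Ne, map_eq_zero_iff θ H.tinj]
      exact hd
    refine ⟨θ d, hd0, hmemθ d, ?_⟩
    rw [lc_apply, Finset.mul_sum]
    apply Subalgebra.sum_mem
    intro a ha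
    have h1 : algebraMap k L (θ d) * t a • mon (vx Ψ) a =
        algebraMap k L (θ (D a)) * mon (vx Ψ) a := by
      rw [hD a ha, Algebra.smul_def, map_mul]
      ring
    rw [h1]
    exact Subalgebra.mul_mem _ (hmemθ _) (hmon a (ht ha))
  · intro u hu
    rw [Set.mem_singleton_iff] at hu
    rw [hu]
    exact hmemθ _

end charts

end Pool.Agent.MP8049
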