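import Mathlib
import Pool.Agent.Lib.MP_8049df_ag.HSDef

set_option autoImplicit false

/-! Construction of truncated Hasse-Schmidt maps from formally smooth coordinates. -/

namespace Pool.Agent.MP8049

open Polynomial

/-- Lifting along a formally smooth map. -/
lemma exists_lift_of_smooth {A E C : Type*} [CommRing A] [CommRing E] [CommRing C]
    [Algebra A E] [Algebra.FormallySmooth A E] (π : C →+* E) (hπ : Function.Surjective π)
    (hnil : IsNilpotent (RingHom.ker π)) (τ : A →+* C) (hτ : π.comp τ = algebraMap A E) :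
    ∃ φ : E →+* C, π.comp φ = RingHom.id E ∧ φ.comp (algebraMap A E) = τ := by
  let _ := τ.toAlgebra
  let π' : C →ₐ[A] E := { π with commutes' := fun a => DFunLike.congr_fun hτ a }
  refine ⟨(Algebra.FormallySmooth.liftOfSurjective (AlgHom.id A E) π' hπ hnil : E →ₐ[A] C), ?_, ?_⟩
  · ext e
    exact Algebra.FormallySmooth.liftOfSurjective_apply (AlgHom.id A E) π' hπ hnil e
  · ext a
    exact (Algebra.FormallySmooth.liftOfSurjective (AlgHom.id A E) π' hπ hnil).commutes a

/-- The ideal generated by `X ^ N`. -/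
noncomputable abbrev XI (S : Type*) [CommRing S] (N : ℕ) : Ideal S[X] := Ideal.span {X ^ N}

lemma mk_eq_iff {S : Type*} [CommRing S] (N : ℕ) (p q : S[X]) :
    Ideal.Quotient.mk (XI S N) p = Ideal.Quotient.mk (XI S N) q ↔
      ∀ t < N, p.coeff t = q.coeff t := by
  rw [Ideal.Quotient.eq, Ideal.mem_span_singleton, X_pow_dvd_iff]
  simp only [coeff_sub, sub_eq_zero]

/-- Constant term. -/
noncomputable def cst (S : Type*) [CommRing S] (N : ℕ) : S[X] ⧸ XI S (N + 1) →+* S :=
  Ideal.Quotient.lift _ (evalRingHom 0) (by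
    intro a ha
    rw [Ideal.mem_span_singleton] at ha
    obtain ⟨b, rfl⟩ := ha
    simp)

lemma cst_mk (S : Type*) [CommRing S] (N : ℕ) (p : S[X]) :
    cst S N (Ideal.Quotient.mk _ p) = p.coeff 0 := by
  simp [cst, coeff_zero_eq_eval_zero]

lemma cst_surj (S : Type*) [CommRing S] (N : ℕ) : Function.Surjective (cst S N) := by
  intro s
  exact ⟨Ideal.Quotient.mk _ (C s), by rw [cst_mk]; simp⟩

lemma cst_nil (S : Type*) [CommRing S] (N : ℕ) : IsNilpotent (RingHom.ker (cst S N)) := by
  refine ⟨N + 1, ?_⟩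
  have h : RingHom.ker (cst S N) ≤ Ideal.span {Ideal.Quotient.mk (XI S (N + 1)) X} := by
    intro z hz
    obtain ⟨p, rfl⟩ := Ideal.Quotient.mk_surjective z
    rw [RingHom.mem_ker, cst_mk] at hz
    rw [← X_dvd_iff] at hz
    obtain ⟨q, rfl⟩ := hz
    rw [map_mul]
    exact Ideal.mul_mem_right _ _ (Ideal.subset_span rfl)
  rw [Ideal.zero_eq_bot, eq_bot_iff]
  refine (Ideal.pow_right_mono h (N + 1)).trans ?_
  rw [Ideal.span_singleton_pow, ← map_pow]
  have : Ideal.Quotient.mk (XI S (N + 1)) (X ^ (N + 1)) = 0 :=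
    Ideal.Quotient.eq_zero_iff_mem.mpr (Ideal.subset_span rfl)
  rw [this]
  simp

/-- functoriality -/
noncomputable def qmap {S T : Type*} [CommRing S] [CommRing T] (j : S →+* T) (N : ℕ) :
    S[X] ⧸ XI S N →+* T[X] ⧸ XI T N :=
  Ideal.Quotient.lift _ ((Ideal.Quotient.mk (XI T N)).comp (mapRingHom j)) (by
    intro a ha
    rw [Ideal.mem_span_singleton] at ha
    obtain ⟨b, rfl⟩ := ha
    rw [RingHom.comp_apply, coe_mapRingHom, Polynomial.map_mul, Polynomial.map_pow, map_X,
      Ideal.Quotient.eq_zero_iff_mem]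
    exact Ideal.mul_mem_right _ _ (Ideal.subset_span rfl))

lemma qmap_mk {S T : Type*} [CommRing S] [CommRing T] (j : S →+* T) (N : ℕ) (p : S[X]) :
    qmap j N (Ideal.Quotient.mk _ p) = Ideal.Quotient.mk _ (p.map j) := by
  simp [qmap]

lemma exists_HSm {A E L : Type*} [CommRing A] [CommRing E] [Field L] [Algebra A E]
    [Algebra.FormallySmooth A E] (j : E →+* L) (hj : Function.Injective j)
    (hfrac : ∀ z : L, ∃ a b : E, z = j a / j b) (τ : A →+* A[X])
    (hτ : ∀ a, (τ a).coeff 0 = a) (M : ℕ) :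
    ∃ D : HSm L (M + 1), (∀ t, t < M + 1 → ∀ e, ∃ e', D.D t (j e) = j e') ∧
      (∀ t, t < M + 1 → ∀ a, D.D t (j (algebraMap A E a)) =
        j (algebraMap A E ((τ a).coeff t))) := by
  classical
  obtain ⟨φ, hφ1, hφ2⟩ := exists_lift_of_smooth (cst E M) (cst_surj E M) (cst_nil E M)
    ((Ideal.Quotient.mk (XI E (M + 1))).comp ((mapRingHom (algebraMap A E)).comp τ)) (by
      ext a
      rw [RingHom.comp_apply, RingHom.comp_apply, cst_mk, RingHom.comp_apply, coe_mapRingHom,
        coeff_map, hτ])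
  let _ := j.toAlgebra
  have hjm : ∀ e, algebraMap E L e = j e := fun e => rfl
  have : FaithfulSMul E L := (faithfulSMul_iff_algebraMap_injective E L).mpr hj
  have : IsFractionRing E L := IsFractionRing.of_field E L (fun z => by
    obtain ⟨a, b, h⟩ := hfrac z
    exact ⟨a, b, h⟩)
  let ψ : E →+* L[X] ⧸ XI L (M + 1) := (qmap j (M + 1)).comp φ
  have hcst : ∀ z, cst L M (qmap j (M + 1) z) = j (cst E M z) := by
    intro z
    obtain ⟨p, rfl⟩ := Ideal.Quotient.mk_surjective z
    rw [qmap_mk, cst_mk, cst_mk, coeff_map]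
  have hψ : ∀ e, cst L M (ψ e) = j e := by
    intro e
    have h := DFunLike.congr_fun hφ1 e
    rw [RingHom.comp_apply] at h
    simp only [ψ, RingHom.comp_apply]
    rw [hcst, h]
    rfl
  have hunit : ∀ y : nonZeroDivisors E, IsUnit (ψ y) := by
    rintro ⟨y, hy⟩
    have hy0 : j y ≠ 0 := by
      intro h
      have : Nontrivial E := ⟨⟨y, 0, fun h0 => by
        subst h0
        have := hfrac 1
        obtain ⟨a, b, hab⟩ := this
        have h1 : (1 : E) * 0 = 0 := mul_zero 1
        have := (mem_nonZeroDivisors_iff.mp hy).2 1 h1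
        rw [← map_one j, this, map_zero] at hab
        have hh : (1 : L) = 0 := by rw [← map_one j, this, map_zero]
        exact one_ne_zero hh⟩⟩
      have : y = 0 := hj (by rw [h, map_zero])
      subst this
      exact zero_notMem_nonZeroDivisors hy
    have h2 : ψ y = Ideal.Quotient.mk _ (C (j y)) + (ψ y - Ideal.Quotient.mk _ (C (j y))) := by ring
    rw [h2]
    refine IsNilpotent.isUnit_add_left_of_commute ?_ ?_ (Commute.all _ _)
    · obtain ⟨n, hn⟩ := cst_nil L M
      refine ⟨n, ?_⟩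
      have : ψ y - Ideal.Quotient.mk _ (C (j y)) ∈ RingHom.ker (cst L M) := by
        rw [RingHom.mem_ker, map_sub, hψ, cst_mk]
        simp
      have h3 := Ideal.pow_mem_pow this n
      rw [hn] at h3
      simpa using h3
    · have : IsUnit (C (j y)) := by
        rw [isUnit_C]
        exact isUnit_iff_ne_zero.mpr hy0
      exact this.map (Ideal.Quotient.mk (XI L (M + 1)))
  let Ψ : L →+* L[X] ⧸ XI L (M + 1) := IsLocalization.lift (M := nonZeroDivisors E) hunit
  have hΨ : ∀ e, Ψ (j e) = ψ e := fun e => IsLocalization.lift_eq hunit e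
  have hΨc : ∀ z, cst L M (Ψ z) = z := by
    intro z
    obtain ⟨a, b, rfl⟩ := hfrac z
    by_cases hb : j b = 0
    · rw [hb, div_zero, map_zero, map_zero]
    · have h1 : cst L M (Ψ (j a / j b)) * cst L M (Ψ (j b)) = cst L M (Ψ (j a)) := by
        rw [← map_mul, ← map_mul, div_mul_cancel₀ _ hb]
      rw [hΨ b, hΨ a, hψ, hψ] at h1
      rw [eq_div_iff hb, h1]
  have hr : ∀ z, ∃ p : L[X], Ideal.Quotient.mk (XI L (M + 1)) p = Ψ z :=
    fun z => Ideal.Quotient.mk_surjective _
  choose r hr using hr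
  have key : ∀ (z : L) (p : L[X]), Ideal.Quotient.mk (XI L (M + 1)) p = Ψ z →
      ∀ t < M + 1, (r z).coeff t = p.coeff t := by
    intro z p hp
    rw [← mk_eq_iff, hr, hp]
  refine ⟨⟨fun t z => if t < M + 1 then (r z).coeff t else 0, ?_, ?_, ?_⟩, ?_, ?_⟩
  · intro t f g
    split_ifs with ht
    · rw [key (f + g) (r f + r g) (by rw [map_add, map_add, hr, hr]) t ht, coeff_add]
    · simp
  · intro f
    simp only [Nat.zero_lt_succ, if_true]
    rw [← cst_mk L M, hr, hΨc]
  · intro t ht f g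
    simp only [ht, if_true]
    rw [key (f * g) (r f * r g) (by rw [map_mul, map_mul, hr, hr]) t ht, coeff_mul]
    refine Finset.sum_congr rfl fun p hp => ?_
    rw [Finset.HasAntidiagonal.mem_antidiagonal] at hp
    rw [if_pos (by omega), if_pos (by omega)]
  · intro t ht e
    obtain ⟨p, hp⟩ := Ideal.Quotient.mk_surjective (φ e)
    refine ⟨p.coeff t, ?_⟩
    simp only [ht, if_true]
    rw [key (j e) (p.map j) (by rw [hΨ, ← qmap_mk, hp]; rfl) t ht, coeff_map]
  · intro t ht a
    simp only [ht, if_true]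
    have h1 := DFunLike.congr_fun hφ2 a
    simp only [RingHom.comp_apply, coe_mapRingHom] at h1
    rw [key (j (algebraMap A E a)) (((τ a).map (algebraMap A E)).map j)
      (by rw [hΨ, ← qmap_mk, ← h1]; rfl) t ht, coeff_map, coeff_map]

end Pool.Agent.MP8049
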