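import Mathlib
import Pool.Agent.Lib.MP_8049df_ag.HSDef

set_option autoImplicit false

/-! Elementary properties of truncated Hasse-Schmidt maps. -/

namespace Pool.Agent.MP8049

section

variable {L : Type*} [Field L] {M : ℕ}

lemma HSm.map_zero' (D : HSm L M) (t : ℕ) : D.D t 0 = 0 := by
  have h := D.add t 0 0
  rw [add_zero] at h
  exact left_eq_add.mp h

lemma HSm.map_neg' (D : HSm L M) (t : ℕ) (f : L) : D.D t (-f) = - D.D t f := by
  have h := D.add t (-f) f
  rw [neg_add_cancel, D.map_zero'] at h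
  exact eq_neg_of_add_eq_zero_left h.symm

lemma HSm.map_one' (D : HSm L M) (t : ℕ) (ht : t < M) (h0 : t ≠ 0) : D.D t 1 = 0 := by
  induction t using Nat.strong_induction_on with
  | _ t ih =>
    have h := D.leib t ht 1 1
    rw [mul_one] at h
    have h1 : ∑ p ∈ Finset.HasAntidiagonal.antidiagonal t, D.D p.1 1 * D.D p.2 1 =
        D.D t 1 + D.D t 1 := by
      have h2 : ∀ p ∈ Finset.HasAntidiagonal.antidiagonal t, D.D p.1 1 * D.D p.2 1 =
          (if p = (0, t) then D.D t 1 else 0) + (if p = (t, 0) then D.D t 1 else 0) := by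
        rintro ⟨a, b⟩ hp
        rw [Finset.HasAntidiagonal.mem_antidiagonal] at hp
        simp only at hp
        by_cases ha : a = 0
        · subst ha
          have hb : b = t := by omega
          subst hb
          rw [if_pos rfl, if_neg (by rintro ⟨⟩; exact h0 rfl)]
          simp [D.D0]
        · by_cases hb : b = 0
          · subst hb
            have ha' : a = t := by omega
            subst ha'
            rw [if_neg (by rintro ⟨⟩; exact h0 rfl), if_pos rfl]
            simp [D.D0]
          · rw [if_neg (by simp only [Prod.mk.injEq, not_and]; intro h; exact absurd h ha),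
              if_neg (by simp only [Prod.mk.injEq, not_and]; intro _ h; exact absurd h hb)]
            rw [ih a (by omega) (by omega) ha]
            simp
      rw [Finset.sum_congr rfl h2, Finset.sum_add_distrib, Finset.sum_ite_eq', Finset.sum_ite_eq']
      rw [if_pos (by rw [Finset.HasAntidiagonal.mem_antidiagonal]; simp),
        if_pos (by rw [Finset.HasAntidiagonal.mem_antidiagonal]; simp)]
    rw [h1] at h
    exact left_eq_add.mp h

/-- Leibniz rule with the last term separated. -/
lemma HSm.leib' (D : HSm L M) (t : ℕ) (ht : t < M) (f g : L) :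
    D.D t (f * g) = f * D.D t g +
      ∑ p ∈ (Finset.HasAntidiagonal.antidiagonal t).erase (0, t), D.D p.1 f * D.D p.2 g := by
  rw [D.leib t ht, ← Finset.add_sum_erase _ _ (a := ((0, t) : ℕ × ℕ))
    (by rw [Finset.HasAntidiagonal.mem_antidiagonal]; simp)]
  simp only [D.D0]

lemma mem_erase_anti {t : ℕ} {p : ℕ × ℕ}
    (hp : p ∈ (Finset.HasAntidiagonal.antidiagonal t).erase (0, t)) :
    p.2 < t ∧ p.1 ≤ t := by
  rw [Finset.mem_erase, Finset.HasAntidiagonal.mem_antidiagonal] at hp
  obtain ⟨h1, h2⟩ := hp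
  refine ⟨?_, by omega⟩
  by_contra hcon
  apply h1
  ext
  · simp only; omega
  · simp only; omega

/-- Scaling of Hasse-Schmidt maps. -/
def HSm.scale (D : HSm L M) (h : L) : HSm L M where
  D t f := h ^ t * D.D t f
  add t f g := by rw [D.add, mul_add]
  D0 f := by rw [pow_zero, one_mul, D.D0]
  leib t ht f g := by
    rw [D.leib t ht, Finset.mul_sum]
    refine Finset.sum_congr rfl fun p hp => ?_
    rw [Finset.HasAntidiagonal.mem_antidiagonal] at hp
    rw [← hp, pow_add]
    ring

/-- The subring of elements all of whose derivatives lie in `Q`. -/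
def HSm.sub (D : HSm L M) (Q : Subring L) : Subring L where
  carrier := {z | ∀ t, t < M → D.D t z ∈ Q}
  mul_mem' := by
    intro a b ha hb t ht
    rw [D.leib t ht]
    refine Q.sum_mem fun p hp => ?_
    rw [Finset.HasAntidiagonal.mem_antidiagonal] at hp
    exact Q.mul_mem (ha _ (by omega)) (hb _ (by omega))
  one_mem' := by
    intro t ht
    by_cases h0 : t = 0
    · subst h0; rw [D.D0]; exact Q.one_mem
    · rw [D.map_one' t ht h0]; exact Q.zero_mem
  add_mem' := by
    intro a b ha hb t ht
    rw [D.add]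
    exact Q.add_mem (ha t ht) (hb t ht)
  zero_mem' := by
    intro t ht
    rw [D.map_zero']; exact Q.zero_mem
  neg_mem' := by
    intro a ha t ht
    rw [D.map_neg']; exact Q.neg_mem (ha t ht)

lemma HSm.mem_sub (D : HSm L M) (Q : Subring L) (z : L) :
    z ∈ D.sub Q ↔ ∀ t, t < M → D.D t z ∈ Q := Iff.rfl

lemma HSm.inv_mem_sub (D : HSm L M) (Q : Subring L) {z : L} (hz : z ∈ D.sub Q)
    (hz1 : z⁻¹ ∈ Q) : z⁻¹ ∈ D.sub Q := by
  by_cases h0 : z = 0
  · rw [h0, inv_zero]; exact (D.sub Q).zero_mem
  intro t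
  induction t using Nat.strong_induction_on with
  | _ t ih =>
    intro ht
    have h1 := D.leib' t ht z z⁻¹
    rw [mul_inv_cancel₀ h0] at h1
    have h2 : D.D t z⁻¹ = z⁻¹ * (D.D t 1 -
      ∑ p ∈ (Finset.HasAntidiagonal.antidiagonal t).erase (0, t), D.D p.1 z * D.D p.2 z⁻¹) := by
      rw [h1]
      field_simp
      ring
    rw [h2]
    refine Q.mul_mem hz1 (Q.sub_mem ((D.sub Q).one_mem t ht) (Q.sum_mem fun p hp => ?_))
    obtain ⟨hp1, hp2⟩ := mem_erase_anti hp
    exact Q.mul_mem (hz _ (by omega)) (ih _ hp1 (by omega))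

end

section

variable {L : Type*} [Field L] {M : ℕ} {ι : Type*} [Fintype ι] (k : Type*) [Field k] [Algebra k L]

/-- The coordinate ring as a subring. -/
def TR {x : ι → L} (hx : ∀ i, x i ≠ 0) (G : Finset ι) : Subring L where
  carrier := TG k x G
  mul_mem' := fun ha hb => TG_mul hx ha hb
  one_mem' := one_mem_TG G
  add_mem' := fun ha hb => Submodule.add_mem _ ha hb
  zero_mem' := Submodule.zero_mem _
  neg_mem' := fun ha => Submodule.neg_mem _ ha

variable {k}

lemma mem_TR {x : ι → L} (hx : ∀ i, x i ≠ 0) (G : Finset ι) (z : L) :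
    z ∈ TR k hx G ↔ z ∈ TG k x G := Iff.rfl

lemma algebraMap_mem_TG {x : ι → L} (G : Finset ι) (c : k) : algebraMap k L c ∈ TG k x G := by
  rw [Algebra.algebraMap_eq_smul_one]
  exact Submodule.smul_mem _ _ (one_mem_TG G)

lemma x_mem_TG {x : ι → L} (G : Finset ι) (i : ι) : x i ∈ TG k x G := by
  classical
  exact RG_le_TG x 1 G (x_mem_RG G i)

lemma pres_of_gens {x : ι → L} (hx : ∀ i, x i ≠ 0) (D : HSm L M)
    (hk : ∀ c : k, algebraMap k L c ∈ D.sub (TR k hx ∅)) (hxl : ∀ l, x l ∈ D.sub (TR k hx ∅)) :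
    D.Pres (TG k x ∅ : Set L) := by
  suffices H : ∀ z ∈ TG k x ∅, z ∈ D.sub (TR k hx ∅) from fun t ht z hz => H z hz t ht
  intro z hz
  unfold TG Sp at hz
  induction hz using Submodule.span_induction with
  | mem z hz =>
    obtain ⟨a, ha, rfl⟩ := hz
    unfold mon
    refine Subring.prod_mem _ fun l _ => ?_
    obtain ⟨m, hm⟩ := Int.eq_ofNat_of_zero_le (ha l (Finset.notMem_empty l))
    rw [hm, zpow_natCast]
    exact (D.sub _).pow_mem (hxl l) m
  | zero => exact (D.sub _).zero_mem
  | add f g _ _ hf hg => exact (D.sub _).add_mem hf hg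
  | smul c f _ hf =>
    rw [Algebra.smul_def]
    exact (D.sub _).mul_mem (hk c) hf

lemma field_of_gens {K₀ : Type*} [Field K₀] [Algebra K₀ k] {x : ι → L} (hx : ∀ i, x i ≠ 0)
    (D : HSm L M) (U : Set k) (hU : IntermediateField.adjoin K₀ U = ⊤)
    (hU' : ∀ u ∈ U, algebraMap k L u ∈ D.sub (TR k hx ∅))
    (hK : ∀ c : K₀, algebraMap k L (algebraMap K₀ k c) ∈ D.sub (TR k hx ∅)) (c : k) :
    algebraMap k L c ∈ D.sub (TR k hx ∅) := by
  let F : IntermediateField K₀ k :=
    { carrier := {c | algebraMap k L c ∈ D.sub (TR k hx ∅)}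
      mul_mem' := by
        intro a b ha hb
        simp only [Set.mem_ofPred_eq] at *
        rw [map_mul]
        exact (D.sub _).mul_mem ha hb
      one_mem' := by
        simp only [Set.mem_ofPred_eq]
        rw [map_one]
        exact (D.sub _).one_mem
      add_mem' := by
        intro a b ha hb
        simp only [Set.mem_ofPred_eq] at *
        rw [map_add]
        exact (D.sub _).add_mem ha hb
      zero_mem' := by
        simp only [Set.mem_ofPred_eq]
        rw [map_zero]
        exact (D.sub _).zero_mem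
      algebraMap_mem' := hK
      inv_mem' := by
        intro a ha
        simp only [Set.mem_ofPred_eq] at *
        rw [map_inv₀]
        refine D.inv_mem_sub _ ha ?_
        rw [← map_inv₀]
        exact algebraMap_mem_TG ∅ _ }
  have h : IntermediateField.adjoin K₀ U ≤ F := IntermediateField.adjoin_le_iff.mpr hU'
  rw [hU] at h
  exact h (IntermediateField.mem_top)

/-- Clearing the denominator `x i`. -/
lemma clear_x [DecidableEq ι] {x : ι → L} (hx : ∀ i, x i ≠ 0) (i : ι) {b : L}
    (hb : b ∈ TG k x {i}) : ∃ N : ℕ, ∀ N', N ≤ N' → x i ^ N' * b ∈ TG k x ∅ := by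
  unfold TG Sp at hb
  induction hb using Submodule.span_induction with
  | mem b hb =>
    obtain ⟨a, ha, rfl⟩ := hb
    refine ⟨(a i).natAbs, fun N' hN => ?_⟩
    have h1 : x i ^ N' * mon x a = mon x (Pi.single i (N' : ℤ) + a) := by
      rw [mon_add hx, mon_single, zpow_natCast]
    rw [h1]
    refine mon_mem_Sp fun l _ => ?_
    by_cases hl : l = i
    · subst hl
      simp only [Pi.add_apply, Pi.single_eq_same]
      omega
    · simp only [Pi.add_apply, Pi.single_eq_of_ne hl, zero_add]
      exact ha l (by simp [hl])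
  | zero => exact ⟨0, fun N' _ => by rw [mul_zero]; exact Submodule.zero_mem _⟩
  | add f g _ _ hf hg =>
    obtain ⟨N1, h1⟩ := hf
    obtain ⟨N2, h2⟩ := hg
    refine ⟨N1 + N2, fun N' hN => ?_⟩
    rw [mul_add]
    exact Submodule.add_mem _ (h1 N' (by omega)) (h2 N' (by omega))
  | smul c f _ hf =>
    obtain ⟨N1, h1⟩ := hf
    refine ⟨N1, fun N' hN => ?_⟩
    rw [mul_smul_comm]
    exact Submodule.smul_mem _ _ (h1 N' hN)

end

end Pool.Agent.MP8049
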