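import Mathlib

set_option autoImplicit false

/-! Ideals of a polynomial ring stable under all Hasse derivatives. -/

namespace Pool.Agent.MP8049

open Polynomial

section

variable {K : Type*} [Field K] {n : ℕ}

/-- Taylor expansion in one variable. -/
noncomputable def tau (s : Fin n) : MvPolynomial (Fin n) K →+* (MvPolynomial (Fin n) K)[X] :=
  MvPolynomial.eval₂Hom (Polynomial.C.comp MvPolynomial.C)
    (fun j => C (MvPolynomial.X j) + if j = s then X else 0)

lemma tau_C (s : Fin n) (c : K) : tau s (MvPolynomial.C c) = C (MvPolynomial.C c) := by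
  simp [tau]

lemma tau_monomial (s : Fin n) (β : Fin n →₀ ℕ) (c : K) :
    tau s (MvPolynomial.monomial β c) =
      C (MvPolynomial.monomial (β.erase s) c) * (X + C (MvPolynomial.X s)) ^ (β s) := by
  classical
  unfold tau
  rw [MvPolynomial.eval₂Hom_monomial, Finsupp.prod_fintype _ _ (by simp)]
  rw [← Finset.mul_prod_erase Finset.univ _ (Finset.mem_univ s)]
  rw [if_pos rfl, MvPolynomial.monomial_eq, Finsupp.prod_fintype _ _ (by simp),
    ← Finset.mul_prod_erase Finset.univ _ (Finset.mem_univ s)]
  rw [Finsupp.erase_same, pow_zero, one_mul, map_mul, map_prod, RingHom.comp_apply]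
  have h : ∏ x ∈ Finset.univ.erase s, (C (MvPolynomial.X x) + if x = s then X else 0 :
      (MvPolynomial (Fin n) K)[X]) ^ (β x) =
      ∏ x ∈ Finset.univ.erase s, C ((MvPolynomial.X x : MvPolynomial (Fin n) K) ^ ((β.erase s) x)) := by
    refine Finset.prod_congr rfl fun j hj => ?_
    have hj' : j ≠ s := Finset.ne_of_mem_erase hj
    rw [if_neg hj', add_zero, Finsupp.erase_ne hj', map_pow]
  rw [h]
  ring

lemma tau_coeff (s : Fin n) (g : MvPolynomial (Fin n) K) (t : ℕ) (γ : Fin n →₀ ℕ) :
    MvPolynomial.coeff γ ((tau s g).coeff t) =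
      ((γ s + t).choose t : K) * MvPolynomial.coeff (γ + Finsupp.single s t) g := by
  classical
  induction g using MvPolynomial.induction_on' with
  | add p q hp hq =>
    rw [map_add, coeff_add, MvPolynomial.coeff_add, hp, hq, MvPolynomial.coeff_add]
    ring
  | monomial β c =>
    rw [tau_monomial, coeff_C_mul, coeff_X_add_C_pow, MvPolynomial.coeff_monomial]
    have h1 : (MvPolynomial.X s : MvPolynomial (Fin n) K) ^ (β s - t) * ((β s).choose t : MvPolynomial (Fin n) K) =
        MvPolynomial.monomial (Finsupp.single s (β s - t)) ((β s).choose t : K) := by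
      rw [MvPolynomial.X_pow_eq_monomial]
      have : ((β s).choose t : MvPolynomial (Fin n) K) = MvPolynomial.C ((β s).choose t : K) := by
        simp
      rw [this, mul_comm, MvPolynomial.C_mul_monomial, mul_one]
    rw [h1, MvPolynomial.monomial_mul, MvPolynomial.coeff_monomial]
    by_cases h : β = γ + Finsupp.single s t
    · subst h
      have h2 : (γ + Finsupp.single s t).erase s + Finsupp.single s ((γ + Finsupp.single s t) s - t) = γ := by
        ext j
        by_cases hj : j = s
        · subst hj
          simp
        · simp [Finsupp.erase_ne hj, Finsupp.single_eq_of_ne hj]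
      rw [if_pos h2, if_pos rfl]
      simp [mul_comm]
    · rw [if_neg h, mul_zero]
      split_ifs with h3
      · have h4 : β s < t := by
          by_contra hcon
          push Not at hcon
          apply h
          rw [← h3]
          ext j
          by_cases hj : j = s
          · subst hj
            simp
            omega
          · simp [Finsupp.erase_ne hj, Finsupp.single_eq_of_ne hj]
        rw [Nat.choose_eq_zero_of_lt h4]
        simp
      · rfl

lemma tau_coeff_zero (s : Fin n) (g : MvPolynomial (Fin n) K) : (tau s g).coeff 0 = g := by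
  ext γ
  rw [tau_coeff]
  simp

/-- An ideal of the polynomial ring stable under Hasse derivatives is trivial. -/
lemma ideal_eq_top_of_stable (J : Ideal (MvPolynomial (Fin n) K)) (hJ : J ≠ ⊥)
    (hst : ∀ (s : Fin n) (t : ℕ), ∀ a ∈ J, (tau s a).coeff t ∈ J) : J = ⊤ := by
  classical
  obtain ⟨g, hg, hg0⟩ := Submodule.exists_mem_ne_zero_of_ne_bot hJ
  rw [Ideal.eq_top_iff_one]
  suffices H : ∀ N : ℕ, ∀ g ∈ J, g ≠ 0 → g.totalDegree ≤ N → (1 : MvPolynomial (Fin n) K) ∈ J from
    H _ g hg hg0 le_rfl
  intro N
  induction N with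
  | zero =>
    intro g hg hg0 hN
    have h1 : g = MvPolynomial.C (MvPolynomial.coeff 0 g) :=
      MvPolynomial.totalDegree_eq_zero_iff_eq_C.mp (Nat.le_zero.mp hN)
    have h2 : MvPolynomial.coeff 0 g ≠ 0 := by
      intro h
      rw [h, map_zero] at h1
      exact hg0 h1
    have h3 := J.mul_mem_left (MvPolynomial.C (MvPolynomial.coeff 0 g)⁻¹) hg
    rw [h1, MvPolynomial.coeff_C, if_pos rfl, ← map_mul, inv_mul_cancel₀ h2, map_one] at h3
    exact h3
  | succ N ih =>
    intro g hg hg0 hN
    by_cases hz : g.totalDegree = 0
    · exact ih g hg hg0 (by omega)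
    obtain ⟨β, hβ, hβ0⟩ : ∃ β ∈ g.support, β ≠ 0 := by
      by_contra hcon
      push Not at hcon
      apply hz
      rw [MvPolynomial.totalDegree_eq_zero_iff]
      intro m hm x
      rw [hcon m hm]
      rfl
    obtain ⟨s, hs⟩ : ∃ s, β s ≠ 0 := by
      by_contra hcon
      push Not at hcon
      exact hβ0 (Finsupp.ext hcon)
    refine ih ((tau s g).coeff (β s)) (hst s _ g hg) ?_ ?_
    · intro h0
      have h1 := tau_coeff s g (β s) (β.erase s)
      rw [h0, MvPolynomial.coeff_zero, Finsupp.erase_same, zero_add, Nat.choose_self, Nat.cast_one,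
        one_mul, Finsupp.erase_add_single] at h1
      exact (MvPolynomial.mem_support_iff.mp hβ) h1.symm
    · unfold MvPolynomial.totalDegree
      refine Finset.sup_le fun γ hγ => ?_
      rw [MvPolynomial.mem_support_iff, tau_coeff] at hγ
      have h2 : γ + Finsupp.single s (β s) ∈ g.support := by
        rw [MvPolynomial.mem_support_iff]
        exact right_ne_zero_of_mul hγ
      have h3 := MvPolynomial.le_totalDegree h2
      rw [Finsupp.sum_add_index' (by simp) (by simp), Finsupp.sum_single_index rfl] at h3
      have : 0 < β s := Nat.pos_of_ne_zero hs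
      omega

end

end Pool.Agent.MP8049
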