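import Mathlib
import Pool.Agent.Lib.MP_8049df_ag.HSDef
import Pool.Agent.Lib.MP_8049df_ag.HSLift
import Pool.Agent.Lib.MP_8049df_ag.HSTaylor
import Pool.Agent.Lib.MP_8049df_ag.HSScale

set_option autoImplicit false

/-! Smooth charts imply Hasse-Schmidt simplicity. -/

namespace Pool.Agent.MP8049

/-- The contraction of a nonzero ideal along a standard etale map into a domain is nonzero. -/
lemma comap_ne_bot_of_standardEtale {A E : Type*} [CommRing A] [Nontrivial A] [CommRing E]
    [IsDomain E] [Algebra A E] [Algebra.IsStandardEtale A E] (J : Ideal E) (hJ : J ≠ ⊥) :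
    J.comap (algebraMap A E) ≠ ⊥ := by
  obtain ⟨e, heJ, he0⟩ := Submodule.exists_mem_ne_zero_of_ne_bot hJ
  obtain ⟨P⟩ := (inferInstance : Nonempty (StandardEtalePresentation A E))
  obtain ⟨p, m, hp⟩ := P.exists_mul_aeval_x_g_pow_eq_aeval_x e
  have hx : IsIntegral A P.x := ⟨P.f, P.monic_f, P.hasMap.1⟩
  have h1 : IsIntegral A (p.aeval P.x) := by
    have h2 : p.aeval P.x ∈ Algebra.adjoin A {P.x} := Polynomial.aeval_mem_adjoin_singleton A P.x
    have h3 : Algebra.adjoin A {P.x} ≤ integralClosure A E := by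
      refine Algebra.adjoin_le ?_
      intro y hy
      rw [Set.mem_singleton_iff] at hy
      subst hy
      exact hx
    exact h3 h2
  refine Ideal.comap_ne_bot_of_integral_mem (x := p.aeval P.x) ?_ ?_ h1
  · rw [← hp]
    exact mul_ne_zero he0 (P.hasMap.2.pow m).ne_zero
  · rw [← hp]
    exact J.mul_mem_right _ heJ

lemma isUnit_prod' {E : Type*} [CommRing E] {α : Type*} (s : Finset α) (h : α → E)
    (hu : ∀ a ∈ s, IsUnit (h a)) : IsUnit (∏ a ∈ s, h a) := by
  classical
  induction s using Finset.induction_on with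
  | empty => simp
  | insert a s ha ih =>
    rw [Finset.prod_insert ha]
    exact (hu a (Finset.mem_insert_self a s)).mul (ih fun b hb => hu b (Finset.mem_insert_of_mem hb))

section Main

variable {K₀ k L : Type} [Field K₀] [Field k] [Field L] [Algebra K₀ k]
    [Algebra K₀ L] [Algebra k L] [IsScalarTower K₀ k L] {ι : Type} [Fintype ι]

/-- Key step: the ideal of `E` generated by `J` contains `1`. -/
lemma key_E {E : Type} [CommRing E] {n : ℕ} [Algebra (MvPolynomial (Fin n) K₀) E]
    [Algebra.IsStandardEtale (MvPolynomial (Fin n) K₀) E] (j : E →+* L)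
    (hj : Function.Injective j) (hjK : ∀ c : K₀, j (algebraMap (MvPolynomial (Fin n) K₀) E
      (MvPolynomial.C c)) = algebraMap K₀ L c)
    (hfrac : ∀ z : L, ∃ a b : E, z = j a / j b)
    (x : ι → L) (hx : ∀ i, x i ≠ 0) (hxE : ∀ l, ∃ e, j e = x l)
    (U : Set k) (hUfin : U.Finite) (hUE : ∀ u ∈ U, ∃ e, j e = algebraMap k L u)
    (hUadj : IntermediateField.adjoin K₀ U = ⊤)
    (hclear : ∀ e : E, ∃ h : E, IsUnit h ∧ j h ∈ TG k x ∅ ∧ j (h * e) ∈ TG k x ∅)
    (J : Set L) (hJadd : ∀ f ∈ J, ∀ g ∈ J, f + g ∈ J)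
    (hJmul : ∀ r ∈ TG k x ∅, ∀ f ∈ J, r * f ∈ J)
    (hJne : ∃ e : E, j e ∈ J ∧ e ≠ 0)
    (hJst : ∀ (M : ℕ) (D : HSm L M), D.Pres (TG k x ∅ : Set L) → ∀ t, t < M → ∀ f ∈ J, D.D t f ∈ J) :
    ∃ h : E, IsUnit h ∧ j h ∈ J := by
  classical
  have : IsDomain E := hj.isDomain j
  have hJ0 : (0 : L) ∈ J := by
    obtain ⟨e, he, _⟩ := hJne
    have := hJmul 0 (Submodule.zero_mem _) _ he
    rwa [zero_mul] at this
  have hJsum : ∀ {α : Type} (s : Finset α) (g : α → L), (∀ a ∈ s, g a ∈ J) → ∑ a ∈ s, g a ∈ J := by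
    intro α s g hg
    induction s using Finset.induction_on with
    | empty => simpa using hJ0
    | insert a s ha ih =>
      rw [Finset.sum_insert ha]
      exact hJadd _ (hg a (Finset.mem_insert_self a s)) _
        (ih fun b hb => hg b (Finset.mem_insert_of_mem hb))
  have hmulR : ∀ {a b : L}, a ∈ TG k x ∅ → b ∈ TG k x ∅ → a * b ∈ TG k x ∅ :=
    fun ha hb => TG_mul hx ha hb
  -- the ideal of `E`
  let JE : Ideal E :=
    { carrier := {e | ∃ h : E, IsUnit h ∧ j h ∈ TG k x ∅ ∧ j (h * e) ∈ J}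
      add_mem' := by
        rintro a b ⟨h1, hu1, hR1, hJ1⟩ ⟨h2, hu2, hR2, hJ2⟩
        refine ⟨h1 * h2, hu1.mul hu2, by rw [map_mul]; exact hmulR hR1 hR2, ?_⟩
        have : j (h1 * h2 * (a + b)) = j h2 * j (h1 * a) + j h1 * j (h2 * b) := by
          simp only [map_mul, map_add]; ring
        rw [this]
        exact hJadd _ (hJmul _ hR2 _ hJ1) _ (hJmul _ hR1 _ hJ2)
      zero_mem' := ⟨1, isUnit_one, by rw [map_one]; exact one_mem_TG ∅, by
        rw [mul_zero, map_zero]; exact hJ0⟩
      smul_mem' := by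
        rintro c a ⟨h1, hu1, hR1, hJ1⟩
        obtain ⟨h2, hu2, hR2, hR2'⟩ := hclear c
        refine ⟨h1 * h2, hu1.mul hu2, by rw [map_mul]; exact hmulR hR1 hR2, ?_⟩
        have : j (h1 * h2 * (c • a)) = j (h2 * c) * j (h1 * a) := by
          simp only [smul_eq_mul, map_mul]; ring
        rw [this]
        exact hJmul _ hR2' _ hJ1 }
  have hJEmem : ∀ e, e ∈ JE ↔ ∃ h : E, IsUnit h ∧ j h ∈ TG k x ∅ ∧ j (h * e) ∈ J := fun e => Iff.rfl
  have hJE0 : JE ≠ ⊥ := by
    obtain ⟨e, he, he0⟩ := hJne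
    intro hbot
    apply he0
    have : e ∈ JE := ⟨1, isUnit_one, by rw [map_one]; exact one_mem_TG ∅, by rwa [one_mul]⟩
    rw [hbot] at this
    exact this
  have hcomap := comap_ne_bot_of_standardEtale (A := MvPolynomial (Fin n) K₀) JE hJE0
  have htop := ideal_eq_top_of_stable (JE.comap (algebraMap (MvPolynomial (Fin n) K₀) E)) hcomap (by
    intro s t a ha
    obtain ⟨D, hDE, hDA⟩ := exists_HSm (A := MvPolynomial (Fin n) K₀) j hj hfrac (tau s)
      (tau_coeff_zero s) t
    -- common denominator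
    have hden : ∀ e : E, ∃ h : E, IsUnit h ∧ j h ∈ TG k x ∅ ∧
        ∀ r, r < t + 1 → j h * D.D r (j e) ∈ TG k x ∅ := by
      intro e
      have h1 : ∀ r : ℕ, ∃ h : E, IsUnit h ∧ j h ∈ TG k x ∅ ∧
          (r < t + 1 → j h * D.D r (j e) ∈ TG k x ∅) := by
        intro r
        by_cases hr : r < t + 1
        · obtain ⟨e', he'⟩ := hDE r hr e
          obtain ⟨h, hu, hR, hR'⟩ := hclear e'
          refine ⟨h, hu, hR, fun _ => ?_⟩
          rw [he', ← map_mul]
          exact hR'
        · exact ⟨1, isUnit_one, by rw [map_one]; exact one_mem_TG ∅, fun h => absurd h hr⟩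
      choose h hu hR hR' using h1
      refine ⟨∏ r ∈ Finset.range (t + 1), h r, ?_, ?_, ?_⟩
      · exact isUnit_prod' _ _ fun r _ => hu r
      · rw [map_prod]
        exact (TR k hx ∅).prod_mem fun r _ => hR r
      · intro r hr
        rw [← Finset.mul_prod_erase _ _ (Finset.mem_range.mpr hr), map_mul, mul_comm (j (h r)),
          mul_assoc]
        refine hmulR ?_ (hR' r hr)
        rw [map_prod]
        exact (TR k hx ∅).prod_mem fun r _ => hR r
    have hfin : ∀ S : Finset E, ∃ h : E, IsUnit h ∧ j h ∈ TG k x ∅ ∧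
        ∀ e ∈ S, ∀ r, r < t + 1 → j h * D.D r (j e) ∈ TG k x ∅ := by
      intro S
      induction S using Finset.induction_on with
      | empty =>
        exact ⟨1, isUnit_one, by rw [map_one]; exact one_mem_TG ∅, fun e he => by simp at he⟩
      | insert e S heS ih =>
        obtain ⟨h1, hu1, hR1, hr1⟩ := ih
        obtain ⟨h2, hu2, hR2, hr2⟩ := hden e
        refine ⟨h1 * h2, hu1.mul hu2, by rw [map_mul]; exact hmulR hR1 hR2, ?_⟩
        intro e' he' r hr
        rcases Finset.mem_insert.mp he' with rfl | he'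
        · rw [map_mul, mul_assoc]
          exact hmulR hR1 (hr2 r hr)
        · rw [map_mul, mul_comm (j h1), mul_assoc]
          exact hmulR hR2 (hr1 e' he' r hr)
    choose ex hex using hxE
    have hU2 : ∀ u : k, ∃ e : E, u ∈ U → j e = algebraMap k L u := by
      intro u
      by_cases hu : u ∈ U
      · obtain ⟨e, he⟩ := hUE u hu
        exact ⟨e, fun _ => he⟩
      · exact ⟨0, fun h => absurd h hu⟩
    choose eu heu using hU2
    obtain ⟨h, hhu, hhR, hh⟩ := hfin (Finset.univ.image ex ∪ hUfin.toFinset.image eu)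
    have hpow : ∀ m : ℕ, j h ^ m ∈ TG k x ∅ := fun m => (TR k hx ∅).pow_mem hhR m
    have hgen : ∀ e ∈ (Finset.univ.image ex ∪ hUfin.toFinset.image eu), j e ∈ TG k x ∅ →
        j e ∈ (D.scale (j h)).sub (TR k hx ∅) := by
      intro e he heR r hr
      change j h ^ r * D.D r (j e) ∈ TG k x ∅
      cases r with
      | zero => rw [pow_zero, one_mul, D.D0]; exact heR
      | succ r =>
        rw [pow_succ, mul_assoc]
        exact hmulR (hpow r) (hh e he _ hr)
    have hKsub : ∀ c : K₀, algebraMap k L (algebraMap K₀ k c) ∈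
        (D.scale (j h)).sub (TR k hx ∅) := by
      intro c r hr
      change j h ^ r * D.D r _ ∈ TG k x ∅
      have h1 := hDA r hr (MvPolynomial.C c)
      rw [tau_C, hjK, Polynomial.coeff_C] at h1
      rw [← IsScalarTower.algebraMap_apply, h1]
      split_ifs with h0
      · rw [hjK, IsScalarTower.algebraMap_apply K₀ k L]
        exact hmulR (hpow r) (algebraMap_mem_TG ∅ _)
      · rw [map_zero, map_zero, mul_zero]
        exact Submodule.zero_mem _
    have hPres : (D.scale (j h)).Pres (TG k x ∅ : Set L) := by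
      refine pres_of_gens hx _ ?_ ?_
      · refine field_of_gens hx _ U hUadj ?_ hKsub
        intro u hu
        rw [← heu u hu]
        refine hgen _ ?_ ?_
        · exact Finset.mem_union_right _ (Finset.mem_image_of_mem _ (hUfin.mem_toFinset.mpr hu))
        · rw [heu u hu]; exact algebraMap_mem_TG ∅ _
      · intro l
        rw [← hex l]
        refine hgen _ ?_ ?_
        · exact Finset.mem_union_left _ (Finset.mem_image_of_mem _ (Finset.mem_univ l))
        · rw [hex l]; exact x_mem_TG ∅ l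
    have hst := hJst (t + 1) (D.scale (j h)) hPres
    have hd : ∀ (r : ℕ) (e : E), ∃ e', r < t + 1 → D.D r (j e) = j e' := by
      intro r e
      by_cases hr : r < t + 1
      · obtain ⟨e', he'⟩ := hDE r hr e
        exact ⟨e', fun _ => he'⟩
      · exact ⟨0, fun h => absurd h hr⟩
    choose d hd using hd
    have hA : ∀ r, r < t + 1 → ∀ e, j e ∈ J → d r e ∈ JE := by
      intro r hr e he
      refine ⟨h ^ r, hhu.pow r, by rw [map_pow]; exact hpow r, ?_⟩
      rw [map_mul, map_pow, ← hd r e hr]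
      exact hst r hr _ he
    have hB : ∀ r, r < t + 1 → ∀ e ∈ JE, d r e ∈ JE := by
      intro r
      induction r using Nat.strong_induction_on with
      | _ r ih =>
        intro hr e he
        obtain ⟨h1, hu1, hR1, hJ1⟩ := id he
        have hL : h1 * d r e = d r (h1 * e) -
            ∑ p ∈ (Finset.HasAntidiagonal.antidiagonal r).erase (0, r), d p.1 h1 * d p.2 e := by
          apply hj
          rw [map_mul, map_sub, map_sum, ← hd r e hr, ← hd r (h1 * e) hr, map_mul,
            D.leib' r hr (j h1) (j e)]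
          rw [eq_sub_iff_add_eq]
          congr 1
          refine Finset.sum_congr rfl fun p hp => ?_
          obtain ⟨hp1, hp2⟩ := mem_erase_anti hp
          rw [map_mul, hd p.1 h1 (by omega), hd p.2 e (by omega)]
        have h3 : h1 * d r e ∈ JE := by
          rw [hL]
          refine JE.sub_mem (hA r hr _ hJ1) (JE.sum_mem fun p hp => ?_)
          obtain ⟨hp1, hp2⟩ := mem_erase_anti hp
          exact JE.mul_mem_left _ (ih _ hp1 (by omega) e he)
        obtain ⟨v, hv⟩ := hu1.exists_left_inv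
        have h4 := JE.mul_mem_left v h3
        rwa [← mul_assoc, hv, one_mul] at h4
    rw [Ideal.mem_comap] at ha ⊢
    have h5 := hB t (Nat.lt_succ_self t) _ ha
    have h6 : d t (algebraMap (MvPolynomial (Fin n) K₀) E a) =
        algebraMap (MvPolynomial (Fin n) K₀) E ((tau s a).coeff t) := by
      apply hj
      rw [← hd t _ (Nat.lt_succ_self t), hDA t (Nat.lt_succ_self t)]
    rw [← h6]
    exact h5)
  have h1 : (1 : E) ∈ JE := by
    have : (1 : MvPolynomial (Fin n) K₀) ∈ JE.comap (algebraMap (MvPolynomial (Fin n) K₀) E) := by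
      rw [htop]; trivial
    rw [Ideal.mem_comap, map_one] at this
    exact this
  obtain ⟨h, hu, _, hJ'⟩ := h1
  exact ⟨h, hu, by rwa [mul_one] at hJ'⟩

end Main

theorem hsSimple_of_smAt {K₀ k L : Type} [Field K₀] [Field k] [Field L] [Algebra K₀ k]
    [Algebra K₀ L] [Algebra k L] [IsScalarTower K₀ k L] {ι : Type} [Fintype ι] (x : ι → L)
    (hx : ∀ i, x i ≠ 0) (hfr : ∀ f : L, ∃ p ∈ TG k x ∅, ∃ q ∈ TG k x ∅, q ≠ 0 ∧ f = p / q)
    (hsm : ∀ i, SmAt K₀ k x i) :
    HSSimple (TG k x ∅ : Set L) x := by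
  classical
  rintro J hJR hJadd hJmul ⟨f₀, hf₀J, hf₀0⟩ hJst i
  obtain ⟨B, hBs, hxB, hxiB, hBT, hTB, U, hUfin, hUB, hUadj⟩ := hsm i
  have hJ0 : (0 : L) ∈ J := by
    have := hJmul 0 (Submodule.zero_mem _) _ hf₀J
    rwa [zero_mul] at this
  have hmulR : ∀ {a b : L}, a ∈ TG k x ∅ → b ∈ TG k x ∅ → a * b ∈ TG k x ∅ :=
    fun ha hb => TG_mul hx ha hb
  have hxpow : ∀ N : ℕ, x i ^ N ∈ TG k x ∅ := fun N => (TR k hx ∅).pow_mem (x_mem_TG ∅ i) N
  by_contra hcon
  push Not at hcon
  let JB : Ideal B :=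
    { carrier := {b | ∃ N : ℕ, x i ^ N * (b : L) ∈ J}
      add_mem' := by
        rintro a b ⟨N1, h1⟩ ⟨N2, h2⟩
        refine ⟨N1 + N2, ?_⟩
        have : x i ^ (N1 + N2) * ((a + b : B) : L) =
            x i ^ N2 * (x i ^ N1 * (a : L)) + x i ^ N1 * (x i ^ N2 * (b : L)) := by
          push_cast
          rw [pow_add]
          ring
        rw [this]
        exact hJadd _ (hJmul _ (hxpow _) _ h1) _ (hJmul _ (hxpow _) _ h2)
      zero_mem' := ⟨0, by simpa using hJ0⟩
      smul_mem' := by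
        rintro c a ⟨N1, h1⟩
        obtain ⟨N2, h2⟩ := clear_x (k := k) hx i (hBT c c.2)
        refine ⟨N1 + N2, ?_⟩
        have : x i ^ (N1 + N2) * ((c • a : B) : L) =
            (x i ^ N2 * (c : L)) * (x i ^ N1 * (a : L)) := by
          simp only [smul_eq_mul]
          push_cast
          rw [pow_add]
          ring
        rw [this]
        exact hJmul _ (h2 N2 le_rfl) _ h1 }
  have hJBne : JB ≠ ⊤ := by
    intro htop
    have : (1 : B) ∈ JB := by rw [htop]; trivial
    obtain ⟨N, hN⟩ := this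
    apply hcon N
    simpa using hN
  obtain ⟨P, hPmax, hJP⟩ := Ideal.exists_le_maximal JB hJBne
  obtain ⟨f, hfP, n, algE, tower, hstd⟩ :=
    Algebra.IsSmoothAt.exists_isStandardEtale_mvPolynomial (R := K₀) (S := B) (p := P)
  have hf0 : f ≠ 0 := fun h => hfP (h ▸ P.zero_mem)
  have hfL : (f : L) ≠ 0 := fun h => hf0 (Subtype.ext h)
  let j : Localization.Away f →+* L := IsLocalization.Away.lift f (g := (B.val : B →+* L))
    (isUnit_iff_ne_zero.mpr hfL)
  have hjB : ∀ b : B, j (algebraMap B _ b) = b := fun b => IsLocalization.Away.lift_eq f _ b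
  have hfrac' : ∀ e : Localization.Away f, ∃ (b : B) (m : ℕ),
      algebraMap B (Localization.Away f) f ^ m * e = algebraMap B _ b := by
    intro e
    obtain ⟨⟨b, ⟨_, m, rfl⟩⟩, hb⟩ := IsLocalization.surj (Submonoid.powers f) e
    refine ⟨b, m, ?_⟩
    rw [← hb, mul_comm]
    simp
  have hfu : IsUnit (algebraMap B (Localization.Away f) f) :=
    IsLocalization.Away.algebraMap_isUnit f
  have hj : Function.Injective j := by
    rw [injective_iff_map_eq_zero]
    intro e he
    obtain ⟨b, m, hb⟩ := hfrac' e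
    have h1 : (b : L) = 0 := by
      rw [← hjB b, ← hb, map_mul, he, mul_zero]
    have h2 : b = 0 := Subtype.ext h1
    rw [h2, map_zero] at hb
    exact (hfu.pow m).mul_right_eq_zero.mp hb
  have hxu : IsUnit (algebraMap B (Localization.Away f) ⟨x i, hxB i⟩) := by
    refine IsUnit.map _ ?_
    refine ⟨⟨⟨x i, hxB i⟩, ⟨(x i)⁻¹, hxiB⟩, ?_, ?_⟩, rfl⟩
    · exact Subtype.ext (mul_inv_cancel₀ (hx i))
    · exact Subtype.ext (inv_mul_cancel₀ (hx i))
  have hR_sub : ∀ z ∈ TG k x ∅, z ∈ TG k x {i} := fun z hz => Sp_mono (EG_mono (by simp)) hz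
  obtain ⟨h, hhu, hhJ⟩ := key_E (K₀ := K₀) (k := k) (E := Localization.Away f) (n := n) j hj
    (by
      intro c
      have h1 : algebraMap (MvPolynomial (Fin n) K₀) (Localization.Away f) (MvPolynomial.C c) =
          algebraMap K₀ (Localization.Away f) c := by
        rw [IsScalarTower.algebraMap_apply K₀ (MvPolynomial (Fin n) K₀) (Localization.Away f)]
        rfl
      rw [h1, IsScalarTower.algebraMap_apply K₀ B (Localization.Away f), hjB]
      rfl)
    (by
      intro z
      obtain ⟨p, hp, q, hq, hq0, rfl⟩ := hfr z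
      obtain ⟨w, hw0, hwB, hwp⟩ := hTB p (hR_sub p hp)
      obtain ⟨w', hw0', hwB', hwq⟩ := hTB q (hR_sub q hq)
      refine ⟨algebraMap B _ (⟨_, hwB'⟩ * ⟨_, hwp⟩), algebraMap B _ (⟨_, hwB⟩ * ⟨_, hwq⟩), ?_⟩
      rw [hjB, hjB]
      simp only [MulMemClass.mk_mul_mk]
      have e1 : algebraMap k L w ≠ 0 := by simpa using hw0
      have e2 : algebraMap k L w' ≠ 0 := by simpa using hw0'
      field_simp)
    x hx (fun l => ⟨algebraMap B _ ⟨x l, hxB l⟩, hjB _⟩) U hUfin
    (fun u hu => ⟨algebraMap B _ ⟨_, hUB u hu⟩, hjB _⟩) hUadj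
    (by
      intro e
      obtain ⟨b, m, hb⟩ := hfrac' e
      obtain ⟨N1, h1⟩ := clear_x (k := k) hx i (hBT b b.2)
      obtain ⟨N2, h2⟩ := clear_x (k := k) hx i (hBT (f ^ m : B) (f ^ m : B).2)
      refine ⟨algebraMap B _ ⟨x i, hxB i⟩ ^ (N1 + N2) * algebraMap B _ f ^ m,
        (hxu.pow _).mul (hfu.pow _), ?_, ?_⟩
      · rw [← map_pow, ← map_pow, ← map_mul, hjB]
        push_cast
        have := h2 (N1 + N2) (by omega)
        push_cast at this
        exact this
      · rw [mul_assoc, hb, ← map_pow, ← map_mul, hjB]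
        push_cast
        exact h1 (N1 + N2) (by omega))
    J hJadd hJmul
    (by
      obtain ⟨w, hw0, hwB, hwf⟩ := hTB f₀ (hR_sub f₀ (hJR hf₀J))
      refine ⟨algebraMap B _ ⟨_, hwf⟩, ?_, ?_⟩
      · rw [hjB]
        exact hJmul _ (algebraMap_mem_TG ∅ _) _ hf₀J
      · intro h0
        have h1 := hjB ⟨_, hwf⟩
        rw [h0, map_zero] at h1
        simp only at h1
        rcases mul_eq_zero.mp h1.symm with h2 | h2
        · exact hw0 (by simpa using h2)
        · exact hf₀0 h2)
    hJst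
  -- conclusion
  obtain ⟨b, m, hb⟩ := hfrac' h
  have hbJ : b ∈ JB := by
    obtain ⟨N, hN⟩ := clear_x (k := k) hx i (hBT (f ^ m : B) (f ^ m : B).2)
    refine ⟨N, ?_⟩
    have h1 : (b : L) = (f : L) ^ m * j h := by
      rw [← hjB b, ← hb, map_mul, map_pow, hjB]
    rw [h1, ← mul_assoc]
    have := hN N le_rfl
    push_cast at this
    exact hJmul _ this _ hhJ
  have hbu : IsUnit (algebraMap B (Localization.Away f) b) := by
    rw [← hb]
    exact (hfu.pow m).mul hhu
  obtain ⟨v, hv⟩ := hbu.exists_left_inv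
  obtain ⟨c, m', hc⟩ := hfrac' v
  have h2 : f ^ m' = c * b := by
    have h3 : algebraMap B (Localization.Away f) (f ^ m') =
        algebraMap B (Localization.Away f) (c * b) := by
      rw [map_pow, map_mul, ← hc, mul_assoc, hv, mul_one]
    have h4 := congrArg j h3
    rw [hjB, hjB] at h4
    exact Subtype.ext h4
  have h5 : f ^ m' ∈ P := by
    rw [h2]
    exact P.mul_mem_left _ (hJP hbJ)
  exact hfP (hPmax.isPrime.mem_of_pow_mem _ h5)

end Pool.Agent.MP8049
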