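import Mathlib
import Pool.Agent.Lib.MP_8049df_ag.Acyc
import Pool.Agent.Lib.MP_8049df_ag.StateDef
import Pool.Agent.Lib.MP_8049df_ag.Maps


/-! ## Part Sq -/

set_option autoImplicit false

/-! The square-free stage: standard monomials in localizations. -/

namespace Pool.Agent.MP8049

variable {ι : Type*} [Fintype ι] [LinearOrder ι]
variable {L : Type*} [Field L] {k : Type*} [Field k] [Algebra k L]

/-- Square-free data. -/
structure Sq (k : Type*) {L : Type*} [Field k] [Field L] [Algebra k L] (x : ι → L) (v : ι → ℝ)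
    (Face : Finset ι → Prop) (g : ℝ) : Prop where
  hx : ∀ i, x i ≠ 0
  hv : ∀ i, 0 < v i
  hinj : ∀ a : ι → ℤ, wt v a = 0 → a = 0
  hom : Homog k x
  down : ∀ F G, Face F → G ⊆ F → Face G
  emp : Face ∅
  gpos : 0 < g
  R1 : ∀ b : ι → ℤ, b ∈ (Nn : Set (ι → ℤ)) → ¬ Face (sp b) →
    mon x b ∈ Sp k x (Nn ∩ Dj (dg b) ∩ Wge v (wt v b + g))
  R2 : ∀ t : (ι → ℤ) →₀ k, (∀ a ∈ t.support, a ∈ (Nn : Set (ι → ℤ)) ∧ Face (sp a)) →
    lc k x t = 0 → t = 0

variable {x : ι → L} {v : ι → ℝ} {Face : Finset ι → Prop} {g : ℝ}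

lemma Sq.wt_inj (h : Sq k x v Face g) {a b : ι → ℤ} (hab : wt v a = wt v b) : a = b := by
  have : a - b = 0 := h.hinj _ (by rw [wt_sub, hab, sub_self])
  exact sub_eq_zero.mp this

lemma mem_sp {a : ι → ℤ} {l : ι} : l ∈ sp a ↔ a l ≠ 0 := by
  simp [sp]

lemma nn_finite (e : ℤ) : {b : ι → ℤ | dg b = e ∧ b ∈ (Nn : Set (ι → ℤ))}.Finite := by
  refine (box_finite 0 e).subset ?_
  rintro a ⟨h1, h2⟩
  exact ⟨h1, fun i => by simpa using h2 i⟩

/-- Monomials in the homogeneous coordinate ring reduce to standard ones of at least the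
same weight. -/
lemma Sq.reduce (h : Sq k x v Face g) (e : ℤ) (U : Set ℝ) (hU : ∀ r ∈ U, ∀ r', r ≤ r' → r' ∈ U) :
    Sp k x (Nn ∩ Dj e ∩ {a | wt v a ∈ U}) ≤
      Sp k x (Nn ∩ Dj e ∩ {a | wt v a ∈ U} ∩ {a | Face (sp a)}) := by
  obtain ⟨B, hB⟩ : ∃ B : ℝ, ∀ b : ι → ℤ, dg b = e → b ∈ (Nn : Set (ι → ℤ)) → wt v b ≤ B := by
    obtain ⟨B, hB⟩ := ((nn_finite (ι := ι) e).image (wt v)).bddAbove
    exact ⟨B, fun b h1 h2 => hB ⟨b, ⟨h1, h2⟩, rfl⟩⟩
  have key : ∀ n : ℕ, ∀ b : ι → ℤ, dg b = e → b ∈ (Nn : Set (ι → ℤ)) → B - wt v b < n * g →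
      mon x b ∈ Sp k x (Nn ∩ Dj e ∩ {a | wt v b ≤ wt v a} ∩ {a | Face (sp a)}) := by
    intro n
    induction n with
    | zero =>
      intro b h1 h2 h3
      have := hB b h1 h2
      simp at h3
      linarith
    | succ n ih =>
      intro b h1 h2 h3
      by_cases hF : Face (sp b)
      · exact mon_mem_Sp ⟨⟨⟨h2, h1⟩, (show wt v b ≤ wt v b from le_refl _)⟩, hF⟩
      · have h4 := h.R1 b h2 hF
        refine (Sp_le ?_) h4
        rintro a ⟨⟨ha1, ha2⟩, ha3⟩
        have ha2' : dg a = dg b := ha2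
        have ha3' : wt v b + g ≤ wt v a := ha3
        have h5 := ih a (ha2'.trans h1) ha1 (by push_cast at h3; linarith)
        refine Sp_mono ?_ h5
        rintro c ⟨⟨hc1, hc2⟩, hc3⟩
        refine ⟨⟨hc1, ?_⟩, hc3⟩
        have hc2' : wt v a ≤ wt v c := hc2
        have := h.gpos
        show wt v b ≤ wt v c
        linarith
  refine Sp_le ?_
  rintro b ⟨⟨hb1, hb2⟩, hb3⟩
  obtain ⟨n, hn⟩ := exists_nat_gt ((B - wt v b) / g)
  have h1 := key n b hb2 hb1 (by rwa [div_lt_iff₀ h.gpos] at hn)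
  refine Sp_mono ?_ h1
  rintro c ⟨⟨hc1, hc2⟩, hc3⟩
  exact ⟨⟨hc1, hU _ hb3 _ hc2⟩, hc3⟩

lemma Sq.ns_iff (h : Sq k x v Face g) {b : ι → ℤ} (hb : b ∈ (Nn : Set (ι → ℤ))) :
    NS k x v b ↔ ¬ Face (sp b) := by
  constructor
  · intro hns hF
    have h1 := h.reduce (dg b) (Set.Ioi (wt v b)) (fun r hr r' hrr' => lt_of_lt_of_le hr hrr') hns
    obtain ⟨t, ht1, ht2⟩ := mem_Sp.mp h1
    have h2 : t - Finsupp.single b 1 = 0 := by
      refine h.R2 _ ?_ ?_
      · intro a ha
        have h3 := Finsupp.support_sub ha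
        rw [Finset.mem_union] at h3
        rcases h3 with h3 | h3
        · exact ⟨(ht1 h3).1.1.1, (ht1 h3).2⟩
        · have h4 := Finsupp.support_single_subset h3
          rw [Finset.mem_singleton] at h4
          subst h4
          exact ⟨hb, hF⟩
      · rw [map_sub, ht2, lc_single, one_smul, sub_self]
    have h3 : t = Finsupp.single b 1 := sub_eq_zero.mp h2
    have h4 : b ∈ t.support := by rw [h3, Finsupp.mem_support_iff]; simp
    exact lt_irrefl (wt v b) (show wt v b < wt v b from (ht1 h4).1.2)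
  · intro hF
    refine Sp_mono ?_ (h.R1 b hb hF)
    rintro a ⟨ha1, ha2⟩
    refine ⟨ha1, ?_⟩
    have ha2' : wt v b + g ≤ wt v a := ha2
    have := h.gpos
    show wt v b < wt v a
    linarith

lemma sp_add_single {b : ι → ℤ} {i : ι} (hb : b ∈ (Nn : Set (ι → ℤ))) (hi : 1 ≤ b i) :
    sp (b + Pi.single i 1) = sp b := by
  ext l
  rw [mem_sp, mem_sp, Pi.add_apply]
  by_cases hl : l = i
  · subst hl
    rw [Pi.single_eq_same]
    have := hb l
    constructor <;> intro _ <;> omega
  · rw [Pi.single_eq_of_ne hl, add_zero]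

lemma Sq.tog (h : Sq k x v Face g) : Tog k x v 1 := by
  intro b hb i hi hns
  have hb' : b + Pi.single i 1 ∈ (Nn : Set (ι → ℤ)) := by
    intro l
    rw [Pi.add_apply]
    refine add_nonneg (hb l) ?_
    by_cases hl : l = i
    · subst hl; simp
    · rw [Pi.single_eq_of_ne hl]
  rw [h.ns_iff hb', sp_add_single hb hi] at hns
  rw [h.ns_iff hb]
  exact hns

/-- The support of the numerator at a high level. -/
lemma sp_add_ind {a : ι → ℤ} {G : Finset ι} (ha : a ∈ (EG G : Set (ι → ℤ))) {N : ℕ}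
    (hN : ∀ i, (a i).natAbs < N) : sp (a + ind N G) = G ∪ sp a ∧
      a + ind N G ∈ (Nn : Set (ι → ℤ)) := by
  constructor
  · ext l
    rw [mem_sp, Finset.mem_union, mem_sp, Pi.add_apply]
    simp only [ind]
    by_cases hl : l ∈ G
    · simp only [hl, if_true, true_or, iff_true]
      have := hN l
      omega
    · simp only [hl, if_false, add_zero, false_or]
  · intro l
    simp only [Pi.add_apply, ind]
    by_cases hl : l ∈ G
    · simp only [hl, if_true]
      have := hN l
      omega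
    · simp only [hl, if_false, add_zero]
      exact ha l hl

lemma exists_big (s : Finset (ι → ℤ)) (M : ℕ) :
    ∃ N : ℕ, M ≤ N ∧ ∀ a ∈ s, ∀ i, (a i).natAbs < N := by
  refine ⟨max M (s.sup (fun a => Finset.univ.sup (fun i => (a i).natAbs)) + 1),
    le_max_left _ _, fun a ha i => ?_⟩
  have h1 : (a i).natAbs ≤ Finset.univ.sup (fun i => (a i).natAbs) :=
    Finset.le_sup (f := fun i => (a i).natAbs) (Finset.mem_univ i)
  have h2 : Finset.univ.sup (fun i => (a i).natAbs) ≤
      s.sup (fun a => Finset.univ.sup (fun i => (a i).natAbs)) :=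
    Finset.le_sup (f := fun a : ι → ℤ => Finset.univ.sup (fun i => (a i).natAbs)) ha
  omega

/-- Nonstandard monomials in a localization gain weight. -/
lemma Sq.S1 (h : Sq k x v Face g) {G : Finset ι} {a : ι → ℤ} (ha : a ∈ (EG G : Set (ι → ℤ)))
    (hF : ¬ Face (G ∪ sp a)) : mon x a ∈ RF k x v (dg a) (wt v a + g) G := by
  obtain ⟨N, _, hN⟩ := exists_big {a} 0
  have hN' := hN a (Finset.mem_singleton_self a)
  obtain ⟨h1, h2⟩ := sp_add_ind ha hN'
  have h3 := h.R1 _ h2 (by rw [h1]; exact hF)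
  have h4 : mon x a = mon x (a + ind N G) * mon x (-(ind N G)) := by
    rw [← mon_add h.hx]
    congr 1
    abel
  rw [h4]
  refine Sp_mul_mon h.hx ?_ h3
  rintro b ⟨⟨hb1, hb2⟩, hb3⟩
  simp only [Dj, Wge, Set.mem_ofPred_eq, dg_add, wt_add] at hb2 hb3
  refine ⟨⟨?_, ?_⟩, ?_⟩
  · have : b + -(ind N G) ∈ (EN N G : Set (ι → ℤ)) := by
      rw [EN_iff]
      simpa using hb1
    exact EN_subset_EG this
  · simp only [Dj, Set.mem_ofPred_eq, dg_add, dg_neg]
    linarith
  · simp only [Wge, Set.mem_ofPred_eq, wt_add, wt_neg]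
    linarith

/-- Uniqueness of standard expansions in a localization. -/
lemma Sq.S2 (h : Sq k x v Face g) {G : Finset ι} {j : ℤ} (U : Set ℝ)
    (hU : ∀ r ∈ U, ∀ r', r ≤ r' → r' ∈ U) {t : (ι → ℤ) →₀ k}
    (ht : ∀ a ∈ t.support, a ∈ (EG G : Set (ι → ℤ)) ∧ Face (G ∪ sp a) ∧ wt v a ∉ U)
    (hlc : lc k x t ∈ Sp k x (EG G ∩ Dj j ∩ {a | wt v a ∈ U})) : t = 0 := by
  rw [Set.inter_assoc] at hlc
  obtain ⟨N₀, hN₀⟩ := exists_level hlc
  obtain ⟨N, hN1, hN2⟩ := exists_big t.support N₀
  have h1 := hN₀ N hN1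
  set c : ι → ℤ := ind N G with hc
  have h2 : lc k x t * mon x c ∈ Sp k x (Nn ∩ Dj (j + dg c) ∩ {a | wt v a ∈ {r | r - wt v c ∈ U}}) := by
    refine Sp_mul_mon h.hx ?_ h1
    rintro b ⟨hb1, hb2, hb3⟩
    refine ⟨⟨EN_iff.mp hb1, ?_⟩, ?_⟩
    · have hb2' : dg b = j := hb2
      show dg (b + c) = j + dg c
      rw [dg_add, hb2']
    · show wt v (b + c) - wt v c ∈ U
      rw [wt_add, add_sub_cancel_right]
      exact hb3
  have h3 := h.reduce (j + dg c) {r | r - wt v c ∈ U}
    (fun r hr r' hrr' => hU (r - wt v c) hr (r' - wt v c) (by linarith)) h2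
  obtain ⟨s, hs1, hs2⟩ := mem_Sp.mp h3
  set t' : (ι → ℤ) →₀ k := t.mapDomain (fun a => a + c) with ht'
  have hinj : Function.Injective (fun a : ι → ℤ => a + c) := add_left_injective c
  have h4 : lc k x t' = lc k x t * mon x c := by
    rw [ht']
    unfold lc
    rw [Finsupp.linearCombination_mapDomain, Finsupp.linearCombination_apply,
      Finsupp.linearCombination_apply, Finsupp.sum, Finsupp.sum, Finset.sum_mul]
    refine Finset.sum_congr rfl fun a _ => ?_
    simp only [Function.comp_apply, mon_add h.hx, smul_mul_assoc]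
  have h5 : t' - s = 0 := by
    refine h.R2 _ ?_ (by rw [map_sub, h4, hs2, sub_self])
    intro a ha
    have h6 := Finsupp.support_sub ha
    rw [Finset.mem_union] at h6
    rcases h6 with h6 | h6
    · have h7 := Finsupp.mapDomain_support h6
      rw [Finset.mem_image] at h7
      obtain ⟨a', ha', rfl⟩ := h7
      obtain ⟨h8, h9⟩ := sp_add_ind (ht a' ha').1 (hN2 a' ha')
      exact ⟨h9, by rw [h8]; exact (ht a' ha').2.1⟩
    · exact ⟨(hs1 h6).1.1.1, (hs1 h6).2⟩
  have h6 : t' = s := sub_eq_zero.mp h5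
  ext a
  by_contra hne
  have ha : a ∈ t.support := Finsupp.mem_support_iff.mpr hne
  have h7 : t' (a + c) = t a := Finsupp.mapDomain_apply hinj t a
  have h8 : a + c ∈ s.support := by
    rw [← h6, Finsupp.mem_support_iff, h7]
    exact hne
  have h9 : wt v (a + c) - wt v c ∈ U := (hs1 h8).1.2
  rw [wt_add, add_sub_cancel_right] at h9
  exact (ht a ha).2.2 h9

/-- Nonfaces: everything is deep. -/
lemma Sq.nonface (h : Sq k x v Face g) {G : Finset ι} (hG : ¬ Face G) (j : ℤ) (ν : ℝ) :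
    RG k x j G ≤ RF k x v j ν G := by
  have h1 : (1 : L) ∈ RF k x v 0 g G := by
    have h2 := h.S1 (G := G) (a := 0) (fun i _ => le_refl _)
      (by
        have : sp (0 : ι → ℤ) = ∅ := by simp [sp]
        rw [this, Finset.union_empty]
        exact hG)
    rwa [mon_zero, dg_zero, wt_zero, zero_add] at h2
  have h3 : ∀ m : ℕ, (1 : L) ∈ RF k x v 0 (m * g) G := by
    intro m
    induction m with
    | zero =>
      have : (1 : L) = mon x 0 := (mon_zero x).symm
      rw [this]
      refine mon_mem_Sp ⟨⟨fun i _ => le_refl _, dg_zero⟩, ?_⟩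
      simp [Wge, wt_zero]
    | succ m ih =>
      have := RF_mul h.hx ih h1
      rw [one_mul, zero_add] at this
      have e : ((m + 1 : ℕ) : ℝ) * g = m * g + g := by push_cast; ring
      rw [e]
      exact this
  intro f hf
  obtain ⟨ω, hω⟩ := mem_Sp_finite_wt (v := v) hf
  obtain ⟨m, hm⟩ := exists_nat_gt ((ν - ω) / g)
  have h4 := RF_mul h.hx hω (h3 m)
  rw [mul_one, add_zero] at h4
  refine RF_anti x v j ?_ G h4
  rw [div_lt_iff₀ h.gpos] at hm
  linarith

/-- The window structure of the square-free stage. -/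
lemma Sq.win (h : Sq k x v Face g) (j : ℤ) {ν ν' : ℝ} (h1 : ν ≤ ν') (h2 : ν' ≤ ν + g) :
    Win (RF k x v j ν) (RF k x v j ν') (mon x) {a | dg a = j ∧ ν ≤ wt v a ∧ wt v a < ν'}
      (fun G a => a ∈ (EG G : Set (ι → ℤ))) (fun G a => a ∈ (EG G : Set (ι → ℤ)) ∧ Face (G ∪ sp a)) := by
  have hnon : ∀ a ∈ {a : ι → ℤ | dg a = j ∧ ν ≤ wt v a ∧ wt v a < ν'}, ∀ G : Finset ι,
      a ∈ (EG G : Set (ι → ℤ)) → ¬ (a ∈ (EG G : Set (ι → ℤ)) ∧ Face (G ∪ sp a)) →
      mon x a ∈ RF k x v j ν' G := by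
    rintro a ⟨ha1, ha2, ha3⟩ G hG hn
    have h3 := h.S1 hG (fun hF => hn ⟨hG, hF⟩)
    rw [ha1] at h3
    exact RF_anti x v j (by linarith) G h3
  refine ⟨fun G => RF_anti x v j h1 G, RF_FMono x v j ν', fun G a ha => ha.1,
    fun G H a hGH ha => EG_mono hGH ha, ?_, hnon, ?_, ?_⟩
  · rintro a ⟨ha1, ha2, ha3⟩ G hG
    exact mon_mem_Sp ⟨⟨hG, ha1⟩, ha2⟩
  · intro G f hf
    obtain ⟨t, ht1, rfl⟩ := mem_Sp.mp hf
    classical
    refine ⟨t.filter (fun a => wt v a < ν' ∧ Face (G ∪ sp a)), ?_, ?_⟩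
    · intro a ha
      rw [Finsupp.support_filter, Finset.mem_filter] at ha
      have h3 := ht1 ha.1
      exact ⟨⟨h3.1.2, h3.2, ha.2.1⟩, h3.1.1, ha.2.2⟩
    · have h3 : lc k x t - Finsupp.linearCombination k (mon x)
          (t.filter (fun a => wt v a < ν' ∧ Face (G ∪ sp a))) =
          lc k x (t.filter (fun a => ¬ (wt v a < ν' ∧ Face (G ∪ sp a)))) := by
        have h4 := Finsupp.filter_add_filter_not t (fun a => wt v a < ν' ∧ Face (G ∪ sp a))
        have h5 : lc k x t = lc k x (t.filter (fun a => wt v a < ν' ∧ Face (G ∪ sp a))) +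
            lc k x (t.filter (fun a => ¬ (wt v a < ν' ∧ Face (G ∪ sp a)))) := by
          rw [← map_add, h4]
        rw [h5]
        exact add_sub_cancel_left _ _
      rw [h3, lc_apply]
      refine Submodule.sum_mem _ fun a ha => Submodule.smul_mem _ _ ?_
      rw [Finsupp.support_filter, Finset.mem_filter] at ha
      have h4 := ht1 ha.1
      by_cases h5 : wt v a < ν'
      · exact hnon a ⟨h4.1.2, h4.2, h5⟩ G h4.1.1 (fun h6 => ha.2 ⟨h5, h6.2⟩)
      · exact mon_mem_Sp ⟨h4.1, le_of_not_gt h5⟩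
  · intro G t ht hlc
    refine h.S2 (G := G) (j := j) (Set.Ici ν') (fun r hr r' hrr' => le_trans hr hrr') ?_ hlc
    intro a ha
    obtain ⟨⟨h3, h4, h5⟩, h6, h7⟩ := ht a ha
    exact ⟨h6, h7, not_le.mpr h5⟩

/-- Exactness for multidegrees with a positive coordinate. -/
lemma grEx_pos {a : ι → ℤ} {i : ι} (hi : 1 ≤ a i) (q : ℕ) :
    GrEx k (fun G => a ∈ (EG G : Set (ι → ℤ)) ∧ Face (G ∪ sp a)) q := by
  have hsp : i ∈ sp a := by
    simp only [sp, Finset.mem_filter, Finset.mem_univ, true_and]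
    omega
  have hun : ∀ G : Finset ι, insert i G ∪ sp a = G ∪ sp a := by
    intro G
    rw [Finset.insert_union, Finset.insert_eq_of_mem]
    exact Finset.mem_union_right _ hsp
  refine grEx_of_toggle k _ i ?_ ?_ q
  · rintro G _ ⟨h1, h2⟩
    exact ⟨EG_mono (Finset.subset_insert _ _) h1, by rw [hun]; exact h2⟩
  · rintro G _ ⟨h1, h2⟩
    refine ⟨fun l hl => ?_, by rw [hun] at h2; exact h2⟩
    by_cases hli : l = i
    · subst hli; omega
    · exact h1 l (by simp [hli, hl])

/-- acyclicity in positive weights. -/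
lemma Sq.exRF (h : Sq k x v Face g) (j : ℤ) (q : ℕ) {ν : ℝ} (hν : 0 < ν) :
    Ex (RF k x v j ν) q := by
  refine acyc_RF h.hx h.hinj (by norm_num) h.tog j q ν ?_
  intro a _ ha
  by_contra hcon
  push Not at hcon
  have : wt v a ≤ 0 := by
    unfold wt
    refine Finset.sum_nonpos fun i _ => ?_
    have h1 : (a i : ℝ) ≤ 0 := by
      have := hcon i
      have h2 : a i ≤ 0 := by omega
      exact_mod_cast h2
    exact mul_nonpos_of_nonpos_of_nonneg h1 (h.hv i).le
  linarith

end Pool.Agent.MP8049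


/-! ## Part SqLift -/

set_option autoImplicit false

/-! Lifting of square-free cocycles, generation of cohomology by lifts, leading forms of
coboundaries, boundedness of the socle. -/

namespace Pool.Agent.MP8049

variable {ι : Type*} [Fintype ι] [LinearOrder ι]
variable {L : Type*} [Field L] {k : Type*} [Field k] [Algebra k L]
variable {x : ι → L} {v : ι → ℝ} {Face : Finset ι → Prop} {g : ℝ}

/-- cocycles on the faces containing `F` -/
def Coc (Face : Finset ι → Prop) (F : Finset ι) (q : ℕ) (z : Finset ι → k) : Prop :=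
  (∀ G, z G ≠ 0 → F ⊆ G ∧ Face G ∧ G.card = q) ∧
    ∀ G, F ⊆ G → Face G → G.card = q + 1 → cd z G = 0

/-- coboundaries on the faces containing `F` -/
def Cob (Face : Finset ι → Prop) (F : Finset ι) (q : ℕ) (z : Finset ι → k) : Prop :=
  ∃ s : Finset ι → k, (∀ G, s G ≠ 0 → F ⊆ G ∧ Face G ∧ G.card + 1 = q) ∧
    ∀ G, F ⊆ G → Face G → G.card = q → cd s G = z G

lemma Coc.add {F : Finset ι} {q : ℕ} {z z' : Finset ι → k} (h : Coc Face F q z)
    (h' : Coc Face F q z') : Coc Face F q (z + z') := by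
  refine ⟨fun G hG => ?_, fun G h1 h2 h3 => ?_⟩
  · by_cases hz : z G = 0
    · exact h'.1 G (fun h0 => hG (by simp [hz, h0]))
    · exact h.1 G hz
  · rw [cd_add, Pi.add_apply, h.2 G h1 h2 h3, h'.2 G h1 h2 h3, add_zero]

lemma Coc.smul {F : Finset ι} {q : ℕ} {z : Finset ι → k} (c : k) (h : Coc Face F q z) :
    Coc Face F q (c • z) := by
  refine ⟨fun G hG => ?_, fun G h1 h2 h3 => ?_⟩
  · exact h.1 G (fun h0 => hG (by simp [h0]))
  · rw [cd_smul, Pi.smul_apply, h.2 G h1 h2 h3, smul_zero]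

lemma Coc.zero {F : Finset ι} {q : ℕ} : Coc (k := k) Face F q 0 :=
  ⟨fun G hG => absurd rfl hG, fun G _ _ _ => by simp [cd_zero]⟩

lemma eg_nonpos {a : ι → ℤ} (ha : ∀ i, a i ≤ 0) {G : Finset ι} :
    a ∈ (EG G : Set (ι → ℤ)) ↔ sp a ⊆ G := by
  constructor
  · intro h i hi
    by_contra hG
    have h1 := h i hG
    have h2 := ha i
    exact mem_sp.mp hi (le_antisymm h2 h1)
  · intro h i hi
    have h1 : a i = 0 := by
      by_contra hne
      exact hi (h (mem_sp.mpr hne))
    rw [h1]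

lemma std_nonpos {a : ι → ℤ} (ha : ∀ i, a i ≤ 0) {G : Finset ι} :
    (a ∈ (EG G : Set (ι → ℤ)) ∧ Face (G ∪ sp a)) ↔ (sp a ⊆ G ∧ Face G) := by
  rw [eg_nonpos ha]
  constructor
  · rintro ⟨h1, h2⟩
    rw [Finset.union_eq_left.mpr h1] at h2
    exact ⟨h1, h2⟩
  · rintro ⟨h1, h2⟩
    rw [Finset.union_eq_left.mpr h1]
    exact ⟨h1, h2⟩

/-- The cochain `z x^a`. -/
def zm (x : ι → L) (z : Finset ι → k) (a : ι → ℤ) : Finset ι → L := fun G => z G • mon x a

lemma cd_zm (x : ι → L) (z : Finset ι → k) (a : ι → ℤ) : cd (zm x z a) = zm x (cd z) a :=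
  cd_smul_fixed z (mon x a)

lemma zm_mem {a : ι → ℤ} (ha : ∀ i, a i ≤ 0) {q : ℕ} {z : Finset ι → k}
    (hz : Coc Face (sp a) q z) {P : Finset ι → Submodule k L}
    (hP : ∀ G, a ∈ (EG G : Set (ι → ℤ)) → mon x a ∈ P G) : zm x z a ∈ Coch P q := by
  intro G
  by_cases h0 : z G = 0
  · simp only [zm, h0, zero_smul]
    exact ⟨Submodule.zero_mem _, fun _ => trivial⟩
  · obtain ⟨h1, h2, h3⟩ := hz.1 G h0
    refine ⟨Submodule.smul_mem _ _ (hP G ((eg_nonpos ha).mpr h1)), fun h => absurd h3 h⟩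

/-- Existence of lifts, with an error of arbitrarily large weight. -/
lemma Sq.exists_lift (h : Sq k x v Face g) {a : ι → ℤ} (ha : ∀ i, a i ≤ 0) {q : ℕ}
    {z : Finset ι → k} (hz : Coc Face (sp a) q z) (ν : ℝ) :
    ∃ l ∈ Cyc (RG k x (dg a)) q, zm x z a - l ∈ Coch (RF k x v (dg a) ν) q := by
  set ν' := max ν 1 with hν'
  have hpos : 0 < ν' := lt_of_lt_of_le one_pos (le_max_right _ _)
  have hzc : zm x z a ∈ Coch (RG k x (dg a)) q :=
    zm_mem ha hz (fun G hG => mon_mem_Sp ⟨hG, rfl⟩)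
  have h1 : cd (zm x z a) ∈ Coch (RF k x v (dg a) ν') (q + 1) := by
    intro G
    have h2 := cd_mem_Coch (RG_FMono (k := k) x (dg a)) hzc G
    refine ⟨?_, h2.2⟩
    by_cases hF : Face G
    · rw [cd_zm]
      by_cases hcard : G.card = q + 1
      · by_cases hsub : sp a ⊆ G
        · simp only [zm]
          rw [hz.2 G hsub hF hcard, zero_smul]
          exact Submodule.zero_mem _
        · have h3 : cd z G = 0 := by
            rw [cd_apply]
            refine Finset.sum_eq_zero fun l _ => ?_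
            by_cases h4 : z (G.erase l) = 0
            · rw [h4, smul_zero]
            · exact absurd ((hz.1 _ h4).1.trans (Finset.erase_subset l G)) hsub
          simp only [zm]
          rw [h3, zero_smul]
          exact Submodule.zero_mem _
      · rw [← cd_zm, h2.2 hcard]
        exact Submodule.zero_mem _
    · exact h.nonface hF _ _ h2.1
  have h2 : cd (zm x z a) ∈ Cyc (RF k x v (dg a) ν') (q + 1) := ⟨h1, cd_cd _⟩
  obtain ⟨y, hy, hyc⟩ := h.exRF (dg a) (q + 1) hpos h2
  refine ⟨zm x z a - y, ⟨Submodule.sub_mem _ hzc (Coch_mono (RF_le_RG x v (dg a) ν') q hy), ?_⟩, ?_⟩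
  · show cd (zm x z a - y) = 0
    rw [cd_sub]
    have : cd y = cd (zm x z a) := hyc
    rw [this, sub_self]
  · rw [sub_sub_cancel]
    exact Coch_mono (RF_anti x v (dg a) (le_max_left _ _)) q hy

/-- `l` is a lift of `z x^a`. -/
def IsLift (k : Type*) [Field k] [Algebra k L] (x : ι → L) (v : ι → ℝ) (Face : Finset ι → Prop)
    (j : ℤ) (q : ℕ) (a : ι → ℤ) (z : Finset ι → k) (l : Finset ι → L) : Prop :=
  Coc Face (sp a) q z ∧ l ∈ Cyc (RG k x j) q ∧ ∃ ν : ℝ, 0 < ν ∧ zm x z a - l ∈ Coch (RF k x v j ν) q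

lemma zm_add (x : ι → L) (z z' : Finset ι → k) (a : ι → ℤ) :
    zm x (z + z') a = zm x z a + zm x z' a := by
  funext G
  simp [zm, add_smul]

lemma zm_smul (x : ι → L) (c : k) (z : Finset ι → k) (a : ι → ℤ) :
    zm x (c • z) a = c • zm x z a := by
  funext G
  simp [zm, mul_smul]

lemma zm_zero (x : ι → L) (a : ι → ℤ) : zm x (0 : Finset ι → k) a = 0 := by
  funext G
  simp [zm]

lemma IsLift.add {j : ℤ} {q : ℕ} {a : ι → ℤ} {z z' : Finset ι → k} {l l' : Finset ι → L}
    (h : IsLift k x v Face j q a z l) (h' : IsLift k x v Face j q a z' l') :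
    IsLift k x v Face j q a (z + z') (l + l') := by
  obtain ⟨h1, h2, ν, h3, h4⟩ := h
  obtain ⟨h1', h2', ν', h3', h4'⟩ := h'
  refine ⟨h1.add h1', Submodule.add_mem _ h2 h2', min ν ν', lt_min h3 h3', ?_⟩
  rw [zm_add, add_sub_add_comm]
  exact Submodule.add_mem _ (Coch_mono (RF_anti x v j (min_le_left _ _)) q h4)
    (Coch_mono (RF_anti x v j (min_le_right _ _)) q h4')

lemma IsLift.smul {j : ℤ} {q : ℕ} {a : ι → ℤ} {z : Finset ι → k} {l : Finset ι → L} (c : k)
    (h : IsLift k x v Face j q a z l) : IsLift k x v Face j q a (c • z) (c • l) := by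
  obtain ⟨h1, h2, ν, h3, h4⟩ := h
  refine ⟨h1.smul c, Submodule.smul_mem _ _ h2, ν, h3, ?_⟩
  rw [zm_smul, ← smul_sub]
  exact Submodule.smul_mem _ _ h4

lemma IsLift.zero {j : ℤ} {q : ℕ} {a : ι → ℤ} : IsLift k x v Face j q a 0 0 := by
  refine ⟨Coc.zero, Submodule.zero_mem _, 1, one_pos, ?_⟩
  rw [zm_zero, sub_zero]
  exact Submodule.zero_mem _

/-- Sums of coboundaries and lifts with weights in `U`. -/
def Rep (k : Type*) [Field k] [Algebra k L] (x : ι → L) (v : ι → ℝ) (Face : Finset ι → Prop)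
    (j : ℤ) (q : ℕ) (U : Set ℝ) : Submodule k (Finset ι → L) :=
  Bdy (RG k x j) q ⊔ Submodule.span k {l | ∃ a z, (∀ i, a i ≤ 0) ∧ dg a = j ∧ wt v a ∈ U ∧
    IsLift k x v Face j q a z l}

lemma Rep_mono {j : ℤ} {q : ℕ} {U U' : Set ℝ} (h : U ⊆ U') :
    Rep k x v Face j q U ≤ Rep k x v Face j q U' := by
  refine sup_le_sup_left (Submodule.span_mono ?_) _
  rintro l ⟨a, z, h1, h2, h3, h4⟩
  exact ⟨a, z, h1, h2, h h3, h4⟩

lemma Rep_le_Cyc {j : ℤ} {q : ℕ} {U : Set ℝ} : Rep k x v Face j q U ≤ Cyc (RG k x j) q := by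
  refine sup_le (Bdy_le_Cyc (RG_FMono x j) q) ?_
  rw [Submodule.span_le]
  rintro l ⟨a, z, _, _, _, h4⟩
  exact h4.2.1

/-- Every cocycle is a sum of a coboundary and of lifts. -/
lemma Sq.span_aux (h : Sq k x v Face g) (j : ℤ) (q : ℕ) (n : ℕ) : ∀ ν : ℝ, -ν < n * g →
    ∀ c ∈ Cyc (RG k x j) q, c ∈ Coch (RF k x v j ν) q → c ∈ Rep k x v Face j q (Set.Ici ν) := by
  induction n with
  | zero =>
    intro ν hν c hc hcF
    have hν' : 0 < ν := by simp at hν; exact hν
    have h1 := h.exRF j q hν' (show c ∈ Cyc (RF k x v j ν) q from ⟨hcF, hc.2⟩)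
    exact Submodule.mem_sup_left (Bdy_mono (RF_le_RG x v j ν) q h1)
  | succ n ih =>
    intro ν hν c hc hcF
    have hg := h.gpos
    have hcd0 : cd c = 0 := hc.2
    obtain ⟨b, hb, A, hA, z, hz, hfin⟩ := (h.win j (ν := ν) (ν' := ν + g) (by linarith)
      (le_refl _)).main hcF (fun G _ => by rw [hcd0]; exact Submodule.zero_mem _)
      (fun a => ∃ i, 1 ≤ a i) (fun a _ ha => by
        obtain ⟨i, hi⟩ := ha
        exact grEx_pos hi q)
    have hA0 : ∀ a ∈ A, ∀ i, a i ≤ 0 := by
      intro a ha i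
      have := (hA a ha).2
      push Not at this
      have := this i
      omega
    have hAdg : ∀ a ∈ A, dg a = j := fun a ha => (hA a ha).1.1
    have hAwt : ∀ a ∈ A, ν ≤ wt v a := fun a ha => (hA a ha).1.2.1
    have hzc : ∀ a ∈ A, Coc Face (sp a) q (z a) := by
      intro a ha
      obtain ⟨h1, h2⟩ := hz a ha
      refine ⟨fun G hG => ?_, fun G h3 h4 h5 => ?_⟩
      · obtain ⟨h3, h4⟩ := h1 G hG
        rw [std_nonpos (hA0 a ha)] at h3
        exact ⟨h3.1, h3.2, h4⟩
      · exact h2 G ((std_nonpos (hA0 a ha)).mpr ⟨h3, h4⟩) h5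
    have hl : ∀ a : ι → ℤ, ∃ l : Finset ι → L, a ∈ A → l ∈ Cyc (RG k x j) q ∧
        zm x (z a) a - l ∈ Coch (RF k x v j (max (ν + g) 1)) q := by
      intro a
      by_cases ha : a ∈ A
      · obtain ⟨l, h1, h2⟩ := h.exists_lift (hA0 a ha) (hzc a ha) (max (ν + g) 1)
        rw [hAdg a ha] at h1 h2
        exact ⟨l, fun _ => ⟨h1, h2⟩⟩
      · exact ⟨0, fun h => absurd h ha⟩
    choose l hl using hl
    have hlift : ∀ a ∈ A, IsLift k x v Face j q a (z a) (l a) := fun a ha =>
      ⟨hzc a ha, (hl a ha).1, max (ν + g) 1, lt_of_lt_of_le one_pos (le_max_right _ _),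
        (hl a ha).2⟩
    have hbC := Bdy_le_Cyc (RF_FMono (k := k) x v j ν) q hb
    have hbG : b ∈ Bdy (RG k x j) q := Bdy_mono (RF_le_RG x v j ν) q hb
    have hsumC : ∑ a ∈ A, l a ∈ Cyc (RG k x j) q :=
      Submodule.sum_mem _ fun a ha => (hl a ha).1
    set c' := c - b - ∑ a ∈ A, l a with hc'
    have hc'C : c' ∈ Cyc (RG k x j) q :=
      Submodule.sub_mem _ (Submodule.sub_mem _ hc (Bdy_le_Cyc (RG_FMono x j) q hbG)) hsumC
    have hc'F : c' ∈ Coch (RF k x v j (ν + g)) q := by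
      intro G
      refine ⟨?_, (hc'C.1 G).2⟩
      have h1 : c' G = (c G - b G - ∑ a ∈ A, z a G • mon x a) +
          ∑ a ∈ A, (zm x (z a) a - l a) G := by
        simp only [hc', Pi.sub_apply, Finset.sum_apply, zm, Finset.sum_sub_distrib]
        abel
      rw [h1]
      refine Submodule.add_mem _ (hfin G) (Submodule.sum_mem _ fun a ha => ?_)
      exact RF_anti x v j (le_max_left _ _) G ((hl a ha).2 G).1
    have h1 := ih (ν + g) (by push_cast at hν; linarith) c' hc'C hc'F
    have h2 : c = c' + b + ∑ a ∈ A, l a := by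
      rw [hc']
      abel
    rw [h2]
    refine Submodule.add_mem _ (Submodule.add_mem _ ?_ (Submodule.mem_sup_left hbG)) ?_
    · exact Rep_mono (Set.Ici_subset_Ici.mpr (by linarith)) h1
    · refine Submodule.sum_mem _ fun a ha => Submodule.mem_sup_right (Submodule.subset_span ?_)
      exact ⟨a, z a, hA0 a ha, hAdg a ha, hAwt a ha, hlift a ha⟩

lemma Sq.span (h : Sq k x v Face g) {j : ℤ} {q : ℕ} {ν : ℝ} {c : Finset ι → L}
    (hc : c ∈ Cyc (RG k x j) q) (hcF : c ∈ Coch (RF k x v j ν) q) :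
    c ∈ Rep k x v Face j q (Set.Ici ν) := by
  obtain ⟨n, hn⟩ := exists_nat_gt (-ν / g)
  rw [div_lt_iff₀ h.gpos] at hn
  exact h.span_aux j q n ν hn c hc hcF

/-- Every homogeneous cochain lies in some filtration step. -/
lemma exists_RF {j : ℤ} {q : ℕ} {c : Finset ι → L} (hc : c ∈ Coch (RG k x j) q) (v : ι → ℝ) :
    ∃ ν : ℝ, c ∈ Coch (RF k x v j ν) q := by
  have h1 : ∀ G, ∃ ν : ℝ, c G ∈ RF k x v j ν G := fun G => mem_Sp_finite_wt (hc G).1
  choose ν hν using h1
  obtain ⟨μ, hμ⟩ : ∃ μ : ℝ, ∀ G, μ ≤ ν G := by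
    obtain ⟨μ, hμ⟩ := (Set.finite_range ν).bddBelow
    exact ⟨μ, fun G => hμ ⟨G, rfl⟩⟩
  exact ⟨μ, fun G => ⟨RF_anti x v j (hμ G) G (hν G), (hc G).2⟩⟩

lemma Sq.span' (h : Sq k x v Face g) {j : ℤ} {q : ℕ} {c : Finset ι → L}
    (hc : c ∈ Cyc (RG k x j) q) : c ∈ Rep k x v Face j q Set.univ := by
  obtain ⟨ν, hν⟩ := exists_RF hc.1 v
  exact Rep_mono (Set.subset_univ _) (h.span hc hν)

lemma Sq.uniq1 (h : Sq k x v Face g) {G : Finset ι} {a : ι → ℤ} (ha : a ∈ (EG G : Set (ι → ℤ)))
    (hF : Face (G ∪ sp a)) {c : k}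
    (hc : c • mon x a ∈ Sp k x (EG G ∩ Dj (dg a) ∩ {b | wt v a < wt v b})) : c = 0 := by
  by_contra hne
  have h1 := h.S2 (G := G) (j := dg a) (Set.Ioi (wt v a))
    (fun r hr r' hrr' => lt_of_lt_of_le hr hrr') (t := Finsupp.single a c) (by
      intro b hb
      have := Finsupp.support_single_subset hb
      rw [Finset.mem_singleton] at this
      subst this
      exact ⟨ha, hF, fun h => lt_irrefl (wt v b) h⟩) (by
      rw [lc_single]
      exact hc)
  exact hne (by simpa using h1)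

lemma Sq.lfi_aux (h : Sq k x v Face g) {a : ι → ℤ} (ha : ∀ i, a i ≤ 0) {q : ℕ}
    {z : Finset ι → k} {c : Finset ι → L} (hzs : ∀ G, z G ≠ 0 → sp a ⊆ G)
    (hf : ∀ G, c G - z G • mon x a ∈ Sp k x (EG G ∩ Dj (dg a) ∩ {b | wt v a < wt v b}))
    (n : ℕ) : ∀ ν : ℝ, wt v a - ν ≤ n * g → ∀ b ∈ Coch (RF k x v (dg a) ν) q, cd b = c →
      Cob Face (sp a) (q + 1) z := by
  induction n with
  | zero =>
    intro ν hν b hb hbc
    have hν' : wt v a ≤ ν := by simp at hν; linarith
    have hb' : ∀ G, ∃ s : k, (s ≠ 0 → sp a ⊆ G ∧ Face G ∧ G.card = q) ∧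
        b G - s • mon x a ∈ Sp k x (EG G ∩ Dj (dg a) ∩ {b | wt v a < wt v b}) := by
      intro G
      by_cases hcard : G.card = q
      · obtain ⟨t, ht1, ht2⟩ := mem_Sp.mp (RF_anti x v (dg a) hν' G (hb G).1)
        have hrest : lc k x (t.erase a) ∈ Sp k x (EG G ∩ Dj (dg a) ∩ {b | wt v a < wt v b}) := by
          refine lc_mem_Sp fun b' hb' => ?_
          rw [Finsupp.support_erase, Finset.coe_erase] at hb'
          have h3 := ht1 hb'.1
          refine ⟨h3.1, ?_⟩
          have h4 : wt v a ≤ wt v b' := h3.2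
          refine lt_of_le_of_ne h4 fun h5 => hb'.2 ?_
          rw [Set.mem_singleton_iff]
          exact (h.wt_inj h5).symm
        have hdec : b G = t a • mon x a + lc k x (t.erase a) := by
          rw [← ht2, ← lc_single x a (t a), ← map_add, Finsupp.single_add_erase]
        by_cases hta : t a = 0
        · refine ⟨0, fun h0 => absurd rfl h0, ?_⟩
          rw [hdec, hta, zero_smul, zero_add, sub_zero]
          exact hrest
        · have haG : a ∈ (EG G : Set (ι → ℤ)) := (ht1 (Finsupp.mem_support_iff.mpr hta)).1.1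
          by_cases hF : Face G
          · refine ⟨t a, fun _ => ⟨(eg_nonpos ha).mp haG, hF, hcard⟩, ?_⟩
            rw [hdec, add_sub_cancel_left]
            exact hrest
          · refine ⟨0, fun h0 => absurd rfl h0, ?_⟩
            rw [hdec, zero_smul, sub_zero]
            refine Submodule.add_mem _ (Submodule.smul_mem _ _ ?_) hrest
            have hsub : sp a ⊆ G := (eg_nonpos ha).mp haG
            refine Sp_mono ?_ (h.S1 haG (by rwa [Finset.union_eq_left.mpr hsub]))
            rintro b' ⟨h1, h2⟩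
            refine ⟨h1, ?_⟩
            have h2' : wt v a + g ≤ wt v b' := h2
            have := h.gpos
            show wt v a < wt v b'
            linarith
      · refine ⟨0, fun h0 => absurd rfl h0, ?_⟩
        rw [(hb G).2 hcard, zero_smul, sub_zero]
        exact Submodule.zero_mem _
    choose s hs1 hs2 using hb'
    refine ⟨s, fun G hG => ?_, fun G h1 h2 h3 => ?_⟩
    · obtain ⟨h1, h2, h3⟩ := hs1 G hG
      exact ⟨h1, h2, by omega⟩
    · have h4 : (cd s G - z G) • mon x a ∈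
          Sp k x (EG G ∩ Dj (dg a) ∩ {b | wt v a < wt v b}) := by
        have h5 : (cd s G - z G) • mon x a = (c G - z G • mon x a) -
            ∑ g' ∈ G, sg G g' • (b (G.erase g') - s (G.erase g') • mon x a) := by
          rw [← hbc, cd_apply b, sub_smul]
          have h6 : cd s G • mon x a = ∑ g' ∈ G, sg G g' • (s (G.erase g') • mon x a) := by
            have := congrFun (cd_smul_fixed s (mon x a)) G
            rw [← this, cd_apply]
          rw [h6]
          simp only [smul_sub, Finset.sum_sub_distrib]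
          abel
        rw [h5]
        refine Submodule.sub_mem _ (hf G) (Submodule.sum_mem _ fun g' _ => ?_)
        refine Submodule.smul_of_tower_mem _ _ ?_
        refine Sp_mono ?_ (hs2 (G.erase g'))
        rintro b' ⟨⟨h6, h7⟩, h8⟩
        exact ⟨⟨EG_mono (Finset.erase_subset g' G) h6, h7⟩, h8⟩
      have h5 := h.uniq1 ((eg_nonpos ha).mpr h1) (by rwa [Finset.union_eq_left.mpr h1]) h4
      exact sub_eq_zero.mp h5
  | succ n ih =>
    intro ν hν b hb hbc
    by_cases hle : wt v a ≤ ν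
    · have hg := h.gpos
      exact ih ν (le_trans (by linarith) (mul_nonneg (Nat.cast_nonneg n) hg.le)) b hb hbc
    · push Not at hle
      have hg := h.gpos
      set ν' := min (ν + g) (wt v a) with hν'
      have h1 : ν ≤ ν' := le_min (by linarith) hle.le
      have h2 : ν' ≤ ν + g := min_le_left _ _
      have h3 : ν' ≤ wt v a := min_le_right _ _
      have hcF : ∀ G, c G ∈ RF k x v (dg a) ν' G := by
        intro G
        have h4 : c G = (c G - z G • mon x a) + z G • mon x a := by abel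
        rw [h4]
        refine Submodule.add_mem _ (Sp_mono ?_ (hf G)) ?_
        · rintro b' ⟨h5, h6⟩
          have h6' : wt v a < wt v b' := h6
          exact ⟨h5, le_trans h3 h6'.le⟩
        · by_cases hzG : z G = 0
          · rw [hzG, zero_smul]
            exact Submodule.zero_mem _
          · exact Submodule.smul_mem _ _ (mon_mem_Sp ⟨⟨(eg_nonpos ha).mpr (hzs G hzG), rfl⟩, h3⟩)
      obtain ⟨b1, hb1, A, hA, z', hz', hfin⟩ := (h.win (dg a) h1 h2).main hb
        (fun G _ => by rw [hbc]; exact hcF G) (fun a => ∃ i, 1 ≤ a i) (fun a _ ha => by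
          obtain ⟨i, hi⟩ := ha
          exact grEx_pos hi q)
      have hA0 : ∀ a' ∈ A, ∀ i, a' i ≤ 0 := by
        intro a' ha' i
        have := (hA a' ha').2
        push Not at this
        have := this i
        omega
      have hAdg : ∀ a' ∈ A, dg a' = dg a := fun a' ha' => (hA a' ha').1.1
      have hzc : ∀ a' ∈ A, Coc Face (sp a') q (z' a') := by
        intro a' ha'
        obtain ⟨h4, h5⟩ := hz' a' ha'
        refine ⟨fun G hG => ?_, fun G h6 h7 h8 => ?_⟩
        · obtain ⟨h6, h7⟩ := h4 G hG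
          rw [std_nonpos (hA0 a' ha')] at h6
          exact ⟨h6.1, h6.2, h7⟩
        · exact h5 G ((std_nonpos (hA0 a' ha')).mpr ⟨h6, h7⟩) h8
      have hl : ∀ a' : ι → ℤ, ∃ l : Finset ι → L, a' ∈ A → l ∈ Cyc (RG k x (dg a)) q ∧
          zm x (z' a') a' - l ∈ Coch (RF k x v (dg a) ν') q := by
        intro a'
        by_cases ha' : a' ∈ A
        · obtain ⟨l, h4, h5⟩ := h.exists_lift (hA0 a' ha') (hzc a' ha') ν'
          rw [hAdg a' ha'] at h4 h5
          exact ⟨l, fun _ => ⟨h4, h5⟩⟩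
        · exact ⟨0, fun h => absurd h ha'⟩
      choose l hl using hl
      have hb1C := Bdy_le_Cyc (RF_FMono (k := k) x v (dg a) ν) q hb1
      have hsumC : ∑ a' ∈ A, l a' ∈ Cyc (RG k x (dg a)) q :=
        Submodule.sum_mem _ fun a' ha' => (hl a' ha').1
      refine ih ν' ?_ (b - b1 - ∑ a' ∈ A, l a') ?_ ?_
      · rcases min_choice (ν + g) (wt v a) with h4 | h4
        · rw [hν', h4]
          push_cast at hν
          linarith
        · rw [hν', h4, sub_self]
          exact mul_nonneg (Nat.cast_nonneg n) hg.le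
      · intro G
        refine ⟨?_, fun hG => ?_⟩
        · have h4 : (b - b1 - ∑ a' ∈ A, l a') G = (b G - b1 G - ∑ a' ∈ A, z' a' G • mon x a') +
              ∑ a' ∈ A, (zm x (z' a') a' - l a') G := by
            simp only [Pi.sub_apply, Finset.sum_apply, zm, Finset.sum_sub_distrib]
            abel
          rw [h4]
          exact Submodule.add_mem _ (hfin G) (Submodule.sum_mem _ fun a' ha' =>
            ((hl a' ha').2 G).1)
        · rw [Pi.sub_apply, Pi.sub_apply, (hb G).2 hG, (hb1C.1 G).2 hG, (hsumC.1 G).2 hG]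
          simp
      · have h4 : cd b1 = 0 := hb1C.2
        have h5 : cd (∑ a' ∈ A, l a') = 0 := hsumC.2
        rw [cd_sub, cd_sub, h4, h5, sub_zero, sub_zero, hbc]

/-- Leading forms of coboundaries are coboundaries. -/
lemma Sq.lfi (h : Sq k x v Face g) {a : ι → ℤ} (ha : ∀ i, a i ≤ 0) {q : ℕ}
    {z : Finset ι → k} (hz : Coc Face (sp a) q z) {c : Finset ι → L}
    (hc : c ∈ Bdy (RG k x (dg a)) q)
    (hf : ∀ G, c G - z G • mon x a ∈ Sp k x (EG G ∩ Dj (dg a) ∩ {b | wt v a < wt v b})) :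
    Cob Face (sp a) q z := by
  cases q with
  | zero =>
    rw [mem_Bdy_zero] at hc
    subst hc
    refine ⟨0, fun G hG => absurd rfl hG, fun G h1 h2 h3 => ?_⟩
    rw [cd_zero]
    have h4 := hf G
    rw [Pi.zero_apply, zero_sub, ← neg_smul] at h4
    have h5 := h.uniq1 ((eg_nonpos ha).mpr h1) (by rwa [Finset.union_eq_left.mpr h1]) h4
    rw [neg_eq_zero] at h5
    rw [h5]
    rfl
  | succ q =>
    obtain ⟨b, hb, hbc⟩ := hc
    obtain ⟨ν, hν⟩ := exists_RF hb v
    obtain ⟨n, hn⟩ := exists_nat_gt ((wt v a - ν) / g)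
    rw [div_lt_iff₀ h.gpos] at hn
    exact h.lfi_aux ha (fun G hG => (hz.1 G hG).1) hf n ν hn.le b hν hbc

/-- Cohomology vanishes when all graded pieces are exact. -/
lemma Sq.ex_aux (h : Sq k x v Face g) (j : ℤ) (q : ℕ)
    (hgr : ∀ a : ι → ℤ, (∀ i, a i ≤ 0) → dg a = j → ∀ z : Finset ι → k,
      Coc Face (sp a) q z → Cob Face (sp a) q z) (n : ℕ) : ∀ ν : ℝ, -ν < n * g →
    ∀ c ∈ Cyc (RG k x j) q, c ∈ Coch (RF k x v j ν) q → c ∈ Bdy (RG k x j) q := by
  induction n with
  | zero =>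
    intro ν hν c hc hcF
    have hν' : 0 < ν := by simp at hν; exact hν
    have h1 := h.exRF j q hν' (show c ∈ Cyc (RF k x v j ν) q from ⟨hcF, hc.2⟩)
    exact Bdy_mono (RF_le_RG x v j ν) q h1
  | succ n ih =>
    intro ν hν c hc hcF
    have hg := h.gpos
    have hcd0 : cd c = 0 := hc.2
    obtain ⟨b, hb, A, hA, z, hz, hfin⟩ := (h.win j (ν := ν) (ν' := ν + g) (by linarith)
      (le_refl _)).main hcF (fun G _ => by rw [hcd0]; exact Submodule.zero_mem _)
      (fun _ => True) (fun a ha _ => by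
        by_cases hpos : ∃ i, 1 ≤ a i
        · obtain ⟨i, hi⟩ := hpos
          exact grEx_pos hi q
        · push Not at hpos
          have ha0 : ∀ i, a i ≤ 0 := fun i => by have := hpos i; omega
          intro z hz1 hz2
          obtain ⟨s, hs1, hs2⟩ := hgr a ha0 ha.1 z ⟨fun G hG => by
            obtain ⟨h1, h2⟩ := hz1 G hG
            have h1' := (std_nonpos ha0).mp h1
            exact ⟨h1'.1, h1'.2, h2⟩, fun G h1 h2 h3 => hz2 G ((std_nonpos ha0).mpr ⟨h1, h2⟩) h3⟩
          refine ⟨s, fun G hG => ?_, fun G h1 h2 => ?_⟩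
          · obtain ⟨h1, h2, h3⟩ := hs1 G hG
            exact ⟨(std_nonpos ha0).mpr ⟨h1, h2⟩, h3⟩
          · have h1' := (std_nonpos ha0).mp h1
            exact hs2 G h1'.1 h1'.2 h2)
    have hAe : A = ∅ := by
      rw [Finset.eq_empty_iff_forall_notMem]
      intro a ha
      exact (hA a ha).2 trivial
    subst hAe
    simp only [Finset.sum_empty, sub_zero] at hfin
    have hbG : b ∈ Bdy (RG k x j) q := Bdy_mono (RF_le_RG x v j ν) q hb
    have hc'C : c - b ∈ Cyc (RG k x j) q :=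
      Submodule.sub_mem _ hc (Bdy_le_Cyc (RG_FMono x j) q hbG)
    have h1 := ih (ν + g) (by push_cast at hν; linarith) (c - b) hc'C
      (fun G => ⟨hfin G, (hc'C.1 G).2⟩)
    have h2 := Submodule.add_mem _ h1 hbG
    rwa [sub_add_cancel] at h2

lemma Sq.ex_of_gr (h : Sq k x v Face g) {j : ℤ} {q : ℕ}
    (hgr : ∀ a : ι → ℤ, (∀ i, a i ≤ 0) → dg a = j → ∀ z : Finset ι → k,
      Coc Face (sp a) q z → Cob Face (sp a) q z) : Ex (RG k x j) q := by
  intro c hc
  obtain ⟨ν, hν⟩ := exists_RF hc.1 v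
  obtain ⟨n, hn⟩ := exists_nat_gt (-ν / g)
  rw [div_lt_iff₀ h.gpos] at hn
  exact h.ex_aux j q hgr n ν hn c hc hν

/-- Positive degrees. -/
lemma Sq.ex_pos (h : Sq k x v Face g) {j : ℤ} (hj : 0 < j) (q : ℕ) : Ex (RG k x j) q := by
  refine h.ex_of_gr fun a ha hdg => ?_
  exfalso
  have : dg a ≤ 0 := Finset.sum_nonpos fun i _ => ha i
  omega

end Pool.Agent.MP8049


/-! ## Part SqSoc -/

set_option autoImplicit false

/-! The socle of the local cohomology modules is bounded (square-free stage). -/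

namespace Pool.Agent.MP8049

variable {ι : Type*} [Fintype ι] [LinearOrder ι]
variable {L : Type*} [Field L] {k : Type*} [Field k] [Algebra k L]
variable {x : ι → L} {v : ι → ℝ} {Face : Finset ι → Prop} {g : ℝ}

lemma x_mul_RG {x : ι → L} (hx : ∀ i, x i ≠ 0) (i : ι) {j : ℤ} {G : Finset ι} {f : L}
    (hf : f ∈ RG k x j G) : x i * f ∈ RG k x (j + 1) G := by
  have := RG_mul hx (x_mem_RG (k := k) (x := x) G i) hf
  rwa [add_comm] at this

lemma x_mul_Bdy {x : ι → L} (hx : ∀ i, x i ≠ 0) (i : ι) {j : ℤ} {q : ℕ} {c : Finset ι → L}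
    (hc : c ∈ Bdy (RG k x j) q) : (fun G => x i * c G) ∈ Bdy (RG k x (j + 1)) q :=
  Bdy_map (AddMonoidHom.mulLeft (x i)) (fun _ _ hu => x_mul_RG hx i hu) hc

lemma x_mul_Cyc {x : ι → L} (hx : ∀ i, x i ≠ 0) (i : ι) {j : ℤ} {q : ℕ} {c : Finset ι → L}
    (hc : c ∈ Cyc (RG k x j) q) : (fun G => x i * c G) ∈ Cyc (RG k x (j + 1)) q :=
  Cyc_map (AddMonoidHom.mulLeft (x i)) (fun _ _ hu => x_mul_RG hx i hu) hc

lemma wt_nonpos (hv : ∀ i, 0 < v i) {a : ι → ℤ} (ha : ∀ i, a i ≤ 0) : wt v a ≤ 0 := by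
  unfold wt
  refine Finset.sum_nonpos fun i _ => ?_
  have h1 : (a i : ℝ) ≤ 0 := by exact_mod_cast ha i
  exact mul_nonpos_of_nonpos_of_nonneg h1 (hv i).le

lemma nonpos_finite (j : ℤ) : {a : ι → ℤ | (∀ i, a i ≤ 0) ∧ dg a = j}.Finite := by
  have h1 : {a : ι → ℤ | (∀ i, a i ≤ 0) ∧ dg a = j} ⊆
      (fun a : ι → ℤ => -a) '' {b : ι → ℤ | dg b = -j ∧ b ∈ (Nn : Set (ι → ℤ))} := by
    rintro a ⟨h1, h2⟩
    refine ⟨-a, ⟨by rw [dg_neg, h2], fun i => ?_⟩, by simp⟩
    have := h1 i
    simp only [Pi.neg_apply]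
    omega
  exact ((nn_finite (-j)).image _).subset h1

/-- Split off the lift of lowest weight. -/
lemma rep_split {j : ℤ} {q : ℕ} {U : Set ℝ} {a₀ : ι → ℤ}
    (hinj : ∀ a b : ι → ℤ, wt v a = wt v b → a = b)
    (hmin : ∀ a : ι → ℤ, (∀ i, a i ≤ 0) → dg a = j → wt v a ∈ U → wt v a₀ ≤ wt v a)
    {c : Finset ι → L}
    (hc : c ∈ Submodule.span k {l | ∃ a z, (∀ i, a i ≤ 0) ∧ dg a = j ∧ wt v a ∈ U ∧
      IsLift k x v Face j q a z l}) :
    ∃ z l, IsLift k x v Face j q a₀ z l ∧ c - l ∈ Submodule.span k {l | ∃ a z, (∀ i, a i ≤ 0) ∧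
      dg a = j ∧ wt v a ∈ {r | r ∈ U ∧ wt v a₀ < r} ∧ IsLift k x v Face j q a z l} := by
  induction hc using Submodule.span_induction with
  | mem c hc =>
    obtain ⟨a, z, h1, h2, h3, h4⟩ := hc
    rcases (hmin a h1 h2 h3).lt_or_eq with h5 | h5
    · refine ⟨0, 0, IsLift.zero, ?_⟩
      rw [sub_zero]
      exact Submodule.subset_span ⟨a, z, h1, h2, ⟨h3, h5⟩, h4⟩
    · have h6 := hinj _ _ h5
      subst h6
      refine ⟨z, c, h4, ?_⟩
      rw [sub_self]
      exact Submodule.zero_mem _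
  | zero => exact ⟨0, 0, IsLift.zero, by simp⟩
  | add c c' _ _ ih ih' =>
    obtain ⟨z, l, h1, h2⟩ := ih
    obtain ⟨z', l', h1', h2'⟩ := ih'
    refine ⟨z + z', l + l', h1.add h1', ?_⟩
    rw [add_sub_add_comm]
    exact Submodule.add_mem _ h2 h2'
  | smul r c _ ih =>
    obtain ⟨z, l, h1, h2⟩ := ih
    refine ⟨r • z, r • l, h1.smul r, ?_⟩
    rw [← smul_sub]
    exact Submodule.smul_mem _ _ h2

/-- Elements of the span of lifts have large weight. -/
lemma span_lift_wt (hv : ∀ i, 0 < v i) {j : ℤ} {q : ℕ} {U : Set ℝ} {ω : ℝ} (hω : ω ≤ 0)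
    (hU : ∀ r ∈ U, ω < r) {c : Finset ι → L}
    (hc : c ∈ Submodule.span k {l | ∃ a z, (∀ i, a i ≤ 0) ∧ dg a = j ∧ wt v a ∈ U ∧
      IsLift k x v Face j q a z l}) (G : Finset ι) :
    c G ∈ Sp k x (EG G ∩ Dj j ∩ {b | ω < wt v b}) := by
  induction hc using Submodule.span_induction with
  | mem c hc =>
    obtain ⟨a, z, h1, h2, h3, h4, h5, ν, h6, h7⟩ := hc
    have h8 : c G = zm x z a G - (zm x z a - c) G := by simp
    rw [h8]
    refine Submodule.sub_mem _ ?_ ?_
    · simp only [zm]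
      by_cases h0 : z G = 0
      · rw [h0, zero_smul]
        exact Submodule.zero_mem _
      · exact Submodule.smul_mem _ _ (mon_mem_Sp ⟨⟨(eg_nonpos h1).mpr (h4.1 G h0).1, h2⟩,
          hU _ h3⟩)
    · refine Sp_mono ?_ (h7 G).1
      rintro b ⟨h9, h10⟩
      refine ⟨h9, ?_⟩
      have h10' : ν ≤ wt v b := h10
      show ω < wt v b
      linarith
  | zero => exact Submodule.zero_mem _
  | add c c' _ _ ih ih' => exact Submodule.add_mem _ ih ih'
  | smul r c _ ih => exact Submodule.smul_mem _ _ ih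

lemma Sq.soc_aux (h : Sq k x v Face g) {j : ℤ} (hj : j < -(Fintype.card ι : ℤ)) (q : ℕ) (n : ℕ) :
    ∀ U : Set ℝ, (∀ r ∈ U, ∀ r', r ≤ r' → r' ∈ U) →
      {a : ι → ℤ | ((∀ i, a i ≤ 0) ∧ dg a = j) ∧ wt v a ∈ U}.ncard ≤ n →
      ∀ c ∈ Rep k x v Face j q U, (∀ i, (fun G => x i * c G) ∈ Bdy (RG k x (j + 1)) q) →
      c ∈ Bdy (RG k x j) q := by
  have hfin : ∀ U : Set ℝ, {a : ι → ℤ | ((∀ i, a i ≤ 0) ∧ dg a = j) ∧ wt v a ∈ U}.Finite :=
    fun U => (nonpos_finite j).subset fun a ha => ha.1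
  have hempty : ∀ U : Set ℝ, {a : ι → ℤ | ((∀ i, a i ≤ 0) ∧ dg a = j) ∧ wt v a ∈ U} = ∅ →
      Rep k x v Face j q U ≤ Bdy (RG k x j) q := by
    intro U hU
    refine sup_le (le_refl _) ?_
    rw [Submodule.span_le]
    rintro l ⟨a, z, h1, h2, h3, _⟩
    have : a ∈ {a : ι → ℤ | ((∀ i, a i ≤ 0) ∧ dg a = j) ∧ wt v a ∈ U} := ⟨⟨h1, h2⟩, h3⟩
    rw [hU] at this
    exact absurd this (Set.notMem_empty _)
  induction n with
  | zero =>
    intro U _ hcard c hc _
    refine hempty U ?_ hc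
    rw [← Set.ncard_eq_zero (hfin U)]
    omega
  | succ n ih =>
    intro U hU hcard c hc hs
    by_cases hne : {a : ι → ℤ | ((∀ i, a i ≤ 0) ∧ dg a = j) ∧ wt v a ∈ U} = ∅
    · exact hempty U hne hc
    · obtain ⟨a₀, ha₀, hmin⟩ := Set.exists_min_image _ (wt v) (hfin U)
        (Set.nonempty_iff_ne_empty.mpr hne)
      obtain ⟨⟨ha₀0, ha₀j⟩, ha₀U⟩ := ha₀
      set U' : Set ℝ := {r | r ∈ U ∧ wt v a₀ < r} with hU'
      have hU'up : ∀ r ∈ U', ∀ r', r ≤ r' → r' ∈ U' := fun r hr r' hrr' =>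
        ⟨hU r hr.1 r' hrr', lt_of_lt_of_le hr.2 hrr'⟩
      have hcard' : {a : ι → ℤ | ((∀ i, a i ≤ 0) ∧ dg a = j) ∧ wt v a ∈ U'}.ncard ≤ n := by
        have h9 : {a : ι → ℤ | ((∀ i, a i ≤ 0) ∧ dg a = j) ∧ wt v a ∈ U'} ⊂
            {a : ι → ℤ | ((∀ i, a i ≤ 0) ∧ dg a = j) ∧ wt v a ∈ U} := by
          refine ⟨fun a ha => ⟨ha.1, ha.2.1⟩, fun hcon => ?_⟩
          exact absurd (hcon (show a₀ ∈ _ from ⟨⟨ha₀0, ha₀j⟩, ha₀U⟩)).2.2 (lt_irrefl _)
        have h10 := Set.ncard_lt_ncard h9 (hfin U)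
        omega
      obtain ⟨b, hb, s, hs', rfl⟩ := Submodule.mem_sup.mp hc
      obtain ⟨z, l, hl, hsl⟩ := rep_split (fun a b hab => h.wt_inj hab)
        (fun a h1 h2 h3 => hmin a ⟨⟨h1, h2⟩, h3⟩) hs'
      have hωle : wt v a₀ ≤ 0 := wt_nonpos h.hv ha₀0
      by_cases hcob : Cob Face (sp a₀) q z
      · -- replace the lift by elements of larger weight
        obtain ⟨e, he1, he2⟩ := hcob
        obtain ⟨hz, hlC, ν, hν, hlF⟩ := hl
        -- the coboundary of `e x^{a₀}`
        have hem : ∀ G, zm x e a₀ G ∈ RG k x j G ∧ (G.card + 1 ≠ q → zm x e a₀ G = 0) := by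
          intro G
          by_cases h0 : e G = 0
          · simp only [zm, h0, zero_smul]
            exact ⟨Submodule.zero_mem _, fun _ => trivial⟩
          · obtain ⟨h1, h2, h3⟩ := he1 G h0
            exact ⟨Submodule.smul_mem _ _ (mon_mem_Sp ⟨(eg_nonpos ha₀0).mpr h1, ha₀j⟩),
              fun h => absurd h3 h⟩
        have hbe : cd (zm x e a₀) ∈ Bdy (RG k x j) q := by
          cases q with
          | zero =>
            have h0 : zm x e a₀ = 0 := by
              funext G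
              exact (hem G).2 (by omega)
            rw [h0, cd_zero]
            exact Submodule.zero_mem _
          | succ q =>
            exact ⟨zm x e a₀, fun G => ⟨(hem G).1, fun h => (hem G).2 (by omega)⟩, rfl⟩
        set ν₁ := min (wt v a₀ + g) ν with hν₁
        have hν₁' : wt v a₀ < ν₁ := lt_min (by linarith [h.gpos]) (lt_of_le_of_lt hωle hν)
        have hC : l - cd (zm x e a₀) ∈ Cyc (RG k x j) q :=
          Submodule.sub_mem _ hlC (Bdy_le_Cyc (RG_FMono x j) q hbe)
        have hF : l - cd (zm x e a₀) ∈ Coch (RF k x v j ν₁) q := by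
          intro G
          refine ⟨?_, (hC.1 G).2⟩
          have h1 : (l - cd (zm x e a₀)) G = -(zm x z a₀ - l) G + (z G - cd e G) • mon x a₀ := by
            rw [cd_zm]
            simp only [Pi.sub_apply, zm, sub_smul]
            abel
          rw [h1]
          refine Submodule.add_mem _ (Submodule.neg_mem _ (RF_anti x v j (min_le_right _ _) G
            (hlF G).1)) ?_
          by_cases hcard : G.card = q
          · by_cases hsub : sp a₀ ⊆ G
            · by_cases hFG : Face G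
              · rw [he2 G hsub hFG hcard, sub_self, zero_smul]
                exact Submodule.zero_mem _
              · refine Submodule.smul_mem _ _ ?_
                have h2 := h.S1 (G := G) ((eg_nonpos ha₀0).mpr hsub)
                  (by rwa [Finset.union_eq_left.mpr hsub])
                rw [ha₀j] at h2
                exact RF_anti x v j (min_le_left _ _) G h2
            · have h2 : z G = 0 := by
                by_contra h3
                exact hsub (hz.1 G h3).1
              have h3 : cd e G = 0 := by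
                rw [cd_apply]
                refine Finset.sum_eq_zero fun i _ => ?_
                by_cases h4 : e (G.erase i) = 0
                · rw [h4, smul_zero]
                · exact absurd ((he1 _ h4).1.trans (Finset.erase_subset i G)) hsub
              rw [h2, h3, sub_zero, zero_smul]
              exact Submodule.zero_mem _
          · have h2 : z G = 0 := by
              by_contra h3
              exact hcard (hz.1 G h3).2.2
            have h3 : cd e G = 0 := by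
              rw [cd_apply]
              refine Finset.sum_eq_zero fun i hi => ?_
              by_cases h4 : e (G.erase i) = 0
              · rw [h4, smul_zero]
              · have h5 := (he1 _ h4).2.2
                rw [Finset.card_erase_of_mem hi] at h5
                have : 0 < G.card := Finset.card_pos.mpr ⟨i, hi⟩
                omega
            rw [h2, h3, sub_zero, zero_smul]
            exact Submodule.zero_mem _
        have h1 := h.span hC hF
        have h2 : l - cd (zm x e a₀) ∈ Rep k x v Face j q U' := by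
          refine Rep_mono ?_ h1
          intro r hr
          have hr' : ν₁ ≤ r := hr
          exact ⟨hU _ ha₀U _ (by linarith), lt_of_lt_of_le hν₁' hr'⟩
        refine ih U' hU'up hcard' (b + s) ?_ hs
        have h3 : b + s = b + (l - cd (zm x e a₀)) + cd (zm x e a₀) + (s - l) := by abel
        rw [h3]
        refine Submodule.add_mem _ (Submodule.add_mem _ (Submodule.add_mem _ ?_ h2) ?_) ?_
        · exact Submodule.mem_sup_left hb
        · exact Submodule.mem_sup_left hbe
        · exact Submodule.mem_sup_right hsl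
      · exfalso
        apply hcob
        -- choose a coordinate at most -2
        obtain ⟨i, hi⟩ : ∃ i, a₀ i ≤ -2 := by
          by_contra hcon
          push Not at hcon
          have h1 : ∑ i : ι, (-1 : ℤ) ≤ ∑ i, a₀ i :=
            Finset.sum_le_sum fun i _ => by have := hcon i; omega
          rw [Finset.sum_const, Finset.card_univ] at h1
          have h2 : dg a₀ = ∑ i, a₀ i := rfl
          simp at h1
          omega
        set a₁ : ι → ℤ := a₀ + Pi.single i 1 with ha₁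
        have ha₁0 : ∀ l, a₁ l ≤ 0 := by
          intro l
          rw [ha₁, Pi.add_apply]
          by_cases hl : l = i
          · subst hl
            rw [Pi.single_eq_same]
            omega
          · rw [Pi.single_eq_of_ne hl, add_zero]
            exact ha₀0 l
        have hsp : sp a₁ = sp a₀ := by
          ext l
          rw [mem_sp, mem_sp, ha₁, Pi.add_apply]
          by_cases hl : l = i
          · subst hl
            rw [Pi.single_eq_same]
            constructor <;> intro _ <;> omega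
          · rw [Pi.single_eq_of_ne hl, add_zero]
        have hdg₁ : dg a₁ = j + 1 := by rw [ha₁, dg_add, dg_single, ha₀j]
        have hwt₁ : wt v a₁ = wt v a₀ + v i := by rw [ha₁, wt_add, wt_single]; simp
        have hmon : mon x a₁ = x i * mon x a₀ := by
          rw [ha₁, mon_add h.hx, mon_single, zpow_one, mul_comm]
        have h1 : (fun G => x i * (b + s) G) - (fun G => x i * b G) ∈ Bdy (RG k x (j + 1)) q :=
          Submodule.sub_mem _ (hs i) (x_mul_Bdy h.hx i hb)
        obtain ⟨hz, hlC, ν, hν, hlF⟩ := hl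
        have h2 := h.lfi ha₁0 (q := q) (z := z) (by rw [hsp]; exact hz) (by rw [hdg₁]; exact h1)
          (by
            intro G
            have h3 : ((fun G => x i * (b + s) G) - (fun G => x i * b G)) G - z G • mon x a₁ =
                x i * (-(zm x z a₀ - l) G + (s - l) G) := by
              simp only [Pi.sub_apply, Pi.add_apply, zm, hmon]
              rw [Algebra.smul_def, Algebra.smul_def]
              ring
            rw [h3, hdg₁]
            have h4 : -(zm x z a₀ - l) G + (s - l) G ∈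
                Sp k x (EG G ∩ Dj j ∩ {b | wt v a₀ < wt v b}) := by
              refine Submodule.add_mem _ (Submodule.neg_mem _ (Sp_mono ?_ (hlF G).1)) ?_
              · rintro b' ⟨h5, h6⟩
                refine ⟨h5, ?_⟩
                have h6' : ν ≤ wt v b' := h6
                show wt v a₀ < wt v b'
                linarith
              · exact span_lift_wt h.hv hωle (fun r hr => hr.2) hsl G
            rw [mul_comm]
            have h5 : x i = mon x (Pi.single i 1) := by rw [mon_single, zpow_one]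
            rw [h5]
            refine Sp_mul_mon h.hx ?_ h4
            rintro b' ⟨⟨h6, h7⟩, h8⟩
            refine ⟨⟨?_, ?_⟩, ?_⟩
            · intro l hl
              rw [Pi.add_apply]
              refine add_nonneg (h6 l hl) ?_
              by_cases hli : l = i
              · subst hli; simp
              · rw [Pi.single_eq_of_ne hli]
            · have h7' : dg b' = j := h7
              show dg (b' + Pi.single i 1) = j + 1
              rw [dg_add, dg_single, h7']
            · have h8' : wt v a₀ < wt v b' := h8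
              show wt v a₁ < wt v (b' + Pi.single i 1)
              rw [hwt₁, wt_add, wt_single]
              push_cast
              linarith)
        rwa [hsp] at h2

/-- The socle is bounded. -/
lemma Sq.soc (h : Sq k x v Face g) {j : ℤ} (hj : j < -(Fintype.card ι : ℤ)) (q : ℕ)
    {c : Finset ι → L} (hc : c ∈ Cyc (RG k x j) q)
    (hs : ∀ i, (fun G => x i * c G) ∈ Bdy (RG k x (j + 1)) q) : c ∈ Bdy (RG k x j) q :=
  h.soc_aux hj q _ Set.univ (fun _ _ _ _ => Set.mem_univ _) (le_refl _) c (h.span' hc) hs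

end Pool.Agent.MP8049
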