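import Mathlib
import Pool.Agent.Lib.MP_8049df_ag.SqSoc
import Pool.Agent.Lib.MP_8049df_ag.HSAct
import Pool.Agent.Lib.MP_8049df_ag.AlgInd
import Pool.Agent.Lib.MP_8049df_ag.StateDef
import Pool.Agent.Lib.MP_8049df_ag.HSSimpleThm


/-! ## Part Growth -/

set_option autoImplicit false

/-! Growth: some nonzero element of the coordinate ring annihilates the lower local cohomology. -/

namespace Pool.Agent.MP8049

variable {ι : Type*} [Fintype ι] [LinearOrder ι]
variable {L : Type*} [Field L] {k : Type*} [Field k] [Algebra k L]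
variable {x : ι → L} {v : ι → ℝ} {Face : Finset ι → Prop} {g : ℝ}

lemma RG_finite (x : ι → L) (e : ℤ) : Module.Finite k (RG k x e ∅) := by
  unfold RG Sp
  apply FiniteDimensional.span_of_finite
  refine Set.Finite.image _ ((nn_finite e).subset ?_)
  rintro a ⟨h1, h2⟩
  rw [EG_empty] at h1
  exact ⟨h2, h1⟩

/-- Standard monomials are linearly independent. -/
lemma Sq.linInd (h : Sq k x v Face g) :
    LinearIndependent k (fun b : {b : ι → ℤ // b ∈ (Nn : Set (ι → ℤ)) ∧ Face (sp b)} =>
      mon x b.1) := by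
  rw [linearIndependent_iff]
  intro t ht
  have h1 : lc k x (t.mapDomain Subtype.val) = 0 := by
    unfold lc
    rw [Finsupp.linearCombination_mapDomain]
    exact ht
  have h2 := h.R2 _ (by
    intro a ha
    have h3 := Finsupp.mapDomain_support ha
    rw [Finset.mem_image] at h3
    obtain ⟨b, _, rfl⟩ := h3
    exact b.2) h1
  exact Finsupp.mapDomain_injective Subtype.val_injective (by rw [h2, Finsupp.mapDomain_zero])

/-- Lower bound for the Hilbert function. -/
lemma finrank_lower_gen {F₀ : Finset ι} (hli0 : LinearIndependent k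
      (fun b : {b : ι → ℤ // b ∈ (Nn : Set (ι → ℤ)) ∧ sp b ⊆ F₀} => mon x b.1)) {f₀ : ι}
    (hf₀ : f₀ ∈ F₀) (e' : ℕ) :
    (e' + 1) ^ (F₀.card - 1) ≤ Module.finrank k (RG k x ((F₀.card * e' : ℕ) : ℤ) ∅) := by
  classical
  set T := F₀.erase f₀ with hT
  have hTcard : T.card = F₀.card - 1 := Finset.card_erase_of_mem hf₀
  have hpos : 1 ≤ F₀.card := Finset.card_pos.mpr ⟨f₀, hf₀⟩
  -- the exponents
  let B : (↥T → Fin (e' + 1)) → (ι → ℤ) := fun φ i =>
    if hi : i ∈ T then ((φ ⟨i, hi⟩ : ℕ) : ℤ) else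
      if i = f₀ then ((F₀.card * e' : ℕ) : ℤ) - ∑ l : ↥T, ((φ l : ℕ) : ℤ) else 0
  have hsum : ∀ φ : ↥T → Fin (e' + 1), ∑ l : ↥T, ((φ l : ℕ) : ℤ) ≤ ((F₀.card * e' : ℕ) : ℤ) := by
    intro φ
    have h1 : ∑ l : ↥T, ((φ l : ℕ) : ℤ) ≤ ∑ _l : ↥T, (e' : ℤ) :=
      Finset.sum_le_sum fun l _ => by
        have := (φ l).2
        omega
    rw [Finset.sum_const, Finset.card_univ, Fintype.card_coe, nsmul_eq_mul] at h1
    have h2 : (T.card : ℤ) ≤ F₀.card := by
      rw [hTcard]
      omega
    push_cast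
    nlinarith
  have hf₀T : f₀ ∉ T := Finset.notMem_erase f₀ F₀
  have hBnn : ∀ φ, B φ ∈ (Nn : Set (ι → ℤ)) := by
    intro φ i
    simp only [B]
    split_ifs with h1 h2
    · exact Int.natCast_nonneg _
    · have := hsum φ
      linarith
    · exact le_refl _
  have hBsp : ∀ φ, sp (B φ) ⊆ F₀ := by
    intro φ i hi
    rw [mem_sp] at hi
    by_contra hiF
    apply hi
    have h1 : i ∉ T := fun h => hiF (Finset.mem_of_mem_erase h)
    have h2 : i ≠ f₀ := fun h => hiF (h ▸ hf₀)
    simp [B, h1, h2]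
  have hBdg : ∀ φ, dg (B φ) = ((F₀.card * e' : ℕ) : ℤ) := by
    intro φ
    unfold dg
    have h1 : ∑ i, B φ i = ∑ i ∈ F₀, B φ i := by
      refine (Finset.sum_subset (Finset.subset_univ F₀) fun i _ hi => ?_).symm
      by_contra hne
      exact hi (hBsp φ (mem_sp.mpr hne))
    rw [h1, ← Finset.add_sum_erase _ _ hf₀, ← hT]
    have h2 : ∑ i ∈ T, B φ i = ∑ l : ↥T, ((φ l : ℕ) : ℤ) := by
      rw [← Finset.sum_coe_sort T (fun i => B φ i)]
      refine Finset.sum_congr rfl fun l _ => ?_
      simp [B, l.2]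
    have h3 : B φ f₀ = ((F₀.card * e' : ℕ) : ℤ) - ∑ l : ↥T, ((φ l : ℕ) : ℤ) := by
      simp only [B, hf₀T, dif_neg, not_false_eq_true, if_true]
    rw [h2, h3]
    ring
  have hBinj : Function.Injective B := by
    intro φ ψ hφψ
    funext l
    have h1 := congrFun hφψ l.1
    simp only [B, l.2, dif_pos] at h1
    have h2 : ((φ l : ℕ) : ℤ) = ((ψ l : ℕ) : ℤ) := h1
    exact Fin.ext (by exact_mod_cast h2)
  let B' : (↥T → Fin (e' + 1)) → {b : ι → ℤ // b ∈ (Nn : Set (ι → ℤ)) ∧ sp b ⊆ F₀} :=
    fun φ => ⟨B φ, hBnn φ, hBsp φ⟩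
  have hB'inj : Function.Injective B' := fun φ ψ h => hBinj (congrArg Subtype.val h)
  have hli : LinearIndependent k (fun φ => mon x (B φ)) := hli0.comp B' hB'inj
  have h1 := finrank_span_eq_card hli
  have h2 : Submodule.span k (Set.range (fun φ => mon x (B φ))) ≤
      RG k x ((F₀.card * e' : ℕ) : ℤ) ∅ := by
    rw [Submodule.span_le]
    rintro _ ⟨φ, rfl⟩
    exact mon_mem_Sp ⟨by rw [EG_empty]; exact hBnn φ, hBdg φ⟩
  have := RG_finite (k := k) x ((F₀.card * e' : ℕ) : ℤ)
  have h3 := Submodule.finrank_mono h2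
  rw [h1, Fintype.card_fun, Fintype.card_fin, Fintype.card_coe, hTcard] at h3
  exact h3

lemma Sq.linInd_face (h : Sq k x v Face g) {F₀ : Finset ι} (hF₀ : Face F₀) :
    LinearIndependent k
      (fun b : {b : ι → ℤ // b ∈ (Nn : Set (ι → ℤ)) ∧ sp b ⊆ F₀} => mon x b.1) := by
  let B' : {b : ι → ℤ // b ∈ (Nn : Set (ι → ℤ)) ∧ sp b ⊆ F₀} →
      {b : ι → ℤ // b ∈ (Nn : Set (ι → ℤ)) ∧ Face (sp b)} :=
    fun b => ⟨b.1, b.2.1, h.down _ _ hF₀ b.2.2⟩
  have hB'inj : Function.Injective B' := fun b c h => by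
    apply Subtype.ext
    exact congrArg (fun u : {b : ι → ℤ // b ∈ (Nn : Set (ι → ℤ)) ∧ Face (sp b)} => u.1) h
  exact h.linInd.comp B' hB'inj

/-- Lower bound for the Hilbert function. -/
lemma Sq.finrank_lower (h : Sq k x v Face g) {F₀ : Finset ι} (hF₀ : Face F₀) {f₀ : ι}
    (hf₀ : f₀ ∈ F₀) (e' : ℕ) :
    (e' + 1) ^ (F₀.card - 1) ≤ Module.finrank k (RG k x ((F₀.card * e' : ℕ) : ℤ) ∅) :=
  finrank_lower_gen (h.linInd_face hF₀) hf₀ e'

/-- Counting exponents with small support. -/
lemma count_supp (m q : ℕ) (hq : 1 ≤ q) :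
    {a : ι → ℤ | ((∀ i, a i ≤ 0) ∧ dg a = -(m : ℤ)) ∧ (sp a).card ≤ q}.ncard ≤
      2 ^ (Fintype.card ι) * (m + 1) ^ (q - 1) := by
  classical
  have hfin : {a : ι → ℤ | ((∀ i, a i ≤ 0) ∧ dg a = -(m : ℤ)) ∧ (sp a).card ≤ q}.Finite :=
    (nonpos_finite (-(m : ℤ))).subset fun a ha => ha.1
  have hle : ∀ a : ι → ℤ, (∀ i, a i ≤ 0) → dg a = -(m : ℤ) → ∀ i, (-a i).toNat < m + 1 := by
    intro a h1 h2 i
    have h3 : dg a ≤ a i := by
      unfold dg
      rw [← Finset.add_sum_erase _ _ (Finset.mem_univ i)]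
      have : ∑ l ∈ Finset.univ.erase i, a l ≤ 0 := Finset.sum_nonpos fun l _ => h1 l
      linarith
    omega
  have hT : ∀ T : Finset ι, T.card ≤ q →
      (hfin.toFinset.filter (fun a => sp a = T)).card ≤ (m + 1) ^ (q - 1) := by
    intro T hTq
    rcases T.eq_empty_or_nonempty with hTe | ⟨t₀, ht₀⟩
    · subst hTe
      have h1 : (hfin.toFinset.filter (fun a => sp a = ∅)).card ≤ 1 := by
        rw [Finset.card_le_one]
        intro a ha b hb
        rw [Finset.mem_filter] at ha hb
        have h2 : ∀ c : ι → ℤ, sp c = ∅ → c = 0 := by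
          intro c hc
          funext i
          by_contra hne
          have : i ∈ sp c := mem_sp.mpr hne
          rw [hc] at this
          exact absurd this (Finset.notMem_empty i)
        rw [h2 a ha.2, h2 b hb.2]
      exact h1.trans (Nat.one_le_pow _ _ (by omega))
    · let ψ : (ι → ℤ) → (↥(T.erase t₀) → Fin (m + 1)) := fun a l =>
        if h : (-a l.1).toNat < m + 1 then ⟨(-a l.1).toNat, h⟩ else 0
      have h1 : (hfin.toFinset.filter (fun a => sp a = T)).card ≤
          (Finset.univ : Finset (↥(T.erase t₀) → Fin (m + 1))).card := by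
        refine Finset.card_le_card_of_injOn ψ (fun a _ => Finset.mem_coe.mpr (Finset.mem_univ _)) ?_
        intro a ha b hb hab
        rw [Finset.mem_coe, Finset.mem_filter, Set.Finite.mem_toFinset] at ha hb
        obtain ⟨⟨⟨ha1, ha2⟩, _⟩, ha3⟩ := ha
        obtain ⟨⟨⟨hb1, hb2⟩, _⟩, hb3⟩ := hb
        have h2 : ∀ i, i ≠ t₀ → a i = b i := by
          intro i hi
          by_cases hiT : i ∈ T
          · have h3 := congrFun hab ⟨i, Finset.mem_erase.mpr ⟨hi, hiT⟩⟩
            simp only [ψ] at h3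
            rw [dif_pos (hle a ha1 ha2 i), dif_pos (hle b hb1 hb2 i)] at h3
            have h4 := congrArg Fin.val h3
            simp only at h4
            have h5 := ha1 i
            have h6 := hb1 i
            omega
          · have h3 : a i = 0 := by
              by_contra hne
              exact hiT (ha3 ▸ mem_sp.mpr hne)
            have h4 : b i = 0 := by
              by_contra hne
              exact hiT (hb3 ▸ mem_sp.mpr hne)
            rw [h3, h4]
        funext i
        by_cases hi : i = t₀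
        · subst hi
          have h3 : a i + ∑ l ∈ Finset.univ.erase i, a l = -(m : ℤ) := by
            rw [Finset.add_sum_erase _ _ (Finset.mem_univ i)]
            exact ha2
          have h4 : b i + ∑ l ∈ Finset.univ.erase i, b l = -(m : ℤ) := by
            rw [Finset.add_sum_erase _ _ (Finset.mem_univ i)]
            exact hb2
          have h5 : ∑ l ∈ Finset.univ.erase i, a l = ∑ l ∈ Finset.univ.erase i, b l :=
            Finset.sum_congr rfl fun l hl => h2 l (Finset.ne_of_mem_erase hl)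
          linarith
        · exact h2 i hi
      rw [Finset.card_univ, Fintype.card_fun, Fintype.card_fin, Fintype.card_coe,
        Finset.card_erase_of_mem ht₀] at h1
      exact h1.trans (Nat.pow_le_pow_right (by omega) (by omega))
  rw [Set.ncard_eq_toFinset_card _ hfin]
  have h1 : hfin.toFinset ⊆ (Finset.univ.filter (fun T : Finset ι => T.card ≤ q)).biUnion
      (fun T => hfin.toFinset.filter (fun a => sp a = T)) := by
    intro a ha
    rw [Finset.mem_biUnion]
    refine ⟨sp a, ?_, ?_⟩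
    · rw [Finset.mem_filter]
      rw [Set.Finite.mem_toFinset] at ha
      exact ⟨Finset.mem_univ _, ha.2⟩
    · rw [Finset.mem_filter]
      exact ⟨ha, rfl⟩
  refine (Finset.card_le_card h1).trans (Finset.card_biUnion_le.trans ?_)
  refine (Finset.sum_le_sum (fun T hT' => hT T (Finset.mem_filter.mp hT').2)).trans ?_
  rw [Finset.sum_const, smul_eq_mul]
  refine Nat.mul_le_mul_right _ ?_
  refine (Finset.card_le_card (Finset.subset_univ _)).trans ?_
  rw [Finset.card_univ, Fintype.card_finset]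

/-- Generators for the lifts over one multidegree. -/
lemma Sq.gens_one (h : Sq k x v Face g) {q : ℕ} {a : ι → ℤ} (ha : ∀ i, a i ≤ 0) :
    ∃ S : Finset (Finset ι → L), S.card ≤ (if (sp a).card ≤ q then 2 ^ (Fintype.card ι) else 0) ∧
      (∀ s ∈ S, s ∈ Cyc (RG k x (dg a)) q) ∧
      ∀ z l, IsLift k x v Face (dg a) q a z l →
        l ∈ Bdy (RG k x (dg a)) q ⊔ Submodule.span k (S : Set (Finset ι → L)) := by
  classical
  by_cases hcard : (sp a).card ≤ q
  · let Z : Submodule k (Finset ι → k) :=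
      { carrier := {z | Coc Face (sp a) q z}
        add_mem' := fun h1 h2 => Coc.add h1 h2
        zero_mem' := Coc.zero
        smul_mem' := fun c _ h1 => Coc.smul c h1 }
    let b := Module.finBasis k Z
    have hl : ∀ i, ∃ l ∈ Cyc (RG k x (dg a)) q,
        zm x (b i : Finset ι → k) a - l ∈ Coch (RF k x v (dg a) 1) q := fun i =>
      h.exists_lift ha (b i).2 1
    choose l hl1 hl2 using hl
    refine ⟨Finset.univ.image l, ?_, ?_, ?_⟩
    · rw [if_pos hcard]
      refine Finset.card_image_le.trans ?_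
      rw [Finset.card_univ, Fintype.card_fin]
      have h1 := Submodule.finrank_le Z
      rw [Module.finrank_fintype_fun_eq_card, Fintype.card_finset] at h1
      exact h1
    · intro s hs
      rw [Finset.mem_image] at hs
      obtain ⟨i, _, rfl⟩ := hs
      exact hl1 i
    · intro z l' hl'
      have hz : Coc Face (sp a) q z := hl'.1
      set zZ : Z := ⟨z, hz⟩ with hzZ
      have hz2 : z = ∑ i, b.repr zZ i • (b i : Finset ι → k) := by
        calc z = ((∑ i, b.repr zZ i • b i : Z) : Finset ι → k) := by rw [b.sum_repr]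
          _ = ∑ i, b.repr zZ i • (b i : Finset ι → k) := by
            rw [Submodule.coe_sum]
            rfl
      set l'' : Finset ι → L := ∑ i, b.repr zZ i • l i with hl''
      have h3 : IsLift k x v Face (dg a) q a z l'' := by
        have h4 : ∀ s : Finset (Fin (Module.finrank k Z)),
            IsLift k x v Face (dg a) q a (∑ i ∈ s, b.repr zZ i • (b i : Finset ι → k))
              (∑ i ∈ s, b.repr zZ i • l i) := by
          intro s
          induction s using Finset.induction_on with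
          | empty => simpa using IsLift.zero
          | insert i s hi ih =>
            rw [Finset.sum_insert hi, Finset.sum_insert hi]
            refine IsLift.add (IsLift.smul _ ⟨(b i).2, hl1 i, 1, one_pos, hl2 i⟩) ih
        have h5 := h4 Finset.univ
        rw [← hz2] at h5
        exact h5
      have h6 : l' - l'' ∈ Bdy (RG k x (dg a)) q := by
        obtain ⟨_, h7, ν, h8, h9⟩ := hl'
        obtain ⟨_, h7', ν', h8', h9'⟩ := h3
        have h10 : l' - l'' ∈ Cyc (RF k x v (dg a) (min ν ν')) q := by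
          refine ⟨?_, (Submodule.sub_mem _ h7 h7').2⟩
          have h11 : l' - l'' = (zm x z a - l'') - (zm x z a - l') := by abel
          rw [h11]
          exact Submodule.sub_mem _ (Coch_mono (RF_anti x v (dg a) (min_le_right _ _)) q h9')
            (Coch_mono (RF_anti x v (dg a) (min_le_left _ _)) q h9)
        exact Bdy_mono (RF_le_RG x v (dg a) _) q (h.exRF (dg a) q (lt_min h8 h8') h10)
      have h12 : l' = (l' - l'') + l'' := by abel
      rw [h12]
      refine Submodule.add_mem _ (Submodule.mem_sup_left h6) (Submodule.mem_sup_right ?_)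
      rw [hl'']
      refine Submodule.sum_mem _ fun i _ => Submodule.smul_mem _ _ (Submodule.subset_span ?_)
      rw [Finset.coe_image]
      exact ⟨i, Finset.mem_coe.mpr (Finset.mem_univ i), rfl⟩
  · refine ⟨∅, by simp, fun s hs => absurd hs (Finset.notMem_empty s), ?_⟩
    intro z l hl
    obtain ⟨hz, h7, ν, h8, h9⟩ := hl
    have hz0 : z = 0 := by
      funext G
      by_contra hne
      obtain ⟨h1, _, h3⟩ := hz.1 G hne
      exact hcard (h3 ▸ Finset.card_le_card h1)
    rw [hz0, zm_zero, zero_sub] at h9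
    have h10 : l ∈ Cyc (RF k x v (dg a) ν) q := by
      refine ⟨?_, h7.2⟩
      have := Submodule.neg_mem _ h9
      rwa [neg_neg] at this
    exact Submodule.mem_sup_left (Bdy_mono (RF_le_RG x v (dg a) _) q (h.exRF (dg a) q h8 h10))

/-- Generators of the cohomology in degree `-m`, with a count. -/
lemma Sq.gens (h : Sq k x v Face g) (m q : ℕ) (hq : 1 ≤ q) :
    ∃ S : Finset (Finset ι → L),
      S.card ≤ 4 ^ (Fintype.card ι) * (m + 1) ^ (q - 1) ∧
      (∀ s ∈ S, s ∈ Cyc (RG k x (-(m : ℤ))) q) ∧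
      Cyc (RG k x (-(m : ℤ))) q ≤
        Bdy (RG k x (-(m : ℤ))) q ⊔ Submodule.span k (S : Set (Finset ι → L)) := by
  classical
  set j : ℤ := -(m : ℤ) with hj
  have hfin := nonpos_finite (ι := ι) j
  have hS : ∀ a : ι → ℤ, ∃ S : Finset (Finset ι → L), (∀ i, a i ≤ 0) → dg a = j →
      S.card ≤ (if (sp a).card ≤ q then 2 ^ (Fintype.card ι) else 0) ∧
      (∀ s ∈ S, s ∈ Cyc (RG k x j) q) ∧
      ∀ z l, IsLift k x v Face j q a z l →
        l ∈ Bdy (RG k x j) q ⊔ Submodule.span k (S : Set (Finset ι → L)) := by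
    intro a
    by_cases ha : (∀ i, a i ≤ 0) ∧ dg a = j
    · obtain ⟨S, h1, h2, h3⟩ := h.gens_one (q := q) ha.1
      rw [ha.2] at h2 h3
      exact ⟨S, fun _ _ => ⟨h1, h2, h3⟩⟩
    · exact ⟨∅, fun h1 h2 => absurd ⟨h1, h2⟩ ha⟩
  choose S hS using hS
  refine ⟨hfin.toFinset.biUnion S, ?_, ?_, ?_⟩
  · refine Finset.card_biUnion_le.trans ?_
    have h1 : ∀ a ∈ hfin.toFinset, (S a).card ≤
        (if (sp a).card ≤ q then 2 ^ (Fintype.card ι) else 0) := by
      intro a ha
      rw [Set.Finite.mem_toFinset] at ha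
      exact (hS a ha.1 ha.2).1
    refine (Finset.sum_le_sum h1).trans ?_
    rw [← Finset.sum_filter, Finset.sum_const, smul_eq_mul]
    have h2 : (hfin.toFinset.filter (fun a => (sp a).card ≤ q)).card ≤
        2 ^ (Fintype.card ι) * (m + 1) ^ (q - 1) := by
      have h3 := count_supp (ι := ι) m q hq
      have h4 : {a : ι → ℤ | ((∀ i, a i ≤ 0) ∧ dg a = -(m : ℤ)) ∧ (sp a).card ≤ q} =
          ((hfin.toFinset.filter (fun a => (sp a).card ≤ q) : Finset (ι → ℤ)) :
            Set (ι → ℤ)) := by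
        ext a
        simp only [Finset.coe_filter, Set.Finite.mem_toFinset, Set.mem_ofPred_eq, hj]
      rw [h4, Set.ncard_coe_finset] at h3
      exact h3
    calc _ ≤ (2 ^ (Fintype.card ι) * (m + 1) ^ (q - 1)) * 2 ^ (Fintype.card ι) :=
          Nat.mul_le_mul_right _ h2
      _ = 4 ^ (Fintype.card ι) * (m + 1) ^ (q - 1) := by
          rw [show (4 : ℕ) = 2 * 2 from rfl, mul_pow]
          ring
  · intro s hs
    rw [Finset.mem_biUnion] at hs
    obtain ⟨a, ha, hs⟩ := hs
    rw [Set.Finite.mem_toFinset] at ha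
    exact (hS a ha.1 ha.2).2.1 s hs
  · intro c hc
    have h1 := h.span' hc
    refine (sup_le le_sup_left ?_ : Rep k x v Face j q Set.univ ≤ _) h1
    rw [Submodule.span_le]
    rintro l ⟨a, z, h2, h3, _, h4⟩
    have h5 := (hS a h2 h3).2.2 z l h4
    have h6 : Submodule.span k (S a : Set (Finset ι → L)) ≤
        Submodule.span k ((hfin.toFinset.biUnion S : Finset (Finset ι → L)) :
          Set (Finset ι → L)) := by
      refine Submodule.span_mono ?_
      rw [Finset.coe_biUnion]
      intro s hs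
      simp only [Set.mem_iUnion]
      exact ⟨a, Finset.mem_coe.mpr (hfin.mem_toFinset.mpr ⟨h2, h3⟩), hs⟩
    exact sup_le_sup (le_refl _) h6 h5

/-- Some nonzero element of the coordinate ring annihilates the total cohomology in degree `q`,
if `q` is smaller than the cardinality of some face. -/
theorem Sq.exists_ann (h : Sq k x v Face g) {F₀ : Finset ι} (hF₀ : Face F₀) {q : ℕ} (hq1 : 1 ≤ q)
    (hq : q < F₀.card) : ∃ f ∈ AnnH k x q, f ≠ 0 := by
  classical
  set n := Fintype.card ι with hn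
  obtain ⟨f₀, hf₀⟩ : F₀.Nonempty := Finset.card_pos.mp (by omega)
  set D := F₀.card with hD
  -- the target
  let mk := (Bdy (TG k x) q).mkQ
  let S' : Submodule k ((Finset ι → L) ⧸ Bdy (TG k x) q) :=
    ⨆ i : Fin (n + 1), (Cyc (RG k x (-((i : ℕ) : ℤ))) q).map mk
  have hS'fin : Module.Finite k S' := by
    have h1 : ∀ i : Fin (n + 1), FiniteDimensional k
        ((Cyc (RG k x (-((i : ℕ) : ℤ))) q).map mk) := by
      intro i
      obtain ⟨S, _, _, hS3⟩ := h.gens (i : ℕ) q hq1
      have h2 : (Cyc (RG k x (-((i : ℕ) : ℤ))) q).map mk ≤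
          Submodule.span k ((S.image mk : Finset _) : Set ((Finset ι → L) ⧸ Bdy (TG k x) q)) := by
        refine (Submodule.map_mono hS3).trans ?_
        rw [Submodule.map_sup, Submodule.map_span, Finset.coe_image]
        refine sup_le ?_ (le_refl _)
        rintro _ ⟨b, hb, rfl⟩
        have h3 : mk b = 0 := (Submodule.Quotient.mk_eq_zero _).mpr (Bdy_mono (RG_le_TG x _) q hb)
        rw [h3]
        exact Submodule.zero_mem _
      have h3 : FiniteDimensional k (Submodule.span k
          ((S.image mk : Finset _) : Set ((Finset ι → L) ⧸ Bdy (TG k x) q))) :=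
        FiniteDimensional.span_of_finite k (Finset.finite_toSet _)
      exact Submodule.finiteDimensional_of_le h2
    exact Submodule.finiteDimensional_iSup _
  set C := Module.finrank k S' with hC
  -- the parameter
  set K : ℕ := (n + 1) * 4 ^ n * (D + n + 1) ^ (D - 2) * C with hK
  set e : ℕ := D * K with he
  have hlow := h.finrank_lower hF₀ hf₀ K
  -- generators in the relevant degrees
  have hgen : ∀ i : ℕ, ∃ S : Finset (Finset ι → L),
      S.card ≤ 4 ^ n * (e + i + 1) ^ (q - 1) ∧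
      (∀ s ∈ S, s ∈ Cyc (RG k x (-((e + i : ℕ) : ℤ))) q) ∧
      Cyc (RG k x (-((e + i : ℕ) : ℤ))) q ≤
        Bdy (RG k x (-((e + i : ℕ) : ℤ))) q ⊔ Submodule.span k (S : Set (Finset ι → L)) :=
    fun i => h.gens (e + i) q hq1
  choose S hS1 hS2 hS3 using hgen
  -- the linear map
  let I := Σ i : Fin (n + 1), ↥(S (i : ℕ))
  let mulc : RG k x ((e : ℕ) : ℤ) ∅ →ₗ[k] ((Finset ι → L) →ₗ[k] (Finset ι → L)) :=
    { toFun := fun c =>
        { toFun := fun ξ G => (c : L) * ξ G
          map_add' := fun ξ η => by funext G; simp [mul_add]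
          map_smul' := fun r ξ => by funext G; simp }
      map_add' := fun c d => by
        ext ξ G
        simp [add_mul]
      map_smul' := fun r c => by
        ext ξ G
        simp }
  have hmul : ∀ (c : RG k x ((e : ℕ) : ℤ) ∅) (j : ℤ), ∀ ξ ∈ Cyc (RG k x j) q,
      (fun G => (c : L) * ξ G) ∈ Cyc (RG k x (e + j)) q := by
    intro c j ξ hξ
    refine Cyc_map (AddMonoidHom.mulLeft (c : L)) (fun G u hu => ?_) hξ
    exact RG_mul h.hx (RG_FMono x _ _ _ (Finset.empty_subset G) c.2) hu
  let Φ : RG k x ((e : ℕ) : ℤ) ∅ →ₗ[k] (I → S') :=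
    LinearMap.pi (fun s : I => LinearMap.codRestrict S'
      ((mk.comp ((LinearMap.applyₗ (s.2 : Finset ι → L)).comp mulc))) (by
        intro c
        have h1 := hmul c _ _ (hS2 (s.1 : ℕ) s.2 s.2.2)
        have h2 : ((e : ℤ) + -((e + (s.1 : ℕ) : ℕ) : ℤ)) = -((s.1 : ℕ) : ℤ) := by
          push_cast
          ring
        rw [h2] at h1
        exact Submodule.mem_iSup_of_mem s.1 (Submodule.mem_map_of_mem h1)))
  have hIcard : Fintype.card I ≤ (n + 1) * (4 ^ n * (e + n + 1) ^ (q - 1)) := by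
    rw [Fintype.card_sigma]
    have h1 : ∀ i : Fin (n + 1), Fintype.card ↥(S (i : ℕ)) ≤ 4 ^ n * (e + n + 1) ^ (q - 1) := by
      intro i
      rw [Fintype.card_coe]
      refine (hS1 i).trans (Nat.mul_le_mul_left _ (Nat.pow_le_pow_left ?_ _))
      have := i.2
      omega
    refine (Finset.sum_le_sum fun i _ => h1 i).trans ?_
    rw [Finset.sum_const, Finset.card_univ, Fintype.card_fin, smul_eq_mul]
  have hdim : Module.finrank k (I → S') < Module.finrank k (RG k x ((e : ℕ) : ℤ) ∅) := by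
    have h1 : Module.finrank k (I → S') = Fintype.card I * C := by
      rw [Module.finrank_pi_fintype, Finset.sum_const, Finset.card_univ, smul_eq_mul]
    rw [h1]
    refine lt_of_lt_of_le ?_ hlow
    have h2 : (e + n + 1) ≤ (D + n + 1) * (K + 1) := by
      rw [he]
      nlinarith
    have h3 : (e + n + 1) ^ (q - 1) ≤ ((D + n + 1) * (K + 1)) ^ (D - 2) := by
      refine (Nat.pow_le_pow_left h2 _).trans (Nat.pow_le_pow_right ?_ (by omega))
      positivity
    have h4 : Fintype.card I * C ≤ K * (K + 1) ^ (D - 2) := by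
      calc Fintype.card I * C ≤ ((n + 1) * (4 ^ n * (e + n + 1) ^ (q - 1))) * C :=
            Nat.mul_le_mul_right _ hIcard
        _ ≤ ((n + 1) * (4 ^ n * ((D + n + 1) * (K + 1)) ^ (D - 2))) * C :=
            Nat.mul_le_mul_right _ (Nat.mul_le_mul_left _ (Nat.mul_le_mul_left _ h3))
        _ = K * (K + 1) ^ (D - 2) := by
            rw [mul_pow, hK]
            ring
    have h5 : K * (K + 1) ^ (D - 2) < (K + 1) ^ (D - 1) := by
      have h6 : D - 1 = (D - 2) + 1 := by omega
      rw [h6, pow_succ]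
      have h7 : 0 < (K + 1) ^ (D - 2) := by positivity
      nlinarith
    exact lt_of_le_of_lt h4 h5
  have hRfin := RG_finite (k := k) x ((e : ℕ) : ℤ)
  have hker := LinearMap.ker_ne_bot_of_finrank_lt hdim (f := Φ)
  obtain ⟨c, hcker, hcne⟩ := Submodule.exists_mem_ne_zero_of_ne_bot hker
  have hc0 : (c : L) ≠ 0 := fun h0 => hcne (Subtype.ext h0)
  -- `c` kills the generators
  have hkill : ∀ i : ℕ, i ≤ n → ∀ ξ ∈ Cyc (RG k x (-((e + i : ℕ) : ℤ))) q,
      (fun G => (c : L) * ξ G) ∈ Bdy (TG k x) q := by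
    intro i hi ξ hξ
    have h1 := hS3 i hξ
    obtain ⟨b, hb, s, hs, rfl⟩ := Submodule.mem_sup.mp h1
    have hcTG : (c : L) ∈ TG k x ∅ := RG_le_TG x _ _ c.2
    have h2 : (fun G => (c : L) * (b + s) G) = (fun G => (c : L) * b G) + mulc c s := by
      funext G
      simp [mulc, mul_add]
    rw [h2]
    refine Submodule.add_mem _ (mul_Bdy h.hx hcTG (Bdy_mono (RG_le_TG x _) q hb)) ?_
    clear h2 h1 hξ
    induction hs using Submodule.span_induction with
    | mem s hs =>
      have h3 : Φ c = 0 := hcker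
      have h4 := congrFun h3 ⟨⟨i, by omega⟩, ⟨s, hs⟩⟩
      have h5 : mk (mulc c s) = 0 := congrArg Subtype.val h4
      exact (Submodule.Quotient.mk_eq_zero _).mp h5
    | zero => rw [map_zero]; exact Submodule.zero_mem _
    | add s s' _ _ ih ih' => rw [map_add]; exact Submodule.add_mem _ ih ih'
    | smul r s _ ih => rw [map_smul]; exact Submodule.smul_mem _ _ ih
  have hkill' : ∀ i : ℕ, i ≤ n → ∀ ξ ∈ Cyc (RG k x (-((e + i : ℕ) : ℤ))) q,
      (fun G => (c : L) * ξ G) ∈ Bdy (RG k x (e + -((e + i : ℕ) : ℤ))) q := fun i hi ξ hξ =>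
    Bdy_total h.hom (hkill i hi ξ hξ) (hmul c _ ξ hξ).1
  have hall : ∀ m : ℕ, ∀ j : ℤ, -(n : ℤ) - (e + j) ≤ m → ∀ ξ ∈ Cyc (RG k x j) q,
      (fun G => (c : L) * ξ G) ∈ Bdy (RG k x (e + j)) q := by
    intro m
    induction m with
    | zero =>
      intro j hj ξ hξ
      by_cases hpos : 0 < (e : ℤ) + j
      · exact h.ex_pos hpos q (hmul c j ξ hξ)
      · push Not at hpos
        obtain ⟨i, hi⟩ := Int.eq_ofNat_of_zero_le (show (0 : ℤ) ≤ -((e : ℤ) + j) by omega)
        have h1 : j = -((e + i : ℕ) : ℤ) := by push_cast; omega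
        subst h1
        exact hkill' i (by push_cast at hj; omega) ξ hξ
    | succ m ih =>
      intro j hj ξ hξ
      by_cases hle : -(n : ℤ) - (e + j) ≤ m
      · exact ih j hle ξ hξ
      · refine h.soc (j := e + j) (by omega) q (hmul c j ξ hξ) fun i => ?_
        have h1 := ih (j + 1) (by push_cast at hj; omega) _ (x_mul_Cyc h.hx i hξ)
        have h2 : (fun G => x i * ((fun G => (c : L) * ξ G) G)) =
            (fun G => (c : L) * (fun G => x i * ξ G) G) := by
          funext G
          ring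
        have h3 : (e : ℤ) + (j + 1) = e + j + 1 := by ring
        rw [h2, ← h3]
        exact h1
  refine ⟨c, ⟨RG_le_TG x _ _ c.2, fun ξ hξ => ?_⟩, hc0⟩
  have hcTG : (c : L) ∈ TG k x ∅ := RG_le_TG x _ _ c.2
  refine Bdy_of_components h.hom (mul_Cyc h.hx hcTG hξ) fun j => ?_
  have h1 : (fun G => hc h.hom j ((c : L) * ξ G)) =
      (fun G => (c : L) * (fun G => hc h.hom (j - e) (ξ G)) G) := by
    funext G
    have h2 := hc_mul h.hx h.hom (i := (e : ℤ)) (j := j - e)
      (S := EG ∅ ∩ Dj (e : ℤ)) (T := EG G) Set.inter_subset_right c.2 (hξ.1 G).1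
    rw [add_sub_cancel] at h2
    exact h2
  rw [h1]
  have h2 := hall (-(n : ℤ) - j).toNat (j - e) (by
    have := Int.self_le_toNat (-(n : ℤ) - j)
    linarith) (fun G => hc h.hom (j - e) (ξ G)) (hc_Cyc h.hom hξ)
  rw [add_sub_cancel] at h2
  exact h2

end Pool.Agent.MP8049


/-! ## Part Van -/

set_option autoImplicit false

/-! Links of nonempty faces are exact below the top degree; vanishing in negative degrees. -/

namespace Pool.Agent.MP8049

variable {ι : Type*} [Fintype ι] [LinearOrder ι]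
variable {L : Type*} [Field L] {k : Type*} [Field k] [Algebra k L]
variable {x : ι → L} {v : ι → ℝ} {Face : Finset ι → Prop} {g : ℝ}

theorem Sq.link_exact (h : Sq k x v Face g) (hs : HSSimple (TG k x ∅ : Set L) x)
    {F₀ : Finset ι} (hF₀ : Face F₀) {q : ℕ} (hq : q < F₀.card) {F : Finset ι}
    (hF : F.Nonempty) {z : Finset ι → k} (hz : Coc Face F q z) : Cob Face F q z := by
  classical
  rcases Nat.eq_zero_or_pos q with hq0 | hq1
  · subst hq0
    refine ⟨0, fun G hG => absurd rfl hG, fun G h1 _ h3 => ?_⟩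
    rw [Finset.card_eq_zero] at h3
    subst h3
    exact absurd (Finset.subset_empty.mp h1) hF.ne_empty
  · obtain ⟨i, hi⟩ := hF
    obtain ⟨N, hN⟩ := AnnH_pow h.hx hs (h.exists_ann hF₀ hq1 hq) i
    set a' : ι → ℤ := fun l => if l ∈ F then -1 else 0 with ha'
    set a : ι → ℤ := a' - Pi.single i (N : ℤ) with ha
    have ha'0 : ∀ l, a' l ≤ 0 := by
      intro l
      simp only [ha']
      split_ifs <;> norm_num
    have hai : ∀ l, a l = if l = i then a' l - N else a' l := by
      intro l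
      rw [ha, Pi.sub_apply]
      by_cases hl : l = i
      · subst hl; rw [Pi.single_eq_same, if_pos rfl]
      · rw [Pi.single_eq_of_ne hl, if_neg hl, sub_zero]
    have ha0 : ∀ l, a l ≤ 0 := by
      intro l
      rw [hai]
      have := ha'0 l
      split_ifs
      · have h0 : (0 : ℤ) ≤ N := Int.natCast_nonneg N
        linarith
      · exact this
    have hsp' : sp a' = F := by
      ext l
      rw [mem_sp]
      simp only [ha']
      by_cases hl : l ∈ F <;> simp [hl]
    have hsp : sp a = F := by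
      ext l
      rw [mem_sp, hai]
      by_cases hl : l = i
      · subst hl
        have h1 : a' l = -1 := by simp [ha', hi]
        rw [if_pos rfl, h1]
        simp only [hi, iff_true]
        omega
      · rw [if_neg hl, ← mem_sp, hsp']
    obtain ⟨l, hl1, hl2⟩ := h.exists_lift ha0 (q := q) (z := z) (by rw [hsp]; exact hz) 1
    have h1 : (fun G => x i ^ N * l G) ∈ Bdy (TG k x) q := hN.2 l (Cyc_mono (RG_le_TG x _) q hl1)
    have hpow : x i ^ N = mon x (Pi.single i (N : ℤ)) := by rw [mon_single, zpow_natCast]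
    have hmulRG : ∀ G, ∀ u ∈ RG k x (dg a) G, x i ^ N * u ∈ RG k x (dg a') G := by
      intro G u hu
      rw [hpow, mul_comm]
      refine Sp_mul_mon h.hx ?_ hu
      rintro b ⟨hb1, hb2⟩
      refine ⟨fun l hl => ?_, ?_⟩
      · rw [Pi.add_apply]
        refine add_nonneg (hb1 l hl) ?_
        by_cases hli : l = i
        · subst hli; rw [Pi.single_eq_same]; exact Int.natCast_nonneg N
        · rw [Pi.single_eq_of_ne hli]
      · have hb2' : dg b = dg a := hb2
        show dg (b + Pi.single i (N : ℤ)) = dg a'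
        rw [dg_add, hb2', ha, dg_sub, dg_single]
        ring
    have h2 : (fun G => x i ^ N * l G) ∈ Bdy (RG k x (dg a')) q :=
      Bdy_total h.hom h1 (Coch_map (AddMonoidHom.mulLeft (x i ^ N)) hmulRG hl1.1)
    have hmon : mon x a' = x i ^ N * mon x a := by
      rw [hpow, ← mon_add h.hx, ha]
      congr 1
      abel
    have h3 := h.lfi ha'0 (q := q) (z := z) (by rw [hsp']; exact hz) h2 (by
      intro G
      have h4 : x i ^ N * l G - z G • mon x a' = -(x i ^ N * (zm x z a - l) G) := by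
        simp only [Pi.sub_apply, zm, hmon]
        rw [Algebra.smul_def, Algebra.smul_def]
        ring
      rw [h4]
      refine Submodule.neg_mem _ ?_
      rw [hpow, mul_comm]
      refine Sp_mul_mon h.hx ?_ (hl2 G).1
      rintro b ⟨⟨hb1, hb2⟩, hb3⟩
      refine ⟨⟨fun l hl => ?_, ?_⟩, ?_⟩
      · rw [Pi.add_apply]
        refine add_nonneg (hb1 l hl) ?_
        by_cases hli : l = i
        · subst hli; rw [Pi.single_eq_same]; exact Int.natCast_nonneg N
        · rw [Pi.single_eq_of_ne hli]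
      · have hb2' : dg b = dg a := hb2
        show dg (b + Pi.single i (N : ℤ)) = dg a'
        rw [dg_add, hb2', ha, dg_sub, dg_single]
        ring
      · have hb3' : 1 ≤ wt v b := hb3
        show wt v a' < wt v (b + Pi.single i (N : ℤ))
        rw [wt_add, wt_single]
        have h5 := wt_nonpos h.hv ha'0
        have h6 : 0 ≤ ((N : ℤ) : ℝ) * v i :=
          mul_nonneg (by exact_mod_cast Int.natCast_nonneg N) (h.hv i).le
        linarith)
    rwa [hsp'] at h3

theorem Sq.van (h : Sq k x v Face g) (hs : HSSimple (TG k x ∅ : Set L) x)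
    {F₀ : Finset ι} (hF₀ : Face F₀) {q : ℕ} (hq : q < F₀.card) {j : ℤ} (hj : j < 0) :
    Ex (RG k x j) q := by
  refine h.ex_of_gr fun a ha hdg z hz => ?_
  refine h.link_exact hs hF₀ hq ?_ hz
  rw [Finset.nonempty_iff_ne_empty]
  intro he
  have : a = 0 := by
    funext i
    by_contra hne
    have : i ∈ sp a := mem_sp.mpr hne
    rw [he] at this
    exact absurd this (Finset.notMem_empty i)
  rw [this, dg_zero] at hdg
  omega

end Pool.Agent.MP8049


/-! ## Part Dim -/

set_option autoImplicit false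

/-! The transcendence degree is the largest size of a face; the initial state. -/

namespace Pool.Agent.MP8049

variable {ι : Type} [Fintype ι] [LinearOrder ι]
variable {L : Type} [Field L] {k : Type} [Field k] [Algebra k L]
variable {x : ι → L} {v : ι → ℝ} {Face : Finset ι → Prop} {g : ℝ}

lemma linInd_of_algInd {T : Finset ι} (hT : AlgebraicIndependent k (fun i : T => x i)) :
    LinearIndependent k
      (fun b : {b : ι → ℤ // b ∈ (Nn : Set (ι → ℤ)) ∧ sp b ⊆ T} => mon x b.1) := by
  rw [algInd_iff] at hT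
  rw [linearIndependent_iff]
  intro t ht
  have h1 : lc k x (t.mapDomain Subtype.val) = 0 := by
    unfold lc
    rw [Finsupp.linearCombination_mapDomain]
    exact ht
  have h2 := hT _ (by
    intro a ha
    have h3 := Finsupp.mapDomain_support ha
    rw [Finset.mem_image] at h3
    obtain ⟨b, _, rfl⟩ := h3
    refine ⟨b.2.1, fun i hi => ?_⟩
    by_contra hne
    exact hi (b.2.2 (mem_sp.mpr hne))) h1
  exact Finsupp.mapDomain_injective Subtype.val_injective (by rw [h2, Finsupp.mapDomain_zero])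

lemma Sq.finrank_upper (h : Sq k x v Face g) {D : ℕ} (hD : ∀ F, Face F → F.card ≤ D) (m : ℕ) :
    Module.finrank k (RG k x (m : ℤ) ∅) ≤
      {b : ι → ℤ | (b ∈ (Nn : Set (ι → ℤ)) ∧ dg b = m) ∧ (sp b).card ≤ D}.ncard := by
  classical
  have hfin : {b : ι → ℤ | (b ∈ (Nn : Set (ι → ℤ)) ∧ dg b = m) ∧ (sp b).card ≤ D}.Finite :=
    (nn_finite (m : ℤ)).subset fun b hb => ⟨hb.1.2, hb.1.1⟩
  have h1 : RG k x (m : ℤ) ∅ ≤ Submodule.span k
      (((hfin.toFinset.image (mon x)) : Finset L) : Set L) := by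
    have h2 := h.reduce (m : ℤ) Set.univ (fun r _ r' _ => Set.mem_univ _)
    intro f hf
    have h3 : f ∈ Sp k x (Nn ∩ Dj (m : ℤ) ∩ {a | wt v a ∈ (Set.univ : Set ℝ)}) := by
      refine Sp_mono ?_ hf
      rintro a ⟨ha1, ha2⟩
      rw [EG_empty] at ha1
      exact ⟨⟨ha1, ha2⟩, Set.mem_univ _⟩
    have h4 := h2 h3
    refine Submodule.span_mono ?_ h4
    rintro _ ⟨a, ⟨⟨⟨ha1, ha2⟩, _⟩, ha3⟩, rfl⟩
    rw [Finset.coe_image]
    refine ⟨a, ?_, rfl⟩
    rw [Finset.mem_coe, Set.Finite.mem_toFinset]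
    exact ⟨⟨ha1, ha2⟩, hD _ ha3⟩
  have h2 : FiniteDimensional k (Submodule.span k
      (((hfin.toFinset.image (mon x)) : Finset L) : Set L)) :=
    FiniteDimensional.span_of_finite k (Finset.finite_toSet _)
  refine (Submodule.finrank_mono h1).trans ?_
  have h3 := finrank_span_finset_le_card (R := k) (hfin.toFinset.image (mon x))
  refine h3.trans (Finset.card_image_le.trans ?_)
  rw [Set.ncard_eq_toFinset_card _ hfin]

lemma neg_count (m D : ℕ) :
    {b : ι → ℤ | (b ∈ (Nn : Set (ι → ℤ)) ∧ dg b = m) ∧ (sp b).card ≤ D}.ncard =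
    {a : ι → ℤ | ((∀ i, a i ≤ 0) ∧ dg a = -(m : ℤ)) ∧ (sp a).card ≤ D}.ncard := by
  have hsp : ∀ a : ι → ℤ, sp (-a) = sp a := by
    intro a
    ext i
    rw [mem_sp, mem_sp]
    simp
  have h1 : {a : ι → ℤ | ((∀ i, a i ≤ 0) ∧ dg a = -(m : ℤ)) ∧ (sp a).card ≤ D} =
      (fun a : ι → ℤ => -a) ''
        {b : ι → ℤ | (b ∈ (Nn : Set (ι → ℤ)) ∧ dg b = m) ∧ (sp b).card ≤ D} := by
    ext a
    constructor
    · rintro ⟨⟨h1, h2⟩, h3⟩
      refine ⟨-a, ⟨⟨fun i => ?_, ?_⟩, ?_⟩, neg_neg a⟩
      · have := h1 i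
        simp only [Pi.neg_apply]
        omega
      · rw [dg_neg, h2, neg_neg]
      · rw [hsp]
        exact h3
    · rintro ⟨b, ⟨⟨h1, h2⟩, h3⟩, rfl⟩
      refine ⟨⟨fun i => ?_, ?_⟩, ?_⟩
      · have := h1 i
        simp only [Pi.neg_apply]
        omega
      · rw [dg_neg, h2]
      · rw [hsp]
        exact h3
  rw [h1, Set.ncard_image_of_injective _ neg_injective]

lemma Sq.card_le (h : Sq k x v Face g) {D : ℕ} (hD : ∀ F, Face F → F.card ≤ D) {T : Finset ι}
    (hT : AlgebraicIndependent k (fun i : T => x i)) : T.card ≤ D := by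
  by_contra hcon
  push Not at hcon
  obtain ⟨t₀, ht₀⟩ : T.Nonempty := Finset.card_pos.mp (by omega)
  have hlow := finrank_lower_gen (linInd_of_algInd hT) ht₀
  rcases Nat.eq_zero_or_pos D with hD0 | hD1
  · have h1 := hlow 1
    have h2 := h.finrank_upper hD (T.card * 1)
    have h3 : {b : ι → ℤ | (b ∈ (Nn : Set (ι → ℤ)) ∧ dg b = ((T.card * 1 : ℕ) : ℤ)) ∧
        (sp b).card ≤ D} = ∅ := by
      rw [Set.eq_empty_iff_forall_notMem]
      rintro b ⟨⟨_, hb2⟩, hb3⟩
      have h4 : sp b = ∅ := by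
        rw [← Finset.card_eq_zero]
        omega
      have h5 : b = 0 := by
        funext i
        by_contra hne
        have : i ∈ sp b := mem_sp.mpr hne
        rw [h4] at this
        exact absurd this (Finset.notMem_empty i)
      rw [h5, dg_zero] at hb2
      have : 0 < T.card := by omega
      push_cast at hb2
      omega
    rw [h3, Set.ncard_empty] at h2
    have h4 : 0 < (1 + 1) ^ (T.card - 1) := by positivity
    omega
  · set n := Fintype.card ι with hn
    set e := 2 ^ n * T.card ^ (D - 1) with he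
    have h1 := hlow e
    have h2 := h.finrank_upper hD (T.card * e)
    rw [neg_count] at h2
    have h3 := count_supp (ι := ι) (T.card * e) D hD1
    have h4 : (e + 1) ^ (T.card - 1) ≤ 2 ^ n * (T.card * e + 1) ^ (D - 1) := h1.trans (h2.trans h3)
    have h5 : (e + 1) ^ D ≤ (e + 1) ^ (T.card - 1) := Nat.pow_le_pow_right (by omega) (by omega)
    have h6 : T.card * e + 1 ≤ T.card * (e + 1) := by
      rw [mul_add, mul_one]
      have : 0 < T.card := by omega
      omega
    have h7 : 2 ^ n * (T.card * e + 1) ^ (D - 1) ≤ e * (e + 1) ^ (D - 1) := by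
      refine (Nat.mul_le_mul_left _ (Nat.pow_le_pow_left h6 _)).trans ?_
      rw [mul_pow, ← mul_assoc]
    have h8 : e * (e + 1) ^ (D - 1) < (e + 1) ^ D := by
      obtain ⟨D', rfl⟩ : ∃ D', D = D' + 1 := ⟨D - 1, by omega⟩
      rw [Nat.add_sub_cancel, pow_succ]
      have : 0 < (e + 1) ^ D' := by positivity
      nlinarith
    omega

lemma Sq.face_algInd (h : Sq k x v Face g) {F : Finset ι} (hF : Face F) :
    AlgebraicIndependent k (fun i : F => x i) := by
  rw [algInd_iff]
  intro t ht hlc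
  refine h.R2 t (fun a ha => ⟨(ht a ha).1, h.down _ _ hF fun i hi => ?_⟩) hlc
  by_contra hiF
  exact mem_sp.mp hi ((ht a ha).2 i hiF)

/-- The elements of the coordinate ring lie in the subalgebra generated by the `x i`. -/
lemma TG_le_adjoin {f : L} (hf : f ∈ TG k x ∅) : f ∈ Algebra.adjoin k (Set.range x) := by
  have h1 : TG k x ∅ ≤ Subalgebra.toSubmodule (Algebra.adjoin k (Set.range x)) := by
    refine Sp_le fun a ha => ?_
    rw [EG_empty] at ha
    rw [Subalgebra.mem_toSubmodule]
    unfold mon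
    refine Subalgebra.prod_mem _ fun i _ => ?_
    obtain ⟨m, hm⟩ := Int.eq_ofNat_of_zero_le (ha i)
    rw [hm, zpow_natCast]
    exact Subalgebra.pow_mem _ (Algebra.subset_adjoin (Set.mem_range_self i)) m
  exact h1 hf

lemma exists_tb (hfr : ∀ f : L, ∃ p ∈ TG k x ∅, ∃ q ∈ TG k x ∅, q ≠ 0 ∧ f = p / q) :
    ∃ T : Finset ι, IsTranscendenceBasis k (fun i : T => x i) := by
  classical
  have halg : Algebra.IsAlgebraic (Algebra.adjoin k (Set.range x)) L := by
    refine ⟨fun f => ?_⟩
    obtain ⟨p, hp, q, hq, hq0, rfl⟩ := hfr f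
    refine ⟨Polynomial.C (⟨q, TG_le_adjoin hq⟩ : Algebra.adjoin k (Set.range x)) * Polynomial.X -
      Polynomial.C (⟨p, TG_le_adjoin hp⟩ : Algebra.adjoin k (Set.range x)), ?_, ?_⟩
    · intro h0
      have h1 := congrArg (fun P => Polynomial.coeff P 1) h0
      simp only [Polynomial.coeff_sub, Polynomial.coeff_C_mul, Polynomial.coeff_X_one, mul_one,
        Polynomial.coeff_zero] at h1
      rw [Polynomial.coeff_C_of_ne_zero one_ne_zero, sub_zero] at h1
      exact hq0 (congrArg Subtype.val h1)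
    · simp only [map_sub, map_mul, Polynomial.aeval_X, Polynomial.aeval_C]
      show q * (p / q) - p = 0
      rw [mul_div_cancel₀ _ hq0, sub_self]
  obtain ⟨u, hu1, hu2⟩ := exists_isTranscendenceBasis_subset (R := k) (Set.range x)
  have hch : ∀ y : u, ∃ i, x i = y := fun y => hu1 y.2
  choose φ hφ using hch
  have hφinj : Function.Injective φ := by
    intro y y' h
    apply Subtype.ext
    rw [← hφ y, ← hφ y', h]
  have hufin : Finite u := Finite.of_injective φ hφinj
  have := Fintype.ofFinite u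
  refine ⟨Finset.univ.image φ, ?_⟩
  let e : u ≃ (Finset.univ.image φ : Finset ι) := Equiv.ofBijective
    (fun y => ⟨φ y, Finset.mem_image_of_mem φ (Finset.mem_univ y)⟩) (by
      constructor
      · intro y y' h
        exact hφinj (congrArg Subtype.val h)
      · rintro ⟨i, hi⟩
        obtain ⟨y, _, hy⟩ := Finset.mem_image.mp hi
        exact ⟨y, Subtype.ext hy⟩)
  refine (isTranscendenceBasis_equiv' e ?_).mp hu2
  funext y
  exact hφ y

/-- The transcendence degree is the maximal size of a face. -/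
theorem Sq.trdeg_eq (h : Sq k x v Face g)
    (hfr : ∀ f : L, ∃ p ∈ TG k x ∅, ∃ q ∈ TG k x ∅, q ≠ 0 ∧ f = p / q)
    {F₀ : Finset ι} (hF₀ : Face F₀) (hmax : ∀ F, Face F → F.card ≤ F₀.card) :
    Algebra.trdeg k L = F₀.card := by
  obtain ⟨T, hT⟩ := exists_tb hfr
  have h1 := hT.cardinalMk_eq_trdeg
  rw [Cardinal.mk_coe_finset] at h1
  have h2 := h.card_le hmax hT.1
  have h3 := (h.face_algInd hF₀).cardinalMk_le_trdeg
  rw [Cardinal.mk_coe_finset, ← h1] at h3
  have h4 : F₀.card ≤ T.card := by exact_mod_cast h3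
  rw [← h1]
  congr 1
  omega

lemma Stage0.toSq {K₀ : Type} [Field K₀] [Algebra K₀ k] [Algebra K₀ L]
    (h : Stage0 K₀ k x v Face) : ∃ g : ℝ, Sq k x v Face g := by
  obtain ⟨g, hg, hR1⟩ := h.R1
  exact ⟨g, h.hx, h.hv, h.hinj, h.hom, h.down, h.emp, hg, hR1, h.R2⟩

lemma exists_max_face (hemp : Face ∅) :
    ∃ F₀ : Finset ι, Face F₀ ∧ ∀ F, Face F → F.card ≤ F₀.card := by
  classical
  obtain ⟨F₀, h1, h2⟩ := Finset.exists_max_image
    ((Finset.univ : Finset (Finset ι)).filter Face) Finset.card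
    ⟨∅, by rw [Finset.mem_filter]; exact ⟨Finset.mem_univ _, hemp⟩⟩
  rw [Finset.mem_filter] at h1
  refine ⟨F₀, h1.2, fun F hF => h2 F ?_⟩
  rw [Finset.mem_filter]
  exact ⟨Finset.mem_univ _, hF⟩

/-- The initial state. -/
theorem Stage0.isState {K₀ : Type} [Field K₀] [Algebra K₀ k] [Algebra K₀ L]
    [IsScalarTower K₀ k L] (h : Stage0 K₀ k x v Face) {F₀ : Finset ι} (hF₀ : Face F₀)
    (hmax : ∀ F, Face F → F.card ≤ F₀.card) :
    IsState K₀ k x F₀.card (Fintype.card ι) := by
  obtain ⟨g, hsq⟩ := h.toSq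
  have hs : HSSimple (TG k x ∅ : Set L) x := hsSimple_of_smAt x h.hx h.fr h.sm
  refine ⟨h.hx, h.inf, h.hom, hsq.trdeg_eq h.fr hF₀ hmax, h.fr, ?_, ?_, h.sm⟩
  · intro q hq j hj
    exact hsq.van hs hF₀ hq hj
  · intro j hj c hc hi
    exact hsq.soc hj _ hc hi

end Pool.Agent.MP8049
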