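import Mathlib
import Pool.Agent.Lib.MP_8049df_ag.Dim

set_option autoImplicit false

/-! Exactness of the complex of the whole simplicial complex in degrees zero and one. -/

namespace Pool.Agent.MP8049

variable {ι : Type*} [Fintype ι] [LinearOrder ι]
variable {L : Type*} [Field L] {k : Type*} [Field k] [Algebra k L]
variable {x : ι → L} {v : ι → ℝ} {Face : Finset ι → Prop} {g : ℝ}

lemma Sq.exists_vertex (h : Sq k x v Face g) [Nonempty ι] : ∃ i, Face {i} := by
  classical
  by_contra hcon
  push Not at hcon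
  obtain ⟨i₀⟩ := (inferInstance : Nonempty ι)
  have h1 := h.reduce 1 Set.univ (fun r _ r' _ => Set.mem_univ _)
  have h2 : x i₀ ∈ Sp k x (Nn ∩ Dj 1 ∩ {a | wt v a ∈ (Set.univ : Set ℝ)}) := by
    have h3 := x_mem_RG (k := k) (x := x) ∅ i₀
    unfold RG at h3
    rw [EG_empty] at h3
    refine Sp_mono ?_ h3
    rintro a ha
    exact ⟨ha, Set.mem_univ _⟩
  have h3 := h1 h2
  have h4 : (Nn ∩ Dj 1 ∩ {a | wt v a ∈ (Set.univ : Set ℝ)} ∩ {a | Face (sp a)} : Set (ι → ℤ)) =
      ∅ := by
    rw [Set.eq_empty_iff_forall_notMem]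
    rintro a ⟨⟨⟨_, ha2⟩, _⟩, ha3⟩
    have h5 : (sp a).Nonempty := by
      rw [Finset.nonempty_iff_ne_empty]
      intro h5
      have h6 : a = 0 := by
        funext i
        by_contra hne
        have : i ∈ sp a := mem_sp.mpr hne
        rw [h5] at this
        exact absurd this (Finset.notMem_empty i)
      have ha2' : dg a = 1 := ha2
      rw [h6, dg_zero] at ha2'
      exact absurd ha2' (by norm_num)
    obtain ⟨i, hi⟩ := h5
    exact hcon i (h.down _ _ ha3 (Finset.singleton_subset_iff.mpr hi))
  rw [h4] at h3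
  have h5 : x i₀ = 0 := by simpa [Sp] using h3
  exact h.hx i₀ h5

omit [Fintype ι] in
lemma sg_single (i : ι) : sg ({i} : Finset ι) i = 1 := by
  unfold sg
  have : ({i} : Finset ι).filter (fun u => u < i) = ∅ := by
    rw [Finset.filter_eq_empty_iff]
    intro u hu
    rw [Finset.mem_singleton] at hu
    subst hu
    exact lt_irrefl _
  rw [this]
  simp

theorem Sq.connect0 (h : Sq k x v Face g) [Nonempty ι] {z : Finset ι → k}
    (hz : Coc Face ∅ 0 z) : Cob Face ∅ 0 z := by
  obtain ⟨i, hi⟩ := h.exists_vertex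
  refine ⟨0, fun G hG => absurd rfl hG, fun G _ _ h3 => ?_⟩
  rw [Finset.card_eq_zero] at h3
  subst h3
  rw [cd_zero]
  have h1 := hz.2 {i} (Finset.empty_subset _) hi (Finset.card_singleton i)
  rw [cd_apply, Finset.sum_singleton] at h1
  have h2 : ({i} : Finset ι).erase i = ∅ := by simp
  rw [h2, sg_single, one_smul] at h1
  rw [h1]
  rfl

lemma cd_pair {M : Type*} [AddCommGroup M] (c : Finset ι → M) {i j : ι} (hij : i < j) :
    cd c {i, j} = c {j} - c {i} := by
  have hne : i ≠ j := ne_of_lt hij
  rw [cd_apply, Finset.sum_pair hne]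
  have h1 : ({i, j} : Finset ι).erase i = {j} := by
    ext l
    simp only [Finset.mem_erase, Finset.mem_insert, Finset.mem_singleton]
    constructor
    · rintro ⟨h1, h2 | h2⟩
      · exact absurd h2 h1
      · exact h2
    · rintro rfl
      exact ⟨Ne.symm hne, Or.inr rfl⟩
  have h2 : ({i, j} : Finset ι).erase j = {i} := by
    ext l
    simp only [Finset.mem_erase, Finset.mem_insert, Finset.mem_singleton]
    constructor
    · rintro ⟨h1, h2 | h2⟩
      · exact h2
      · exact absurd h2 h1
    · rintro rfl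
      exact ⟨hne, Or.inl rfl⟩
  have h3 : sg ({i, j} : Finset ι) i = 1 := by
    unfold sg
    have : ({i, j} : Finset ι).filter (fun u => u < i) = ∅ := by
      rw [Finset.filter_eq_empty_iff]
      intro u hu
      rw [Finset.mem_insert, Finset.mem_singleton] at hu
      rcases hu with rfl | rfl
      · exact lt_irrefl _
      · exact not_lt.mpr hij.le
    rw [this]
    simp
  have h4 : sg ({i, j} : Finset ι) j = -1 := by
    unfold sg
    have : ({i, j} : Finset ι).filter (fun u => u < j) = {i} := by
      ext u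
      rw [Finset.mem_filter, Finset.mem_insert, Finset.mem_singleton, Finset.mem_singleton]
      constructor
      · rintro ⟨rfl | rfl, h2⟩
        · rfl
        · exact absurd h2 (lt_irrefl _)
      · rintro rfl
        exact ⟨Or.inl rfl, hij⟩
    rw [this]
    simp
  rw [h1, h2, h3, h4, one_smul, neg_one_smul, sub_eq_add_neg]

theorem Sq.connect1 (h : Sq k x v Face g) [Nonempty ι] {z : Finset ι → k}
    (hz : Coc Face ∅ 1 z) : Cob Face ∅ 1 z := by
  classical
  obtain ⟨i₀⟩ := (inferInstance : Nonempty ι)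
  have hsp0 : sp (0 : ι → ℤ) = ∅ := by simp [sp]
  obtain ⟨l, hl1, hl2⟩ := h.exists_lift (a := 0) (fun _ => le_refl _) (q := 1) (z := z)
    (by rw [hsp0]; exact hz) 1
  rw [dg_zero] at hl1 hl2
  have hcd : cd l = 0 := hl1.2
  set f : L := l {i₀} with hf
  have hconst : ∀ i, l {i} = f := by
    intro i
    rcases lt_trichotomy i i₀ with h1 | h1 | h1
    · have h2 := cd_pair l h1
      rw [hcd, Pi.zero_apply] at h2
      exact (sub_eq_zero.mp h2.symm).symm
    · rw [h1]
    · have h2 := cd_pair l h1
      rw [hcd, Pi.zero_apply] at h2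
      exact sub_eq_zero.mp h2.symm
  -- integrality
  have hint : IsIntegral k f := by
    refine isIntegral_of_smul_mem_submodule (RG k x 1 ∅) ?_ ?_ f ?_
    · intro hbot
      have h1 := x_mem_RG (k := k) (x := x) ∅ i₀
      rw [hbot] at h1
      exact h.hx i₀ (by simpa using h1)
    · exact Module.Finite.iff_fg.mp (RG_finite x 1)
    · intro r hr
      have h1 : (fun G => r * l G) ∈ Cyc (RG k x 1) 1 := by
        refine Cyc_map (AddMonoidHom.mulLeft r) (fun G u hu => ?_) hl1
        have h2 := RG_mul h.hx (RG_FMono x _ _ _ (Finset.empty_subset G) hr) hu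
        rwa [add_zero] at h2
      obtain ⟨b, hb, hbe⟩ := h.ex_pos one_pos 1 h1
      have h2 : cd b {i₀} = r * l {i₀} := congrFun hbe {i₀}
      rw [cd_apply, Finset.sum_singleton, sg_single, one_smul] at h2
      have h3 : ({i₀} : Finset ι).erase i₀ = ∅ := by simp
      rw [h3] at h2
      have h4 := (hb ∅).1
      rw [h2, mul_comm] at h4
      exact h4
  have hval : ∀ i, Face {i} → algebraMap k L (z {i}) = f := by
    intro i hi
    have hy := (hl2 {i}).1
    have hy' : algebraMap k L (z {i}) - f ∈ RF k x v 0 1 {i} := by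
      have h1 : (zm x z 0 - l) {i} = algebraMap k L (z {i}) - f := by
        rw [Pi.sub_apply, hconst, zm, mon_zero, Algebra.algebraMap_eq_smul_one]
      rwa [h1] at hy
    set a : L := algebraMap k L (z {i}) with ha
    have hone : ∀ c : k, algebraMap k L c ∈ RF k x v 0 0 {i} := by
      intro c
      rw [Algebra.algebraMap_eq_smul_one, ← mon_zero x]
      refine Submodule.smul_mem _ _ (mon_mem_Sp ⟨⟨fun l _ => le_refl _, dg_zero⟩, ?_⟩)
      show (0 : ℝ) ≤ wt v 0
      rw [wt_zero]
    have hf0 : f ∈ RF k x v 0 0 {i} := by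
      have h1 : f = a - (a - f) := by ring
      rw [h1]
      exact Submodule.sub_mem _ (hone _) (RF_anti x v 0 zero_le_one _ hy')
    have hmul : ∀ {p q : L}, p ∈ RF k x v 0 0 {i} → q ∈ RF k x v 0 1 {i} →
        p * q ∈ RF k x v 0 1 {i} := by
      intro p q hp hq
      have := RF_mul h.hx hp hq
      rwa [add_zero, zero_add] at this
    have hmul0 : ∀ {p q : L}, p ∈ RF k x v 0 0 {i} → q ∈ RF k x v 0 0 {i} →
        p * q ∈ RF k x v 0 0 {i} := by
      intro p q hp hq
      have := RF_mul h.hx hp hq
      rwa [add_zero, zero_add] at this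
    have hpow : ∀ n : ℕ, f ^ n ∈ RF k x v 0 0 {i} ∧ a ^ n - f ^ n ∈ RF k x v 0 1 {i} := by
      intro n
      induction n with
      | zero =>
        refine ⟨?_, ?_⟩
        · rw [pow_zero, ← map_one (algebraMap k L)]
          exact hone 1
        · simp
      | succ n ih =>
        refine ⟨?_, ?_⟩
        · rw [pow_succ]
          exact hmul0 ih.1 hf0
        · have h1 : a ^ (n + 1) - f ^ (n + 1) = a * (a ^ n - f ^ n) + f ^ n * (a - f) := by ring
          rw [h1]
          exact Submodule.add_mem _ (hmul (hone _) ih.2) (hmul ih.1 hy')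
    have hpoly : ∀ p : Polynomial k, Polynomial.aeval a p - Polynomial.aeval f p ∈
        RF k x v 0 1 {i} := by
      intro p
      rw [Polynomial.aeval_eq_sum_range, Polynomial.aeval_eq_sum_range, ← Finset.sum_sub_distrib]
      refine Submodule.sum_mem _ fun n _ => ?_
      rw [← smul_sub]
      exact Submodule.smul_mem _ _ (hpow n).2
    have h1 := hpoly (minpoly k f)
    rw [minpoly.aeval, sub_zero, ha, Polynomial.aeval_algebraMap_apply_eq_algebraMap_eval] at h1
    have h2 : Polynomial.eval (z {i}) (minpoly k f) = 0 := by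
      refine h.uniq1 (G := {i}) (a := 0) (fun l _ => le_refl _)
        (by rw [hsp0, Finset.union_empty]; exact hi) ?_
      rw [mon_zero, ← Algebra.algebraMap_eq_smul_one]
      refine Sp_mono ?_ h1
      rintro b ⟨hb1, hb2⟩
      rw [dg_zero]
      refine ⟨hb1, ?_⟩
      have hb2' : (1 : ℝ) ≤ wt v b := hb2
      show wt v 0 < wt v b
      rw [wt_zero]
      linarith
    have h3 : (Polynomial.X - Polynomial.C (z {i})) ∣ minpoly k f :=
      Polynomial.dvd_iff_isRoot.mpr h2
    have h4 := (Polynomial.irreducible_X_sub_C (z {i})).associated_of_dvd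
      (minpoly.irreducible hint) h3
    obtain ⟨w, hw⟩ := h4.symm.dvd
    have h5 := congrArg (Polynomial.aeval f) hw
    rw [map_mul, minpoly.aeval, zero_mul, map_sub, Polynomial.aeval_X, Polynomial.aeval_C] at h5
    exact (sub_eq_zero.mp h5).symm
  obtain ⟨i₁, hi₁⟩ := h.exists_vertex
  refine ⟨fun G => if G = ∅ then z {i₁} else 0, ?_, ?_⟩
  · intro G hG
    by_cases hGe : G = ∅
    · subst hGe
      exact ⟨Finset.empty_subset _, h.emp, by simp⟩
    · exact absurd (if_neg hGe) hG
  · intro G _ hGF hGc
    obtain ⟨i, rfl⟩ := Finset.card_eq_one.mp hGc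
    rw [cd_apply, Finset.sum_singleton, sg_single, one_smul]
    have h3 : ({i} : Finset ι).erase i = ∅ := by simp
    rw [h3, if_pos rfl]
    exact (algebraMap k L).injective ((hval i₁ hi₁).trans (hval i hGF).symm)

end Pool.Agent.MP8049
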