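import Mathlib

set_option autoImplicit false

/-! A monomial order is represented on finitely many comparisons by a generic positive weight. -/

namespace Pool.Agent.MP8049

/-- Gordan's lemma over the rationals, by induction on the number of vectors. -/
theorem gordan_rat (m : ℕ) : ∀ (V : Type) [AddCommGroup V] [Module ℚ V] (d : Fin m → V),
    (∀ l : Fin m → ℚ, (∀ i, 0 ≤ l i) → ∑ i, l i • d i = 0 → l = 0) →
    ∃ f : V →ₗ[ℚ] ℚ, ∀ i, 0 < f (d i) := by
  induction m with
  | zero => intro V _ _ d _; exact ⟨0, fun i => i.elim0⟩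
  | succ m ih =>
    intro V _ _ d hd
    by_cases hrel : ∀ l : Fin m → ℚ, (∀ i, 0 ≤ l i) →
        ∑ i, l i • (Submodule.Quotient.mk (p := Submodule.span ℚ {d 0}) (d i.succ)) = 0 → l = 0
    · obtain ⟨f, hf⟩ := ih (V ⧸ Submodule.span ℚ {d 0}) _ hrel
      have hd0 : d 0 ≠ 0 := by
        intro h0
        have h1 := hd (Pi.single 0 1) (by
          intro i
          by_cases hi : i = 0
          · subst hi; simp
          · simp [hi]) (by simp [Pi.single_apply, h0])
        have h2 := congrFun h1 0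
        simp at h2
      obtain ⟨u, hu⟩ := Module.Projective.exists_dual_eq_one ℚ hd0
      obtain ⟨N, hN0, hN⟩ : ∃ N : ℚ, 0 < N ∧ ∀ i : Fin m,
          0 < N * f (Submodule.Quotient.mk (d i.succ)) + u (d i.succ) := by
        have hex : ∀ i : Fin m, ∃ N : ℚ, ∀ N' : ℚ, N ≤ N' →
            0 < N' * f (Submodule.Quotient.mk (d i.succ)) + u (d i.succ) := by
          intro i
          refine ⟨(1 + |u (d i.succ)|) / f (Submodule.Quotient.mk (d i.succ)), ?_⟩
          intro N' hN'
          rw [div_le_iff₀ (hf i)] at hN'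
          have := neg_abs_le (u (d i.succ))
          linarith
        choose N hN using hex
        refine ⟨1 + ∑ i, |N i|, by positivity, fun i => hN i _ ?_⟩
        have h1 : |N i| ≤ ∑ i, |N i| :=
          Finset.single_le_sum (f := fun i => |N i|) (fun j _ => abs_nonneg _) (Finset.mem_univ i)
        have h2 := le_abs_self (N i)
        linarith
      refine ⟨N • (f ∘ₗ (Submodule.span ℚ {d 0}).mkQ) + u, ?_⟩
      intro i
      refine Fin.cases ?_ (fun i => ?_) i
      · have : (Submodule.Quotient.mk (p := Submodule.span ℚ {d 0}) (d 0)) = 0 := by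
          rw [Submodule.Quotient.mk_eq_zero]
          exact Submodule.mem_span_singleton_self _
        simp [this, hu]
      · simpa using hN i
    · push Not at hrel
      obtain ⟨l, hl, hsum, hne⟩ := hrel
      obtain ⟨f, hf⟩ := ih V (fun i => d i.succ) (by
        intro l' hl' hs
        have h1 := hd (Fin.cons 0 l') (by
          intro i
          refine Fin.cases ?_ (fun i => ?_) i
          · simp
          · simpa using hl' i) (by rw [Fin.sum_univ_succ]; simpa using hs)
        funext i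
        have h2 := congrFun h1 i.succ
        simpa using h2)
      have hmem : ∑ i, l i • d i.succ ∈ Submodule.span ℚ {d 0} := by
        rw [← Submodule.Quotient.mk_eq_zero]
        rw [← hsum]
        simp [← Submodule.mkQ_apply]
      obtain ⟨c, hc⟩ := Submodule.mem_span_singleton.mp hmem
      have hcpos : 0 < c := by
        by_contra hneg
        push Not at hneg
        have h1 := hd (Fin.cons (-c) l) (by
          intro i
          refine Fin.cases ?_ (fun i => ?_) i
          · simpa using hneg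
          · simpa using hl i) (by
            rw [Fin.sum_univ_succ]
            simp only [Fin.cons_zero, Fin.cons_succ]
            rw [← hc]; simp)
        apply hne
        funext i
        have h2 := congrFun h1 i.succ
        simpa using h2
      refine ⟨f, ?_⟩
      intro i
      refine Fin.cases ?_ (fun i => hf i) i
      have h3 : c * f (d 0) = ∑ i, l i * f (d i.succ) := by
        have h4 := congrArg f hc
        simpa using h4
      have h5 : 0 < ∑ i, l i * f (d i.succ) := by
        obtain ⟨j, hj⟩ : ∃ j, l j ≠ 0 := by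
          by_contra hall
          push Not at hall
          exact hne (funext hall)
        refine Finset.sum_pos' (fun i _ => mul_nonneg (hl i) (hf i).le) ⟨j, Finset.mem_univ _, ?_⟩
        exact mul_pos (lt_of_le_of_ne (hl j) (Ne.symm hj)) (hf j)
      rw [← h3] at h5
      exact (mul_pos_iff_of_pos_left hcpos).mp h5

theorem sum_nsmul_lt {n : ℕ} (ord : MonomialOrder (Fin n)) {m : ℕ}
    (p : Fin m → (Fin n →₀ ℕ) × (Fin n →₀ ℕ))
    (hlt : ∀ i, ord.toSyn (p i).2 < ord.toSyn (p i).1) (c : Fin m → ℕ)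
    (h : ∑ i, c i • (p i).1 = ∑ i, c i • (p i).2) : c = 0 := by
  by_contra hne
  obtain ⟨j, hj⟩ : ∃ j, c j ≠ 0 := by
    by_contra hall
    push Not at hall
    exact hne (funext hall)
  have h1 : ∑ i, c i • ord.toSyn (p i).2 < ∑ i, c i • ord.toSyn (p i).1 := by
    refine Finset.sum_lt_sum (fun i _ => nsmul_le_nsmul_right (hlt i).le _) ⟨j, Finset.mem_univ _, ?_⟩
    exact nsmul_lt_nsmul_right hj (hlt j)
  have h2 : ∑ i, c i • ord.toSyn (p i).2 = ord.toSyn (∑ i, c i • (p i).2) := by
    simp [map_sum, map_nsmul]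
  have h3 : ∑ i, c i • ord.toSyn (p i).1 = ord.toSyn (∑ i, c i • (p i).1) := by
    simp [map_sum, map_nsmul]
  rw [h2, h3, h] at h1
  exact lt_irrefl _ h1

theorem exists_weight {n : ℕ} (ord : MonomialOrder (Fin n))
    (P : Finset ((Fin n →₀ ℕ) × (Fin n →₀ ℕ)))
    (hlt : ∀ p ∈ P, ord.toSyn p.2 < ord.toSyn p.1)
    (hdeg : ∀ p ∈ P, ∑ i, p.1 i = ∑ i, p.2 i) :
    ∃ (v : Fin n → ℝ) (g : ℝ), 0 < g ∧ (∀ i, 0 < v i) ∧
      (∀ a : Fin n → ℤ, ∑ i, (a i : ℝ) * v i = 0 → a = 0) ∧
      ∀ p ∈ P, (∑ i, (p.1 i : ℝ) * v i) + g ≤ ∑ i, (p.2 i : ℝ) * v i := by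
  classical
  -- the difference vectors
  obtain ⟨m, e⟩ : ∃ m : ℕ, Nonempty (Fin m ≃ P) := ⟨P.card, ⟨P.equivFin.symm⟩⟩
  obtain ⟨e⟩ := e
  let q : Fin m → (Fin n →₀ ℕ) × (Fin n →₀ ℕ) := fun i => (e i).1
  have hq : ∀ i, ord.toSyn (q i).2 < ord.toSyn (q i).1 := fun i => hlt _ (e i).2
  obtain ⟨f, hf⟩ := gordan_rat m (Fin n → ℚ) (fun j i => ((q j).1 i : ℚ) - (q j).2 i) (by
    intro l hl hs
    -- clear denominators
    obtain ⟨N, hN0, c, hc⟩ : ∃ N : ℕ, 0 < N ∧ ∃ c : Fin m → ℕ, ∀ i, (N : ℚ) * l i = c i := by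
      refine ⟨∏ i, (l i).den, Finset.prod_pos fun i _ => (l i).den_pos,
        fun i => (∏ j ∈ Finset.univ.erase i, (l j).den) * (l i).num.toNat, fun i => ?_⟩
      rw [← Finset.mul_prod_erase Finset.univ (fun i => (l i).den) (Finset.mem_univ i)]
      have h1 : (0 : ℤ) ≤ (l i).num := Rat.num_nonneg.mpr (hl i)
      have h2 : (((l i).num.toNat : ℕ) : ℚ) = ((l i).num : ℚ) := by
        have : (((l i).num.toNat : ℕ) : ℤ) = (l i).num := Int.toNat_of_nonneg h1
        exact_mod_cast this
      push_cast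
      rw [h2]
      have h3 : (l i) * ((l i).den : ℚ) = (l i).num := Rat.mul_den_eq_num (l i)
      rw [← h3]
      ring
    have hc0 : c = 0 := by
      apply sum_nsmul_lt ord q hq
      ext i
      have h1 := congrFun hs i
      simp only [Finset.sum_apply, Pi.smul_apply, smul_eq_mul, Pi.zero_apply] at h1
      have h2 : ∑ j, (c j : ℚ) * (((q j).1 i : ℚ) - (q j).2 i) = 0 := by
        have : ∑ j, (c j : ℚ) * (((q j).1 i : ℚ) - (q j).2 i) =
            (N : ℚ) * ∑ j, l j * (((q j).1 i : ℚ) - (q j).2 i) := by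
          rw [Finset.mul_sum]
          refine Finset.sum_congr rfl fun j _ => ?_
          rw [← hc j]; ring
        rw [this, h1, mul_zero]
      have h3 : ∑ j, (c j : ℚ) * ((q j).1 i : ℚ) = ∑ j, (c j : ℚ) * ((q j).2 i : ℚ) := by
        have : ∑ j, (c j : ℚ) * (((q j).1 i : ℚ) - (q j).2 i) =
          ∑ j, (c j : ℚ) * ((q j).1 i : ℚ) - ∑ j, (c j : ℚ) * ((q j).2 i : ℚ) := by
          rw [← Finset.sum_sub_distrib]
          refine Finset.sum_congr rfl fun j _ => ?_
          ring
        linarith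
      simp only [Finsupp.coe_finsetSum, Finset.sum_apply, Finsupp.smul_apply, smul_eq_mul]
      exact_mod_cast h3
    funext i
    have h1 := hc i
    rw [hc0] at h1
    simp only [Pi.zero_apply, Nat.cast_zero, mul_eq_zero, Nat.cast_eq_zero] at h1
    rcases h1 with h1 | h1
    · omega
    · simpa using h1)
  -- rational weights
  let w : Fin n → ℝ := fun i => ((f (Pi.single i 1) : ℚ) : ℝ)
  have hw : ∀ p ∈ P, 0 < ∑ i, w i * ((p.1 i : ℝ) - p.2 i) := by
    intro p hp
    have h1 := hf (e.symm ⟨p, hp⟩)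
    have h2 : (q (e.symm ⟨p, hp⟩)) = p := by simp [q]
    rw [h2] at h1
    have h3 : f (fun i => ((p.1 i : ℚ) - p.2 i)) =
        ∑ i, f (Pi.single i 1) * ((p.1 i : ℚ) - p.2 i) := by
      have h4 : (fun i => ((p.1 i : ℚ) - p.2 i)) =
          ∑ i, ((p.1 i : ℚ) - p.2 i) • (Pi.single i (1 : ℚ) : Fin n → ℚ) := by
        funext j
        simp [Finset.sum_apply, Pi.single_apply]
      conv_lhs => rw [h4]
      rw [map_sum]
      refine Finset.sum_congr rfl fun i _ => ?_
      rw [map_smul, smul_eq_mul, mul_comm]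
    rw [h3] at h1
    have h5 : ((∑ i, f (Pi.single i 1) * ((p.1 i : ℚ) - p.2 i) : ℚ) : ℝ) =
        ∑ i, w i * ((p.1 i : ℝ) - p.2 i) := by
      push_cast
      rfl
    rw [← h5]
    exact_mod_cast h1
  -- the open set of admissible weights
  let U : Set (Fin n → ℝ) := {v | (∀ i, 0 < v i) ∧ ∀ p ∈ P, 0 < ∑ i, ((p.2 i : ℝ) - p.1 i) * v i}
  have hUopen : IsOpen U := by
    have h1 : U = (⋂ i, {v : Fin n → ℝ | 0 < v i}) ∩
        ⋂ p : P, {v : Fin n → ℝ | 0 < ∑ i, ((p.1.2 i : ℝ) - p.1.1 i) * v i} := by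
      ext v
      simp [U]
    rw [h1]
    refine IsOpen.inter (isOpen_iInter_of_finite fun i => ?_) (isOpen_iInter_of_finite fun p => ?_)
    · exact isOpen_lt continuous_const (continuous_apply i)
    · exact isOpen_lt continuous_const (by fun_prop)
  have hUne : U.Nonempty := by
    refine ⟨fun i => (1 + ∑ j, |w j|) - w i, ?_, ?_⟩
    · intro i
      have h1 : |w i| ≤ ∑ i, |w i| :=
        Finset.single_le_sum (f := fun i => |w i|) (fun j _ => abs_nonneg _) (Finset.mem_univ i)
      have h2 := le_abs_self (w i)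
      show 0 < _
      linarith
    · intro p hp
      have h1 : ∑ i, ((p.2 i : ℝ) - p.1 i) * ((1 + ∑ j, |w j|) - w i) =
          (1 + ∑ j, |w j|) * (((∑ i, p.2 i : ℕ) : ℝ) - ((∑ i, p.1 i : ℕ) : ℝ)) +
            ∑ i, w i * ((p.1 i : ℝ) - p.2 i) := by
        push_cast
        rw [← Finset.sum_sub_distrib, Finset.mul_sum, ← Finset.sum_add_distrib]
        refine Finset.sum_congr rfl fun i _ => ?_
        ring
      rw [h1, hdeg p hp, sub_self, mul_zero, zero_add]
      exact hw p hp
  -- avoid the countably many rational hyperplanes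
  let B : {a : Fin n → ℤ // a ≠ 0} → Submodule ℝ (Fin n → ℝ) := fun a =>
    LinearMap.ker (∑ i, ((a.1 i : ℤ) : ℝ) • (LinearMap.proj i : (Fin n → ℝ) →ₗ[ℝ] ℝ))
  have hB : MeasureTheory.volume (⋃ a, (B a : Set (Fin n → ℝ))) = 0 := by
    rw [MeasureTheory.measure_iUnion_null_iff]
    intro a
    apply MeasureTheory.Measure.addHaar_submodule
    intro htop
    apply a.2
    funext i
    have h1 : (Pi.single i 1 : Fin n → ℝ) ∈ B a := by rw [htop]; trivial
    simp only [B, LinearMap.mem_ker, LinearMap.sum_apply, LinearMap.smul_apply,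
      LinearMap.proj_apply, Pi.single_apply, smul_eq_mul] at h1
    simpa using h1
  obtain ⟨v, hvU, hvB⟩ : ∃ v ∈ U, v ∉ ⋃ a, (B a : Set (Fin n → ℝ)) := by
    by_contra hcon
    push Not at hcon
    have h1 : MeasureTheory.volume U = 0 := MeasureTheory.measure_mono_null hcon hB
    exact (hUopen.measure_pos MeasureTheory.volume hUne).ne' h1
  obtain ⟨g, hg0, hg⟩ : ∃ g : ℝ, 0 < g ∧ ∀ p ∈ P, g ≤ ∑ i, ((p.2 i : ℝ) - p.1 i) * v i := by
    by_cases hP : P.Nonempty
    · obtain ⟨p0, hp0, hmin⟩ := P.exists_min_image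
        (fun p => ∑ i, ((p.2 i : ℝ) - p.1 i) * v i) hP
      exact ⟨_, hvU.2 p0 hp0, hmin⟩
    · refine ⟨1, one_pos, fun p hp => (hP ⟨p, hp⟩).elim⟩
  refine ⟨v, g, hg0, hvU.1, ?_, ?_⟩
  · intro a ha
    by_contra hne
    apply hvB
    rw [Set.mem_iUnion]
    refine ⟨⟨a, hne⟩, ?_⟩
    simp only [B, SetLike.mem_coe, LinearMap.mem_ker, LinearMap.sum_apply, LinearMap.smul_apply,
      LinearMap.proj_apply, smul_eq_mul]
    exact ha
  · intro p hp
    have h1 := hg p hp
    have h2 : ∑ i, ((p.2 i : ℝ) - p.1 i) * v i =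
        ∑ i, (p.2 i : ℝ) * v i - ∑ i, (p.1 i : ℝ) * v i := by
      rw [← Finset.sum_sub_distrib]
      refine Finset.sum_congr rfl fun i _ => ?_
      ring
    linarith

end Pool.Agent.MP8049
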