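import Mathlib
import Pool.Agent.Lib.MP_8049df_ag.StateDef
import Pool.Agent.Lib.MP_8049df_ag.Weights
import Pool.Agent.Lib.MP_8049df_ag.Charts

set_option autoImplicit false

/-! From the hypotheses of the frozen statement to the data `Stage0`. -/

namespace Pool.Agent.MP8049

open MvPolynomial

section construct

/-- The ring homomorphism from `Frac K[t]` to `Frac A[t]`. -/
noncomputable def fracHom (K A : Type) [Field K] [CommRing A] [IsDomain A] [Algebra K A] :
    FractionRing (Polynomial K) →+* FractionRing (Polynomial A) :=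
  IsFractionRing.lift (A := Polynomial K) (K := FractionRing (Polynomial K))
    (L := FractionRing (Polynomial A))
    (g := (algebraMap (Polynomial A) (FractionRing (Polynomial A))).comp
      (Polynomial.mapRingHom (algebraMap K A)))
    ((IsFractionRing.injective (Polynomial A) (FractionRing (Polynomial A))).comp
      (Polynomial.map_injective _ (algebraMap K A).injective))

lemma fracHom_apply (K A : Type) [Field K] [CommRing A] [IsDomain A] [Algebra K A]
    (p : Polynomial K) :
    fracHom K A (algebraMap (Polynomial K) (FractionRing (Polynomial K)) p) =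
      algebraMap (Polynomial A) (FractionRing (Polynomial A)) (p.map (algebraMap K A)) := by
  unfold fracHom
  rw [IsFractionRing.lift_algebraMap]
  rfl

end construct

/-- The existence of the fields. -/
theorem exists_setup {K A : Type} [Field K] [CommRing A] [IsDomain A] [Algebra K A] :
    ∃ (k L : Type) (_ : Field k) (_ : Field L) (_ : Algebra K k) (_ : Algebra K L)
      (_ : Algebra k L) (_ : IsScalarTower K k L) (θ : Polynomial K →ₐ[K] k)
      (Ψ : Polynomial A →ₐ[K] L), Infinite k ∧ Setup θ Ψ := by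
  let alg : Algebra (FractionRing (Polynomial K)) (FractionRing (Polynomial A)) :=
    (fracHom K A).toAlgebra
  have hmap : ∀ p : Polynomial K, algebraMap (FractionRing (Polynomial K))
      (FractionRing (Polynomial A)) (algebraMap (Polynomial K) (FractionRing (Polynomial K)) p) =
      algebraMap (Polynomial A) (FractionRing (Polynomial A)) (p.map (algebraMap K A)) :=
    fun p => fracHom_apply K A p
  have htower : IsScalarTower K (FractionRing (Polynomial K)) (FractionRing (Polynomial A)) := by
    refine IsScalarTower.of_algebraMap_eq fun c => ?_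
    rw [IsScalarTower.algebraMap_apply K (Polynomial K) (FractionRing (Polynomial K)), hmap,
      IsScalarTower.algebraMap_apply K (Polynomial A) (FractionRing (Polynomial A))]
    congr 1
    show _ = Polynomial.map (algebraMap K A) (Polynomial.C c)
    rw [Polynomial.map_C]
    rfl
  refine ⟨FractionRing (Polynomial K), FractionRing (Polynomial A), inferInstance, inferInstance,
    inferInstance, inferInstance, alg, htower,
    IsScalarTower.toAlgHom K (Polynomial K) (FractionRing (Polynomial K)),
    IsScalarTower.toAlgHom K (Polynomial A) (FractionRing (Polynomial A)), ?_, ?_⟩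
  · exact Infinite.of_injective _
      (IsFractionRing.injective (Polynomial K) (FractionRing (Polynomial K)))
  · refine ⟨?_, ?_, ?_, ?_, ?_⟩
    · exact IsFractionRing.injective (Polynomial A) (FractionRing (Polynomial A))
    · exact IsFractionRing.injective (Polynomial K) (FractionRing (Polynomial K))
    · exact hmap
    · intro c
      obtain ⟨p, q, hq, rfl⟩ := IsFractionRing.div_surjective (A := Polynomial K) c
      have hq0 : q ≠ 0 := nonZeroDivisors.ne_zero hq
      refine ⟨p, q, hq0, ?_⟩
      show algebraMap _ _ p / algebraMap _ _ q * algebraMap _ _ q = algebraMap _ _ p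
      rw [div_mul_cancel₀]
      rw [Ne, map_eq_zero_iff _
        (IsFractionRing.injective (Polynomial K) (FractionRing (Polynomial K)))]
      exact hq0
    · intro c
      obtain ⟨p, q, hq, rfl⟩ := IsFractionRing.div_surjective (A := Polynomial A) c
      have hq0 : q ≠ 0 := nonZeroDivisors.ne_zero hq
      refine ⟨p, q, hq0, ?_⟩
      show algebraMap _ _ p / algebraMap _ _ q * algebraMap _ _ q = algebraMap _ _ p
      rw [div_mul_cancel₀]
      rw [Ne, map_eq_zero_iff _
        (IsFractionRing.injective (Polynomial A) (FractionRing (Polynomial A)))]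
      exact hq0

theorem exists_stage0 {K : Type} [Field K] {n : ℕ} (Δ : Finset (Finset (Fin n)))
    (hdown : ∀ F ∈ Δ, ∀ G : Finset (Fin n), G ⊆ F → G ∈ Δ)
    (I : Ideal (MvPolynomial (Fin n) K)) (ord : MonomialOrder (Fin n))
    (hhom : ∀ f ∈ I, ∀ d : ℕ, MvPolynomial.homogeneousComponent d f ∈ I)
    (hprime : I.IsPrime)
    (hX : ∃ i : Fin n, MvPolynomial.X i ∉ I)
    (hsm : ∀ i : Fin n, Algebra.Smooth K
        (Localization.Away (Ideal.Quotient.mk I (MvPolynomial.X i))))
    (hin : Ideal.span {p : MvPolynomial (Fin n) K | ∃ f ∈ I, f ≠ 0 ∧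
          p = MvPolynomial.monomial (ord.degree f) (1 : K)} =
        Ideal.span {p : MvPolynomial (Fin n) K | ∃ S : Finset (Fin n), S ∉ Δ ∧
          p = MvPolynomial.monomial (∑ i ∈ S, Finsupp.single i 1) (1 : K)}) :
    ∃ (ι : Type) (_ : Fintype ι) (_ : LinearOrder ι) (e : ι ↪o Fin n)
      (k L : Type) (_ : Field k) (_ : Field L) (_ : Algebra K k) (_ : Algebra K L)
      (_ : Algebra k L) (_ : IsScalarTower K k L) (x : ι → L) (v : ι → ℝ),
      Nonempty ι ∧ Stage0 K k x v (fun G => G.map e.toEmbedding ∈ Δ) ∧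
      ∀ F ∈ Δ, ∀ i ∈ F, i ∈ Set.range e := by
  classical
  have hdom : IsDomain (MvPolynomial (Fin n) K ⧸ I) := Ideal.Quotient.isDomain I
  obtain ⟨k, L, ik, iL, iKk, iKL, ikL, itower, θ, Ψ, hinf, H⟩ :=
    exists_setup (K := K) (A := MvPolynomial (Fin n) K ⧸ I)
  -- the rewriting rules
  have hrule : ∀ S : Finset (Fin n), ∃ f : MvPolynomial (Fin n) K, S ∉ Δ → f ∈ I ∧
      coeff (sqf S) f = 1 ∧ ∀ β ∈ f.support, β.degree = (sqf S).degree ∧
      (β ≠ sqf S → ord.toSyn β < ord.toSyn (sqf S)) := by
    intro S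
    by_cases hS : S ∈ Δ
    · exact ⟨0, fun h => (h hS).elim⟩
    · obtain ⟨f, h1, h2, h3⟩ := exists_rule hhom hin S hS
      exact ⟨f, fun _ => ⟨h1, h2, h3⟩⟩
  choose f hf using hrule
  -- the weight
  let P : Finset ((Fin n →₀ ℕ) × (Fin n →₀ ℕ)) :=
    (Finset.univ.filter (fun S : Finset (Fin n) => S ∉ Δ)).biUnion
      (fun S => ((f S).support.erase (sqf S)).image (fun β => (sqf S, β)))
  have hP : ∀ p ∈ P, ∃ S, S ∉ Δ ∧ ∃ β ∈ (f S).support, β ≠ sqf S ∧ p = (sqf S, β) := by
    intro p hp
    simp only [P, Finset.mem_biUnion, Finset.mem_filter, Finset.mem_univ, true_and,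
      Finset.mem_image, Finset.mem_erase] at hp
    obtain ⟨S, hS, β, ⟨hne, hβ⟩, rfl⟩ := hp
    exact ⟨S, hS, β, hβ, hne, rfl⟩
  obtain ⟨v, g, hg, hv, hvinj, hvP⟩ := exists_weight ord P (by
      intro p hp
      obtain ⟨S, hS, β, hβ, hne, rfl⟩ := hP p hp
      exact (((hf S hS).2.2 β hβ).2 hne)) (by
      intro p hp
      obtain ⟨S, hS, β, hβ, hne, rfl⟩ := hP p hp
      have := ((hf S hS).2.2 β hβ).1
      simp only
      rw [← degree_eq_sum, ← degree_eq_sum, this])
  have hf' : ∀ S, S ∉ Δ → f S ∈ I ∧ coeff (sqf S) (f S) = 1 ∧ ∀ β ∈ (f S).support,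
      β.degree = (sqf S).degree ∧ (β ≠ sqf S →
        (∑ i, (sqf S i : ℝ) * v i) + g ≤ ∑ i, (β i : ℝ) * v i) := by
    intro S hS
    refine ⟨(hf S hS).1, (hf S hS).2.1, fun β hβ => ⟨((hf S hS).2.2 β hβ).1, fun hne => ?_⟩⟩
    refine hvP (sqf S, β) ?_
    simp only [P, Finset.mem_biUnion, Finset.mem_filter, Finset.mem_univ, true_and,
      Finset.mem_image, Finset.mem_erase]
    exact ⟨S, hS, β, ⟨hne, hβ⟩, rfl⟩
  refine ⟨Vx I, instFintypeVx I, inferInstance, OrderEmbedding.subtype _, k, L, ik, iL, iKk, iKL,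
    ikL, itower, vx Ψ, fun i => v i.1, ?_, ?_, ?_⟩
  · obtain ⟨i, hi⟩ := hX
    exact ⟨⟨i, hi⟩⟩
  · refine ⟨vx_ne_zero H, fun i => hv i.1, ?_, hinf, homog H hhom, ?_, ?_, ⟨g, hg, ?_⟩, ?_,
      fracs H, fun i => smAt H i (hsm i.1)⟩
    · intro a ha
      have h1 := hvinj (fun i => if h : (X i : MvPolynomial (Fin n) K) ∉ I then a ⟨i, h⟩ else 0) (by
        rw [← ha]
        have h2 := sum_Vx (I := I) (fun i => ((if h : (X i : MvPolynomial (Fin n) K) ∉ I then
          a ⟨i, h⟩ else 0 : ℤ) : ℝ) * v i) (by
            intro i hi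
            rw [dif_neg (by simpa using hi)]
            simp)
        rw [← h2]
        unfold wt
        refine Finset.sum_congr rfl fun i _ => ?_
        rw [dif_pos i.2])
      funext i
      have h2 := congrFun h1 i.1
      rw [dif_pos i.2] at h2
      exact h2
    · intro F G hF hG
      exact hdown _ hF _ (Finset.map_subset_map.mpr hG)
    · rw [Finset.map_empty]
      exact empty_mem hhom hprime hin
    · intro b hb hS
      exact rule H v g f hf' b hb hS
    · intro t ht h0
      exact indep H hdown hin t ht h0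
  · intro F hF i hi
    exact ⟨⟨i, vertex_notMem hdown hin F hF i hi⟩, rfl⟩

end Pool.Agent.MP8049
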