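import Mathlib

set_option autoImplicit false

/-! The field of functions of the generic hyperplane section. -/

namespace Pool.Agent.MP8049

open MvPolynomial

section hyper

variable {k L ι : Type} [Field k] [Field L] [Algebra k L] [Fintype ι] [DecidableEq ι]

/-- The coordinates of the generic hyperplane: the `i₀`-th variable is eliminated. -/
noncomputable def hyperW (x : ι → L) (i₀ : ι) : ι → MvPolynomial {l : ι // l ≠ i₀} L :=
  fun l => if h : l ≠ i₀ then X ⟨l, h⟩ else
    - ∑ m : {l : ι // l ≠ i₀}, C (x m / x i₀) * X m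

lemma hyperW_ne (x : ι → L) {i₀ l : ι} (h : l ≠ i₀) : hyperW x i₀ l = X ⟨l, h⟩ := by
  unfold hyperW; rw [dif_pos h]

lemma hyperW_self (x : ι → L) (i₀ : ι) : hyperW x i₀ i₀ =
    - ∑ m : {l : ι // l ≠ i₀}, C (x m / x i₀) * X m := by
  unfold hyperW; rw [dif_neg]; simp

lemma sum_split {M : Type} [AddCommMonoid M] (f : ι → M) (i₀ : ι) :
    ∑ i, f i = f i₀ + ∑ m : {l : ι // l ≠ i₀}, f m := by
  rw [← Equiv.sum_comp (Equiv.optionSubtypeNe i₀) f, Fintype.sum_option]
  simp

lemma aeval_hyperW_H (x : ι → L) (i₀ : ι) (hx : x i₀ ≠ 0) :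
    aeval (hyperW x i₀) (∑ i, C (x i) * X i : MvPolynomial ι L) = 0 := by
  rw [map_sum, sum_split _ i₀]
  simp only [map_mul, aeval_C, aeval_X]
  rw [hyperW_self]
  have h1 : ∀ m : {l : ι // l ≠ i₀}, hyperW x i₀ m = X m := fun m => hyperW_ne x m.2
  simp only [h1]
  rw [mul_neg, Finset.mul_sum, neg_add_eq_zero]
  refine Finset.sum_congr rfl fun m _ => ?_
  rw [MvPolynomial.algebraMap_eq, ← mul_assoc, ← C_mul, mul_div_cancel₀ _ hx]

lemma dvd_sub_rename (x : ι → L) (i₀ : ι) (hx : x i₀ ≠ 0) (P : MvPolynomial ι L) :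
    (∑ i, C (x i) * X i : MvPolynomial ι L) ∣
      P - rename Subtype.val (aeval (hyperW x i₀) P) := by
  rw [← Ideal.mem_span_singleton, ← Ideal.Quotient.eq]
  set I : Ideal (MvPolynomial ι L) := Ideal.span {∑ i, C (x i) * X i} with hI
  have h : (Ideal.Quotient.mkₐ L I) = (Ideal.Quotient.mkₐ L I).comp
      ((rename (R := L) (Subtype.val : {l : ι // l ≠ i₀} → ι)).comp (aeval (hyperW x i₀))) := by
    apply MvPolynomial.algHom_ext
    intro i
    simp only [AlgHom.comp_apply, aeval_X]
    by_cases hi : i ≠ i₀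
    · rw [hyperW_ne x hi, rename_X]
    · push Not at hi
      subst hi
      rw [hyperW_self, map_neg, map_sum]
      simp only [map_mul, rename_C, rename_X]
      rw [← sub_eq_zero, ← map_sub, sub_neg_eq_add]
      have h2 : (X i + ∑ m : {l : ι // l ≠ i}, C (x m / x i) * X (m : ι) : MvPolynomial ι L)
          = C ((x i)⁻¹) * ∑ i, C (x i) * X i := by
        rw [sum_split (fun j => C (x j) * X j) i, mul_add, ← mul_assoc, ← C_mul,
          inv_mul_cancel₀ hx, C_1, one_mul, Finset.mul_sum]
        congr 1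
        refine Finset.sum_congr rfl fun m _ => ?_
        rw [← mul_assoc, ← C_mul, div_eq_inv_mul]
      have h3 : Ideal.Quotient.mkₐ L I (X i + ∑ m : {l : ι // l ≠ i}, C (x m / x i) * X (m : ι)) = 0 := by
        rw [h2]
        rw [Ideal.Quotient.mkₐ_eq_mk, Ideal.Quotient.eq_zero_iff_mem]
        exact Ideal.mul_mem_left _ _ (Ideal.subset_span rfl)
      exact h3
  exact DFunLike.congr_fun h P

lemma aeval_hyperW_eq_zero_iff (x : ι → L) (i₀ : ι) (hx : x i₀ ≠ 0) (P : MvPolynomial ι L) :
    aeval (hyperW x i₀) P = 0 ↔ (∑ i, C (x i) * X i) ∣ P := by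
  constructor
  · intro h
    have := dvd_sub_rename x i₀ hx P
    rwa [h, map_zero, sub_zero] at this
  · rintro ⟨Q, rfl⟩
    rw [map_mul, aeval_hyperW_H x i₀ hx, zero_mul]

lemma aeval_hyperW_rename (x : ι → L) (i₀ : ι) (a : MvPolynomial {l : ι // l ≠ i₀} L) :
    aeval (hyperW x i₀) (rename Subtype.val a) = a := by
  rw [aeval_rename]
  have : (hyperW x i₀ ∘ (Subtype.val : {l : ι // l ≠ i₀} → ι)) = X := by
    funext m
    exact hyperW_ne x m.2
  rw [this, aeval_X_left_apply]

/-- The shift of one variable by one. -/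
noncomputable def shiftVar {σ : Type} [DecidableEq σ] (L : Type) [Field L] (j : σ) (c : L) :
    MvPolynomial σ L →ₐ[L] MvPolynomial σ L :=
  aeval (fun l => if l = j then X l + C c else X l)

lemma shiftVar_injective {σ : Type} [DecidableEq σ] (j : σ) (c : L) :
    Function.Injective (shiftVar L j c) := by
  have h : (shiftVar L j (-c)).comp (shiftVar L j c) = AlgHom.id L _ := by
    apply MvPolynomial.algHom_ext
    intro i
    simp only [AlgHom.comp_apply, shiftVar, aeval_X, AlgHom.id_apply]
    split_ifs with hi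
    · rw [map_add, aeval_X, if_pos hi, aeval_C, MvPolynomial.algebraMap_eq, C_neg]
      ring
    · rw [aeval_X, if_neg hi]
  intro a b hab
  have := congrArg (shiftVar L j (-c)) hab
  rw [← AlgHom.comp_apply, ← AlgHom.comp_apply, h] at this
  exact this

/-- An element of `L` transcendental over `k` stays transcendental over `k[X]`. -/
lemma transcendental_C (σ : Type) (y : L) (hy : Transcendental k y) :
    Transcendental (Algebra.adjoin k (Set.range (X : σ → MvPolynomial σ L)))
      (C y : MvPolynomial σ L) := by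
  have h1 : AlgebraicIndependent k (fun _ : Unit => y) :=
    (algebraicIndependent_unique_type_iff (x := fun _ : Unit => y)).2 hy
  have h2 : AlgebraicIndependent L (X : σ → MvPolynomial σ L) := algebraicIndependent_X _ _
  have h3 := AlgebraicIndependent.sumElim_comp (R := k) (S := L) h1 h2
  have h4 : AlgebraicIndependent k (Sum.elim (algebraMap L (MvPolynomial σ L) ∘ (fun _ : Unit => y))
      (X : σ → MvPolynomial σ L)) := by
    rw [← algebraicIndependent_equiv (Equiv.sumComm _ _)]
    convert h3 using 1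
    funext s
    cases s <;> rfl
  have h5 := (AlgebraicIndependent.sumElim_iff.1 h4).2
  exact h5.transcendental ()

lemma hyperW_algebraicIndependent (x : ι → L) (i₀ i₁ : ι) (hx : x i₀ ≠ 0)
    (htr : Transcendental k (x i₁ / x i₀)) :
    AlgebraicIndependent k (hyperW x i₀) := by
  have hne : i₁ ≠ i₀ := by
    rintro rfl
    rw [div_self hx] at htr
    exact htr isAlgebraic_one
  set σ := {l : ι // l ≠ i₀} with hσ
  have hX : AlgebraicIndependent k (X : σ → MvPolynomial σ L) :=
    (algebraicIndependent_X σ L).restrictScalars (FaithfulSMul.algebraMap_injective k L)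
  rw [← algebraicIndependent_equiv (Equiv.optionSubtypeNe i₀)]
  have e : hyperW x i₀ ∘ (Equiv.optionSubtypeNe i₀) =
      fun o : Option σ => o.elim (hyperW x i₀ i₀) (X : σ → MvPolynomial σ L) := by
    funext o
    cases o with
    | none => simp
    | some m => simp [hyperW_ne x m.2]
  rw [e, hX.option_iff_transcendental]
  set A₀ := Algebra.adjoin k (Set.range (X : σ → MvPolynomial σ L)) with hA₀
  intro halg
  apply transcendental_C (k := k) σ (x i₁ / x i₀) htr
  -- the shift
  let τ : MvPolynomial σ L →ₐ[L] MvPolynomial σ L := shiftVar L ⟨i₁, hne⟩ 1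
  have hτA : ∀ a ∈ A₀, τ a ∈ A₀ := by
    intro a ha
    have : A₀ ≤ A₀.comap (τ.restrictScalars k) := by
      rw [hA₀]
      apply Algebra.adjoin_le
      rintro _ ⟨l, rfl⟩
      rw [SetLike.mem_coe, Subalgebra.mem_comap]
      change τ (X l) ∈ A₀
      simp only [τ, shiftVar, aeval_X]
      split_ifs
      · rw [C_1]
        exact add_mem (Algebra.subset_adjoin ⟨l, rfl⟩) (one_mem _)
      · exact Algebra.subset_adjoin ⟨l, rfl⟩
    exact this ha
  let τ₀ : A₀ →+* A₀ := (τ : MvPolynomial σ L →+* MvPolynomial σ L).restrict A₀ A₀ hτA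
  have hτ₀ : Function.Injective τ₀ := by
    intro a b hab
    apply Subtype.ext
    apply shiftVar_injective (L := L) (⟨i₁, hne⟩ : σ) 1
    exact congrArg Subtype.val hab
  have halg2 : IsAlgebraic A₀ (τ (hyperW x i₀ i₀)) := by
    obtain ⟨p, hp, hp0⟩ := halg
    refine ⟨p.map τ₀, (Polynomial.map_ne_zero_iff hτ₀).2 hp, ?_⟩
    rw [Polynomial.aeval_def, Polynomial.eval₂_map]
    have h1 := congrArg τ hp0
    rw [map_zero, Polynomial.aeval_def] at h1
    rw [← h1]
    change _ = (τ : MvPolynomial σ L →+* MvPolynomial σ L) _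
    rw [Polynomial.hom_eval₂]
    rfl
  have hdiff : hyperW x i₀ i₀ - τ (hyperW x i₀ i₀) = C (x i₁ / x i₀) := by
    rw [hyperW_self, map_neg, map_sum]
    simp only [map_mul]
    have h1 : ∀ m : σ, τ (X m) = X m + if m = ⟨i₁, hne⟩ then 1 else 0 := by
      intro m
      simp only [τ, shiftVar, aeval_X]
      split_ifs
      · rw [C_1]
      · rw [add_zero]
    have h2 : ∀ a : L, τ (C a) = C a := fun a => by
      rw [← MvPolynomial.algebraMap_eq, AlgHom.commutes]
    simp only [h1, h2, mul_add, Finset.sum_add_distrib]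
    rw [neg_add, sub_add_eq_sub_sub, sub_self, zero_sub, neg_neg]
    rw [Finset.sum_eq_single (⟨i₁, hne⟩ : σ)]
    · rw [if_pos rfl, mul_one]
    · intro m _ hm
      rw [if_neg hm, mul_zero]
    · intro h; exact absurd (Finset.mem_univ _) h
  rw [← hdiff]
  exact halg.sub halg2

end hyper

theorem exists_hyper_field {k L ι : Type} [Field k] [Field L] [Algebra k L] [Fintype ι]
    [DecidableEq ι] (x : ι → L) (hx : ∀ i, x i ≠ 0) (i₀ i₁ : ι)
    (htr : Transcendental k (x i₁ / x i₀)) :
    ∃ (L' : Type) (_ : Field L') (_ : Algebra L L') (_ : Algebra k L') (_ : IsScalarTower k L L')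
      (u : ι → L'),
      (∀ P : MvPolynomial ι L, aeval u P = 0 ↔ (∑ i, C (x i) * X i) ∣ P) ∧
      (∀ f : L', ∃ P Q : MvPolynomial ι L, aeval u Q ≠ 0 ∧ f = aeval u P / aeval u Q) ∧
      AlgebraicIndependent k u ∧
      (∀ D : ℕ, Algebra.trdeg k L = D →
        Algebra.trdeg (IntermediateField.adjoin k (Set.range u)) L' + 1 = D) := by
  let σ := {l : ι // l ≠ i₀}
  let R := MvPolynomial σ L
  let L' := FractionRing R
  let u : ι → L' := fun i => algebraMap R L' (hyperW x i₀ i)
  have hu : ∀ P : MvPolynomial ι L, aeval u P = algebraMap R L' (aeval (hyperW x i₀) P) := by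
    intro P
    exact aeval_algebraMap_apply L' (hyperW x i₀) P
  have hinj : Function.Injective (algebraMap R L') := IsFractionRing.injective R L'
  have hind : AlgebraicIndependent k u :=
    (hyperW_algebraicIndependent x i₀ i₁ (hx i₀) htr).map' (f := IsScalarTower.toAlgHom k R L') hinj
  refine ⟨L', inferInstance, inferInstance, inferInstance, inferInstance, u, ?_, ?_, hind, ?_⟩
  · intro P
    rw [hu, map_eq_zero_iff _ hinj, aeval_hyperW_eq_zero_iff x i₀ (hx i₀)]
  · intro f
    obtain ⟨a, b, hb, rfl⟩ := IsFractionRing.div_surjective (A := R) f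
    refine ⟨rename Subtype.val a, rename Subtype.val b, ?_, ?_⟩
    · rw [hu, aeval_hyperW_rename]
      rw [Ne, map_eq_zero_iff _ hinj]
      exact nonZeroDivisors.ne_zero hb
    · rw [hu, hu, aeval_hyperW_rename, aeval_hyperW_rename]
  · intro D hD
    classical
    set F := IntermediateField.adjoin k (Set.range u) with hF
    -- transcendence degree of `k(u)`
    have h1 : Algebra.trdeg k F = Fintype.card ι := by
      open scoped IntermediateField.algebraAdjoinAdjoin in
      have b1 : IsTranscendenceBasis k (X : ι → MvPolynomial ι k) := IsTranscendenceBasis.mvPolynomial ι k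
      have b2 := (AlgEquiv.isTranscendenceBasis hind.aevalEquiv) b1
      have b3 := b2.algebraMap_comp (A := F)
      rw [← b3.cardinalMk_eq_trdeg, Cardinal.mk_fintype]
    have h2 : Algebra.trdeg L L' = (Fintype.card σ : ℕ) := by
      have b1 : IsTranscendenceBasis L (X : σ → MvPolynomial σ L) := IsTranscendenceBasis.mvPolynomial σ L
      have hal : Algebra.IsAlgebraic R L' := IsLocalization.isAlgebraic _ (nonZeroDivisors R)
      have b3 := IsTranscendenceBasis.algebraMap_comp (S := R) (A := L') b1
      rw [← b3.cardinalMk_eq_trdeg, Cardinal.mk_fintype]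
    have h3 : Algebra.trdeg k L + Algebra.trdeg L L' = Algebra.trdeg k L' := trdeg_add_eq k L
    have h4 : Algebra.trdeg k F + Algebra.trdeg F L' = Algebra.trdeg k L' := trdeg_add_eq k F
    rw [← h3, h1, h2, hD] at h4
    have hcard : Fintype.card ι = 1 + Fintype.card σ := by
      have := sum_split (fun _ : ι => 1) i₀
      simpa [σ] using this
    have h5 : ∃ t : ℕ, Algebra.trdeg F L' = t := by
      apply Cardinal.lt_aleph0.1
      have : Algebra.trdeg F L' ≤ (Fintype.card ι : Cardinal) + Algebra.trdeg F L' := le_add_self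
      rw [h4] at this
      refine lt_of_le_of_lt this ?_
      rw [← Nat.cast_add]
      exact Cardinal.natCast_lt_aleph0
    obtain ⟨t, ht⟩ := h5
    rw [ht] at h4 ⊢
    rw [hcard] at h4
    norm_cast at h4 ⊢
    omega

end Pool.Agent.MP8049
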