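import Mathlib
import Pool.Agent.Lib.MP_8049df_ag.SqSoc
import Pool.Agent.Lib.MP_8049df_ag.HSAct

set_option autoImplicit false

/-! Cochains with polynomial coefficients and division by a linear form. -/

namespace Pool.Agent.MP8049

open MvPolynomial

variable {k L ι : Type} [Field k] [Field L] [Algebra k L] [Fintype ι] [LinearOrder ι]

/-- The generic linear form. -/
noncomputable def ell (x : ι → L) : MvPolynomial ι L := ∑ i, C (x i) * X i

lemma coeff_ell_mul (x : ι → L) (Q : MvPolynomial ι L) (m : ι →₀ ℕ) :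
    coeff m (ell x * Q) =
      ∑ l, x l * (if l ∈ m.support then coeff (m - Finsupp.single l 1) Q else 0) := by
  unfold ell
  rw [Finset.sum_mul, coeff_sum]
  refine Finset.sum_congr rfl fun l _ => ?_
  rw [mul_assoc, coeff_C_mul, coeff_X_mul']

lemma ell_ne_zero {x : ι → L} (hx : ∀ i, x i ≠ 0) (i : ι) : ell x ≠ 0 := by
  intro h
  have h1 := coeff_ell_mul x 1 (Finsupp.single i 1)
  rw [h, zero_mul, coeff_zero, Finset.sum_eq_single i] at h1
  · simp at h1
    exact hx i h1.symm
  · intro l _ hl
    rw [if_neg, mul_zero]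
    rw [Finsupp.mem_support_iff, not_not]
    exact Finsupp.single_eq_of_ne hl
  · intro h; exact absurd (Finset.mem_univ i) h

/-- Division by the generic linear form keeps the coefficients under control. -/
lemma coeff_div_ell {x : ι → L} (hx : ∀ i, x i ≠ 0) {i : ι} {A B : Submodule k L}
    (hBA : ∀ b ∈ B, (x i)⁻¹ * b ∈ A) (hAB : ∀ l, ∀ a ∈ A, x l * a ∈ B) (Q : MvPolynomial ι L)
    (h : ∀ m, coeff m (ell x * Q) ∈ B) : ∀ m, coeff m Q ∈ A := by
  have key : ∀ d : ℕ, ∀ m : ι →₀ ℕ, Q.totalDegree < m i + d → coeff m Q ∈ A := by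
    intro d
    induction d with
    | zero =>
      intro m hm
      have h1 : coeff m Q = 0 := by
        by_contra hne
        have h2 : m ∈ Q.support := mem_support_iff.mpr hne
        have h3 := le_totalDegree h2
        have h4 : m i ≤ m.sum fun _ e => e := by
          rw [Finsupp.sum_fintype _ _ (fun _ => rfl)]
          exact Finset.single_le_sum (f := fun l => m l) (fun l _ => Nat.zero_le _) (Finset.mem_univ i)
        omega
      rw [h1]
      exact Submodule.zero_mem _
    | succ d ih =>
      intro m hm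
      have h1 := h (m + Finsupp.single i 1)
      rw [coeff_ell_mul, ← Finset.add_sum_erase _ _ (Finset.mem_univ i)] at h1
      have h2 : i ∈ (m + Finsupp.single i 1).support := by
        rw [Finsupp.mem_support_iff, Finsupp.add_apply, Finsupp.single_eq_same]
        omega
      rw [if_pos h2, add_tsub_cancel_right] at h1
      have h3 : ∑ l ∈ Finset.univ.erase i, x l * (if l ∈ (m + Finsupp.single i 1).support then
          coeff (m + Finsupp.single i 1 - Finsupp.single l 1) Q else 0) ∈ B := by
        refine Submodule.sum_mem _ fun l hl => ?_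
        refine hAB l _ ?_
        split_ifs with h4
        · refine ih _ ?_
          have hli : i ≠ l := (Finset.ne_of_mem_erase hl).symm
          have h5 : (m + Finsupp.single i 1 - Finsupp.single l 1 : ι →₀ ℕ) i = m i + 1 := by
            rw [Finsupp.tsub_apply, Finsupp.add_apply, Finsupp.single_eq_same,
              Finsupp.single_eq_of_ne hli, Nat.sub_zero]
          rw [h5]
          omega
        · exact Submodule.zero_mem _
      have h4 := Submodule.sub_mem _ h1 h3
      rw [add_sub_cancel_right] at h4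
      have h5 := hBA _ h4
      rwa [← mul_assoc, inv_mul_cancel₀ (hx i), one_mul] at h5
  intro m
  exact key (Q.totalDegree + 1) m (by omega)

/-- Coefficients of a product with a polynomial over the base field. -/
lemma coeff_map_mul_mem (N : Submodule k L) (W : MvPolynomial ι k) {P : MvPolynomial ι L}
    (h : ∀ m, coeff m P ∈ N) : ∀ m, coeff m (map (algebraMap k L) W * P) ∈ N := by
  intro m
  rw [coeff_mul]
  refine Submodule.sum_mem _ fun p _ => ?_
  rw [coeff_map, ← Algebra.smul_def]
  exact Submodule.smul_mem _ _ (h _)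

/-- The coefficient cochain. -/
noncomputable def cf (m : ι →₀ ℕ) (c : Finset ι → MvPolynomial ι L) : Finset ι → L :=
  fun G => coeff m (c G)

lemma cf_cd (m : ι →₀ ℕ) (c : Finset ι → MvPolynomial ι L) : cf m (cd c) = cd (cf m c) :=
  (cd_map (coeffAddMonoidHom m) c).symm

lemma cf_add (m : ι →₀ ℕ) (c d : Finset ι → MvPolynomial ι L) :
    cf m (c + d) = cf m c + cf m d := by
  funext G
  simp [cf]

lemma cf_sub (m : ι →₀ ℕ) (c d : Finset ι → MvPolynomial ι L) :
    cf m (c - d) = cf m c - cf m d := by
  funext G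
  simp [cf]

lemma cf_ext {c d : Finset ι → MvPolynomial ι L} (h : ∀ m, cf m c = cf m d) : c = d := by
  funext G
  ext m
  exact congrFun (h m) G

/-- Multiplication of a cochain by a polynomial. -/
noncomputable def pm (W : MvPolynomial ι L) (c : Finset ι → MvPolynomial ι L) :
    Finset ι → MvPolynomial ι L := fun G => W * c G

lemma cd_pm (W : MvPolynomial ι L) (c : Finset ι → MvPolynomial ι L) :
    cd (pm W c) = pm W (cd c) := cd_map (AddMonoidHom.mulLeft W) c

/-- Polynomial primitives. -/
lemma lift_Bdy {P : Finset ι → Submodule k L} {q : ℕ} {c : Finset ι → MvPolynomial ι L}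
    (h : ∀ m, cf m c ∈ Bdy P (q + 1)) :
    ∃ b : Finset ι → MvPolynomial ι L, (∀ m, cf m b ∈ Coch P q) ∧ cd b = c := by
  classical
  have h1 : ∀ m, ∃ b ∈ Coch P q, cd b = cf m c := fun m => h m
  choose b hb1 hb2 using h1
  set S : Finset (ι →₀ ℕ) := Finset.univ.biUnion (fun G => (c G).support) with hS
  let B : Finset ι → MvPolynomial ι L := fun G => ∑ m ∈ S, monomial m (b m G)
  have hcf : ∀ m, cf m B = if m ∈ S then b m else 0 := by
    intro m
    funext G
    simp only [cf, B, coeff_sum, coeff_monomial]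
    by_cases hm : m ∈ S
    · rw [if_pos hm, Finset.sum_ite_eq' S m (fun m => b m G), if_pos hm]
    · rw [if_neg hm, Finset.sum_ite_eq' S m (fun m => b m G), if_neg hm]
      rfl
  refine ⟨B, fun m => ?_, cf_ext fun m => ?_⟩
  · rw [hcf]
    split_ifs
    · exact hb1 m
    · exact Submodule.zero_mem _
  · rw [cf_cd, hcf]
    split_ifs with hm
    · exact hb2 m
    · rw [cd_zero]
      funext G
      have : m ∉ (c G).support := fun h => hm (Finset.mem_biUnion.mpr ⟨G, Finset.mem_univ G, h⟩)
      exact (notMem_support_iff.mp this).symm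

lemma inv_mul_RG {x : ι → L} (hx : ∀ i, x i ≠ 0) {i : ι} {G : Finset ι} (hi : i ∈ G) {j : ℤ}
    {f : L} (hf : f ∈ RG k x (j + 1) G) : (x i)⁻¹ * f ∈ RG k x j G := by
  have h1 : (x i)⁻¹ = mon x (Pi.single i (-1)) := by rw [mon_single]; simp
  rw [h1, mul_comm]
  refine Sp_mul_mon hx ?_ hf
  rintro a ⟨ha1, ha2⟩
  have ha2' : dg a = j + 1 := ha2
  refine ⟨fun l hl => ?_, ?_⟩
  · have hli : l ≠ i := fun h => hl (h ▸ hi)
    rw [Pi.add_apply, Pi.single_eq_of_ne hli, add_zero]
    exact ha1 l hl
  · show dg (a + Pi.single i (-1)) = j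
    rw [dg_add, dg_single, ha2']
    ring

/-- Multiplication by the linear form. -/
lemma cf_ell_mem {x : ι → L} (hx : ∀ i, x i ≠ 0) {j : ℤ} {q : ℕ}
    {c : Finset ι → MvPolynomial ι L} (hc : ∀ m, cf m c ∈ Coch (RG k x j) q) (m : ι →₀ ℕ) :
    cf m (pm (ell x) c) ∈ Coch (RG k x (j + 1)) q := by
  intro G
  constructor
  · simp only [cf, pm, coeff_ell_mul]
    refine Submodule.sum_mem _ fun l _ => ?_
    refine x_mul_RG hx l ?_
    split_ifs
    · exact (hc _ G).1
    · exact Submodule.zero_mem _
  · intro hG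
    simp only [cf, pm, coeff_ell_mul]
    refine Finset.sum_eq_zero fun l _ => ?_
    split_ifs
    · have := (hc (m - Finsupp.single l 1) G).2 hG
      simp only [cf] at this
      rw [this, mul_zero]
    · rw [mul_zero]

/-- Division by the linear form for cochains. -/
lemma div_ell {x : ι → L} (hx : ∀ i, x i ≠ 0) {j : ℤ} {q : ℕ} (hq : 1 ≤ q)
    {c : Finset ι → MvPolynomial ι L} (hc : ∀ m, cf m c ∈ Coch (RG k x (j + 1)) q)
    (hdvd : ∀ G, ell x ∣ c G) :
    ∃ e : Finset ι → MvPolynomial ι L, (∀ m, cf m e ∈ Coch (RG k x j) q) ∧ c = pm (ell x) e := by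
  classical
  have h1 : ∀ G, ∃ e : MvPolynomial ι L, (∀ m, coeff m e ∈ RG k x j G) ∧
      (G.card ≠ q → e = 0) ∧ c G = ell x * e := by
    intro G
    by_cases hG : G.card = q
    · obtain ⟨e, he⟩ := hdvd G
      refine ⟨e, ?_, fun h => absurd hG h, he⟩
      obtain ⟨i, hi⟩ : G.Nonempty := Finset.card_pos.mp (by omega)
      refine coeff_div_ell hx (i := i) (A := RG k x j G) (B := RG k x (j + 1) G)
        (fun b hb => inv_mul_RG hx hi hb) (fun l a ha => x_mul_RG hx l ha) e ?_
      intro m
      rw [← he]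
      exact (hc m G).1
    · refine ⟨0, fun m => ?_, fun _ => rfl, ?_⟩
      · rw [coeff_zero]; exact Submodule.zero_mem _
      · rw [mul_zero]
        ext m
        exact (hc m G).2 hG
  choose e he1 he2 he3 using h1
  refine ⟨e, fun m G => ⟨he1 G m, fun hG => ?_⟩, funext he3⟩
  simp only [cf, he2 G hG, coeff_zero]

lemma pm_ell_inj {x : ι → L} (hx : ∀ i, x i ≠ 0) [Nonempty ι] {c d : Finset ι → MvPolynomial ι L}
    (h : pm (ell x) c = pm (ell x) d) : c = d := by
  obtain ⟨i⟩ := (inferInstance : Nonempty ι)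
  funext G
  exact mul_left_cancel₀ (ell_ne_zero hx i) (congrFun h G)

end Pool.Agent.MP8049
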