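import Mathlib
import Pool.Agent.Lib.MP_8049df_ag.HSDef

set_option autoImplicit false

/-! Smooth charts of the generic hyperplane section. -/

namespace Pool.Agent.MP8049

open MvPolynomial

section aux

variable {k L L' ι : Type} [Field k] [Field L] [Field L'] [Algebra k L] [Algebra L L']
  [Algebra k L'] [IsScalarTower k L L'] [Fintype ι]

lemma algebraMap_mon (x : ι → L) (a : ι → ℤ) :
    algebraMap L L' (mon x a) = mon (fun l => algebraMap L L' (x l)) a := by
  simp [mon, map_prod, map_zpow₀]

lemma algebraMap_mem_Sp (E : IntermediateField k L') (x : ι → L) (S : Set (ι → ℤ)) {f : L}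
    (hf : f ∈ Sp k x S) :
    algebraMap L L' f ∈ Sp E (fun l => algebraMap L L' (x l)) S := by
  unfold Sp at hf
  induction hf using Submodule.span_induction with
  | mem f hf =>
    obtain ⟨a, ha, rfl⟩ := hf
    rw [algebraMap_mon]
    exact mon_mem_Sp ha
  | zero => simp
  | add f g _ _ hf hg => rw [map_add]; exact Submodule.add_mem _ hf hg
  | smul c f _ hf =>
    have h1 : algebraMap L L' (c • f) = (algebraMap k E c) • algebraMap L L' f := by
      rw [algebraMap_smul, Algebra.smul_def, map_mul, ← IsScalarTower.algebraMap_apply,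
        Algebra.smul_def]
    rw [h1]
    exact Submodule.smul_mem _ _ hf

end aux

theorem smAt_hyper {K₀ k L L' ι : Type} [Field K₀] [Field k] [Field L] [Field L']
    [Algebra K₀ k] [Algebra K₀ L] [Algebra k L] [IsScalarTower K₀ k L]
    [Algebra L L'] [Algebra k L'] [Algebra K₀ L'] [IsScalarTower k L L'] [IsScalarTower K₀ L L']
    [IsScalarTower K₀ k L'] [Fintype ι] [DecidableEq ι] (x : ι → L) (hx : ∀ i, x i ≠ 0)
    (u : ι → L')
    (hker : ∀ P : MvPolynomial ι L, aeval u P = 0 ↔ (∑ i, C (x i) * X i) ∣ P)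
    (i : ι) (h : SmAt K₀ k x i) :
    SmAt K₀ (IntermediateField.adjoin k (Set.range u)) (fun l => algebraMap L L' (x l)) i := by
  classical
  obtain ⟨B, hBsm, hxB, hxiB, hBT, hTB, U, hUfin, hUB, hUtop⟩ := h
  set k' := IntermediateField.adjoin k (Set.range u) with hk'
  set x' : ι → L' := fun l => algebraMap L L' (x l) with hx'
  have hx'0 : ∀ l, x' l ≠ 0 := fun l => by
    simp only [hx']
    exact (map_ne_zero _).mpr (hx l)
  -- the linear relation
  have hrel : ∑ l, x' l * u l = 0 := by
    have := (hker (∑ i, C (x i) * X i)).mpr dvd_rfl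
    simpa using this
  -- the map ψ
  let σ := {l : ι // l ≠ i}
  let φB : B →ₐ[K₀] L' := (IsScalarTower.toAlgHom K₀ L L').comp B.val
  let ψ : MvPolynomial σ B →ₐ[K₀] L' :=
    { toRingHom := eval₂Hom (φB : B →+* L') (fun l : σ => u l.1)
      commutes' := fun r => by
        change eval₂Hom (φB : B →+* L') (fun l : σ => u l.1) (algebraMap K₀ (MvPolynomial σ B) r)
          = _
        rw [IsScalarTower.algebraMap_apply K₀ B (MvPolynomial σ B)]
        rw [MvPolynomial.algebraMap_eq, coe_eval₂Hom, eval₂_C]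
        exact φB.commutes r }
  have hψC : ∀ b : B, ψ (C b) = algebraMap L L' (b : L) := fun b => by
    change eval₂Hom (φB : B →+* L') (fun l : σ => u l.1) (C b) = _
    rw [coe_eval₂Hom, eval₂_C]
    rfl
  have hψX : ∀ l : σ, ψ (X l) = u l.1 := fun l => by
    change eval₂Hom (φB : B →+* L') (fun l : σ => u l.1) (X l) = _
    rw [coe_eval₂Hom, eval₂_X]
  have hψr : ∀ P : MvPolynomial σ B, ψ P =
      aeval u (rename Subtype.val (map (B.val : B →+* L) P)) := fun P => by
    induction P using MvPolynomial.induction_on with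
    | C b => rw [hψC, map_C, rename_C, aeval_C]; rfl
    | add p q hp hq => rw [map_add, map_add, map_add, map_add, hp, hq]
    | mul_X p l hp => rw [map_mul, map_mul, map_mul, map_mul, hp, hψX, map_X, rename_X, aeval_X]
  -- injectivity
  have hψinj : Function.Injective ψ := by
    rw [injective_iff_map_eq_zero]
    intro P hP
    rw [hψr, hker] at hP
    let θ : MvPolynomial ι L →ₐ[L] MvPolynomial σ L :=
      aeval (fun l => if hl : l = i then - ∑ m : σ, C ((x i)⁻¹ * x m.1) * X m else X ⟨l, hl⟩)
    have hθC : ∀ c : L, θ (C c) = C c := fun c => by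
      rw [← MvPolynomial.algebraMap_eq, AlgHom.commutes, MvPolynomial.algebraMap_eq]
    have hθX : ∀ l : ι, θ (X l) = if hl : l = i then - ∑ m : σ, C ((x i)⁻¹ * x m.1) * X m
        else X ⟨l, hl⟩ := fun l => aeval_X _ _
    have hθ1 : θ (∑ i, C (x i) * X i) = 0 := by
      rw [map_sum, ← Finset.add_sum_erase _ _ (Finset.mem_univ i)]
      have h1 : ∑ l ∈ Finset.univ.erase i, θ (C (x l) * X l) =
          ∑ m : σ, C (x m.1) * X m := by
        symm
        refine Finset.sum_bij (fun m _ => m.1) (fun m _ => ?_) (fun a _ b _ hab => ?_)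
          (fun b hb => ?_) (fun m _ => ?_)
        · exact Finset.mem_erase.mpr ⟨m.2, Finset.mem_univ _⟩
        · exact Subtype.ext hab
        · exact ⟨⟨b, (Finset.mem_erase.mp hb).1⟩, Finset.mem_univ _, rfl⟩
        · rw [map_mul, hθC, hθX, dif_neg m.2]
      rw [h1, map_mul, hθC, hθX, dif_pos rfl]
      rw [mul_neg, Finset.mul_sum]
      rw [neg_add_eq_zero]
      refine Finset.sum_congr rfl fun m _ => ?_
      rw [← mul_assoc, ← C_mul, ← mul_assoc, mul_inv_cancel₀ (hx i), one_mul]
    have hθ2 : ∀ Q : MvPolynomial σ L, θ (rename Subtype.val Q) = Q := fun Q => by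
      induction Q using MvPolynomial.induction_on with
      | C b => rw [rename_C, ← MvPolynomial.algebraMap_eq, AlgHom.commutes]; rfl
      | add p q hp hq => rw [map_add, map_add, hp, hq]
      | mul_X p l hp =>
        rw [map_mul, map_mul, hp, rename_X]
        simp only [θ, aeval_X]
        rw [dif_neg l.2]
    obtain ⟨Q, hQ⟩ := hP
    have h2 := congrArg θ hQ
    rw [hθ2, map_mul, hθ1, zero_mul] at h2
    have h3 : Function.Injective (map (σ := σ) (B.val : B →+* L)) :=
      map_injective _ Subtype.val_injective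
    exact h3 (by rw [h2, map_zero])
  let B' : Subalgebra K₀ L' := ψ.range
  have hB'L : ∀ b ∈ B, algebraMap L L' b ∈ B' := fun b hb => ⟨C ⟨b, hb⟩, hψC _⟩
  have hB'x : ∀ l, x' l ∈ B' := fun l => hB'L _ (hxB l)
  have hB'xi : (x' i)⁻¹ ∈ B' := by
    have := hB'L _ hxiB
    rwa [map_inv₀] at this
  have hB'u : ∀ l, u l ∈ B' := fun l => by
    by_cases hl : l = i
    · subst hl
      have h1 : u l = - ((x' l)⁻¹ * ∑ m ∈ Finset.univ.erase l, x' m * u m) := by
        rw [← Finset.add_sum_erase _ _ (Finset.mem_univ l)] at hrel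
        have h2 := hx'0 l
        field_simp
        linear_combination hrel
      rw [h1]
      refine neg_mem (mul_mem hB'xi (sum_mem fun m hm => mul_mem (hB'x m) ?_))
      exact ⟨X ⟨m, (Finset.mem_erase.mp hm).1⟩, hψX _⟩
    · exact ⟨X ⟨l, hl⟩, hψX _⟩
  have hku : ∀ l, u l ∈ k' := fun l => IntermediateField.subset_adjoin _ _ ⟨l, rfl⟩
  -- clause 4
  have hc4 : ∀ b ∈ B', b ∈ TG k' x' {i} := by
    rintro _ ⟨P, rfl⟩
    change ψ P ∈ _
    induction P using MvPolynomial.induction_on with
    | C b => rw [hψC]; exact algebraMap_mem_Sp _ _ _ (hBT _ b.2)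
    | add p q hp hq => rw [map_add]; exact Submodule.add_mem _ hp hq
    | mul_X p l hp =>
      rw [map_mul, hψX, mul_comm]
      have : u l.1 * ψ p = (⟨u l.1, hku l.1⟩ : k') • ψ p := by
        rw [Algebra.smul_def]; rfl
      rw [this]
      exact Submodule.smul_mem _ _ hp
  -- denominators
  have hden : ∀ c (hc : c ∈ k'), ∃ w : k', w ≠ 0 ∧ (w : L') ∈ B' ∧ (w : L') * c ∈ B' := by
    intro c hc
    induction hc using IntermediateField.adjoin_induction with
    | mem c hc =>
      obtain ⟨l, rfl⟩ := hc
      exact ⟨1, one_ne_zero, one_mem _, by simpa using hB'u l⟩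
    | algebraMap c =>
      have h1 : algebraMap k L c ∈ TG k x {i} := by
        have : algebraMap k L c = c • (1 : L) := by rw [Algebra.smul_def, mul_one]
        rw [this]
        exact Submodule.smul_mem _ _ (one_mem_TG _)
      obtain ⟨w, hw, hw1, hw2⟩ := hTB _ h1
      refine ⟨algebraMap k k' w, (map_ne_zero _).mpr hw, ?_, ?_⟩
      · have := hB'L _ hw1
        rw [← IsScalarTower.algebraMap_apply] at this
        exact this
      · have := hB'L _ hw2
        rw [map_mul, ← IsScalarTower.algebraMap_apply, ← IsScalarTower.algebraMap_apply] at this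
        exact this
    | add c d _ _ ihc ihd =>
      obtain ⟨w1, h1, h2, h3⟩ := ihc
      obtain ⟨w2, h4, h5, h6⟩ := ihd
      refine ⟨w1 * w2, mul_ne_zero h1 h4, mul_mem h2 h5, ?_⟩
      have : ((w1 * w2 : k') : L') * (c + d) = w2 * (w1 * c) + w1 * (w2 * d) := by
        push_cast; ring
      rw [this]
      exact add_mem (mul_mem h5 h3) (mul_mem h2 h6)
    | inv c hc ihc =>
      obtain ⟨w, h1, h2, h3⟩ := ihc
      by_cases hc0 : c = 0
      · subst hc0
        exact ⟨1, one_ne_zero, one_mem _, by simp⟩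
      · refine ⟨w * ⟨c, hc⟩, mul_ne_zero h1 ?_, h3, ?_⟩
        · intro h
          exact hc0 (congrArg Subtype.val h)
        · have : ((w * ⟨c, hc⟩ : k') : L') * c⁻¹ = w := by
            push_cast
            field_simp
          rw [this]
          exact h2
    | mul c d _ _ ihc ihd =>
      obtain ⟨w1, h1, h2, h3⟩ := ihc
      obtain ⟨w2, h4, h5, h6⟩ := ihd
      refine ⟨w1 * w2, mul_ne_zero h1 h4, mul_mem h2 h5, ?_⟩
      have : ((w1 * w2 : k') : L') * (c * d) = (w1 * c) * (w2 * d) := by
        push_cast; ring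
      rw [this]
      exact mul_mem h3 h6
  have hc5 : ∀ f ∈ TG k' x' {i}, ∃ w : k', w ≠ 0 ∧ (w : L') ∈ B' ∧ (w : L') * f ∈ B' := by
    intro f hf
    unfold TG Sp at hf
    induction hf using Submodule.span_induction with
    | mem f hf =>
      obtain ⟨a, ha, rfl⟩ := hf
      have h1 : mon x a ∈ TG k x {i} := mon_mem_Sp ha
      obtain ⟨w, hw, hw1, hw2⟩ := hTB _ h1
      refine ⟨algebraMap k k' w, (map_ne_zero _).mpr hw, ?_, ?_⟩
      · have := hB'L _ hw1
        rw [← IsScalarTower.algebraMap_apply] at this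
        exact this
      · have := hB'L _ hw2
        rw [map_mul, ← IsScalarTower.algebraMap_apply, algebraMap_mon] at this
        exact this
    | zero => exact ⟨1, one_ne_zero, one_mem _, by simp⟩
    | add c d _ _ ihc ihd =>
      obtain ⟨w1, h1, h2, h3⟩ := ihc
      obtain ⟨w2, h4, h5, h6⟩ := ihd
      refine ⟨w1 * w2, mul_ne_zero h1 h4, mul_mem h2 h5, ?_⟩
      have : ((w1 * w2 : k') : L') * (c + d) = w2 * (w1 * c) + w1 * (w2 * d) := by
        push_cast; ring
      rw [this]
      exact add_mem (mul_mem h5 h3) (mul_mem h2 h6)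
    | smul c f _ ih =>
      obtain ⟨w1, h1, h2, h3⟩ := ih
      obtain ⟨w2, h4, h5, h6⟩ := hden c c.2
      refine ⟨w1 * w2, mul_ne_zero h1 h4, mul_mem h2 h5, ?_⟩
      have : ((w1 * w2 : k') : L') * (c • f) = (w1 * f) * (w2 * c) := by
        rw [Algebra.smul_def]
        change _ * ((c : L') * f) = _
        push_cast; ring
      rw [this]
      exact mul_mem h3 h6
  refine ⟨B', ?_, hB'x, hB'xi, hc4, hc5, (algebraMap k k' '' U) ∪
    Set.range (fun l => (⟨u l, hku l⟩ : k')), (hUfin.image _).union (Set.finite_range _), ?_, ?_⟩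
  · have e : MvPolynomial σ B ≃ₐ[K₀] B' := AlgEquiv.ofInjective ψ hψinj
    have h1 : Algebra.Smooth B (MvPolynomial σ B) :=
      { formallySmooth := inferInstance
        finitePresentation := inferInstance }
    have h2 : Algebra.Smooth K₀ (MvPolynomial σ B) := Algebra.Smooth.comp K₀ B _
    exact Algebra.Smooth.of_equiv e
  · rintro _ (⟨c, hc, rfl⟩ | ⟨l, rfl⟩)
    · have := hB'L _ (hUB c hc)
      rw [← IsScalarTower.algebraMap_apply] at this
      exact this
    · exact hB'u l
  · set V : Set k' := (algebraMap k k' '' U) ∪ Set.range (fun l => (⟨u l, hku l⟩ : k')) with hV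
    set E := IntermediateField.adjoin K₀ V with hE
    have hkE : ∀ c : k, algebraMap k k' c ∈ E := by
      intro c
      have hc : c ∈ IntermediateField.adjoin K₀ U := by rw [hUtop]; trivial
      induction hc using IntermediateField.adjoin_induction with
      | mem c hc => exact IntermediateField.subset_adjoin _ _ (Or.inl ⟨c, hc, rfl⟩)
      | algebraMap c =>
        rw [← IsScalarTower.algebraMap_apply]
        exact E.algebraMap_mem c
      | add c d _ _ ihc ihd => rw [map_add]; exact add_mem ihc ihd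
      | inv c _ ihc => rw [map_inv₀]; exact inv_mem ihc
      | mul c d _ _ ihc ihd => rw [map_mul]; exact mul_mem ihc ihd
    have hall : ∀ c (hc : c ∈ k'), (⟨c, hc⟩ : k') ∈ E := by
      intro c hc
      induction hc using IntermediateField.adjoin_induction with
      | mem c hc =>
        obtain ⟨l, rfl⟩ := hc
        exact IntermediateField.subset_adjoin _ _ (Or.inr ⟨l, rfl⟩)
      | algebraMap c => exact hkE c
      | add c d hc hd ihc ihd => exact add_mem ihc ihd
      | inv c hc ihc => exact inv_mem ihc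
      | mul c d _ _ ihc ihd => exact mul_mem ihc ihd
    rw [eq_top_iff]
    rintro ⟨c, hc⟩ _
    exact hall c hc

end Pool.Agent.MP8049
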