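import Mathlib
import Pool.Agent.Lib.MP_8049df_ag.HyperPoly
import Pool.Agent.Lib.MP_8049df_ag.HyperField
import Pool.Agent.Lib.MP_8049df_ag.HyperSm
import Pool.Agent.Lib.MP_8049df_ag.StateDef

set_option autoImplicit false

/-! The step to the generic hyperplane section. -/

namespace Pool.Agent.MP8049

open MvPolynomial

variable {k L L' ι : Type} [Field k] [Field L] [Field L'] [Algebra k L] [Algebra L L']
  [Algebra k L'] [IsScalarTower k L L'] [Fintype ι] [LinearOrder ι]

/-- the extended base field -/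
abbrev kx (k : Type) [Field k] {L' : Type} [Field L'] [Algebra k L'] {ι : Type} (u : ι → L') :
    IntermediateField k L' := IntermediateField.adjoin k (Set.range u)

/-- the coordinates over the new field -/
abbrev xx {L : Type} [Field L] (L' : Type) [Field L'] [Algebra L L'] {ι : Type} (x : ι → L) :
    ι → L' := fun l => algebraMap L L' (x l)

lemma mul_mem_Sp' {u : ι → L'} {y : ι → L'} {S : Set (ι → ℤ)} {c f : L'} (hc : c ∈ kx k u)
    (hf : f ∈ Sp (kx k u) y S) : c * f ∈ Sp (kx k u) y S := by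
  have := Submodule.smul_mem _ (⟨c, hc⟩ : kx k u) hf
  rwa [Algebra.smul_def] at this

lemma aeval_mem_kx (u : ι → L') (W : MvPolynomial ι k) : aeval u W ∈ kx k u := by
  have h1 : aeval u W ∈ Algebra.adjoin k (Set.range u) := by
    rw [Algebra.adjoin_range_eq_range_aeval]
    exact ⟨W, rfl⟩
  exact IntermediateField.algebra_adjoin_le_adjoin k _ h1

lemma u_mem_kx (u : ι → L') (i : ι) : u i ∈ kx k u :=
  IntermediateField.subset_adjoin k _ (Set.mem_range_self i)

lemma algebraMap_mem_SpX {x : ι → L} (u : ι → L') {S : Set (ι → ℤ)} {f : L} (hf : f ∈ Sp k x S) :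
    algebraMap L L' f ∈ Sp (kx k u) (xx L' x) S := by
  unfold Sp at hf
  induction hf using Submodule.span_induction with
  | mem f hf =>
    obtain ⟨a, ha, rfl⟩ := hf
    rw [algebraMap_mon]
    exact mon_mem_Sp ha
  | zero => rw [map_zero]; exact Submodule.zero_mem _
  | add f g _ _ hf hg => rw [map_add]; exact Submodule.add_mem _ hf hg
  | smul c f _ hf =>
    rw [Algebra.smul_def, map_mul, ← IsScalarTower.algebraMap_apply k L L']
    refine mul_mem_Sp' ?_ hf
    exact IntermediateField.algebraMap_mem _ c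

lemma evu_Sp {x : ι → L} (u : ι → L') {S : Set (ι → ℤ)} {P : MvPolynomial ι L}
    (hP : ∀ m, coeff m P ∈ Sp k x S) : aeval u P ∈ Sp (kx k u) (xx L' x) S := by
  rw [aeval_def, eval₂_eq]
  refine Submodule.sum_mem _ fun m _ => ?_
  rw [mul_comm]
  refine mul_mem_Sp' ?_ (algebraMap_mem_SpX u (hP m))
  exact prod_mem fun i _ => pow_mem (u_mem_kx u i) _

lemma aeval_map_k (u : ι → L') (W : MvPolynomial ι k) :
    aeval u (map (algebraMap k L) W) = aeval u W := by
  rw [aeval_def, eval₂_map, ← IsScalarTower.algebraMap_eq k L L']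
  rfl

/-- Clearing denominators. -/
lemma clear_Sp {x : ι → L} (u : ι → L') {S : Set (ι → ℤ)} {f : L'}
    (hf : f ∈ Sp (kx k u) (xx L' x) S) :
    ∃ W : MvPolynomial ι k, aeval u W ≠ 0 ∧ ∃ P : MvPolynomial ι L,
      (∀ m, coeff m P ∈ Sp k x S) ∧ aeval u P = aeval u W * f := by
  classical
  unfold Sp at hf
  induction hf using Submodule.span_induction with
  | mem f hf =>
    obtain ⟨a, ha, rfl⟩ := hf
    refine ⟨1, by simp, C (mon x a), fun m => ?_, ?_⟩
    · rw [coeff_C]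
      split_ifs
      · exact mon_mem_Sp ha
      · exact Submodule.zero_mem _
    · rw [aeval_C, algebraMap_mon, map_one, one_mul]
  | zero =>
    refine ⟨1, by simp, 0, fun m => ?_, by simp⟩
    rw [coeff_zero]
    exact Submodule.zero_mem _
  | add f g _ _ hf hg =>
    obtain ⟨W1, hW1, P1, hP1, hP1'⟩ := hf
    obtain ⟨W2, hW2, P2, hP2, hP2'⟩ := hg
    refine ⟨W1 * W2, by rw [map_mul]; exact mul_ne_zero hW1 hW2,
      map (algebraMap k L) W2 * P1 + map (algebraMap k L) W1 * P2, fun m => ?_, ?_⟩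
    · rw [coeff_add]
      exact Submodule.add_mem _ (coeff_map_mul_mem _ W2 hP1 m) (coeff_map_mul_mem _ W1 hP2 m)
    · rw [map_add, map_mul, map_mul, aeval_map_k, aeval_map_k, hP1', hP2', map_mul]
      ring
  | smul c f _ hf =>
    obtain ⟨W1, hW1, P1, hP1, hP1'⟩ := hf
    obtain ⟨r, s, hrs⟩ := (IntermediateField.mem_adjoin_range_iff k u (c : L')).mp c.2
    have hsm : c • f = (c : L') * f := by
      rw [Algebra.smul_def]
      rfl
    by_cases hs : aeval u s = 0
    · refine ⟨1, by simp, 0, fun m => ?_, ?_⟩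
      · rw [coeff_zero]
        exact Submodule.zero_mem _
      · rw [hsm, hrs, hs, div_zero, zero_mul, mul_zero, map_zero]
    · refine ⟨s * W1, by rw [map_mul]; exact mul_ne_zero hs hW1,
        map (algebraMap k L) r * P1, coeff_map_mul_mem _ r hP1, ?_⟩
      rw [map_mul, aeval_map_k, hP1', map_mul, hsm, hrs]
      field_simp

/-- Common denominators. -/
lemma common_den (u : ι → L') {α : Type*} [Fintype α] (Q : α → MvPolynomial ι k → Prop)
    (hmul : ∀ a W W', Q a W → Q a (W' * W))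
    (hex : ∀ a, ∃ W : MvPolynomial ι k, aeval u W ≠ 0 ∧ Q a W) :
    ∃ W : MvPolynomial ι k, aeval u W ≠ 0 ∧ ∀ a, Q a W := by
  classical
  choose W hW hQ using hex
  refine ⟨∏ a, W a, ?_, fun a => ?_⟩
  · rw [map_prod]
    exact Finset.prod_ne_zero_iff.mpr fun a _ => hW a
  · rw [← Finset.mul_prod_erase _ _ (Finset.mem_univ a), mul_comm]
    exact hmul a _ _ (hQ a)

/-- evaluation of a polynomial cochain -/
noncomputable def evu (u : ι → L') (c : Finset ι → MvPolynomial ι L) : Finset ι → L' :=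
  fun G => aeval u (c G)

lemma evu_cd (u : ι → L') (c : Finset ι → MvPolynomial ι L) : cd (evu u c) = evu u (cd c) :=
  cd_map (aeval (R := L) u : MvPolynomial ι L →ₐ[L] L').toRingHom.toAddMonoidHom c

lemma evu_sub (u : ι → L') (c d : Finset ι → MvPolynomial ι L) : evu u (c - d) = evu u c - evu u d := by
  funext G
  simp [evu]

lemma evu_Coch {x : ι → L} (u : ι → L') {j : ℤ} {q : ℕ} {c : Finset ι → MvPolynomial ι L}
    (hc : ∀ m, cf m c ∈ Coch (RG k x j) q) : evu u c ∈ Coch (RG (kx k u) (xx L' x) j) q := by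
  intro G
  refine ⟨evu_Sp u fun m => (hc m G).1, fun hG => ?_⟩
  have h0 : c G = 0 := by
    ext m
    exact (hc m G).2 hG
  simp only [evu, h0, map_zero]

lemma evu_Bdy {x : ι → L} (u : ι → L') {j : ℤ} {q : ℕ} {c : Finset ι → MvPolynomial ι L}
    (hc : ∀ m, cf m c ∈ Bdy (RG k x j) q) : evu u c ∈ Bdy (RG (kx k u) (xx L' x) j) q := by
  cases q with
  | zero =>
    have h0 : c = 0 := by
      refine cf_ext fun m => ?_
      have h1 : cf m c = 0 := hc m
      rw [h1]
      funext G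
      simp [cf]
    rw [h0]
    have : evu u (0 : Finset ι → MvPolynomial ι L) = 0 := by
      funext G
      simp [evu]
    rw [this]
    exact Submodule.zero_mem _
  | succ q =>
    obtain ⟨b, hb, hbc⟩ := lift_Bdy hc
    exact ⟨evu u b, evu_Coch u hb, by
      show cd (evu u b) = evu u c
      rw [evu_cd, hbc]⟩

/-- Clearing denominators in a cochain. -/
def CQ (x : ι → L) (u : ι → L') (j : ℤ) (q : ℕ) (c : Finset ι → L') (W : MvPolynomial ι k) :
    Prop := ∃ C : Finset ι → MvPolynomial ι L, (∀ m, cf m C ∈ Coch (RG k x j) q) ∧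
      ∀ G, aeval u (C G) = aeval u W * c G

lemma cf_map_mul {x : ι → L} {j : ℤ} {q : ℕ} {C : Finset ι → MvPolynomial ι L}
    (hC : ∀ m, cf m C ∈ Coch (RG k x j) q) (W : MvPolynomial ι k) (m : ι →₀ ℕ) :
    cf m (pm (map (algebraMap k L) W) C) ∈ Coch (RG k x j) q := by
  intro G
  refine ⟨coeff_map_mul_mem _ W (fun m => (hC m G).1) m, fun hG => ?_⟩
  have h0 : C G = 0 := by
    ext m
    exact (hC m G).2 hG
  simp only [cf, pm, h0, mul_zero, coeff_zero]

lemma CQ.mul {x : ι → L} {u : ι → L'} {j : ℤ} {q : ℕ} {c : Finset ι → L'}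
    {W : MvPolynomial ι k} (h : CQ x u j q c W) (W' : MvPolynomial ι k) :
    CQ x u j q c (W' * W) := by
  obtain ⟨C, hC1, hC2⟩ := h
  refine ⟨pm (map (algebraMap k L) W') C, cf_map_mul hC1 W', fun G => ?_⟩
  simp only [pm]
  rw [map_mul, aeval_map_k, hC2, map_mul, mul_assoc]

lemma exists_CQ {x : ι → L} {u : ι → L'} {j : ℤ} {q : ℕ} {c : Finset ι → L'}
    (hc : c ∈ Coch (RG (kx k u) (xx L' x) j) q) :
    ∃ W : MvPolynomial ι k, aeval u W ≠ 0 ∧ CQ x u j q c W := by
  classical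
  obtain ⟨W, hW, hQ⟩ := common_den (k := k) u
    (fun (G : Finset ι) W => ∃ P : MvPolynomial ι L, (∀ m, coeff m P ∈ RG k x j G) ∧
      (G.card ≠ q → P = 0) ∧ aeval u P = aeval u W * c G) (by
      rintro G W W' ⟨P, hP1, hP2, hP3⟩
      refine ⟨map (algebraMap k L) W' * P, coeff_map_mul_mem _ W' hP1, fun hG => ?_, ?_⟩
      · rw [hP2 hG, mul_zero]
      · rw [map_mul, aeval_map_k, hP3, map_mul, mul_assoc]) (by
      intro G
      by_cases hG : G.card = q
      · obtain ⟨W, hW, P, hP1, hP2⟩ := clear_Sp u (hc G).1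
        exact ⟨W, hW, P, hP1, fun h => absurd hG h, hP2⟩
      · refine ⟨1, by simp, 0, fun m => ?_, fun _ => rfl, ?_⟩
        · rw [coeff_zero]; exact Submodule.zero_mem _
        · rw [(hc G).2 hG, mul_zero, map_zero])
  choose C hC1 hC2 hC3 using hQ
  refine ⟨W, hW, C, fun m G => ⟨hC1 G m, fun hG => ?_⟩, hC3⟩
  simp only [cf, hC2 G hG, coeff_zero]

section step

variable {x : ι → L} {u : ι → L'}

/-- Divide the coboundary of a polynomial cochain that evaluates to a cocycle. -/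
lemma step1 (hx : ∀ i, x i ≠ 0) [Nonempty ι]
    (hker : ∀ P : MvPolynomial ι L, aeval u P = 0 ↔ ell x ∣ P) {j : ℤ} {q : ℕ}
    {C : Finset ι → MvPolynomial ι L} (hC : ∀ m, cf m C ∈ Coch (RG k x (j + 1)) q)
    (hcd : cd (evu u C) = 0) :
    ∃ e : Finset ι → MvPolynomial ι L, (∀ m, cf m e ∈ Cyc (RG k x j) (q + 1)) ∧
      cd C = pm (ell x) e := by
  have h1 : ∀ m, cf m (cd C) ∈ Coch (RG k x (j + 1)) (q + 1) := fun m => by
    rw [cf_cd]
    exact cd_mem_Coch (RG_FMono x _) (hC m)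
  have h2 : ∀ G, ell x ∣ cd C G := fun G => by
    rw [← hker]
    rw [evu_cd] at hcd
    exact congrFun hcd G
  obtain ⟨e, he1, he2⟩ := div_ell hx (by omega) h1 h2
  refine ⟨e, fun m => ⟨he1 m, ?_⟩, he2⟩
  show cd (cf m e) = 0
  have h3 : cd e = 0 := by
    refine pm_ell_inj hx ?_
    rw [← cd_pm, ← he2, cd_cd]
    funext G
    simp [pm]
  rw [← cf_cd, h3]
  funext G
  simp [cf]

lemma step2 (hx : ∀ i, x i ≠ 0)
    (hker : ∀ P : MvPolynomial ι L, aeval u P = 0 ↔ ell x ∣ P) {j : ℤ} {q : ℕ}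
    {C e : Finset ι → MvPolynomial ι L} (hC : ∀ m, cf m C ∈ Coch (RG k x (j + 1)) q)
    (he : ∀ m, cf m e ∈ Bdy (RG k x j) (q + 1)) (hcd : cd C = pm (ell x) e)
    (hex : Ex (RG k x (j + 1)) q) : evu u C ∈ Bdy (RG (kx k u) (xx L' x) (j + 1)) q := by
  obtain ⟨b, hb1, hb2⟩ := lift_Bdy he
  have h1 : ∀ m, cf m (C - pm (ell x) b) ∈ Cyc (RG k x (j + 1)) q := by
    intro m
    rw [cf_sub]
    refine ⟨Submodule.sub_mem _ (hC m) (cf_ell_mem hx hb1 m), ?_⟩
    show cd (cf m C - cf m (pm (ell x) b)) = 0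
    rw [← cf_sub, ← cf_cd, cd_sub, cd_pm, hb2, hcd, sub_self]
    funext G
    simp [cf]
  have h2 := evu_Bdy u (fun m => hex (h1 m))
  have h3 : evu u (C - pm (ell x) b) = evu u C := by
    rw [evu_sub]
    have : evu u (pm (ell x) b) = 0 := by
      funext G
      simp only [evu, pm, Pi.zero_apply]
      exact (hker _).mpr (dvd_mul_right _ _)
    rw [this, sub_zero]
  rwa [h3] at h2

lemma smul_mem_cancel {u : ι → L'} {N : Submodule (kx k u) (Finset ι → L')}
    {W : MvPolynomial ι k} (hW : aeval u W ≠ 0) {c : Finset ι → L'}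
    (h : (fun G => aeval u W * c G) ∈ N) : c ∈ N := by
  have h1 := N.smul_mem (⟨aeval u W, aeval_mem_kx u W⟩ : kx k u)⁻¹ h
  have h2 : (⟨aeval u W, aeval_mem_kx u W⟩ : kx k u)⁻¹ • (fun G => aeval u W * c G) = c := by
    funext G
    rw [Pi.smul_apply, Algebra.smul_def]
    show (aeval u W)⁻¹ * (aeval u W * c G) = c G
    rw [← mul_assoc, inv_mul_cancel₀ hW, one_mul]
  rwa [h2] at h1

/-- Vanishing is preserved. -/
lemma van_hyper (hx : ∀ i, x i ≠ 0) [Nonempty ι]
    (hker : ∀ P : MvPolynomial ι L, aeval u P = 0 ↔ ell x ∣ P) {j : ℤ} {q : ℕ}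
    (h1 : Ex (RG k x j) (q + 1)) (h2 : Ex (RG k x (j + 1)) q) :
    Ex (RG (kx k u) (xx L' x) (j + 1)) q := by
  intro c hc
  obtain ⟨W, hW, C, hC1, hC2⟩ := exists_CQ hc.1
  have hev : evu u C = fun G => aeval u W * c G := funext hC2
  have hcd : cd (evu u C) = 0 := by
    rw [hev]
    have h3 := cd_map (AddMonoidHom.mulLeft (aeval u W)) c
    have h4 : cd c = 0 := hc.2
    rw [h4] at h3
    refine h3.trans ?_
    funext G
    simp
  obtain ⟨e, he1, he2⟩ := step1 hx hker hC1 hcd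
  have h3 := step2 hx hker hC1 (fun m => h1 (he1 m)) he2 h2
  rw [hev] at h3
  exact smul_mem_cancel hW h3

/-- The socle condition is preserved. -/
lemma soc_hyper (hx : ∀ i, x i ≠ 0) [Nonempty ι]
    (hker : ∀ P : MvPolynomial ι L, aeval u P = 0 ↔ ell x ∣ P) {j : ℤ} {q : ℕ}
    (h1 : ∀ c ∈ Cyc (RG k x j) (q + 2),
      (∀ i, (fun G => x i * c G) ∈ Bdy (RG k x (j + 1)) (q + 2)) → c ∈ Bdy (RG k x j) (q + 2))
    (h2 : Ex (RG k x (j + 1)) (q + 1))
    {c : Finset ι → L'} (hc : c ∈ Cyc (RG (kx k u) (xx L' x) (j + 1)) (q + 1))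
    (hi : ∀ i, (fun G => xx L' x i * c G) ∈ Bdy (RG (kx k u) (xx L' x) (j + 1 + 1)) (q + 1)) :
    c ∈ Bdy (RG (kx k u) (xx L' x) (j + 1)) (q + 1) := by
  have hb : ∀ i, ∃ b ∈ Coch (RG (kx k u) (xx L' x) (j + 1 + 1)) q,
      cd b = fun G => xx L' x i * c G := fun i => hi i
  choose b hb1 hb2 using hb
  obtain ⟨W, hW, hQ⟩ := common_den (k := k) u
    (fun (o : Option ι) W => o.elim (CQ x u (j + 1) (q + 1) c W)
      (fun i => CQ x u (j + 1 + 1) q (b i) W)) (by
      rintro (_ | i) W W' h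
      · exact CQ.mul h W'
      · exact CQ.mul h W') (by
      rintro (_ | i)
      · exact exists_CQ hc.1
      · exact exists_CQ (hb1 i))
  obtain ⟨Z, hZ1, hZ2⟩ := hQ none
  have hB : ∀ i, ∃ B : Finset ι → MvPolynomial ι L, (∀ m, cf m B ∈ Coch (RG k x (j + 1 + 1)) q) ∧
      ∀ G, aeval u (B G) = aeval u W * b i G := fun i => hQ (some i)
  have hev : evu u Z = fun G => aeval u W * c G := funext hZ2
  have hcd : cd (evu u Z) = 0 := by
    rw [hev]
    have h3 := cd_map (AddMonoidHom.mulLeft (aeval u W)) c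
    have h4 : cd c = 0 := hc.2
    rw [h4] at h3
    refine h3.trans ?_
    funext G
    simp
  obtain ⟨e, he1, he2⟩ := step1 hx hker hZ1 hcd
  have he3 : ∀ m, cf m e ∈ Bdy (RG k x j) (q + 2) := by
    intro m
    refine h1 _ (he1 m) fun i => ?_
    obtain ⟨B, hB1, hB2⟩ := hB i
    have h3 : ∀ m, cf m (pm (C (x i)) Z - cd B) ∈ Coch (RG k x (j + 1 + 1)) (q + 1) := by
      intro m
      rw [cf_sub, cf_cd]
      refine Submodule.sub_mem _ ?_ (cd_mem_Coch (RG_FMono x _) (hB1 m))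
      have h4 : cf m (pm (C (x i)) Z) = fun G => AddMonoidHom.mulLeft (x i) (cf m Z G) := by
        funext G
        simp only [cf, pm, coeff_C_mul]
        rfl
      rw [h4]
      exact Coch_map (AddMonoidHom.mulLeft (x i)) (fun G w hw => x_mul_RG hx i hw) (hZ1 m)
    have h4 : ∀ G, ell x ∣ (pm (C (x i)) Z - cd B) G := by
      intro G
      rw [← hker]
      have h5 : aeval u ((pm (C (x i)) Z - cd B) G) =
          xx L' x i * (aeval u (Z G)) - (evu u (cd B)) G := by
        simp only [Pi.sub_apply, pm, map_sub, map_mul, aeval_C, evu]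
      have h6 : evu u B = fun G => AddMonoidHom.mulLeft (aeval u W) (b i G) := funext hB2
      rw [h5, ← evu_cd, h6, cd_map, hb2, hZ2]
      show xx L' x i * (aeval u W * c G) - aeval u W * (xx L' x i * c G) = 0
      ring
    obtain ⟨h, hh1, hh2⟩ := div_ell hx (by omega) h3 h4
    have h5 : cd h = pm (C (x i)) e := by
      refine pm_ell_inj hx ?_
      rw [← cd_pm, ← hh2, cd_sub, cd_cd, sub_zero, cd_pm, he2]
      funext G
      simp only [pm]
      ring
    have h6 : (fun G => x i * cf m e G) = cd (cf m h) := by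
      rw [← cf_cd, h5]
      funext G
      simp only [cf, pm, coeff_C_mul]
    rw [h6]
    exact ⟨cf m h, hh1 m, rfl⟩
  have h3 := step2 hx hker hZ1 he3 he2 h2
  rw [hev] at h3
  exact smul_mem_cancel hW h3

/-- Degree-zero cocycles that become coboundaries are coboundaries. -/
lemma inj_hyper (hx : ∀ i, x i ≠ 0) [Nonempty ι]
    (hker : ∀ P : MvPolynomial ι L, aeval u P = 0 ↔ ell x ∣ P) {j : ℤ} {q : ℕ}
    (h1 : Ex (RG k x j) (q + 1)) {c : Finset ι → L} (hc : c ∈ Cyc (RG k x (j + 1)) (q + 1))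
    (hb : (fun G => algebraMap L L' (c G)) ∈ Bdy (RG (kx k u) (xx L' x) (j + 1)) (q + 1)) :
    c ∈ Bdy (RG k x (j + 1)) (q + 1) := by
  obtain ⟨b, hb1, hb2⟩ := hb
  obtain ⟨W, hW, B, hB1, hB2⟩ := exists_CQ hb1
  have hb2' : cd b = fun G => algebraMap L L' (c G) := hb2
  have hcd : cd c = 0 := hc.2
  set Z : Finset ι → MvPolynomial ι L := fun G => C (c G) with hZ
  have hZ1 : ∀ m, cf m Z ∈ Coch (RG k x (j + 1)) (q + 1) := by
    intro m G
    simp only [cf, hZ, coeff_C]
    refine ⟨?_, fun hG => ?_⟩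
    · split_ifs
      · exact (hc.1 G).1
      · exact Submodule.zero_mem _
    · rw [(hc.1 G).2 hG]
      simp
  have h3 : ∀ m, cf m (pm (map (algebraMap k L) W) Z - cd B) ∈ Coch (RG k x (j + 1)) (q + 1) := by
    intro m
    rw [cf_sub, cf_cd]
    exact Submodule.sub_mem _ (cf_map_mul hZ1 W m) (cd_mem_Coch (RG_FMono x _) (hB1 m))
  have h4 : ∀ G, ell x ∣ (pm (map (algebraMap k L) W) Z - cd B) G := by
    intro G
    rw [← hker]
    have h5 : aeval u ((pm (map (algebraMap k L) W) Z - cd B) G) =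
        aeval u W * algebraMap L L' (c G) - (evu u (cd B)) G := by
      simp only [Pi.sub_apply, pm, map_sub, map_mul, evu, aeval_map_k, hZ, aeval_C]
    have h6 : evu u B = fun G => AddMonoidHom.mulLeft (aeval u W) (b G) := funext hB2
    rw [h5, ← evu_cd, h6, cd_map, hb2']
    show aeval u W * algebraMap L L' (c G) - aeval u W * algebraMap L L' (c G) = 0
    ring
  obtain ⟨h, hh1, hh2⟩ := div_ell hx (by omega) h3 h4
  have hcdZ : cd Z = 0 := by
    have h5 := cd_map (C (σ := ι) (R := L)).toAddMonoidHom c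
    rw [hcd] at h5
    refine h5.trans ?_
    funext G
    simp
  have h5 : cd h = 0 := by
    refine pm_ell_inj hx ?_
    rw [← cd_pm, ← hh2, cd_sub, cd_cd, sub_zero, cd_pm, hcdZ]
    funext G
    simp [pm]
  have h6 : ∀ m, cf m h ∈ Bdy (RG k x j) (q + 1) := by
    intro m
    refine h1 ⟨hh1 m, ?_⟩
    show cd (cf m h) = 0
    rw [← cf_cd, h5]
    funext G
    simp [cf]
  obtain ⟨b', hb'1, hb'2⟩ := lift_Bdy h6
  have h7 : pm (map (algebraMap k L) W) Z = cd (B + pm (ell x) b') := by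
    rw [cd_add, cd_pm, hb'2, ← hh2]
    abel
  obtain ⟨m, hm⟩ : ∃ m, coeff m W ≠ 0 := by
    by_contra hcon
    push Not at hcon
    apply hW
    have : W = 0 := by
      ext m
      rw [hcon m, coeff_zero]
    rw [this, map_zero]
  have h8 : (coeff m W) • c ∈ Bdy (RG k x (j + 1)) (q + 1) := by
    have h9 : (coeff m W) • c = cf m (pm (map (algebraMap k L) W) Z) := by
      funext G
      simp only [cf, pm, hZ, Pi.smul_apply]
      rw [mul_comm, coeff_C_mul, coeff_map, Algebra.smul_def, mul_comm]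
    rw [h9, h7, cf_cd]
    refine ⟨cf m (B + pm (ell x) b'), ?_, rfl⟩
    rw [cf_add]
    exact Submodule.add_mem _ (hB1 m) (cf_ell_mem hx hb'1 m)
  have h9 := Submodule.smul_mem _ (coeff m W)⁻¹ h8
  rwa [smul_smul, inv_mul_cancel₀ hm, one_smul] at h9

end step

end Pool.Agent.MP8049
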