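import Mathlib
import Pool.Agent.Lib.MP_8049df_ag.HyperStep
import Pool.Agent.Lib.MP_8049df_ag.Dim

set_option autoImplicit false

/-! The state of the generic hyperplane section. -/

namespace Pool.Agent.MP8049

open MvPolynomial

variable {k L L' ι : Type} [Field k] [Field L] [Field L'] [Algebra k L] [Algebra L L']
  [Algebra k L'] [IsScalarTower k L L'] [Fintype ι] [LinearOrder ι]

lemma xx_ne {x : ι → L} (hx : ∀ i, x i ≠ 0) (i : ι) : xx L' x i ≠ 0 := by
  intro h
  exact hx i ((map_eq_zero (algebraMap L L')).mp h)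

lemma homog_hyper {x : ι → L} {u : ι → L'} (hx : ∀ i, x i ≠ 0) [Nonempty ι] (H : Homog k x)
    (hker : ∀ P : MvPolynomial ι L, aeval u P = 0 ↔ ell x ∣ P) :
    Homog (kx k u) (xx L' x) := by
  classical
  intro t ht j
  obtain ⟨W, hW, hQ⟩ := common_den (k := k) u
    (fun (a : t.support) W => ∃ p : MvPolynomial ι k, aeval u p = aeval u W * (t a : L')) (by
      rintro a W W' ⟨p, hp⟩
      exact ⟨W' * p, by rw [map_mul, hp, map_mul, mul_assoc]⟩) (by
      intro a
      obtain ⟨r, s, hrs⟩ := (IntermediateField.mem_adjoin_range_iff k u (t a : L')).mp (t a).2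
      by_cases hs : aeval u s = 0
      · exact ⟨1, by simp, 0, by rw [hrs, hs, div_zero, mul_zero, map_zero]⟩
      · refine ⟨s, hs, r, ?_⟩
        rw [hrs]
        field_simp)
  choose p' hp' using hQ
  let p : (ι → ℤ) → MvPolynomial ι k := fun a => if h : a ∈ t.support then p' ⟨a, h⟩ else 0
  have hp : ∀ a ∈ t.support, aeval u (p a) = aeval u W * (t a : L') := by
    intro a ha
    simp only [p, ha, dif_pos]
    exact hp' ⟨a, ha⟩
  let PP : Finset (ι → ℤ) → MvPolynomial ι L := fun T =>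
    ∑ a ∈ T, C (mon x a) * map (algebraMap k L) (p a)
  have hPPc : ∀ T m, coeff m (PP T) = ∑ a ∈ T, coeff m (p a) • mon x a := by
    intro T m
    simp only [PP, coeff_sum, coeff_C_mul, coeff_map]
    refine Finset.sum_congr rfl fun a _ => ?_
    rw [Algebra.smul_def, mul_comm]
  have hPPe : ∀ T ⊆ t.support, aeval u (PP T) = aeval u W * ∑ a ∈ T, t a • mon (xx L' x) a := by
    intro T hT
    simp only [PP, map_sum, map_mul, aeval_C, aeval_map_k, Finset.mul_sum]
    refine Finset.sum_congr rfl fun a ha => ?_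
    rw [hp a (hT ha), algebraMap_mon, Algebra.smul_def]
    show mon (xx L' x) a * (aeval u W * (t a : L')) = aeval u W * ((t a : L') * mon (xx L' x) a)
    ring
  rw [lc_apply] at ht
  have h1 : aeval u (PP t.support) = 0 := by
    rw [hPPe _ (Finset.Subset.refl _), ht, mul_zero]
  obtain ⟨Q, hQ⟩ := (hker _).mp h1
  obtain ⟨i⟩ := (inferInstance : Nonempty ι)
  have hU : ∀ a : ι → ℤ, mon x a ∈ Sp k x (Set.univ : Set (ι → ℤ)) := fun a =>
    mon_mem_Sp (Set.mem_univ a)
  have hxU : ∀ l, x l ∈ Sp k x (Set.univ : Set (ι → ℤ)) := fun l => by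
    have := hU (Pi.single l 1)
    rwa [mon_single, zpow_one] at this
  have hxU' : ∀ l, (x l)⁻¹ ∈ Sp k x (Set.univ : Set (ι → ℤ)) := fun l => by
    have := hU (Pi.single l (-1))
    rwa [mon_single, zpow_neg_one] at this
  have hmulU : ∀ {f g : L}, f ∈ Sp k x (Set.univ : Set (ι → ℤ)) →
      g ∈ Sp k x (Set.univ : Set (ι → ℤ)) → f * g ∈ Sp k x (Set.univ : Set (ι → ℤ)) :=
    fun hf hg => Sp_mul hx (fun _ _ _ _ => Set.mem_univ _) hf hg
  have hQc : ∀ m, coeff m Q ∈ Sp k x (Set.univ : Set (ι → ℤ)) := by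
    refine coeff_div_ell hx (i := i) (A := Sp k x (Set.univ : Set (ι → ℤ)))
      (B := Sp k x (Set.univ : Set (ι → ℤ))) (fun b hb => hmulU (hxU' i) hb)
      (fun l a ha => hmulU (hxU l) ha) Q ?_
    intro m
    rw [← hQ, hPPc]
    exact Submodule.sum_mem _ fun a _ => Submodule.smul_mem _ _ (hU a)
  let Qj : MvPolynomial ι L := ∑ m ∈ Q.support, monomial m (hc H (j - 1) (coeff m Q))
  have hQj : ∀ m, coeff m Qj = hc H (j - 1) (coeff m Q) := by
    intro m
    simp only [Qj, coeff_sum, coeff_monomial]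
    rw [Finset.sum_ite_eq' Q.support m]
    split_ifs with h
    · rfl
    · rw [notMem_support_iff.mp h, map_zero]
  have hfil : t.support.filter (fun a => dg a = j) ⊆ t.support := Finset.filter_subset _ _
  have h2 : PP (t.support.filter (fun a => dg a = j)) = ell x * Qj := by
    ext m
    have h3 : coeff m (PP (t.support.filter (fun a => dg a = j))) =
        hc H j (coeff m (PP t.support)) := by
      rw [hPPc, hPPc, map_sum, Finset.sum_filter]
      refine Finset.sum_congr rfl fun a _ => ?_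
      rw [map_smul, hc_mon]
      split_ifs <;> simp
    rw [h3, hQ, coeff_ell_mul, coeff_ell_mul, map_sum]
    refine Finset.sum_congr rfl fun l _ => ?_
    have h4 : x l ∈ Sp k x (EG ∅ ∩ Dj 1) := x_mem_RG (k := k) (x := x) ∅ l
    split_ifs with h
    · have h5 := hc_mul (j := j - 1) hx H Set.inter_subset_right h4 (hQc (m - Finsupp.single l 1))
      have h6 : (1 : ℤ) + (j - 1) = j := by ring
      rw [h6] at h5
      rw [h5, hQj]
    · rw [mul_zero, map_zero]
  have h3 : aeval u (PP (t.support.filter (fun a => dg a = j))) = 0 := by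
    rw [hker, h2]
    exact dvd_mul_right _ _
  rw [hPPe _ hfil] at h3
  have h4 := (mul_eq_zero.mp h3).resolve_left hW
  rw [lc_apply, Finsupp.support_filter, ← h4]
  refine Finset.sum_congr rfl fun a ha => ?_
  rw [Finset.mem_filter] at ha
  rw [Finsupp.filter_apply_pos (fun a => dg a = j) t ha.2]

lemma exists_den {x : ι → L} (hx : ∀ i, x i ≠ 0)
    (hfr : ∀ f : L, ∃ p ∈ TG k x ∅, ∃ q ∈ TG k x ∅, q ≠ 0 ∧ f = p / q) (P : MvPolynomial ι L) :
    ∃ d ∈ TG k x ∅, d ≠ 0 ∧ ∀ m, coeff m (C d * P) ∈ TG k x ∅ := by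
  classical
  have h1 : ∀ m, ∃ p ∈ TG k x ∅, ∃ q ∈ TG k x ∅, q ≠ 0 ∧ coeff m P = p / q := fun m => hfr _
  choose p hp q hq hq0 he using h1
  have hprod : ∀ T : Finset (ι →₀ ℕ), ∏ m ∈ T, q m ∈ TG k x ∅ := by
    intro T
    induction T using Finset.induction_on with
    | empty => rw [Finset.prod_empty]; exact one_mem_TG ∅
    | insert m T hm ih => rw [Finset.prod_insert hm]; exact TG_mul hx (hq m) ih
  refine ⟨∏ m ∈ P.support, q m, hprod _, Finset.prod_ne_zero_iff.mpr fun m _ => hq0 m,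
    fun m => ?_⟩
  rw [coeff_C_mul]
  by_cases hm : m ∈ P.support
  · rw [← Finset.mul_prod_erase _ _ hm, he m]
    have h3 : q m * (∏ l ∈ P.support.erase m, q l) * (p m / q m) =
        p m * ∏ l ∈ P.support.erase m, q l := by
      have := hq0 m
      field_simp
    rw [h3]
    exact TG_mul hx (hp m) (hprod _)
  · rw [notMem_support_iff.mp hm, mul_zero]
    exact Submodule.zero_mem _

lemma fr_hyper {x : ι → L} {u : ι → L'} (hx : ∀ i, x i ≠ 0)
    (hfr : ∀ f : L, ∃ p ∈ TG k x ∅, ∃ q ∈ TG k x ∅, q ≠ 0 ∧ f = p / q)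
    (hfr' : ∀ f : L', ∃ P Q : MvPolynomial ι L, aeval u Q ≠ 0 ∧ f = aeval u P / aeval u Q) :
    ∀ f : L', ∃ p ∈ TG (kx k u) (xx L' x) ∅, ∃ q ∈ TG (kx k u) (xx L' x) ∅,
      q ≠ 0 ∧ f = p / q := by
  intro f
  obtain ⟨P, Q, hQ0, rfl⟩ := hfr' f
  obtain ⟨d, hd, hd0, hdP⟩ := exists_den hx hfr P
  obtain ⟨d', hd', hd'0, hdQ⟩ := exists_den hx hfr Q
  have h1 : aeval u (C d * P) ∈ TG (kx k u) (xx L' x) ∅ := evu_Sp u hdP
  have h2 : aeval u (C d' * Q) ∈ TG (kx k u) (xx L' x) ∅ := evu_Sp u hdQ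
  have h3 : algebraMap L L' d ∈ TG (kx k u) (xx L' x) ∅ := algebraMap_mem_SpX u hd
  have h4 : algebraMap L L' d' ∈ TG (kx k u) (xx L' x) ∅ := algebraMap_mem_SpX u hd'
  have hd1 : algebraMap L L' d ≠ 0 := fun h => hd0 ((map_eq_zero _).mp h)
  have hd2 : algebraMap L L' d' ≠ 0 := fun h => hd'0 ((map_eq_zero _).mp h)
  refine ⟨_, TG_mul (xx_ne hx) h1 h4, _, TG_mul (xx_ne hx) h2 h3, ?_, ?_⟩
  · rw [map_mul, aeval_C]
    exact mul_ne_zero (mul_ne_zero hd2 hQ0) hd1
  · rw [map_mul, map_mul, aeval_C, aeval_C]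
    field_simp

lemma transc_ratio {x : ι → L} (hx : ∀ i, x i ≠ 0) {T : Finset ι}
    (hT : AlgebraicIndependent k (fun i : T => x i)) {i₀ i₁ : ι} (h₀ : i₀ ∈ T) (h₁ : i₁ ∈ T)
    (hne : i₁ ≠ i₀) : Transcendental k (x i₁ / x i₀) := by
  classical
  rintro ⟨p, hp0, hp⟩
  rw [algInd_iff] at hT
  set d := p.natDegree with hd
  let e : ℕ → (ι → ℤ) := fun n => Pi.single i₁ (n : ℤ) + Pi.single i₀ ((d : ℤ) - n)
  have he1 : ∀ n, e n i₁ = n := by
    intro n
    simp only [e, Pi.add_apply, Pi.single_eq_same, Pi.single_eq_of_ne hne, add_zero]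
  have he0 : ∀ n, e n i₀ = d - n := by
    intro n
    simp only [e, Pi.add_apply, Pi.single_eq_same, Pi.single_eq_of_ne hne.symm, zero_add]
  have heo : ∀ n i, i ≠ i₀ → i ≠ i₁ → e n i = 0 := by
    intro n i h h'
    simp only [e, Pi.add_apply, Pi.single_eq_of_ne h, Pi.single_eq_of_ne h', add_zero]
  have h1 := hT (∑ n ∈ Finset.range (d + 1), Finsupp.single (e n) (p.coeff n)) (by
    intro a ha
    have h2 := Finsupp.support_finsetSum ha
    rw [Finset.mem_biUnion] at h2
    obtain ⟨n, hn, hs⟩ := h2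
    have h3 := Finsupp.support_single_subset hs
    rw [Finset.mem_singleton] at h3
    subst h3
    rw [Finset.mem_range] at hn
    refine ⟨fun i => ?_, fun i hi => ?_⟩
    · by_cases hi0 : i = i₀
      · subst hi0; rw [he0]; omega
      · by_cases hi1 : i = i₁
        · subst hi1; rw [he1]; omega
        · rw [heo n i hi0 hi1]
    · exact heo n i (fun h => hi (h ▸ h₀)) (fun h => hi (h ▸ h₁))) (by
    rw [map_sum]
    have h2 : ∑ n ∈ Finset.range (d + 1), lc k x (Finsupp.single (e n) (p.coeff n)) =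
        x i₀ ^ d * Polynomial.aeval (x i₁ / x i₀) p := by
      rw [Polynomial.aeval_eq_sum_range, Finset.mul_sum]
      refine Finset.sum_congr rfl fun n hn => ?_
      rw [Finset.mem_range] at hn
      rw [lc_single, mon_add hx, mon_single, mon_single, mul_smul_comm, div_pow]
      congr 1
      have h3 : ((d : ℤ) - n) = ((d - n : ℕ) : ℤ) := by omega
      rw [h3, zpow_natCast, zpow_natCast]
      have h4 : x i₀ ^ d = x i₀ ^ (d - n) * x i₀ ^ n := by
        rw [← pow_add]
        congr 1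
        omega
      rw [h4]
      have := hx i₀
      field_simp
    rw [h2, hp, mul_zero])
  have h2 := congrArg (fun f : (ι → ℤ) →₀ k => f (e d)) h1
  simp only [Finsupp.finsetSum_apply, Finsupp.coe_zero, Pi.zero_apply] at h2
  rw [Finset.sum_eq_single d] at h2
  · rw [Finsupp.single_eq_same] at h2
    exact hp0 (Polynomial.leadingCoeff_eq_zero.mp h2)
  · intro n _ hn
    rw [Finsupp.single_eq_of_ne]
    intro he
    have h3 := congrFun he i₁
    rw [he1, he1] at h3
    exact hn (by exact_mod_cast h3.symm)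
  · intro h
    exact absurd (Finset.mem_range.mpr (Nat.lt_succ_self d)) h

/-- The state of the generic hyperplane section, with injectivity on cohomology. -/
theorem IsState.hyper {K₀ k L ι : Type} [Field K₀] [Field k] [Field L] [Algebra K₀ k]
    [Algebra K₀ L] [Algebra k L] [IsScalarTower K₀ k L] [Fintype ι] [LinearOrder ι] [Nonempty ι]
    {x : ι → L} {q : ℕ} {σ : ℤ} (hσ : 0 ≤ σ) (h : IsState K₀ k x (q + 2) σ) :
    ∃ (L' : Type) (_ : Field L') (_ : Algebra L L') (_ : Algebra k L') (_ : Algebra K₀ L')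
      (_ : IsScalarTower k L L') (_ : IsScalarTower K₀ k L') (u : ι → L'),
      IsState K₀ (kx k u) (xx L' x) (q + 1) σ ∧
      ∀ p : ℕ, p + 1 < q + 2 → ∀ c ∈ Cyc (RG k x 0) (p + 1),
        (fun G => algebraMap L L' (c G)) ∈ Bdy (RG (kx k u) (xx L' x) 0) (p + 1) →
        c ∈ Bdy (RG k x 0) (p + 1) := by
  classical
  obtain ⟨T, hT⟩ := exists_tb h.fr
  have hcard : T.card = q + 2 := by
    have h1 := hT.cardinalMk_eq_trdeg
    rw [Cardinal.mk_coe_finset, h.tr] at h1
    exact_mod_cast h1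
  obtain ⟨i₀, h₀, i₁, h₁, hne⟩ := Finset.one_lt_card.mp (show 1 < T.card by omega)
  have htr : Transcendental k (x i₁ / x i₀) := transc_ratio h.hx hT.1 h₀ h₁ hne.symm
  obtain ⟨L', _, _, _, _, u, hker, hfr', _, htr'⟩ := exists_hyper_field x h.hx i₀ i₁ htr
  have hker' : ∀ P : MvPolynomial ι L, aeval u P = 0 ↔ ell x ∣ P := hker
  letI : Algebra K₀ L' := ((algebraMap L L').comp (algebraMap K₀ L)).toAlgebra
  haveI : IsScalarTower K₀ L L' := IsScalarTower.of_algebraMap_eq' rfl
  haveI : IsScalarTower K₀ k L' := by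
    refine IsScalarTower.of_algebraMap_eq fun c => ?_
    rw [IsScalarTower.algebraMap_apply K₀ L L', IsScalarTower.algebraMap_apply K₀ k L,
      ← IsScalarTower.algebraMap_apply k L L']
  refine ⟨L', inferInstance, inferInstance, inferInstance, inferInstance, inferInstance,
    inferInstance, u, ?_, ?_⟩
  · refine ⟨xx_ne h.hx, ?_, homog_hyper h.hx h.hom hker', ?_, fr_hyper h.hx h.fr hfr', ?_, ?_, ?_⟩
    · have := h.inf
      exact Infinite.of_injective _ (algebraMap k (kx k u)).injective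
    · have h1 := htr' (q + 2) h.tr
      have h2 : Algebra.trdeg (kx k u) L' + 1 = ((q + 1 : ℕ) : Cardinal) + 1 := by
        rw [h1]
        push_cast
        rw [add_assoc, one_add_one_eq_two]
      exact Cardinal.add_one_inj.mp h2
    · intro p hp j hj
      have h1 := van_hyper (L' := L') (u := u) h.hx hker' (j := j - 1) (q := p)
        (h.van (p + 1) (by omega) _ (by omega))
        (h.van p (by omega) _ (by omega))
      rwa [sub_add_cancel] at h1
    · intro j hj c hc hi
      have h1 := soc_hyper (L' := L') (u := u) h.hx hker' (j := j - 1) (q := q)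
        (fun c hc hi => h.soc (j - 1) (by omega) c hc hi)
        (h.van (q + 1) (by omega) _ (by omega))
        (c := c)
      rw [sub_add_cancel] at h1
      exact h1 hc hi
    · intro i
      exact smAt_hyper x h.hx u hker i (h.sm i)
  · intro p hp c hc hb
    have h1 := inj_hyper (L' := L') (u := u) h.hx hker' (j := -1) (q := p)
      (h.van (p + 1) (by omega) _ (by norm_num)) (c := c)
    rw [neg_add_cancel] at h1
    exact h1 hc hb

end Pool.Agent.MP8049
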