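import Mathlib
import Pool.Agent.Lib.MP_8049df_ag.Mon

set_option autoImplicit false

/-! Exactness of a simplicial cochain complex expressed by ranks of boundary matrices. -/

namespace Pool.Agent.MP8049

section ranks

variable {K : Type} [Field K] {n : ℕ} (Lk : Finset (Finset (Fin n)))

/-- The faces of cardinality `j`. -/
abbrev FaceOf (j : ℕ) : Type := {G // G ∈ Lk.filter (fun G : Finset (Fin n) => G.card = j)}

/-- The boundary matrix. -/
def bMat (K : Type) [Field K] (j : ℕ) : Matrix (FaceOf Lk j) (FaceOf Lk (j + 1)) K :=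
  Matrix.of (fun (G : {G // G ∈ Lk.filter (fun G => G.card = j)})
               (F : {F // F ∈ Lk.filter (fun F => F.card = j + 1)}) =>
            if G.1 ⊆ F.1 then
              (-1 : K) ^ ((G.1.filter (fun u => ∀ w ∈ F.1 \ G.1, u < w)).card)
            else 0)

/-- Extension of a cochain by zero. -/
noncomputable def ext0 {j : ℕ} (z : FaceOf Lk j → K) : Finset (Fin n) → K := fun G =>
  if h : G ∈ Lk.filter (fun G => G.card = j) then z ⟨G, h⟩ else 0

/-- The coboundary as a linear map. -/
noncomputable def dl (K : Type) [Field K] (j : ℕ) : (FaceOf Lk j → K) →ₗ[K] (FaceOf Lk (j + 1) → K) :=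
  (bMat Lk K j).transpose.mulVecLin

lemma dl_apply (hdown : ∀ F ∈ Lk, ∀ G : Finset (Fin n), G ⊆ F → G ∈ Lk) {j : ℕ}
    (z : FaceOf Lk j → K) (F : FaceOf Lk (j + 1)) :
    dl Lk K j z F = cd (ext0 Lk z) F.1 := by
  classical
  have hF := Finset.mem_filter.mp F.2
  have hmem : ∀ g ∈ F.1, F.1.erase g ∈ Lk.filter (fun G => G.card = j) := by
    intro g hg
    rw [Finset.mem_filter]
    refine ⟨hdown F.1 hF.1 _ (Finset.erase_subset _ _), ?_⟩
    rw [Finset.card_erase_of_mem hg, hF.2]
    omega
  rw [cd_apply]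
  have h1 : dl Lk K j z F = ∑ G : FaceOf Lk j, bMat Lk K j G F * z G := by
    rfl
  rw [h1]
  symm
  refine Finset.sum_bij_ne_zero (fun g hg _ => ⟨F.1.erase g, hmem g hg⟩) ?_ ?_ ?_ ?_
  · intro g hg _; exact Finset.mem_univ _
  · intro g hg _ g' hg' _ heq
    have h2 : F.1.erase g = F.1.erase g' := congrArg Subtype.val heq
    by_contra hne
    have : g ∈ F.1.erase g' := Finset.mem_erase.mpr ⟨hne, hg⟩
    rw [← h2] at this
    simp at this
  · intro G _ hne
    have hsub : G.1 ⊆ F.1 := by
      by_contra hns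
      apply hne
      simp [bMat, hns]
    have hG := Finset.mem_filter.mp G.2
    have hcard : (F.1 \ G.1).card = 1 := by
      rw [Finset.card_sdiff_of_subset hsub, hF.2, hG.2]; omega
    obtain ⟨g, hg⟩ := Finset.card_eq_one.mp hcard
    have hgF : g ∈ F.1 := by
      have : g ∈ F.1 \ G.1 := by rw [hg]; simp
      exact (Finset.mem_sdiff.mp this).1
    have hGe : F.1.erase g = G.1 := by
      rw [← Finset.sdiff_singleton_eq_erase, ← hg, Finset.sdiff_sdiff_eq_self hsub]
    refine ⟨g, hgF, ?_, Subtype.ext hGe⟩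
    intro h0
    apply hne
    have h3 : ext0 Lk z (F.1.erase g) = z G := by
      unfold ext0
      rw [dif_pos (hmem g hgF)]
      congr 1
      exact Subtype.ext hGe
    rw [h3] at h0
    have h4 : z G = 0 := by
      have h5 : (sg F.1 g * sg F.1 g) • z G = 0 := by rw [mul_smul, h0, smul_zero]
      rw [sg_mul_self, one_smul] at h5
      exact h5
    rw [h4, mul_zero]
  · intro g hg _
    have h3 : ext0 Lk z (F.1.erase g) = z ⟨F.1.erase g, hmem g hg⟩ := by
      unfold ext0
      rw [dif_pos (hmem g hg)]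
    rw [h3]
    have h4 : F.1 \ F.1.erase g = {g} := by
      ext u
      simp only [Finset.mem_sdiff, Finset.mem_erase, Finset.mem_singleton]
      constructor
      · rintro ⟨h5, h6⟩
        by_contra hne
        exact h6 ⟨hne, h5⟩
      · rintro rfl
        exact ⟨hg, fun h => h.1 rfl⟩
    have h5 : (F.1.erase g).filter (fun u => ∀ w ∈ F.1 \ F.1.erase g, u < w) =
        F.1.filter (fun u => u < g) := by
      rw [h4]
      ext u
      simp only [Finset.mem_filter, Finset.mem_erase, Finset.mem_singleton, forall_eq]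
      constructor
      · rintro ⟨⟨_, h6⟩, h7⟩; exact ⟨h6, h7⟩
      · rintro ⟨h6, h7⟩; exact ⟨⟨ne_of_lt h7, h6⟩, h7⟩
    have h6 : bMat Lk K j ⟨F.1.erase g, hmem g hg⟩ F = ((sg F.1 g : ℤ) : K) := by
      simp only [bMat, Matrix.of_apply]
      rw [if_pos (Finset.erase_subset _ _), h5]
      simp [sg]
    rw [h6, zsmul_eq_mul]

lemma finrank_range_dl (j : ℕ) : Module.finrank K (LinearMap.range (dl Lk K j)) =
    (bMat Lk K j).rank := by
  rw [← Matrix.rank_transpose (bMat Lk K j)]
  rfl

end ranks

theorem card_eq_rank_add_rank {K : Type} [Field K] {n : ℕ} (Lk : Finset (Finset (Fin n)))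
    (hdown : ∀ F ∈ Lk, ∀ G : Finset (Fin n), G ⊆ F → G ∈ Lk)
    (r : ℕ → ℕ)
    (hr : ∀ j : ℕ, r j = (Matrix.of
          (fun (G : {G // G ∈ Lk.filter (fun G => G.card = j)})
               (F : {F // F ∈ Lk.filter (fun F => F.card = j + 1)}) =>
            if G.1 ⊆ F.1 then
              (-1 : K) ^ ((G.1.filter (fun u => ∀ w ∈ F.1 \ G.1, u < w)).card)
            else 0) :
          Matrix {G // G ∈ Lk.filter (fun G => G.card = j)}
                 {F // F ∈ Lk.filter (fun F => F.card = j + 1)} K).rank)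
    (k : ℕ)
    (hex : ∀ z : Finset (Fin n) → K, (∀ G, z G ≠ 0 → G ∈ Lk ∧ G.card = k) →
      (∀ G ∈ Lk, G.card = k + 1 → cd z G = 0) →
      ∃ s : Finset (Fin n) → K, (∀ G, s G ≠ 0 → G ∈ Lk ∧ G.card + 1 = k) ∧
        ∀ G ∈ Lk, G.card = k → cd s G = z G) :
    (Lk.filter (fun G => G.card = k)).card = r k + (if k = 0 then 0 else r (k - 1)) := by
  classical
  have hr' : ∀ j, r j = Module.finrank K (LinearMap.range (dl Lk K j)) := by
    intro j
    rw [finrank_range_dl, hr j]
    rfl
  have hsupp : ∀ {j : ℕ} (z : FaceOf Lk j → K) (G : Finset (Fin n)), ext0 Lk z G ≠ 0 →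
      G ∈ Lk ∧ G.card = j := by
    intro j z G h
    unfold ext0 at h
    by_cases hG : G ∈ Lk.filter (fun G => G.card = j)
    · exact Finset.mem_filter.mp hG
    · rw [dif_neg hG] at h
      exact (h rfl).elim
  have hext : ∀ {j : ℕ} (z : FaceOf Lk j → K) (G : FaceOf Lk j), ext0 Lk z G.1 = z G := by
    intro j z G
    unfold ext0
    rw [dif_pos G.2]
  have htot : (Lk.filter (fun G => G.card = k)).card =
      r k + Module.finrank K (LinearMap.ker (dl Lk K k)) := by
    rw [hr' k, LinearMap.finrank_range_add_finrank_ker]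
    simp
  rw [htot]
  congr 1
  -- every cocycle is a coboundary
  have hker : ∀ z ∈ LinearMap.ker (dl Lk K k), ∃ s : Finset (Fin n) → K,
      (∀ G, s G ≠ 0 → G ∈ Lk ∧ G.card + 1 = k) ∧
        ∀ G : FaceOf Lk k, cd s G.1 = z G := by
    intro z hz
    obtain ⟨s, hs, hs2⟩ := hex (ext0 Lk z) (hsupp z) (by
      intro G hG hGc
      have h1 := congrFun (LinearMap.mem_ker.mp hz) ⟨G, Finset.mem_filter.mpr ⟨hG, hGc⟩⟩
      rw [dl_apply Lk hdown] at h1
      exact h1)
    refine ⟨s, hs, fun G => ?_⟩
    have hG := Finset.mem_filter.mp G.2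
    rw [hs2 G.1 hG.1 hG.2, hext]
  by_cases hk : k = 0
  · rw [if_pos hk]
    have hbot : LinearMap.ker (dl Lk K k) = ⊥ := by
      rw [Submodule.eq_bot_iff]
      intro z hz
      obtain ⟨s, hs, hs2⟩ := hker z hz
      have hs0 : s = 0 := by
        funext G
        by_contra hne
        have := (hs G hne).2
        omega
      funext G
      rw [← hs2 G, hs0, cd_zero]
      rfl
    rw [hbot, finrank_bot]
  · rw [if_neg hk]
    obtain ⟨k', rfl⟩ : ∃ k', k = k' + 1 := ⟨k - 1, by omega⟩
    simp only [Nat.add_sub_cancel]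
    rw [hr' k']
    have heq : LinearMap.ker (dl Lk K (k' + 1)) = LinearMap.range (dl Lk K k') := by
      apply le_antisymm
      · intro z hz
        obtain ⟨s, hs, hs2⟩ := hker z hz
        refine ⟨fun G => s G.1, ?_⟩
        funext G
        rw [dl_apply Lk hdown, ← hs2 G]
        have : ext0 Lk (fun G : FaceOf Lk k' => s G.1) = s := by
          funext F
          unfold ext0
          by_cases hF : F ∈ Lk.filter (fun G => G.card = k')
          · rw [dif_pos hF]
          · rw [dif_neg hF]
            by_contra hne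
            apply hF
            obtain ⟨h1, h2⟩ := hs F (Ne.symm hne)
            exact Finset.mem_filter.mpr ⟨h1, by omega⟩
        rw [this]
      · rintro z ⟨s, rfl⟩
        rw [LinearMap.mem_ker]
        funext F
        rw [dl_apply Lk hdown, Pi.zero_apply]
        have hF := Finset.mem_filter.mp F.2
        have h1 : cd (ext0 Lk (dl Lk K k' s)) F.1 = cd (cd (ext0 Lk s)) F.1 := by
          rw [cd_apply, cd_apply]
          refine Finset.sum_congr rfl fun g hg => ?_
          congr 1
          have hm : F.1.erase g ∈ Lk.filter (fun G => G.card = k' + 1) := by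
            rw [Finset.mem_filter]
            refine ⟨hdown F.1 hF.1 _ (Finset.erase_subset _ _), ?_⟩
            rw [Finset.card_erase_of_mem hg, hF.2]
            omega
          have h2 := hext (dl Lk K k' s) ⟨F.1.erase g, hm⟩
          rw [dl_apply Lk hdown] at h2
          exact h2
        rw [h1, cd_cd]
        rfl
    rw [heq]

end Pool.Agent.MP8049
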