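import Mathlib

set_option autoImplicit false

/-! Generic linear forms dominate: over a valuation ring containing an infinite field. -/

namespace Pool.Agent.MP8049

open MvPolynomial

theorem exists_integral_ratio {k E L ι : Type} [Field k] [Infinite k] [Field E] [Field L]
    [Algebra k E] [Algebra E L] [FiniteDimensional E L] [Fintype ι]
    (O : ValuationSubring E) (hk : ∀ c : k, algebraMap k E c ∈ O)
    (x : ι → L) (hx : ∃ i, x i ≠ 0) :
    ∃ c : ι → k, (∑ i, algebraMap E L (algebraMap k E (c i)) * x i) ≠ 0 ∧
      ∀ i, IsIntegral O (x i / ∑ i, algebraMap E L (algebraMap k E (c i)) * x i) := by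
  classical
  set n := Module.finrank E L with hn
  let b : Module.Basis (Fin n) E L := Module.finBasis E L
  let M : ι → Matrix (Fin n) (Fin n) E := fun i => Algebra.leftMulMatrix b (x i)
  let A : Matrix (Fin n) (Fin n) (MvPolynomial ι E) :=
    ∑ i, (X i : MvPolynomial ι E) • (M i).map C
  let N : MvPolynomial ι E := A.det
  have hN : ∀ {R : Type} [CommRing R] [Algebra E R] (f : ι → R),
      aeval f N = (∑ i, f i • (M i).map (algebraMap E R)).det := by
    intro R _ _ f
    have h1 : aeval f N = (A.map (aeval f : MvPolynomial ι E →ₐ[E] R)).det :=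
      RingHom.map_det (aeval f : MvPolynomial ι E →ₐ[E] R).toRingHom A
    rw [h1]
    congr 1
    ext p q
    simp only [A, Matrix.map_apply, Matrix.sum_apply, Matrix.smul_apply, smul_eq_mul, map_sum,
      map_mul, aeval_X, aeval_C]
  have hNne : N ≠ 0 := by
    obtain ⟨i, hi⟩ := hx
    intro h0
    have h1 := hN (R := E) (Pi.single i 1)
    rw [h0, map_zero] at h1
    have h2 : (∑ j, (Pi.single i (1 : E) : ι → E) j • (M j).map (algebraMap E E)) = M i := by
      rw [Finset.sum_eq_single i]
      · ext p q
        simp
      · intro j _ hj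
        rw [Pi.single_eq_of_ne hj, zero_smul]
      · intro h; exact absurd (Finset.mem_univ i) h
    rw [h2] at h1
    have h3 : Algebra.norm E (x i) = (M i).det := Algebra.norm_eq_matrix_det b (x i)
    rw [← h1] at h3
    exact hi (Algebra.norm_eq_zero_iff.1 h3)
  obtain ⟨m₀, hm₀, hmax⟩ := Finset.exists_max_image N.support
    (fun m => O.valuation (N.coeff m)) (MvPolynomial.support_nonempty.2 hNne)
  set e := N.coeff m₀ with he
  have he0 : e ≠ 0 := MvPolynomial.mem_support_iff.1 hm₀
  have hmem : C e⁻¹ * N ∈ Set.range (MvPolynomial.map (algebraMap O E)) := by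
    rw [mem_range_map_iff_coeffs_subset]
    intro y hy
    rw [Finset.mem_coe, mem_coeffs_iff] at hy
    obtain ⟨m, hm, rfl⟩ := hy
    rw [coeff_C_mul]
    have h1 : coeff m N ≠ 0 := by
      intro h0
      rw [mem_support_iff, coeff_C_mul, h0, mul_zero] at hm
      exact hm rfl
    have h2 := hmax m (mem_support_iff.2 h1)
    have h3 : e⁻¹ * coeff m N ∈ O := by
      rw [← O.valuation_le_one_iff, map_mul, map_inv₀]
      have h4 : O.valuation e ≠ 0 := (map_ne_zero _).2 he0
      rw [inv_mul_le_iff₀ (zero_lt_iff.2 h4), mul_one]
      exact h2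
    exact ⟨⟨_, h3⟩, rfl⟩
  obtain ⟨N', hN'⟩ := hmem
  let φ : k →+* O := (algebraMap k E).codRestrict O hk
  let ψ : k →+* IsLocalRing.ResidueField O := (IsLocalRing.residue O).comp φ
  have hN'm : coeff m₀ N' = 1 := by
    have h1 : coeff m₀ (MvPolynomial.map (algebraMap O E) N') = coeff m₀ (C e⁻¹ * N) := by rw [hN']
    rw [coeff_map, coeff_C_mul, ← he, inv_mul_cancel₀ he0] at h1
    apply IsFractionRing.injective O E
    rw [h1, map_one]
  have hN'' : MvPolynomial.map (IsLocalRing.residue O) N' ≠ 0 := by
    intro h0
    have h1 : coeff m₀ (MvPolynomial.map (IsLocalRing.residue O) N') = 0 := by rw [h0, coeff_zero]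
    rw [coeff_map, hN'm, map_one] at h1
    exact one_ne_zero h1
  obtain ⟨c, hc⟩ : ∃ c : ι → k, eval (fun i => ψ (c i)) (MvPolynomial.map (IsLocalRing.residue O) N') ≠ 0 := by
    by_contra hcon
    push Not at hcon
    apply hN''
    refine funext_set (fun _ => Set.range ψ)
      (fun _ => Set.infinite_range_of_injective ψ.injective) ?_
    intro y hy
    have hy' : ∀ i, ∃ c : k, ψ c = y i := fun i => hy i (Set.mem_univ _)
    choose c hc using hy'
    have : y = fun i => ψ (c i) := funext fun i => (hc i).symm
    rw [this, hcon c, map_zero]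
  set u : O := eval (fun i => φ (c i)) N' with hu
  have hunit : IsUnit u := by
    by_contra hcon
    apply hc
    have h1 : eval (fun i => ψ (c i)) (MvPolynomial.map (IsLocalRing.residue O) N')
        = IsLocalRing.residue O u := by
      have h2 : ∀ Q : MvPolynomial ι O, eval (fun i => ψ (c i)) (MvPolynomial.map (IsLocalRing.residue O) Q)
          = IsLocalRing.residue O (eval (fun i => φ (c i)) Q) := by
        intro Q
        rw [eval_map]
        induction Q using MvPolynomial.induction_on with
        | C a => simp
        | add p q hp hq => rw [eval₂_add, hp, hq, map_add, map_add]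
        | mul_X p i hp =>
          rw [eval₂_mul, hp, eval₂_X, map_mul, eval_X, map_mul]
          rfl
      exact h2 N'
    rw [h1, IsLocalRing.residue_eq_zero_iff]
    exact hcon
  -- evaluating the integral form agrees with evaluating the norm form
  have hcmp : ∀ {S R : Type} [CommRing S] [CommRing R] [Algebra O S] [Algebra E R] (g : S →+* R)
      (_ : ∀ a : O, g (algebraMap O S a) = algebraMap E R (algebraMap O E a)) (f : ι → S),
      g (aeval f N') = algebraMap E R e⁻¹ * aeval (fun i => g (f i)) N := by
    intro S R _ _ _ _ g hg f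
    have h1 : algebraMap E R e⁻¹ * aeval (fun i => g (f i)) N
        = aeval (fun i => g (f i)) (MvPolynomial.map (algebraMap O E) N') := by
      rw [hN', map_mul, aeval_C]
    rw [h1]
    have h2 : ∀ Q : MvPolynomial ι O, g (aeval f Q)
        = aeval (fun i => g (f i)) (MvPolynomial.map (algebraMap O E) Q) := by
      intro Q
      induction Q using MvPolynomial.induction_on with
      | C a => rw [aeval_C, map_C, aeval_C, hg]
      | add p q hp hq => rw [map_add, map_add, map_add, map_add, hp, hq]
      | mul_X p i hp => rw [map_mul, map_mul, map_mul, map_mul, aeval_X, map_X, aeval_X, hp]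
    exact h2 N'
  set s : L := ∑ i, algebraMap E L (algebraMap k E (c i)) * x i with hs
  have hMs : Algebra.leftMulMatrix b s = ∑ i, algebraMap k E (c i) • M i := by
    rw [hs, map_sum]
    refine Finset.sum_congr rfl fun i _ => ?_
    rw [← Algebra.smul_def, map_smul]
  have hdet : (Algebra.leftMulMatrix b s).det = e * (u : E) := by
    have h1 := hcmp (S := O) (R := E) (algebraMap O E) (fun a => rfl) (fun i => φ (c i))
    have h2 : aeval (fun i => φ (c i)) N' = u := by
      rw [hu, ← MvPolynomial.coe_aeval_eq_eval]
      rfl
    rw [h2, hN] at h1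
    have h3 : (∑ i, (algebraMap O E) (φ (c i)) • (M i).map (algebraMap E E))
        = Algebra.leftMulMatrix b s := by
      rw [hMs]
      refine Finset.sum_congr rfl fun i _ => ?_
      ext p q
      simp only [Matrix.smul_apply, Matrix.map_apply]
      rfl
    rw [h3] at h1
    have h4 : (u : E) = e⁻¹ * (Algebra.leftMulMatrix b s).det := h1
    rw [h4, mul_inv_cancel_left₀ he0]
  have hu0 : (u : E) ≠ 0 := by
    intro h0
    have h1 : u = 0 := Subtype.ext h0
    rw [h1] at hunit
    exact not_isUnit_zero hunit
  have hs0 : s ≠ 0 := by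
    intro h0
    have h1 : Algebra.norm E s = (Algebra.leftMulMatrix b s).det := Algebra.norm_eq_matrix_det b s
    rw [hdet] at h1
    have h2 : Algebra.norm E s = 0 := Algebra.norm_eq_zero_iff.2 h0
    rw [h2] at h1
    exact mul_ne_zero he0 hu0 h1.symm
  refine ⟨c, hs0, ?_⟩
  intro i
  obtain ⟨w, hw⟩ := hunit
  let f : ι → Polynomial O := fun j =>
    Polynomial.C (φ (c j)) * Polynomial.X - Polynomial.C (if j = i then 1 else 0)
  let q : Polynomial O := Polynomial.C ((w⁻¹ : Oˣ) : O) * aeval f N'
  have hy : Algebra.leftMulMatrix b s * Algebra.leftMulMatrix b (x i / s) = M i := by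
    rw [← map_mul, mul_div_cancel₀ _ hs0]
  have hqmap : q.map (algebraMap O E) = (Algebra.leftMulMatrix b (x i / s)).charpoly := by
    have h1 := hcmp (S := Polynomial O) (R := Polynomial E) (Polynomial.mapRingHom (algebraMap O E))
      (fun a => by
        simp only [Polynomial.algebraMap_apply, Algebra.algebraMap_self, RingHom.id_apply,
          Polynomial.coe_mapRingHom, Polynomial.map_C]) f
    rw [hN] at h1
    have h2 : (∑ j, (Polynomial.mapRingHom (algebraMap O E)) (f j) •
        (M j).map (algebraMap E (Polynomial E)))
        = (Algebra.leftMulMatrix b s).map (Polynomial.C) *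
          (Algebra.leftMulMatrix b (x i / s)).charmatrix := by
      have e1 : (Algebra.leftMulMatrix b s).map (Polynomial.C : E →+* Polynomial E) *
          (Algebra.leftMulMatrix b (x i / s)).charmatrix
          = (Polynomial.X : Polynomial E) • (Algebra.leftMulMatrix b s).map (Polynomial.C) -
            (M i).map Polynomial.C := by
        rw [Matrix.charmatrix, mul_sub, ← hy]
        congr 1
        · ext p q : 1
          rw [Matrix.scalar_apply, Matrix.mul_diagonal, Matrix.smul_apply, smul_eq_mul, mul_comm]
        · rw [RingHom.mapMatrix_apply, Matrix.map_mul]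
      rw [e1, hMs]
      ext p q : 1
      simp only [Matrix.sum_apply, Matrix.smul_apply, Matrix.map_apply, Matrix.sub_apply,
        smul_eq_mul, map_sum, map_mul, Finset.mul_sum, f]
      have e2 : Polynomial.C (M i p q) = ∑ j, Polynomial.C (if j = i then (1 : E) else 0) *
          Polynomial.C (M j p q) := by
        rw [Finset.sum_eq_single i]
        · rw [if_pos rfl, Polynomial.C_1, one_mul]
        · intro j _ hj
          rw [if_neg hj, Polynomial.C_0, zero_mul]
        · intro h; exact absurd (Finset.mem_univ i) h
      rw [e2, ← Finset.sum_sub_distrib]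
      refine Finset.sum_congr rfl fun j _ => ?_
      have e3 : (Polynomial.mapRingHom (algebraMap O E)) (Polynomial.C (φ (c j)) * Polynomial.X -
          Polynomial.C (if j = i then (1 : O) else 0)) = Polynomial.C (algebraMap k E (c j)) * Polynomial.X -
          Polynomial.C (if j = i then (1 : E) else 0) := by
        rw [map_sub, map_mul, Polynomial.coe_mapRingHom, Polynomial.map_C, Polynomial.map_X,
          Polynomial.map_C]
        have e4 : (algebraMap O E) (if j = i then (1 : O) else 0) = if j = i then (1 : E) else 0 := by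
          split_ifs
          · exact map_one _
          · exact map_zero _
        rw [e4]
        rfl
      rw [e3, ← Polynomial.C_eq_algebraMap]
      ring
    rw [h2, Matrix.det_mul] at h1
    have h3 : ((Algebra.leftMulMatrix b s).map (Polynomial.C : E →+* Polynomial E)).det
        = Polynomial.C (e * (u : E)) := by
      rw [← hdet]
      exact (RingHom.map_det (Polynomial.C : E →+* Polynomial E) _).symm
    have h4 : q.map (algebraMap O E) = Polynomial.C (algebraMap O E ((w⁻¹ : Oˣ) : O)) *
        Polynomial.mapRingHom (algebraMap O E) (aeval f N') := by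
      simp only [q, Polynomial.map_mul, Polynomial.map_C, Polynomial.coe_mapRingHom]
    rw [h4, h1]
    have h5 : algebraMap O E ((w⁻¹ : Oˣ) : O) * (u : E) = 1 := by
      have h6 : ((w⁻¹ : Oˣ) : O) * u = 1 := by rw [← hw]; exact Units.inv_mul w
      have h7 := congrArg (algebraMap O E) h6
      rw [map_mul, map_one] at h7
      exact h7
    change Polynomial.C (algebraMap O E ((w⁻¹ : Oˣ) : O)) * (algebraMap E (Polynomial E) e⁻¹ *
      (((Algebra.leftMulMatrix b s).map (Polynomial.C : E →+* Polynomial E)).det *
        (Algebra.leftMulMatrix b (x i / s)).charpoly)) = _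
    rw [h3]
    have h8 : algebraMap E (Polynomial E) e⁻¹ = Polynomial.C e⁻¹ := rfl
    rw [h8, ← mul_assoc, ← mul_assoc, ← Polynomial.C_mul, ← Polynomial.C_mul]
    have h9 : algebraMap O E ((w⁻¹ : Oˣ) : O) * e⁻¹ * (e * (u : E)) = 1 := by
      rw [← h5]
      field_simp
    rw [h9, Polynomial.C_1, one_mul]
  refine ⟨q, ?_, ?_⟩
  · apply Polynomial.monic_of_injective (IsFractionRing.injective O E)
    rw [hqmap]
    exact Matrix.charpoly_monic _
  · have h1 : Polynomial.aeval (x i / s) (Algebra.leftMulMatrix b (x i / s)).charpoly = 0 := by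
      apply Algebra.leftMulMatrix_injective b
      rw [map_zero, ← Polynomial.aeval_algHom_apply]
      exact Matrix.aeval_self_charpoly _
    rw [← hqmap] at h1
    rw [Polynomial.aeval_def, Polynomial.eval₂_map] at h1
    exact h1

end Pool.Agent.MP8049
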