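import Mathlib
import Pool.Agent.Lib.MP_8049df_ag.HSAct


/-! ## Part TopFL -/

set_option autoImplicit false

/-! The weight filtration on the whole field relative to a set of variables. -/

namespace Pool.Agent.MP8049

variable {ι : Type*} [Fintype ι] [LinearOrder ι]
variable {L : Type*} [Field L] {k : Type*} [Field k] [Algebra k L]

/-- exponents supported on `F` -/
def SF (F : Finset ι) : Set (ι → ℤ) := {a | ∀ i, i ∉ F → a i = 0}

omit [Fintype ι] in
lemma SF_zero (F : Finset ι) : (0 : ι → ℤ) ∈ SF F := fun _ _ => rfl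

omit [Fintype ι] in
lemma SF_add {F : Finset ι} {a b : ι → ℤ} (ha : a ∈ SF F) (hb : b ∈ SF F) : a + b ∈ SF F := by
  intro i hi
  rw [Pi.add_apply, ha i hi, hb i hi, add_zero]

omit [Fintype ι] in
lemma SF_sub {F : Finset ι} {a b : ι → ℤ} (ha : a ∈ SF F) (hb : b ∈ SF F) : a - b ∈ SF F := by
  intro i hi
  rw [Pi.sub_apply, ha i hi, hb i hi, sub_zero]

omit [Fintype ι] in
lemma SF_EG {F : Finset ι} {a : ι → ℤ} (ha : a ∈ SF F) : a ∈ (EG F : Set (ι → ℤ)) := by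
  intro i hi
  rw [ha i hi]

lemma SFW_le_TF {x : ι → L} {v : ι → ℝ} {F : Finset ι} {ε : ℝ} :
    Sp k x (SF F ∩ Wge v ε) ≤ TF k x v ε F :=
  Sp_mono fun _ ha => ⟨SF_EG ha.1, ha.2⟩

lemma SFW_mul {x : ι → L} (hx : ∀ i, x i ≠ 0) {v : ι → ℝ} {F : Finset ι} {ε ε' : ℝ} {f g : L}
    (hf : f ∈ Sp k x (SF F ∩ Wge v ε)) (hg : g ∈ Sp k x (SF F ∩ Wge v ε')) :
    f * g ∈ Sp k x (SF F ∩ Wge v (ε + ε')) := by
  refine Sp_mul hx ?_ hf hg
  rintro a ⟨ha1, ha2⟩ b ⟨hb1, hb2⟩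
  refine ⟨SF_add ha1 hb1, ?_⟩
  have ha2' : ε ≤ wt v a := ha2
  have hb2' : ε' ≤ wt v b := hb2
  show ε + ε' ≤ wt v (a + b)
  rw [wt_add]
  linarith

lemma SFW_anti {x : ι → L} {v : ι → ℝ} {F : Finset ι} {ε ε' : ℝ} (h : ε ≤ ε') :
    Sp k x (SF F ∩ Wge v ε') ≤ Sp k x (SF F ∩ Wge v ε) :=
  Sp_mono fun _ ha => ⟨ha.1, le_trans h ha.2⟩

lemma one_mem_SFW {x : ι → L} {v : ι → ℝ} {F : Finset ι} :
    (1 : L) ∈ Sp k x (SF F ∩ Wge v 0) := by
  rw [← mon_zero x]
  refine mon_mem_Sp ⟨SF_zero F, ?_⟩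
  show (0 : ℝ) ≤ wt v 0
  rw [wt_zero]

/-- Products of elements `1 - h`. -/
lemma one_sub_mul {x : ι → L} (hx : ∀ i, x i ≠ 0) {v : ι → ℝ} {F : Finset ι} {ε ε' : ℝ}
    (hε : 0 < ε) (hε' : 0 < ε') {h h' : L} (hh : h ∈ Sp k x (SF F ∩ Wge v ε))
    (hh' : h' ∈ Sp k x (SF F ∩ Wge v ε')) :
    ∃ h'' ∈ Sp k x (SF F ∩ Wge v (min ε ε')), (1 - h) * (1 - h') = 1 - h'' := by
  refine ⟨h + h' - h * h', ?_, by ring⟩
  refine Submodule.sub_mem _ (Submodule.add_mem _ (SFW_anti (min_le_left _ _) hh)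
    (SFW_anti (min_le_right _ _) hh')) ?_
  exact SFW_anti (by have := min_le_left ε ε'; linarith) (SFW_mul hx hh hh')

lemma one_sub_mem {x : ι → L} {v : ι → ℝ} {F : Finset ι} {ε : ℝ}
    (hε : 0 < ε) {h : L} (hh : h ∈ Sp k x (SF F ∩ Wge v ε)) :
    1 - h ∈ Sp k x (SF F ∩ Wge v 0) :=
  Submodule.sub_mem _ one_mem_SFW (SFW_anti hε.le hh)

/-- The filtration on the field. -/
def FL (k : Type*) [Field k] [Algebra k L] {x : ι → L} (hx : ∀ i, x i ≠ 0) (v : ι → ℝ) (ν : ℝ)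
    (F : Finset ι) : Submodule k L where
  carrier := {f | ∃ ε : ℝ, 0 < ε ∧ ∃ h ∈ Sp k x (SF F ∩ Wge v ε), (1 - h) * f ∈ TF k x v ν F}
  add_mem' := by
    rintro f g ⟨ε, hε, h, hh, hf⟩ ⟨ε', hε', h', hh', hg⟩
    obtain ⟨h'', hh'', he⟩ := one_sub_mul hx hε hε' hh hh'
    refine ⟨min ε ε', lt_min hε hε', h'', hh'', ?_⟩
    rw [← he]
    have h1 := TF_mul hx (SFW_le_TF (one_sub_mem hε' hh')) hf
    have h2 := TF_mul hx (SFW_le_TF (one_sub_mem hε hh)) hg
    rw [zero_add] at h1 h2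
    have h3 : (1 - h) * (1 - h') * (f + g) = (1 - h') * ((1 - h) * f) + (1 - h) * ((1 - h') * g) := by
      ring
    rw [h3]
    exact Submodule.add_mem _ h1 h2
  zero_mem' := ⟨1, one_pos, 0, Submodule.zero_mem _, by rw [mul_zero]; exact Submodule.zero_mem _⟩
  smul_mem' := by
    rintro c f ⟨ε, hε, h, hh, hf⟩
    refine ⟨ε, hε, h, hh, ?_⟩
    rw [mul_smul_comm]
    exact Submodule.smul_mem _ _ hf

section

variable {x : ι → L} {hx : ∀ i, x i ≠ 0} {v : ι → ℝ} {F : Finset ι}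

lemma mem_FL {ν : ℝ} {f : L} : f ∈ FL k hx v ν F ↔
    ∃ ε : ℝ, 0 < ε ∧ ∃ h ∈ Sp k x (SF F ∩ Wge v ε), (1 - h) * f ∈ TF k x v ν F := Iff.rfl

lemma TF_le_FL {ν : ℝ} : TF k x v ν F ≤ FL k hx v ν F := by
  intro f hf
  refine ⟨1, one_pos, 0, Submodule.zero_mem _, ?_⟩
  rwa [sub_zero, one_mul]

lemma FL_anti {ν ν' : ℝ} (h : ν ≤ ν') : FL k hx v ν' F ≤ FL k hx v ν F := by
  rintro f ⟨ε, hε, h', hh, hf⟩
  exact ⟨ε, hε, h', hh, TF_anti x v h F hf⟩

lemma FL_mul {ν μ : ℝ} {f g : L} (hf : f ∈ FL k hx v ν F) (hg : g ∈ FL k hx v μ F) :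
    f * g ∈ FL k hx v (ν + μ) F := by
  obtain ⟨ε, hε, h, hh, hf⟩ := hf
  obtain ⟨ε', hε', h', hh', hg⟩ := hg
  obtain ⟨h'', hh'', he⟩ := one_sub_mul hx hε hε' hh hh'
  refine ⟨min ε ε', lt_min hε hε', h'', hh'', ?_⟩
  rw [← he]
  have h3 : (1 - h) * (1 - h') * (f * g) = ((1 - h) * f) * ((1 - h') * g) := by ring
  rw [h3]
  exact TF_mul hx hf hg

lemma FL_cancel {ν : ℝ} {f : L} {ε : ℝ} (hε : 0 < ε) {h : L}
    (hh : h ∈ Sp k x (SF F ∩ Wge v ε)) (hf : (1 - h) * f ∈ FL k hx v ν F) :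
    f ∈ FL k hx v ν F := by
  obtain ⟨ε', hε', h', hh', hf⟩ := hf
  obtain ⟨h'', hh'', he⟩ := one_sub_mul hx hε' hε hh' hh
  refine ⟨min ε' ε, lt_min hε' hε, h'', hh'', ?_⟩
  rw [← he, mul_assoc]
  exact hf

lemma SFW_pow (hx : ∀ i, x i ≠ 0) {ε : ℝ} {h : L} (hh : h ∈ Sp k x (SF F ∩ Wge v ε)) (N : ℕ) :
    h ^ N ∈ Sp k x (SF F ∩ Wge v (N * ε)) := by
  induction N with
  | zero =>
    rw [pow_zero]
    have h1 : ((0 : ℕ) : ℝ) * ε = 0 := by simp
    rw [h1]
    exact one_mem_SFW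
  | succ N ih =>
    rw [pow_succ]
    have h1 := SFW_mul hx ih hh
    have h2 : ((N + 1 : ℕ) : ℝ) * ε = N * ε + ε := by push_cast; ring
    rwa [h2]

lemma geom_expand (h f : L) (N : ℕ) :
    f = (∑ i ∈ Finset.range N, h ^ i) * ((1 - h) * f) + h ^ N * f := by
  have h1 : (∑ i ∈ Finset.range N, h ^ i) * (1 - h) = 1 - h ^ N := geom_sum_mul_neg h N
  rw [← mul_assoc, h1]
  ring

lemma geom_mem (hx : ∀ i, x i ≠ 0) {ε : ℝ} (hε : 0 < ε) {h : L}
    (hh : h ∈ Sp k x (SF F ∩ Wge v ε)) (N : ℕ) :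
    (∑ i ∈ Finset.range N, h ^ i) ∈ Sp k x (SF F ∩ Wge v 0) :=
  Submodule.sum_mem _ fun i _ => SFW_anti (by positivity) (SFW_pow hx hh i)

lemma FL_approx {ν : ℝ} {f : L} (hf : f ∈ FL k hx v ν F) (ν' : ℝ) :
    ∃ r ∈ TF k x v ν F, f - r ∈ FL k hx v ν' F := by
  have hf0 := hf
  obtain ⟨ε, hε, h, hh, hf⟩ := hf
  obtain ⟨N, hN⟩ := exists_nat_gt ((ν' - ν) / ε)
  rw [div_lt_iff₀ hε] at hN
  refine ⟨(∑ i ∈ Finset.range N, h ^ i) * ((1 - h) * f), ?_, ?_⟩
  · have h1 := TF_mul hx (SFW_le_TF (geom_mem hx hε hh N)) hf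
    rwa [zero_add] at h1
  · have h1 : f - (∑ i ∈ Finset.range N, h ^ i) * ((1 - h) * f) = h ^ N * f := by
      have := geom_expand h f N
      linear_combination this
    rw [h1]
    have h2 := FL_mul (hx := hx) (TF_le_FL (SFW_le_TF (SFW_pow hx hh N))) hf0
    exact FL_anti (by linarith) h2

lemma FL_inter_TG {ν : ℝ} {f : L} (hf : f ∈ FL k hx v ν F) (hfG : f ∈ TG k x F) :
    f ∈ TF k x v ν F := by
  obtain ⟨ε, hε, h, hh, hf⟩ := hf
  obtain ⟨μ, hμ⟩ := mem_Sp_finite_wt (v := v) hfG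
  obtain ⟨N, hN⟩ := exists_nat_gt ((ν - μ) / ε)
  rw [div_lt_iff₀ hε] at hN
  rw [geom_expand h f N]
  refine Submodule.add_mem _ ?_ ?_
  · have h1 := TF_mul hx (SFW_le_TF (geom_mem hx hε hh N)) hf
    rwa [zero_add] at h1
  · have h1 := TF_mul hx (SFW_le_TF (SFW_pow hx hh N)) hμ
    exact TF_anti x v (by linarith) F h1

/-- Leading term of an element of a span of monomials. -/
lemma exists_lead (hx : ∀ i, x i ≠ 0) (hinj : ∀ a : ι → ℤ, wt v a = 0 → a = 0)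
    {S : Set (ι → ℤ)} {p : L} (hp : p ∈ Sp k x S) (hp0 : p ≠ 0) :
    ∃ b ∈ S, ∃ c : k, c ≠ 0 ∧ ∃ ε : ℝ, 0 < ε ∧
      ∃ h ∈ Sp k x ({a | ∃ a' ∈ S, a = a' - b} ∩ Wge v ε), p = c • (mon x b * (1 - h)) := by
  classical
  obtain ⟨t, ht, rfl⟩ := mem_Sp.mp hp
  have ht0 : t.support.Nonempty := by
    rw [Finsupp.support_nonempty_iff]
    rintro rfl
    exact hp0 (map_zero _)
  obtain ⟨b, hb, hmin⟩ := Finset.exists_min_image t.support (wt v) ht0
  have hstrict : ∀ a ∈ t.support, a ≠ b → wt v b < wt v a := by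
    intro a ha hab
    refine lt_of_le_of_ne (hmin a ha) fun h => hab ?_
    have : a - b = 0 := hinj _ (by rw [wt_sub, h, sub_self])
    exact sub_eq_zero.mp this
  obtain ⟨ε, hε, hε'⟩ : ∃ ε : ℝ, 0 < ε ∧ ∀ a ∈ t.support.erase b, wt v b + ε ≤ wt v a := by
    rcases (t.support.erase b).eq_empty_or_nonempty with h | h
    · exact ⟨1, one_pos, fun a ha => by simp [h] at ha⟩
    · obtain ⟨c, hc, hcmin⟩ := Finset.exists_min_image _ (wt v) h
      rw [Finset.mem_erase] at hc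
      refine ⟨wt v c - wt v b, sub_pos.mpr (hstrict c hc.2 hc.1), fun a ha => ?_⟩
      have := hcmin a ha
      linarith
  have hbne : t b ≠ 0 := Finsupp.mem_support_iff.mp hb
  refine ⟨b, ht hb, t b, hbne, ε, hε, -∑ a ∈ t.support.erase b, ((t b)⁻¹ * t a) • mon x (a - b),
    ?_, ?_⟩
  · refine Submodule.neg_mem _ (Submodule.sum_mem _ fun a ha => Submodule.smul_mem _ _ ?_)
    refine mon_mem_Sp ⟨⟨a, ht (Finset.mem_of_mem_erase ha), rfl⟩, ?_⟩
    show ε ≤ wt v (a - b)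
    rw [wt_sub]
    have := hε' a ha
    linarith
  · rw [lc_apply, ← Finset.add_sum_erase _ _ hb, sub_neg_eq_add, mul_add, mul_one, smul_add,
      Finset.mul_sum, Finset.smul_sum]
    congr 1
    refine Finset.sum_congr rfl fun a _ => ?_
    rw [mul_smul_comm, smul_smul, ← mul_assoc, mul_inv_cancel₀ hbne, one_mul, ← mon_add hx,
      add_sub_cancel]

/-- Elements whose product with some homogeneous polynomial in the `F` variables is
homogeneous and regular. -/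
def HL (k : Type*) [Field k] [Algebra k L] (x : ι → L) (F : Finset ι) (j : ℤ) : Set L :=
  {f | ∃ e : ℤ, ∃ p ∈ Sp k x (SF F ∩ Dj e), p ≠ 0 ∧ p * f ∈ RG k x (e + j) F}

lemma HL_mul (hx : ∀ i, x i ≠ 0) {i j : ℤ} {f g : L} (hf : f ∈ HL k x F i)
    (hg : g ∈ HL k x F j) : f * g ∈ HL k x F (i + j) := by
  obtain ⟨e, p, hp, hp0, hf⟩ := hf
  obtain ⟨e', p', hp', hp'0, hg⟩ := hg
  refine ⟨e + e', p * p', ?_, mul_ne_zero hp0 hp'0, ?_⟩
  · refine Sp_mul hx ?_ hp hp'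
    rintro a ⟨ha1, ha2⟩ b ⟨hb1, hb2⟩
    refine ⟨SF_add ha1 hb1, ?_⟩
    have ha2' : dg a = e := ha2
    have hb2' : dg b = e' := hb2
    show dg (a + b) = e + e'
    rw [dg_add, ha2', hb2']
  · have h1 := RG_mul hx hf hg
    have h2 : e + i + (e' + j) = e + e' + (i + j) := by ring
    rw [h2] at h1
    have h3 : p * p' * (f * g) = p * f * (p' * g) := by ring
    rwa [h3]

lemma RG_HL {j : ℤ} {f : L} (hf : f ∈ RG k x j F) : f ∈ HL k x F j := by
  refine ⟨0, 1, ?_, one_ne_zero, ?_⟩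
  · rw [← mon_zero x]
    exact mon_mem_Sp ⟨SF_zero F, dg_zero⟩
  · rwa [one_mul, zero_add]

lemma HL_pow (hx : ∀ i, x i ≠ 0) {j : ℤ} {f : L} (hf : f ∈ HL k x F j) (m : ℕ) :
    f ^ m ∈ HL k x F (m * j) := by
  induction m with
  | zero =>
    rw [pow_zero]
    have h1 : ((0 : ℕ) : ℤ) * j = 0 := by simp
    rw [h1]
    refine RG_HL ?_
    rw [← mon_zero x]
    exact mon_mem_Sp ⟨fun _ _ => le_refl _, dg_zero⟩
  | succ m ih =>
    rw [pow_succ]
    have h1 := HL_mul hx ih hf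
    have h2 : ((m + 1 : ℕ) : ℤ) * j = m * j + j := by push_cast; ring
    rwa [h2]

lemma HL_approx (hinj : ∀ a : ι → ℤ, wt v a = 0 → a = 0) {j : ℤ} {f : L}
    (hf : f ∈ HL k x F j) (ν : ℝ) : ∃ r ∈ RG k x j F, f - r ∈ FL k hx v ν F := by
  obtain ⟨e, p, hp, hp0, hf⟩ := hf
  obtain ⟨b, hb, c, hc, ε, hε, h, hh, rfl⟩ := exists_lead hx hinj hp hp0
  have hbe : dg b = e := hb.2
  have hb1 : b ∈ SF F := hb.1
  have hh1 : h ∈ Sp k x (SF F ∩ Wge v ε) := by
    refine Sp_mono ?_ hh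
    rintro _ ⟨⟨a, ha, rfl⟩, ha'⟩
    exact ⟨SF_sub ha.1 hb1, ha'⟩
  have hh2 : h ∈ RG k x 0 F := by
    refine Sp_mono ?_ hh
    rintro _ ⟨⟨a, ha, rfl⟩, ha'⟩
    refine ⟨SF_EG (SF_sub ha.1 hb1), ?_⟩
    have h1 : dg a = e := ha.2
    show dg (a - b) = 0
    rw [dg_sub, h1, hbe, sub_self]
  have hr0 : (1 - h) * f ∈ RG k x j F := by
    have h1 : (1 - h) * f = c⁻¹ • ((c • (mon x b * (1 - h)) * f) * mon x (-b)) := by
      rw [smul_mul_assoc, smul_mul_assoc, smul_smul, inv_mul_cancel₀ hc, one_smul, mon_neg]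
      have := mon_ne_zero hx b
      field_simp
    rw [h1]
    refine Submodule.smul_mem _ _ (Sp_mul_mon hx ?_ hf)
    rintro a ⟨ha1, ha2⟩
    have ha2' : dg a = e + j := ha2
    refine ⟨fun i hi => ?_, ?_⟩
    · rw [Pi.add_apply, Pi.neg_apply, hb1 i hi, neg_zero, add_zero]
      exact ha1 i hi
    · show dg (a + -b) = j
      rw [dg_add, dg_neg, ha2', hbe]
      ring
  obtain ⟨μ, hμ⟩ := mem_Sp_finite_wt (v := v) hr0
  have hfFL : f ∈ FL k hx v μ F := by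
    refine ⟨ε, hε, h, hh1, ?_⟩
    refine Sp_mono ?_ hμ
    rintro a ⟨⟨ha1, _⟩, ha3⟩
    exact ⟨ha1, ha3⟩
  obtain ⟨N, hN⟩ := exists_nat_gt ((ν - μ) / ε)
  rw [div_lt_iff₀ hε] at hN
  refine ⟨(∑ i ∈ Finset.range N, h ^ i) * ((1 - h) * f), ?_, ?_⟩
  · have h1 : ∀ i : ℕ, h ^ i ∈ RG k x 0 F := by
      intro i
      induction i with
      | zero =>
        rw [pow_zero, ← mon_zero x]
        exact mon_mem_Sp ⟨fun _ _ => le_refl _, dg_zero⟩
      | succ i ih =>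
        rw [pow_succ]
        have := RG_mul hx ih hh2
        rwa [add_zero] at this
    have h2 := RG_mul hx (Submodule.sum_mem _ fun i (_ : i ∈ Finset.range N) => h1 i) hr0
    rwa [zero_add] at h2
  · have h1 : f - (∑ i ∈ Finset.range N, h ^ i) * ((1 - h) * f) = h ^ N * f := by
      have := geom_expand h f N
      linear_combination this
    rw [h1]
    have h2 := FL_mul (hx := hx) (TF_le_FL (SFW_le_TF (SFW_pow hx hh1 N))) hfFL
    exact FL_anti (by linarith) h2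

end

end Pool.Agent.MP8049


/-! ## Part TopHS -/

set_option autoImplicit false

/-! Hasse-Schmidt maps shift the weight filtration by a bounded amount. -/

namespace Pool.Agent.MP8049

variable {ι : Type*} [Fintype ι] [LinearOrder ι]
variable {L : Type*} [Field L] {k : Type*} [Field k] [Algebra k L]
variable {x : ι → L} {v : ι → ℝ}

/-- total weight of the variables -/
noncomputable def VV (v : ι → ℝ) : ℝ := ∑ i, v i

lemma v_le_VV (hv : ∀ i, 0 < v i) (i : ι) : v i ≤ VV v :=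
  Finset.single_le_sum (f := v) (fun i _ => (hv i).le) (Finset.mem_univ i)

lemma VV_nonneg (hv : ∀ i, 0 < v i) : 0 ≤ VV v := Finset.sum_nonneg fun i _ => (hv i).le

lemma TG_empty_le (hv : ∀ i, 0 < v i) (G : Finset ι) : TG k x ∅ ≤ TF k x v 0 G := by
  refine Sp_mono ?_
  intro a ha
  rw [EG_empty] at ha
  refine ⟨fun i _ => ha i, ?_⟩
  show 0 ≤ wt v a
  unfold wt
  refine Finset.sum_nonneg fun i _ => mul_nonneg ?_ (hv i).le
  exact_mod_cast ha i

/-- `f` has order at least `α` together with the expected orders of its derivatives. -/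
def SW (k : Type*) [Field k] [Algebra k L] (x : ι → L) (v : ι → ℝ) {M : ℕ} (D : HSm L M)
    (G : Finset ι) (α : ℝ) (f : L) : Prop :=
  ∀ t, t < M → D.D t f ∈ TF k x v (α - t * VV v) G

lemma SW.mul (hx : ∀ i, x i ≠ 0) {M : ℕ} {D : HSm L M} {G : Finset ι} {α β : ℝ} {f g : L}
    (hf : SW k x v D G α f) (hg : SW k x v D G β g) : SW k x v D G (α + β) (f * g) := by
  intro t ht
  rw [D.leib t ht]
  refine Submodule.sum_mem _ fun p hp => ?_
  rw [Finset.HasAntidiagonal.mem_antidiagonal] at hp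
  have h1 := TF_mul hx (hf p.1 (by omega)) (hg p.2 (by omega))
  have h2 : α - (p.1 : ℝ) * VV v + (β - (p.2 : ℝ) * VV v) = α + β - t * VV v := by
    rw [← hp]
    push_cast
    ring
  rwa [h2] at h1

lemma SW.of_TG (hv : ∀ i, 0 < v i) {M : ℕ} {D : HSm L M} (hD : D.Pres (TG k x ∅ : Set L))
    {G : Finset ι} {f : L} (hf : f ∈ TG k x ∅) : SW k x v D G 0 f := by
  intro t ht
  refine TF_anti x v ?_ G (TG_empty_le hv G (hD t ht f hf))
  have := mul_nonneg (Nat.cast_nonneg (α := ℝ) t) (VV_nonneg hv)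
  linarith

lemma x_mem_TGe [DecidableEq ι] (i : ι) : x i ∈ TG k x ∅ := RG_le_TG x 1 ∅ (x_mem_RG ∅ i)

lemma SW.var (hv : ∀ i, 0 < v i) {M : ℕ} {D : HSm L M}
    (hD : D.Pres (TG k x ∅ : Set L)) {G : Finset ι} (i : ι) : SW k x v D G (v i) (x i) := by
  intro t ht
  rcases Nat.eq_zero_or_pos t with h0 | h1
  · subst h0
    rw [D.D0]
    have h2 : x i = mon x (Pi.single i 1) := by rw [mon_single, zpow_one]
    rw [h2]
    refine mon_mem_Sp ⟨fun l _ => ?_, ?_⟩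
    · by_cases hl : l = i
      · subst hl; simp
      · rw [Pi.single_eq_of_ne hl]
    · show v i - ((0 : ℕ) : ℝ) * VV v ≤ wt v (Pi.single i 1)
      rw [wt_single]
      simp
  · refine TF_anti x v ?_ G (TG_empty_le hv G (hD t ht _ (x_mem_TGe i)))
    have h2 := v_le_VV hv i
    have h3 : (1 : ℝ) ≤ t := by exact_mod_cast h1
    have h4 := mul_le_mul_of_nonneg_right h3 (VV_nonneg hv)
    linarith

lemma SW.var_inv (hx : ∀ i, x i ≠ 0) (hv : ∀ i, 0 < v i) {M : ℕ} {D : HSm L M}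
    (hD : D.Pres (TG k x ∅ : Set L)) {G : Finset ι} {i : ι} (hi : i ∈ G) :
    SW k x v D G (-v i) (x i)⁻¹ := by
  have hinv : (x i)⁻¹ ∈ TF k x v (-v i) G := by
    have h2 : (x i)⁻¹ = mon x (Pi.single i (-1)) := by rw [mon_single, zpow_neg_one]
    rw [h2]
    refine mon_mem_Sp ⟨fun l hl => ?_, ?_⟩
    · have : l ≠ i := fun h => hl (h ▸ hi)
      rw [Pi.single_eq_of_ne this]
    · show -v i ≤ wt v (Pi.single i (-1))
      rw [wt_single]
      simp
  have hxD := SW.var (k := k) hv hD (G := G) i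
  intro t
  induction t using Nat.strong_induction_on with
  | _ t ih =>
    intro ht
    rcases Nat.eq_zero_or_pos t with h0 | h1
    · subst h0
      rw [D.D0]
      refine TF_anti x v ?_ G hinv
      simp
    · -- `D_t (x⁻¹) x = D_t 1 - sum`
      have hD1 : D.D t 1 ∈ TF k x v (0 - t * VV v) G := SW.of_TG hv hD (one_mem_TG ∅) t ht
      have h2 := D.leib_top ht (x i)⁻¹ (x i)
      rw [inv_mul_cancel₀ (hx i)] at h2
      have h3 : D.D t (x i)⁻¹ * x i ∈ TF k x v (-(t * VV v)) G := by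
        rw [h2]
        refine Submodule.sub_mem _ ?_ (Submodule.sum_mem _ fun j hj => ?_)
        · rwa [zero_sub] at hD1
        · rw [Finset.mem_range] at hj
          have h4 := TF_mul hx (ih j hj (by omega)) (hxD (t - j) (by omega))
          refine TF_anti x v ?_ G h4
          have h5 : ((t - j : ℕ) : ℝ) = (t : ℝ) - j := Nat.cast_sub hj.le
          rw [h5]
          have : -v i - (j : ℝ) * VV v + (v i - ((t : ℝ) - j) * VV v) = -((t : ℝ) * VV v) := by ring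
          rw [this]
      have h4 := TF_mul hx h3 hinv
      have h5 : D.D t (x i)⁻¹ * x i * (x i)⁻¹ = D.D t (x i)⁻¹ := by
        rw [mul_assoc, mul_inv_cancel₀ (hx i), mul_one]
      rw [h5] at h4
      refine TF_anti x v ?_ G h4
      have : -((t : ℝ) * VV v) + -v i = -v i - (t : ℝ) * VV v := by ring
      rw [this]

lemma SW.pow (hx : ∀ i, x i ≠ 0) (hv : ∀ i, 0 < v i) {M : ℕ} {D : HSm L M}
    (hD : D.Pres (TG k x ∅ : Set L)) {G : Finset ι} {α : ℝ} {f : L} (hf : SW k x v D G α f)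
    (n : ℕ) : SW k x v D G (n * α) (f ^ n) := by
  induction n with
  | zero =>
    rw [pow_zero]
    have h1 : ((0 : ℕ) : ℝ) * α = 0 := by simp
    rw [h1]
    exact SW.of_TG hv hD (one_mem_TG ∅)
  | succ n ih =>
    rw [pow_succ]
    have h1 := SW.mul hx ih hf
    have h2 : ((n + 1 : ℕ) : ℝ) * α = n * α + α := by push_cast; ring
    rwa [h2]

lemma SW.mon (hx : ∀ i, x i ≠ 0) (hv : ∀ i, 0 < v i) {M : ℕ} {D : HSm L M}
    (hD : D.Pres (TG k x ∅ : Set L)) {G : Finset ι} {a : ι → ℤ} (ha : a ∈ (EG G : Set (ι → ℤ))) :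
    SW k x v D G (wt v a) (mon x a) := by
  have key : ∀ T : Finset ι, SW k x v D G (∑ i ∈ T, (a i : ℝ) * v i) (∏ i ∈ T, x i ^ a i) := by
    intro T
    induction T using Finset.induction_on with
    | empty =>
      rw [Finset.sum_empty, Finset.prod_empty]
      exact SW.of_TG hv hD (one_mem_TG ∅)
    | insert i T hi ih =>
      rw [Finset.sum_insert hi, Finset.prod_insert hi]
      refine SW.mul hx ?_ ih
      rcases le_or_gt 0 (a i) with h0 | h0
      · obtain ⟨n, hn⟩ := Int.eq_ofNat_of_zero_le h0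
        rw [hn, zpow_natCast]
        have := SW.pow hx hv hD (SW.var (k := k) hv hD (G := G) i) n
        exact_mod_cast this
      · have hiG : i ∈ G := by
          by_contra hiG
          have := ha i hiG
          omega
        obtain ⟨n, hn⟩ := Int.eq_ofNat_of_zero_le (show 0 ≤ -a i by omega)
        have hn' : a i = -(n : ℤ) := by omega
        rw [hn', zpow_neg, zpow_natCast, ← inv_pow]
        have := SW.pow hx hv hD (SW.var_inv (k := k) hx hv hD hiG) n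
        have h2 : ((-(n : ℤ) : ℤ) : ℝ) * v i = (n : ℝ) * -v i := by push_cast; ring
        rwa [h2]
  exact key Finset.univ

/-- The shift bound. -/
lemma TF_shift (hx : ∀ i, x i ≠ 0) (hv : ∀ i, 0 < v i) {M : ℕ} {D : HSm L M}
    (hD : D.Pres (TG k x ∅ : Set L)) {G : Finset ι} {ν : ℝ} {f : L} (hf : f ∈ TF k x v ν G)
    {t : ℕ} (ht : t < M) : D.D t f ∈ TF k x v (ν - t * VV v) G := by
  have key : SW k x v D G ν f := by
    unfold TF Sp at hf
    induction hf using Submodule.span_induction with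
    | mem f hf =>
      obtain ⟨a, ⟨ha1, ha2⟩, rfl⟩ := hf
      have ha2' : ν ≤ wt v a := ha2
      intro t ht
      exact TF_anti x v (by linarith) G (SW.mon hx hv hD ha1 t ht)
    | zero =>
      intro t ht
      have : D.D t 0 = 0 := (D.hom t).map_zero
      rw [this]
      exact Submodule.zero_mem _
    | add f g _ _ hf hg =>
      intro t ht
      rw [D.add]
      exact Submodule.add_mem _ (hf t ht) (hg t ht)
    | smul c f _ hf =>
      rw [Algebra.smul_def]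
      have h1 : algebraMap k L c ∈ TG k x ∅ := by
        rw [Algebra.algebraMap_eq_smul_one]
        exact Submodule.smul_mem _ _ (one_mem_TG ∅)
      have h2 := SW.mul hx (SW.of_TG hv hD h1) hf
      rwa [zero_add] at h2
  exact key t ht

/-- The shift bound on the field. -/
lemma FL_shift {hx : ∀ i, x i ≠ 0} (hv : ∀ i, 0 < v i) {M : ℕ} {D : HSm L M}
    (hD : D.Pres (TG k x ∅ : Set L)) {F : Finset ι} {ν : ℝ} {f : L} (hf : f ∈ FL k hx v ν F)
    (t : ℕ) : t < M → D.D t f ∈ FL k hx v (ν - t * VV v) F := by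
  induction t using Nat.strong_induction_on with
  | _ t ih =>
    intro ht
    obtain ⟨ε, hε, h, hh, hf'⟩ := hf
    refine FL_cancel hε hh ?_
    rw [mul_comm (1 - h) (D.D t f), D.leib_top ht, mul_comm f]
    refine Submodule.sub_mem _ (TF_le_FL (TF_shift hx hv hD hf' ht))
      (Submodule.sum_mem _ fun i hi => ?_)
    rw [Finset.mem_range] at hi
    have h1 : 1 - h ∈ TF k x v 0 F := SFW_le_TF (one_sub_mem hε hh)
    have h2 := TF_shift hx hv hD h1 (t := t - i) (by omega)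
    have h3 := FL_mul (hx := hx) (ih i hi (by omega)) (TF_le_FL h2)
    refine FL_anti ?_ h3
    have h5 : ((t - i : ℕ) : ℝ) = (t : ℝ) - i := Nat.cast_sub hi.le
    rw [h5]
    have : ν - (i : ℝ) * VV v + (0 - ((t : ℝ) - i) * VV v) = ν - (t : ℝ) * VV v := by ring
    rw [this]

end Pool.Agent.MP8049
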