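import Mathlib
import Pool.Agent.Lib.MP_8049df_ag.TopHS
import Pool.Agent.Lib.MP_8049df_ag.Dim
import Pool.Agent.Lib.MP_8049df_ag.NormLemma


/-! ## Part TopN -/

set_option autoImplicit false

/-! Cochains that are coboundaries up to large weight, in the top degree. -/

namespace Pool.Agent.MP8049

variable {ι : Type} [Fintype ι] [LinearOrder ι]
variable {L : Type} [Field L] {k : Type} [Field k] [Algebra k L]
variable {x : ι → L} {v : ι → ℝ}

/-- The hypotheses used for the top degree. -/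
structure TopHyp (k : Type) {L : Type} [Field k] [Field L] [Algebra k L] (x : ι → L) (v : ι → ℝ)
    (q : ℕ) (σ : ℤ) (ν₀ : ℝ) (τ : ℤ) : Prop where
  hx : ∀ i, x i ≠ 0
  hv : ∀ i, 0 < v i
  hinj : ∀ a : ι → ℤ, wt v a = 0 → a = 0
  H : Homog k x
  exF : ∀ ν, ν₀ < ν → ∀ (j : ℤ) (p : ℕ), Ex (RF k x v j ν) p
  exG : ∀ j, τ < j → ∀ p : ℕ, Ex (RG k x j) p
  nf : ∀ G : Finset ι, G.card = q + 1 → ∀ ν, TG k x G ≤ TF k x v ν G
  nf' : ∀ G : Finset ι, G.card = q + 1 → ∀ (j : ℤ) ν, RG k x j G ≤ RF k x v j ν G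
  soc : ∀ j : ℤ, j < - σ → ∀ c ∈ Cyc (RG k x j) q,
    (∀ i, (fun G => x i * c G) ∈ Bdy (RG k x (j + 1)) q) → c ∈ Bdy (RG k x j) q
  hs : HSSimple (TG k x ∅ : Set L) x

theorem IsState.topHyp {K₀ : Type} [Field K₀] [Algebra K₀ k] [Algebra K₀ L]
    [IsScalarTower K₀ k L] {q : ℕ} {σ : ℤ} (h : IsState K₀ k x q σ) (hv : ∀ i, 0 < v i)
    (hinj : ∀ a : ι → ℤ, wt v a = 0 → a = 0) : ∃ ν₀ τ, TopHyp k x v q σ ν₀ τ := by
  obtain ⟨ρ, hρ, htog⟩ := exists_tog (k := k) h.hx v
  have hdep : ∀ G : Finset ι, G.card = q + 1 →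
      ∃ ε : ℝ, 0 < ε ∧ (1 : L) ∈ RF k x v 0 ε G := fun G hG =>
    one_mem_of_dep h.hx hinj h.hom (not_algInd_of_card h.tr (by omega))
  refine ⟨(ρ - 1) * VV v, (ρ - 1) * Fintype.card ι, h.hx, hv, hinj, h.hom, ?_, ?_, ?_, ?_,
    h.soc, hsSimple_of_smAt x h.hx h.fr h.sm⟩
  · intro ν hν j p
    refine acyc_RF h.hx hinj (by omega) htog j p ν fun a _ ha => ?_
    by_contra hcon
    push Not at hcon
    have h1 : wt v a ≤ (ρ - 1) * VV v := by
      unfold wt VV
      rw [Finset.mul_sum]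
      refine Finset.sum_le_sum fun i _ => mul_le_mul_of_nonneg_right ?_ (hv i).le
      have h2 : a i ≤ ρ - 1 := by have := hcon i; omega
      exact_mod_cast h2
    linarith
  · intro j hj p
    refine acyc_RG h.hx hinj (by omega) htog j p fun a ha => ?_
    by_contra hcon
    push Not at hcon
    have h1 : dg a ≤ ∑ _i : ι, (ρ - 1) := Finset.sum_le_sum fun i _ => by
      have := hcon i
      omega
    rw [Finset.sum_const, Finset.card_univ, nsmul_eq_mul, ha] at h1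
    have h2 : (Fintype.card ι : ℤ) * (ρ - 1) = (ρ - 1) * Fintype.card ι := mul_comm _ _
    omega
  · intro G hG ν
    obtain ⟨ε, hε, h1⟩ := hdep G hG
    exact TG_le_TF_of_one h.hx hε h1 ν
  · intro G hG j ν
    obtain ⟨ε, hε, h1⟩ := hdep G hG
    exact RG_le_RF_of_one h.hx hε h1 j ν

variable {q : ℕ} {σ : ℤ} {ν₀ : ℝ} {τ : ℤ}

lemma TopHyp.exTF (h : TopHyp k x v q σ ν₀ τ) {ν : ℝ} (hν : ν₀ < ν) (p : ℕ) :
    Ex (TF k x v ν) p := by
  intro c hc'
  obtain ⟨J, hJ⟩ := sum_hc_cochain h.H (Coch_mono (TF_le_TG x v ν) p hc'.1)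
  rw [hJ]
  refine Submodule.sum_mem _ fun j _ => ?_
  have h1 : (fun G => hc h.H j (c G)) ∈ Cyc (RF k x v j ν) p := by
    refine Cyc_map (P := TF k x v ν) (Q := RF k x v j ν) (hc h.H j).toAddMonoidHom
      (fun G u hu => ?_) hc'
    have h2 := hc_mem h.H (j := j) hu
    refine Sp_mono ?_ h2
    rintro a ⟨⟨ha1, ha2⟩, ha3⟩
    exact ⟨⟨ha1, ha3⟩, ha2⟩
  exact Bdy_mono (RF_le_TF x v j ν) p (h.exF ν hν j p h1)

/-- coboundaries plus cochains of large weight -/
def NN (k : Type) {L : Type} [Field k] [Field L] [Algebra k L] (x : ι → L) (v : ι → ℝ) (q : ℕ)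
    (ν : ℝ) : Submodule k (Finset ι → L) := Bdy (TG k x) q ⊔ Coch (TF k x v ν) q

lemma NN_anti {ν ν' : ℝ} (h : ν ≤ ν') : NN k x v q ν' ≤ NN k x v q ν :=
  sup_le_sup_left (Coch_mono (TF_anti x v h) q) _

lemma TopHyp.NN_le (h : TopHyp k x v q σ ν₀ τ) {ν ν' : ℝ} (hν : ν₀ < ν) (hν' : ν ≤ ν') :
    NN k x v q ν ≤ NN k x v q ν' := by
  refine sup_le le_sup_left ?_
  intro f hf
  have h1 : cd f ∈ Cyc (TF k x v ν') (q + 1) := by
    refine ⟨fun G => ?_, cd_cd f⟩
    have h2 := cd_mem_Coch (TF_FMono (k := k) x v ν) hf G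
    refine ⟨?_, h2.2⟩
    by_cases hG : G.card = q + 1
    · exact h.nf G hG ν' (TF_le_TG x v ν G h2.1)
    · rw [h2.2 hG]
      exact Submodule.zero_mem _
  obtain ⟨f', hf', he⟩ := h.exTF (lt_of_lt_of_le hν hν') (q + 1) h1
  have he' : cd f' = cd f := he
  have h2 : f - f' ∈ Cyc (TF k x v ν) q := by
    refine ⟨Submodule.sub_mem _ hf (Coch_mono (TF_anti x v hν') q hf'), ?_⟩
    show cd (f - f') = 0
    rw [cd_sub, he', sub_self]
  have h3 := Bdy_mono (TF_le_TG x v ν) q (h.exTF hν q h2)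
  have h4 : f = (f - f') + f' := by abel
  rw [h4]
  exact Submodule.add_mem _ (Submodule.mem_sup_left h3) (Submodule.mem_sup_right hf')

lemma TopHyp.NN_cyc (h : TopHyp k x v q σ ν₀ τ) {ν : ℝ} (hν : ν₀ < ν) {c : Finset ι → L}
    (hc : c ∈ NN k x v q ν) (hcd : cd c = 0) : c ∈ Bdy (TG k x) q := by
  obtain ⟨b, hb, y, hy, rfl⟩ := Submodule.mem_sup.mp hc
  have h1 : cd b = 0 := (Bdy_le_Cyc (TG_FMono (k := k) x) q hb).2
  rw [cd_add, h1, zero_add] at hcd
  exact Submodule.add_mem _ hb (Bdy_mono (TF_le_TG x v ν) q (h.exTF hν q ⟨hy, hcd⟩))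

lemma NN_mul (hx : ∀ i, x i ≠ 0) (hv : ∀ i, 0 < v i) {ν : ℝ} {r : L} (hr : r ∈ TG k x ∅)
    {c : Finset ι → L} (hc : c ∈ NN k x v q ν) : (fun G => r * c G) ∈ NN k x v q ν := by
  obtain ⟨b, hb, y, hy, rfl⟩ := Submodule.mem_sup.mp hc
  have h1 : (fun G => r * (b + y) G) = (fun G => r * b G) + (fun G => r * y G) := by
    funext G
    simp [mul_add]
  rw [h1]
  refine Submodule.add_mem _ (Submodule.mem_sup_left (mul_Bdy hx hr hb))
    (Submodule.mem_sup_right ?_)
  refine Coch_map (AddMonoidHom.mulLeft r) (fun G u hu => ?_) hy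
  have h2 := TF_mul hx (TG_empty_le hv G hr) hu
  rwa [zero_add] at h2

lemma TopHyp.NN_hs (h : TopHyp k x v q σ ν₀ τ) {ν : ℝ} (hν : ν₀ < ν) {M : ℕ} {D : HSm L M}
    (hD : D.Pres (TG k x ∅ : Set L)) {t : ℕ} (ht : t < M) {c : Finset ι → L}
    (hc : c ∈ NN k x v q ν) : (fun G => D.D t (c G)) ∈ NN k x v q ν := by
  have h0 : 0 ≤ (t : ℝ) * VV v := mul_nonneg (Nat.cast_nonneg _) (VV_nonneg h.hv)
  have h1 := h.NN_le hν (ν' := ν + t * VV v) (by linarith) hc
  obtain ⟨b, hb, y, hy, rfl⟩ := Submodule.mem_sup.mp h1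
  have h2 : (fun G => D.D t ((b + y) G)) = (fun G => D.hom t (b G)) + (fun G => D.hom t (y G)) := by
    funext G
    simp only [Pi.add_apply, HSm.hom_apply, D.add]
  rw [h2]
  refine Submodule.add_mem _ (Submodule.mem_sup_left ?_) (Submodule.mem_sup_right ?_)
  · exact Bdy_map (D.hom t) (fun G u hu => D.pres_TG h.hx hD G t ht u hu) hb
  · refine Coch_map (D.hom t) (fun G u hu => ?_) hy
    have h3 := TF_shift h.hx h.hv hD hu ht
    have h4 : ν + t * VV v - t * VV v = ν := by ring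
    rwa [h4] at h3

/-- Homogeneous cochains become cocycles after a modification of large weight. -/
lemma TopHyp.corr (h : TopHyp k x v q σ ν₀ τ) {ν : ℝ} (hν : ν₀ < ν) {j : ℤ} {c : Finset ι → L}
    (hc : c ∈ Coch (RG k x j) q) : ∃ y ∈ Coch (RF k x v j ν) q, c - y ∈ Cyc (RG k x j) q := by
  have h1 : cd c ∈ Cyc (RF k x v j ν) (q + 1) := by
    refine ⟨fun G => ?_, cd_cd c⟩
    have h2 := cd_mem_Coch (RG_FMono (k := k) x j) hc G
    refine ⟨?_, h2.2⟩
    by_cases hG : G.card = q + 1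
    · exact h.nf' G hG j ν h2.1
    · rw [h2.2 hG]
      exact Submodule.zero_mem _
  obtain ⟨y, hy, he⟩ := h.exF ν hν j (q + 1) h1
  have he' : cd y = cd c := he
  refine ⟨y, hy, Submodule.sub_mem _ hc (Coch_mono (RF_le_RG x v j ν) q hy), ?_⟩
  show cd (c - y) = 0
  rw [cd_sub, he', sub_self]

/-- the cochain concentrated on one set -/
def dlt (F : Finset ι) (f : L) : Finset ι → L := fun G => if G = F then f else 0

omit [Fintype ι] in
lemma dlt_add (F : Finset ι) (f g : L) : dlt F (f + g) = dlt F f + dlt F g := by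
  funext G
  simp only [dlt, Pi.add_apply]
  split_ifs <;> simp

omit [Fintype ι] in
lemma dlt_sub (F : Finset ι) (f g : L) : dlt F (f - g) = dlt F f - dlt F g := by
  funext G
  simp only [dlt, Pi.sub_apply]
  split_ifs <;> simp

omit [Fintype ι] in
lemma dlt_mul (F : Finset ι) (r f : L) : dlt F (r * f) = fun G => r * dlt F f G := by
  funext G
  simp only [dlt]
  split_ifs <;> simp

omit [Fintype ι] in
lemma dlt_mem {P : Finset ι → Submodule k L} {F : Finset ι} (hF : F.card = q) {f : L}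
    (hf : f ∈ P F) : dlt F f ∈ Coch P q := by
  intro G
  simp only [dlt]
  split_ifs with h
  · subst h
    exact ⟨hf, fun hn => absurd hF hn⟩
  · exact ⟨Submodule.zero_mem _, fun _ => rfl⟩

/-- large degrees -/
lemma TopHyp.dlt_large (h : TopHyp k x v q σ ν₀ τ) {ν : ℝ} (hν : ν₀ < ν) {F : Finset ι}
    (hF : F.card = q) {j : ℤ} (hj : τ < j) {r : L} (hr : r ∈ RG k x j F) :
    dlt F r ∈ NN k x v q ν := by
  obtain ⟨y, hy, hc⟩ := h.corr hν (dlt_mem (P := RG k x j) hF hr)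
  have h1 := Bdy_mono (RG_le_TG x j) q (h.exG j hj q hc)
  have h2 : dlt F r = (dlt F r - y) + y := by abel
  rw [h2]
  exact Submodule.add_mem _ (Submodule.mem_sup_left h1)
    (Submodule.mem_sup_right (Coch_mono (RF_le_TF x v j ν) q hy))

/-- small degrees -/
lemma TopHyp.dlt_small (h : TopHyp k x v q σ ν₀ τ) {ν : ℝ} (hν : ν₀ < ν) {F : Finset ι}
    (hF : F.card = q) {j : ℤ} (hj : j < -σ) {r : L} (hr : r ∈ RG k x j F)
    (hi : ∀ i, dlt F (x i * r) ∈ NN k x v q ν) : dlt F r ∈ NN k x v q ν := by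
  obtain ⟨y, hy, hc⟩ := h.corr hν (dlt_mem (P := RG k x j) hF hr)
  have h0 : dlt F r - y ∈ Bdy (RG k x j) q := by
    refine h.soc j hj _ hc fun i => ?_
    have h1 := x_mul_Cyc h.hx i hc
    refine Bdy_total h.H ?_ h1.1
    refine h.NN_cyc hν ?_ h1.2
    have h2 : (fun G => x i * (dlt F r - y) G) = dlt F (x i * r) - (fun G => x i * y G) := by
      rw [dlt_mul]
      funext G
      simp [mul_sub]
    rw [h2]
    exact Submodule.sub_mem _ (hi i) (NN_mul h.hx h.hv (x_mem_TGe i)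
      (Submodule.mem_sup_right (Coch_mono (RF_le_TF x v j ν) q hy)))
  have h2 : dlt F r = (dlt F r - y) + y := by abel
  rw [h2]
  exact Submodule.add_mem _ (Submodule.mem_sup_left (Bdy_mono (RG_le_TG x j) q h0))
    (Submodule.mem_sup_right (Coch_mono (RF_le_TF x v j ν) q hy))

end Pool.Agent.MP8049


/-! ## Part TopVal -/

set_option autoImplicit false

/-! The weight valuation on the field generated by a transcendence basis of variables, and
boundedness of integral elements. -/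

namespace Pool.Agent.MP8049

variable {ι : Type} [Fintype ι] [LinearOrder ι]
variable {L : Type} [Field L] {k : Type} [Field k] [Algebra k L]
variable {x : ι → L} {v : ι → ℝ} {F : Finset ι}

/-- the field generated by the variables in `F` -/
abbrev EE (k : Type) {L : Type} [Field k] [Field L] [Algebra k L] {ι : Type} (x : ι → L)
    (F : Finset ι) : IntermediateField k L :=
  IntermediateField.adjoin k (Set.range (fun i : F => x i))

lemma aeval_mem_SFN (r : MvPolynomial F k) :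
    MvPolynomial.aeval (fun i : F => x i) r ∈ Sp k x (SF F ∩ Nn) := by
  rw [MvPolynomial.aeval_def, MvPolynomial.eval₂_eq]
  refine Submodule.sum_mem _ fun m _ => ?_
  have h1 : ∏ i ∈ m.support, x i ^ m i = mon x (extT F m) := by
    rw [mon_extT]
    rfl
  rw [h1, ← Algebra.smul_def]
  exact Submodule.smul_mem _ _ (mon_mem_Sp ⟨extT_out F m, extT_Nn F m⟩)

lemma one_mem_SFN : (1 : L) ∈ Sp k x (SF F ∩ Nn) := by
  rw [← mon_zero x]
  exact mon_mem_Sp ⟨SF_zero F, fun _ => le_refl _⟩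

lemma mem_EE {e : L} (he : e ∈ EE k x F) :
    ∃ p ∈ Sp k x (SF F ∩ Nn), ∃ q ∈ Sp k x (SF F ∩ Nn), q ≠ 0 ∧ e = p / q := by
  obtain ⟨r, s, hrs⟩ := (IntermediateField.mem_adjoin_range_iff k (fun i : F => x i) e).mp he
  by_cases hs : MvPolynomial.aeval (fun i : F => x i) s = 0
  · refine ⟨0, Submodule.zero_mem _, 1, one_mem_SFN, one_ne_zero, ?_⟩
    rw [hrs, hs, div_zero, zero_div]
  · exact ⟨_, aeval_mem_SFN r, _, aeval_mem_SFN s, hs, hrs⟩

/-- The elements of nonnegative weight. -/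
def Os (k : Type) {L : Type} [Field k] [Field L] [Algebra k L] (x : ι → L) (v : ι → ℝ)
    (F : Finset ι) : Set L :=
  {o | ∃ ε : ℝ, 0 < ε ∧ ∃ h ∈ Sp k x (SF F ∩ Wge v ε), (1 - h) * o ∈ Sp k x (SF F ∩ Wge v 0)}

lemma SFW0_Os {o : L} (ho : o ∈ Sp k x (SF F ∩ Wge v 0)) : o ∈ Os k x v F := by
  refine ⟨1, one_pos, 0, Submodule.zero_mem _, ?_⟩
  rwa [sub_zero, one_mul]

lemma Os_mul (hx : ∀ i, x i ≠ 0) {o o' : L} (ho : o ∈ Os k x v F) (ho' : o' ∈ Os k x v F) :
    o * o' ∈ Os k x v F := by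
  obtain ⟨ε, hε, h, hh, hf⟩ := ho
  obtain ⟨ε', hε', h', hh', hg⟩ := ho'
  obtain ⟨h'', hh'', he⟩ := one_sub_mul hx hε hε' hh hh'
  refine ⟨min ε ε', lt_min hε hε', h'', hh'', ?_⟩
  rw [← he]
  have h3 : (1 - h) * (1 - h') * (o * o') = ((1 - h) * o) * ((1 - h') * o') := by ring
  rw [h3]
  have := SFW_mul hx hf hg
  rwa [add_zero] at this

lemma Os_add (hx : ∀ i, x i ≠ 0) {o o' : L} (ho : o ∈ Os k x v F) (ho' : o' ∈ Os k x v F) :
    o + o' ∈ Os k x v F := by
  obtain ⟨ε, hε, h, hh, hf⟩ := ho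
  obtain ⟨ε', hε', h', hh', hg⟩ := ho'
  obtain ⟨h'', hh'', he⟩ := one_sub_mul hx hε hε' hh hh'
  refine ⟨min ε ε', lt_min hε hε', h'', hh'', ?_⟩
  rw [← he]
  have h3 : (1 - h) * (1 - h') * (o + o') = (1 - h') * ((1 - h) * o) + (1 - h) * ((1 - h') * o') := by
    ring
  rw [h3]
  have h1 := SFW_mul hx (one_sub_mem hε' hh') hf
  have h2 := SFW_mul hx (one_sub_mem hε hh) hg
  rw [add_zero] at h1 h2
  exact Submodule.add_mem _ h1 h2

lemma Os_neg {o : L} (ho : o ∈ Os k x v F) : -o ∈ Os k x v F := by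
  obtain ⟨ε, hε, h, hh, hf⟩ := ho
  refine ⟨ε, hε, h, hh, ?_⟩
  rw [mul_neg]
  exact Submodule.neg_mem _ hf

lemma Os_FL {hx : ∀ i, x i ≠ 0} {o : L} (ho : o ∈ Os k x v F) : o ∈ FL k hx v 0 F := by
  obtain ⟨ε, hε, h, hh, hf⟩ := ho
  exact ⟨ε, hε, h, hh, SFW_le_TF hf⟩

lemma Os_const (c : k) : algebraMap k L c ∈ Os k x v F := by
  rw [Algebra.algebraMap_eq_smul_one]
  exact SFW0_Os (Submodule.smul_mem _ _ one_mem_SFW)

lemma SF_lead (hx : ∀ i, x i ≠ 0) (hinj : ∀ a : ι → ℤ, wt v a = 0 → a = 0) {p : L}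
    (hp : p ∈ Sp k x (SF F ∩ Nn)) (hp0 : p ≠ 0) :
    ∃ b ∈ (SF F : Set (ι → ℤ)), ∃ c : k, c ≠ 0 ∧ ∃ ε : ℝ, 0 < ε ∧
      ∃ h ∈ Sp k x (SF F ∩ Wge v ε), p = c • (mon x b * (1 - h)) := by
  obtain ⟨b, hb, c, hc, ε, hε, h, hh, he⟩ := exists_lead hx hinj hp hp0
  refine ⟨b, hb.1, c, hc, ε, hε, h, ?_, he⟩
  refine Sp_mono ?_ hh
  rintro _ ⟨⟨a, ha, rfl⟩, ha'⟩
  exact ⟨SF_sub ha.1 hb.1, ha'⟩

lemma Os_of_lead (hx : ∀ i, x i ≠ 0) {b b' : ι → ℤ} (hb : b ∈ (SF F : Set (ι → ℤ)))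
    (hb' : b' ∈ (SF F : Set (ι → ℤ))) {c c' : k} (hc' : c' ≠ 0) {ε ε' : ℝ} (hε : 0 < ε)
    (hε' : 0 < ε') {h h' : L} (hh : h ∈ Sp k x (SF F ∩ Wge v ε))
    (hh' : h' ∈ Sp k x (SF F ∩ Wge v ε')) (hne : 1 - h' ≠ 0) (hle : wt v b' ≤ wt v b) :
    (c • (mon x b * (1 - h))) / (c' • (mon x b' * (1 - h'))) ∈ Os k x v F := by
  refine ⟨ε', hε', h', hh', ?_⟩
  have h1 : (1 - h') * ((c • (mon x b * (1 - h))) / (c' • (mon x b' * (1 - h')))) =
      (c * c'⁻¹) • (mon x (b - b') * (1 - h)) := by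
    rw [mon_sub hx, Algebra.smul_def, Algebra.smul_def, Algebra.smul_def, map_mul, map_inv₀]
    have h2 : algebraMap k L c' ≠ 0 := fun h => hc' ((map_eq_zero _).mp h)
    have h3 := mon_ne_zero hx b'
    field_simp
  rw [h1]
  refine Submodule.smul_mem _ _ ?_
  have h2 : mon x (b - b') ∈ Sp k x (SF F ∩ Wge v 0) := by
    refine mon_mem_Sp ⟨SF_sub hb hb', ?_⟩
    show 0 ≤ wt v (b - b')
    rw [wt_sub]
    linarith
  have h3 := SFW_mul hx h2 (one_sub_mem hε hh)
  rwa [add_zero] at h3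

lemma Os_total (hx : ∀ i, x i ≠ 0) (hinj : ∀ a : ι → ℤ, wt v a = 0 → a = 0) {e : L}
    (he : e ∈ EE k x F) : e ∈ Os k x v F ∨ e⁻¹ ∈ Os k x v F := by
  obtain ⟨p, hp, q, hq, hq0, rfl⟩ := mem_EE he
  by_cases hp0 : p = 0
  · left
    rw [hp0, zero_div]
    exact SFW0_Os (Submodule.zero_mem _)
  · obtain ⟨b, hb, c, hc, ε, hε, h, hh, rfl⟩ := SF_lead (v := v) hx hinj hp hp0
    obtain ⟨b', hb', c', hc', ε', hε', h', hh', rfl⟩ := SF_lead (v := v) hx hinj hq hq0
    have hne : 1 - h ≠ 0 := by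
      intro h0
      apply hp0
      rw [h0, mul_zero, smul_zero]
    have hne' : 1 - h' ≠ 0 := by
      intro h0
      apply hq0
      rw [h0, mul_zero, smul_zero]
    rcases le_total (wt v b') (wt v b) with hle | hle
    · left
      exact Os_of_lead hx hb hb' hc' hε hε' hh hh' hne' hle
    · right
      rw [inv_div]
      exact Os_of_lead hx hb' hb hc hε' hε hh' hh hne hle

/-- The valuation ring of the weights. -/
def OV (hx : ∀ i, x i ≠ 0) (hinj : ∀ a : ι → ℤ, wt v a = 0 → a = 0) (F : Finset ι) :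
    ValuationSubring (EE k x F) where
  carrier := {o | (o : L) ∈ Os k x v F}
  mul_mem' := fun ha hb => Os_mul hx ha hb
  one_mem' := SFW0_Os one_mem_SFW
  add_mem' := fun ha hb => Os_add hx ha hb
  zero_mem' := SFW0_Os (Submodule.zero_mem _)
  neg_mem' := fun ha => Os_neg ha
  mem_or_inv_mem' := fun e => Os_total hx hinj e.2

omit [Fintype ι] in
lemma prod_zpow_neg {s : L} (hs : s ≠ 0) (a : ι → ℤ) (T : Finset ι) :
    ∏ i ∈ T, s ^ (-(a i)) = s ^ (-∑ i ∈ T, a i) := by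
  induction T using Finset.induction_on with
  | empty => simp
  | insert i T hi ih =>
    rw [Finset.prod_insert hi, Finset.sum_insert hi, ih, ← zpow_add₀ hs]
    congr 1
    ring

section alg

variable (hT : IsTranscendenceBasis k (fun i : F => x i))
  (hfr : ∀ f : L, ∃ p ∈ TG k x ∅, ∃ q ∈ TG k x ∅, q ≠ 0 ∧ f = p / q)

include hT hfr

lemma adjoin_EE_top : Algebra.adjoin (EE k x F) (Set.range x) = ⊤ := by
  have halg : Algebra.IsAlgebraic (EE k x F) L := hT.isAlgebraic_field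
  rw [eq_top_iff]
  intro f _
  obtain ⟨p, hp, q, hq, hq0, rfl⟩ := hfr f
  have h1 : ∀ r ∈ TG k x ∅, r ∈ Algebra.adjoin (EE k x F) (Set.range x) := by
    intro r hr
    have h2 := TG_le_adjoin hr
    have h3 : Algebra.adjoin k (Set.range x) ≤
        (Algebra.adjoin (EE k x F) (Set.range x)).restrictScalars k :=
      Algebra.adjoin_le Algebra.subset_adjoin
    exact h3 h2
  rw [div_eq_mul_inv]
  refine Subalgebra.mul_mem _ (h1 p hp) ?_
  exact Subalgebra.inv_mem_of_algebraic (Algebra.adjoin (EE k x F) (Set.range x))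
    (x := ⟨q, h1 q hq⟩) (halg.isAlgebraic q)

lemma finite_EE : FiniteDimensional (EE k x F) L := by
  have halg : Algebra.IsAlgebraic (EE k x F) L := hT.isAlgebraic_field
  have h1 := fg_adjoin_of_finite (R := EE k x F) (Set.finite_range x)
    (fun y _ => (halg.isAlgebraic y).isIntegral)
  rw [adjoin_EE_top hT hfr, Algebra.top_toSubmodule] at h1
  exact ⟨h1⟩

lemma exists_denom (hx : ∀ i, x i ≠ 0) (f : L) :
    ∃ p ∈ Sp k x (SF F ∩ Nn), p ≠ 0 ∧ p * f ∈ TG k x ∅ := by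
  have hmul : ∀ {p q : L}, p ∈ Sp k x (SF F ∩ Nn) → q ∈ Sp k x (SF F ∩ Nn) →
      p * q ∈ Sp k x (SF F ∩ Nn) := by
    intro p q hp hq
    refine Sp_mul hx ?_ hp hq
    rintro a ⟨ha1, ha2⟩ b ⟨hb1, hb2⟩
    exact ⟨SF_add ha1 hb1, fun i => add_nonneg (ha2 i) (hb2 i)⟩
  have hTG : ∀ {p : L}, p ∈ Sp k x (SF F ∩ Nn) → p ∈ TG k x ∅ := by
    intro p hp
    refine Sp_mono ?_ hp
    rintro a ⟨_, ha⟩
    rw [EG_empty]
    exact ha
  have h1 : f ∈ Algebra.adjoin (EE k x F) (Set.range x) := by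
    rw [adjoin_EE_top hT hfr]
    exact Algebra.mem_top
  induction h1 using Algebra.adjoin_induction with
  | mem f hf =>
    obtain ⟨i, rfl⟩ := hf
    refine ⟨1, one_mem_SFN, one_ne_zero, ?_⟩
    rw [one_mul]
    exact x_mem_TGe i
  | algebraMap e =>
    obtain ⟨p, hp, q, hq, hq0, he⟩ := mem_EE e.2
    refine ⟨q, hq, hq0, ?_⟩
    have h2 : q * algebraMap (EE k x F) L e = p := by
      show q * (e : L) = p
      rw [he]
      field_simp
    rw [h2]
    exact hTG hp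
  | add f g _ _ hf hg =>
    obtain ⟨p, hp, hp0, hf⟩ := hf
    obtain ⟨q, hq, hq0, hg⟩ := hg
    refine ⟨p * q, hmul hp hq, mul_ne_zero hp0 hq0, ?_⟩
    have h2 : p * q * (f + g) = q * (p * f) + p * (q * g) := by ring
    rw [h2]
    exact Submodule.add_mem _ (TG_mul hx (hTG hq) hf) (TG_mul hx (hTG hp) hg)
  | mul f g _ _ hf hg =>
    obtain ⟨p, hp, hp0, hf⟩ := hf
    obtain ⟨q, hq, hq0, hg⟩ := hg
    refine ⟨p * q, hmul hp hq, mul_ne_zero hp0 hq0, ?_⟩
    have h2 : p * q * (f * g) = (p * f) * (q * g) := by ring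
    rw [h2]
    exact TG_mul hx hf hg

/-- Every element of the field lies in some step of the filtration. -/
lemma exists_FL (hx : ∀ i, x i ≠ 0) (hinj : ∀ a : ι → ℤ, wt v a = 0 → a = 0) (f : L) :
    ∃ ν : ℝ, f ∈ FL k hx v ν F := by
  obtain ⟨p, hp, hp0, hg⟩ := exists_denom hT hfr hx f
  obtain ⟨b, hb, c, hc, ε, hε, h, hh, rfl⟩ := SF_lead (v := v) hx hinj hp hp0
  have h1 : (1 - h) * f ∈ TG k x F := by
    have h2 : (1 - h) * f = c⁻¹ • ((c • (mon x b * (1 - h)) * f) * mon x (-b)) := by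
      rw [smul_mul_assoc, smul_mul_assoc, smul_smul, inv_mul_cancel₀ hc, one_smul, mon_neg]
      have := mon_ne_zero hx b
      field_simp
    rw [h2]
    refine Submodule.smul_mem _ _ (Sp_mul_mon hx ?_ hg)
    intro a ha i hi
    rw [Pi.add_apply, Pi.neg_apply, hb i hi, neg_zero, add_zero]
    exact ha i (Finset.notMem_empty i)
  obtain ⟨μ, hμ⟩ := mem_Sp_finite_wt (v := v) h1
  exact ⟨μ, ε, hε, h, hh, hμ⟩

/-- The inverse of a linear form is homogeneous of degree `-1`. -/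
lemma inv_HL (hx : ∀ i, x i ≠ 0) (H : Homog k x) {s : L} (hs : s ∈ RG k x 1 ∅) (hs0 : s ≠ 0) :
    s⁻¹ ∈ HL k x F (-1) := by
  obtain ⟨p, hp, hp0, hg⟩ := exists_denom hT hfr hx s⁻¹
  obtain ⟨e, he⟩ : ∃ e, hc H e p ≠ 0 := by
    by_contra hcon
    push Not at hcon
    obtain ⟨J, hJ, _⟩ := sum_hc H hp
    apply hp0
    rw [hJ J (Finset.Subset.refl _)]
    exact Finset.sum_eq_zero fun e _ => hcon e
  refine ⟨e, hc H e p, ?_, he, ?_⟩
  · refine Sp_mono ?_ (hc_mem H hp)
    rintro a ⟨⟨ha1, _⟩, ha3⟩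
    exact ⟨ha1, ha3⟩
  · have h1 : p = s * (p * s⁻¹) := by field_simp
    have h2 : hc H e p = s * hc H (e - 1) (p * s⁻¹) := by
      have h3 := hc_mul (j := e - 1) hx H Set.inter_subset_right hs hg
      have h4 : (1 : ℤ) + (e - 1) = e := by ring
      rw [h4, ← h1] at h3
      exact h3
    have h3 : hc H e p * s⁻¹ = hc H (e - 1) (p * s⁻¹) := by
      rw [h2]
      field_simp
    rw [h3]
    exact RG_FMono x _ _ _ (Finset.empty_subset F) (hc_RG H hg)

/-- Boundedness of the degree-zero elements regular where `s` is invertible. -/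
lemma bounded (hx : ∀ i, x i ≠ 0) (hinj : ∀ a : ι → ℤ, wt v a = 0 → a = 0) {s : L}
    (hint : ∀ i, IsIntegral (OV (k := k) (v := v) hx hinj F) (x i / s)) :
    ∃ C : ℝ, ∀ e : ℤ, ∀ g ∈ RG k x e ∅, g * s ^ (-e) ∈ FL k hx v C F := by
  classical
  have hfg := fg_adjoin_of_finite (R := OV (k := k) (v := v) hx hinj F)
    (Set.finite_range (fun i => x i / s)) (by
      rintro _ ⟨i, rfl⟩
      exact hint i)
  obtain ⟨S, hS⟩ := hfg
  have hch : ∀ f : L, ∃ ν : ℝ, f ∈ FL k hx v ν F := exists_FL hT hfr hx hinj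
  choose ν hν using hch
  obtain ⟨C, hC⟩ : ∃ C : ℝ, ∀ f ∈ S, C ≤ ν f := by
    rcases S.eq_empty_or_nonempty with h | h
    · exact ⟨0, fun f hf => by simp [h] at hf⟩
    · obtain ⟨f₀, _, hmin⟩ := Finset.exists_min_image S ν h
      exact ⟨ν f₀, hmin⟩
  have hall : ∀ f ∈ Algebra.adjoin (OV (k := k) (v := v) hx hinj F)
      (Set.range (fun i => x i / s)), f ∈ FL k hx v C F := by
    intro f hf
    rw [← Subalgebra.mem_toSubmodule, ← hS] at hf
    induction hf using Submodule.span_induction with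
    | mem f hf => exact FL_anti (hC f hf) (hν f)
    | zero => exact Submodule.zero_mem _
    | add f g _ _ hf hg => exact Submodule.add_mem _ hf hg
    | smul o f _ hf =>
      have h1 : ((o : EE k x F) : L) ∈ FL k hx v 0 F := Os_FL o.2
      have h2 := FL_mul h1 hf
      rw [zero_add] at h2
      exact h2
  refine ⟨C, fun e g hg => ?_⟩
  unfold RG Sp at hg
  induction hg using Submodule.span_induction with
  | mem g hg =>
    obtain ⟨a, ⟨ha1, ha2⟩, rfl⟩ := hg
    refine hall _ ?_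
    rw [EG_empty] at ha1
    have ha2' : dg a = e := ha2
    have h1 : mon x a * s ^ (-e) = ∏ i, (x i / s) ^ (a i).toNat := by
      by_cases hs0 : s = 0
      · -- then all `x i / s = 0`
        subst hs0
        by_cases he : e = 0
        · have h2 : ∀ i, a i = 0 := by
            intro i
            have h3 : a i ≤ dg a := Finset.single_le_sum (f := a) (fun l _ => ha1 l)
              (Finset.mem_univ i)
            have h4 := ha1 i
            omega
          have h5 : a = 0 := funext h2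
          subst h5
          subst he
          rw [mon_zero]
          simp
        · obtain ⟨i, hi⟩ : ∃ i, a i ≠ 0 := by
            by_contra hcon
            push Not at hcon
            apply he
            have h5 : a = 0 := funext hcon
            rw [← ha2', h5, dg_zero]
          rw [zero_zpow _ (neg_ne_zero.mpr he), mul_zero]
          refine (Finset.prod_eq_zero (Finset.mem_univ i) ?_).symm
          rw [div_zero, zero_pow]
          have := ha1 i
          omega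
      · have h2 : ∀ i, (x i / s) ^ (a i).toNat = x i ^ a i * s ^ (-(a i)) := by
          intro i
          have h3 : ((a i).toNat : ℤ) = a i := Int.toNat_of_nonneg (ha1 i)
          rw [← zpow_natCast, h3, div_zpow, zpow_neg, div_eq_mul_inv]
        rw [Finset.prod_congr rfl fun i _ => h2 i, Finset.prod_mul_distrib,
          prod_zpow_neg hs0 a Finset.univ, ← ha2']
        rfl
    rw [h1]
    exact Subalgebra.prod_mem _ fun i _ => Subalgebra.pow_mem _
      (Algebra.subset_adjoin (Set.mem_range_self i)) _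
  | zero => rw [zero_mul]; exact Submodule.zero_mem _
  | add f g _ _ hf hg => rw [add_mul]; exact Submodule.add_mem _ hf hg
  | smul c f _ hf => rw [smul_mul_assoc]; exact Submodule.smul_mem _ _ hf

end alg

end Pool.Agent.MP8049


/-! ## Part Top -/

set_option autoImplicit false

/-! In the top degree every constant cochain is a coboundary up to large weight. -/

namespace Pool.Agent.MP8049

variable {ι : Type} [Fintype ι] [LinearOrder ι]
variable {L : Type} [Field L] {k : Type} [Field k] [Algebra k L]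
variable {x : ι → L} {v : ι → ℝ} {q : ℕ} {σ : ℤ} {ν₀ : ℝ} {τ : ℤ} {F : Finset ι}

omit [Fintype ι] in
lemma dlt_smul (F : Finset ι) (c : k) (f : L) : dlt F (c • f) = c • dlt F f := by
  funext G
  simp only [dlt, Pi.smul_apply]
  split_ifs <;> simp

omit [Fintype ι] in
lemma dlt_zero (F : Finset ι) : dlt F (0 : L) = 0 := by
  funext G
  simp [dlt]

/-- elements that are trivial up to large weight -/
def NT (k : Type) {L : Type} [Field k] [Field L] [Algebra k L] {x : ι → L} (hx : ∀ i, x i ≠ 0)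
    (v : ι → ℝ) (q : ℕ) (ν : ℝ) (F : Finset ι) : Submodule k L where
  carrier := {f | ∃ r ∈ TG k x F, dlt F r ∈ NN k x v q ν ∧ f - r ∈ FL k hx v ν F}
  add_mem' := by
    rintro f g ⟨r, hr1, hr2, hr3⟩ ⟨s, hs1, hs2, hs3⟩
    refine ⟨r + s, Submodule.add_mem _ hr1 hs1, ?_, ?_⟩
    · rw [dlt_add]
      exact Submodule.add_mem _ hr2 hs2
    · rw [add_sub_add_comm]
      exact Submodule.add_mem _ hr3 hs3
  zero_mem' := by
    refine ⟨0, Submodule.zero_mem _, ?_, ?_⟩
    · rw [dlt_zero]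
      exact Submodule.zero_mem _
    · rw [sub_zero]
      exact Submodule.zero_mem _
  smul_mem' := by
    rintro c f ⟨r, hr1, hr2, hr3⟩
    refine ⟨c • r, Submodule.smul_mem _ _ hr1, ?_, ?_⟩
    · rw [dlt_smul]
      exact Submodule.smul_mem _ _ hr2
    · rw [← smul_sub]
      exact Submodule.smul_mem _ _ hr3

lemma FL_le_NT {hx : ∀ i, x i ≠ 0} {ν : ℝ} : FL k hx v ν F ≤ NT k hx v q ν F := by
  intro f hf
  refine ⟨0, Submodule.zero_mem _, ?_, ?_⟩
  · rw [dlt_zero]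
    exact Submodule.zero_mem _
  · rwa [sub_zero]

lemma NT_TG {hx : ∀ i, x i ≠ 0} {ν : ℝ} (hF : F.card = q) {f : L} (hf : f ∈ NT k hx v q ν F)
    (hfG : f ∈ TG k x F) : dlt F f ∈ NN k x v q ν := by
  obtain ⟨r, hr1, hr2, hr3⟩ := hf
  have h1 := FL_inter_TG hr3 (Submodule.sub_mem _ hfG hr1)
  have h2 : dlt F f = dlt F r + dlt F (f - r) := by
    rw [← dlt_add]
    congr 1
    ring
  rw [h2]
  exact Submodule.add_mem _ hr2 (Submodule.mem_sup_right (dlt_mem (P := TF k x v ν) hF h1))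

lemma NT_mul {hx : ∀ i, x i ≠ 0} (hv : ∀ i, 0 < v i) {ν : ℝ} {f g : L} (hg : g ∈ TG k x ∅)
    (hf : f ∈ NT k hx v q ν F) : g * f ∈ NT k hx v q ν F := by
  obtain ⟨r, hr1, hr2, hr3⟩ := hf
  refine ⟨g * r, TG_smul_mem hx hg hr1, ?_, ?_⟩
  · rw [dlt_mul]
    exact NN_mul hx hv hg hr2
  · rw [← mul_sub]
    have h1 := FL_mul (hx := hx) (TF_le_FL (TG_empty_le hv F hg)) hr3
    rwa [zero_add] at h1

lemma TopHyp.NT_hs (h : TopHyp k x v q σ ν₀ τ) {ν : ℝ} (hν : ν₀ < ν) (hF : F.card = q) {M : ℕ}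
    {D : HSm L M} (hD : D.Pres (TG k x ∅ : Set L)) {t : ℕ} (ht : t < M) {f : L}
    (hf : f ∈ NT k h.hx v q ν F) : D.D t f ∈ NT k h.hx v q ν F := by
  obtain ⟨r, hr1, hr2, hr3⟩ := hf
  obtain ⟨r', hr'1, hr'2⟩ := FL_approx hr3 (ν + t * VV v)
  have h1 : f = (r + r') + (f - r - r') := by ring
  rw [h1, D.add]
  refine Submodule.add_mem _ ⟨D.D t (r + r'), ?_, ?_, ?_⟩ (FL_le_NT ?_)
  · exact D.pres_TG h.hx hD F t ht _ (Submodule.add_mem _ hr1 (TF_le_TG x v ν F hr'1))
  · have h2 : dlt F (D.D t (r + r')) = fun G => D.D t (dlt F (r + r') G) := by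
      funext G
      simp only [dlt]
      split_ifs
      · rfl
      · exact (D.hom t).map_zero.symm
    rw [h2]
    refine h.NN_hs hν hD ht ?_
    rw [dlt_add]
    exact Submodule.add_mem _ hr2 (Submodule.mem_sup_right (dlt_mem (P := TF k x v ν) hF hr'1))
  · rw [sub_self]
    exact Submodule.zero_mem _
  · have h2 := FL_shift h.hv hD hr'2 t ht
    have h3 : ν + t * VV v - t * VV v = ν := by ring
    rwa [h3] at h2

/-- the localization at `s` -/
def BS (k : Type) {L : Type} [Field k] [Field L] [Algebra k L] {x : ι → L} (hx : ∀ i, x i ≠ 0)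
    {s : L} (hs : s ∈ TG k x ∅) : Subalgebra k L where
  carrier := {y | ∃ m : ℕ, y * s ^ m ∈ TG k x ∅}
  mul_mem' := by
    rintro y y' ⟨m, hm⟩ ⟨m', hm'⟩
    refine ⟨m + m', ?_⟩
    have h1 : y * y' * s ^ (m + m') = (y * s ^ m) * (y' * s ^ m') := by ring
    rw [h1]
    exact TG_mul hx hm hm'
  add_mem' := by
    rintro y y' ⟨m, hm⟩ ⟨m', hm'⟩
    have hpow : ∀ m : ℕ, s ^ m ∈ TG k x ∅ := by
      intro m
      induction m with
      | zero => rw [pow_zero]; exact one_mem_TG ∅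
      | succ m ih => rw [pow_succ]; exact TG_mul hx ih hs
    refine ⟨m + m', ?_⟩
    have h1 : (y + y') * s ^ (m + m') = (y * s ^ m) * s ^ m' + (y' * s ^ m') * s ^ m := by ring
    rw [h1]
    exact Submodule.add_mem _ (TG_mul hx hm (hpow m')) (TG_mul hx hm' (hpow m))
  algebraMap_mem' := by
    intro c
    refine ⟨0, ?_⟩
    rw [pow_zero, mul_one, Algebra.algebraMap_eq_smul_one]
    exact Submodule.smul_mem _ _ (one_mem_TG ∅)

lemma mem_BS {hx : ∀ i, x i ≠ 0} {s : L} {hs : s ∈ TG k x ∅} {y : L} :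
    y ∈ BS k hx hs ↔ ∃ m : ℕ, y * s ^ m ∈ TG k x ∅ := Iff.rfl

lemma TG_BS {hx : ∀ i, x i ≠ 0} {s : L} {hs : s ∈ TG k x ∅} {y : L} (hy : y ∈ TG k x ∅) :
    y ∈ BS k hx hs := ⟨0, by rwa [pow_zero, mul_one]⟩

lemma BS_hs {hx : ∀ i, x i ≠ 0} {s : L} {hs : s ∈ TG k x ∅} {M : ℕ} {D : HSm L M}
    (hD : D.Pres (TG k x ∅ : Set L)) (t : ℕ) : t < M → ∀ y ∈ BS k hx hs, D.D t y ∈ BS k hx hs := by
  induction t using Nat.strong_induction_on with
  | _ t ih =>
    intro ht y hy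
    obtain ⟨m, hm⟩ := hy
    have hpow : s ^ m ∈ TG k x ∅ := by
      clear hm
      induction m with
      | zero => rw [pow_zero]; exact one_mem_TG ∅
      | succ m ih => rw [pow_succ]; exact TG_mul hx ih hs
    have h1 : D.D t y * s ^ m ∈ BS k hx hs := by
      rw [D.leib_top ht]
      refine Subalgebra.sub_mem _ (TG_BS (hD t ht _ hm)) (Subalgebra.sum_mem _ fun i hi => ?_)
      rw [Finset.mem_range] at hi
      exact Subalgebra.mul_mem _ (ih i hi (by omega) y ⟨m, hm⟩)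
        (TG_BS (hD (t - i) (by omega) _ hpow))
    obtain ⟨m', hm'⟩ := h1
    refine ⟨m + m', ?_⟩
    rwa [pow_add, ← mul_assoc]

/-- The central claim. -/
theorem TopHyp.unit (h : TopHyp k x v q σ ν₀ τ) [Infinite k] (hq : 2 ≤ q)
    (hfr : ∀ f : L, ∃ p ∈ TG k x ∅, ∃ q ∈ TG k x ∅, q ≠ 0 ∧ f = p / q) {ν : ℝ} (hν : ν₀ < ν)
    (hF : F.card = q) (hT : IsTranscendenceBasis k (fun i : F => x i)) :
    dlt F (1 : L) ∈ NN k x v q ν := by
  classical
  have hfin : FiniteDimensional (EE k x F) L := finite_EE hT hfr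
  -- two variables of different weights
  obtain ⟨n, hn, f, hf, hnf⟩ : ∃ n ∈ F, ∃ f ∈ F, v f < v n := by
    obtain ⟨i, hi, j, hj, hij⟩ := Finset.one_lt_card.mp (show 1 < F.card by omega)
    have hne : v i ≠ v j := by
      intro he
      have h1 : (Pi.single i 1 - Pi.single j 1 : ι → ℤ) = 0 := by
        refine h.hinj _ ?_
        rw [wt_sub, wt_single, wt_single, he, sub_self]
      have h2 := congrFun h1 i
      rw [Pi.sub_apply, Pi.single_eq_same, Pi.single_eq_of_ne hij] at h2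
      simp at h2
    rcases lt_or_gt_of_ne hne with h1 | h1
    · exact ⟨j, hj, i, hi, h1⟩
    · exact ⟨i, hi, j, hj, h1⟩
  obtain ⟨c, hs0', hint⟩ := exists_integral_ratio (k := k) (E := EE k x F) (L := L)
    (OV (k := k) (v := v) h.hx h.hinj F) (fun c => Os_const c) x ⟨n, h.hx n⟩
  set s : L := ∑ i, algebraMap (EE k x F) L (algebraMap k (EE k x F) (c i)) * x i with hs_def
  have hs_eq : s = ∑ i, c i • x i := by
    rw [hs_def]
    refine Finset.sum_congr rfl fun i _ => ?_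
    rw [← IsScalarTower.algebraMap_apply k (EE k x F) L, ← Algebra.smul_def]
  have hs1 : s ∈ RG k x 1 ∅ := by
    rw [hs_eq]
    exact Submodule.sum_mem _ fun i _ => Submodule.smul_mem _ _ (x_mem_RG ∅ i)
  have hs : s ∈ TG k x ∅ := RG_le_TG x 1 ∅ hs1
  have hs0 : s ≠ 0 := hs0'
  obtain ⟨C, hC⟩ := bounded hT hfr h.hx h.hinj (s := s) hint
  -- bound for the powers of `s`
  obtain ⟨C', hC'⟩ : ∃ C' : ℝ, ∀ j : ℤ, -σ ≤ j → j ≤ τ → s ^ j ∈ FL k h.hx v C' F := by
    have hch : ∀ j : ℤ, ∃ ν : ℝ, s ^ j ∈ FL k h.hx v ν F := fun j =>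
      exists_FL hT hfr h.hx h.hinj (s ^ j)
    choose μ hμ using hch
    rcases (Finset.Icc (-σ) τ).eq_empty_or_nonempty with he | he
    · refine ⟨0, fun j h1 h2 => ?_⟩
      have : j ∈ Finset.Icc (-σ) τ := Finset.mem_Icc.mpr ⟨h1, h2⟩
      rw [he] at this
      exact absurd this (Finset.notMem_empty _)
    · obtain ⟨j₀, _, hmin⟩ := Finset.exists_min_image _ μ he
      exact ⟨μ j₀, fun j h1 h2 => FL_anti (hmin j (Finset.mem_Icc.mpr ⟨h1, h2⟩)) (hμ j)⟩
  obtain ⟨M, hM⟩ := exists_nat_gt ((ν - C - C') / (v n - v f))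
  rw [div_lt_iff₀ (by linarith)] at hM
  have hinvHL := inv_HL hT hfr h.hx h.H hs1 hs0
  -- the claim on homogeneous elements
  have hHL : ∀ (m : ℕ) (e : ℤ), ∀ g ∈ RG k x e ∅,
      x n ^ M * (g * s⁻¹ ^ m) ∈ HL k x F (M + e - m) := by
    intro m e g hg
    have h1 : x n ^ M ∈ HL k x F M := by
      have := HL_pow h.hx (RG_HL (x_mem_RG (k := k) (x := x) F n)) M
      rwa [mul_one] at this
    have h2 : g ∈ HL k x F e := RG_HL (RG_FMono x _ _ _ (Finset.empty_subset F) hg)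
    have h3 := HL_mul h.hx h1 (HL_mul h.hx h2 (HL_pow h.hx hinvHL m))
    have h4 : (M : ℤ) + (e + m * -1) = M + e - m := by ring
    rwa [h4] at h3
  have hratio : ∀ N : ℕ, (x n * (x f)⁻¹) ^ N ∈ TF k x v (N * (v n - v f)) F := by
    have h1 : x n * (x f)⁻¹ ∈ TF k x v (v n - v f) F := by
      have h2 : x n * (x f)⁻¹ = mon x (Pi.single n 1 - Pi.single f 1) := by
        rw [mon_sub h.hx, mon_single, mon_single, zpow_one, zpow_one]
      rw [h2]
      refine mon_mem_Sp ⟨fun i hi => ?_, ?_⟩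
      · have h3 : i ≠ n := fun h => hi (h ▸ hn)
        have h4 : i ≠ f := fun h => hi (h ▸ hf)
        rw [Pi.sub_apply, Pi.single_eq_of_ne h3, Pi.single_eq_of_ne h4, sub_zero]
      · show v n - v f ≤ wt v (Pi.single n 1 - Pi.single f 1)
        rw [wt_sub, wt_single, wt_single]
        simp
    intro N
    induction N with
    | zero =>
      rw [pow_zero, ← mon_zero x]
      refine mon_mem_Sp ⟨fun i _ => le_refl _, ?_⟩
      show ((0 : ℕ) : ℝ) * (v n - v f) ≤ wt v 0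
      rw [wt_zero]
      simp
    | succ N ih =>
      rw [pow_succ]
      have h2 := TF_mul h.hx ih h1
      have h3 : ((N + 1 : ℕ) : ℝ) * (v n - v f) = N * (v n - v f) + (v n - v f) := by
        push_cast
        ring
      rwa [h3]
  have hhom : ∀ (n' : ℕ) (m : ℕ) (e : ℤ), ∀ g ∈ RG k x e ∅, -σ - (M + e - m) ≤ n' →
      x n ^ M * (g * s⁻¹ ^ m) ∈ NT k h.hx v q ν F := by
    intro n'
    induction n' with
    | zero =>
      intro m e g hg hle
      by_cases hlarge : τ < (M : ℤ) + e - m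
      · obtain ⟨r, hr1, hr2⟩ := HL_approx (hx := h.hx) h.hinj (hHL m e g hg) ν
        exact ⟨r, RG_le_TG x _ F hr1, h.dlt_large hν hF hlarge hr1, hr2⟩
      · push Not at hlarge
        refine FL_le_NT ?_
        have h1 : x f ^ M * g ∈ RG k x (M + e) ∅ := by
          have h2 : x f ^ M ∈ RG k x M ∅ := by
            have h3 : x f ^ M = mon x (Pi.single f (M : ℤ)) := by
              rw [mon_single, zpow_natCast]
            rw [h3]
            refine mon_mem_Sp ⟨fun i _ => ?_, dg_single f _⟩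
            by_cases hi : i = f
            · subst hi; rw [Pi.single_eq_same]; exact Int.natCast_nonneg M
            · rw [Pi.single_eq_of_ne hi]
          exact RG_mul h.hx h2 hg
        have h2 := hC _ _ h1
        have h3 := hC' ((M : ℤ) + e - m) (by push_cast at hle; omega) hlarge
        have h4 := FL_mul (FL_mul (hx := h.hx) (TF_le_FL (hratio M)) h2) h3
        have h5 : (x n * (x f)⁻¹) ^ M * (x f ^ M * g * s ^ (-((M : ℤ) + e))) *
            s ^ ((M : ℤ) + e - m) = x n ^ M * (g * s⁻¹ ^ m) := by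
          have hxf := h.hx f
          have h6 : s ^ (-((M : ℤ) + e)) * s ^ ((M : ℤ) + e - m) = s⁻¹ ^ m := by
            rw [← zpow_add₀ hs0, inv_pow, ← zpow_natCast, ← zpow_neg]
            congr 1
            ring
          rw [← h6, mul_pow, inv_pow]
          field_simp
        rw [h5] at h4
        exact FL_anti (by linarith) h4
    | succ n' ih =>
      intro m e g hg hle
      by_cases hsmall : (M : ℤ) + e - m < -σ
      · obtain ⟨r, hr1, hr2⟩ := HL_approx (hx := h.hx) h.hinj (hHL m e g hg) ν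
        refine ⟨r, RG_le_TG x _ F hr1, h.dlt_small hν hF hsmall hr1 fun i => ?_, hr2⟩
        refine NT_TG (hx := h.hx) hF ?_ (TG_smul_mem h.hx (x_mem_TGe i) (RG_le_TG x _ F hr1))
        have h1 := ih m (e + 1) (x i * g) (x_mul_RG h.hx i hg) (by push_cast at hle ⊢; omega)
        have h2 : x i * r = x n ^ M * ((x i * g) * s⁻¹ ^ m) -
            x i * (x n ^ M * (g * s⁻¹ ^ m) - r) := by ring
        rw [h2]
        refine Submodule.sub_mem _ h1 (NT_mul h.hv (x_mem_TGe i) (FL_le_NT hr2))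
      · exact ih m e g hg (by push_cast at hle ⊢; omega)
  have hM' : ∀ y ∈ BS k h.hx hs, x n ^ M * y ∈ NT k h.hx v q ν F := by
    rintro y ⟨m, hm⟩
    obtain ⟨J, hJ, _⟩ := sum_hc h.H hm
    have h1 : y = ∑ e ∈ J, hc h.H e (y * s ^ m) * s⁻¹ ^ m := by
      rw [← Finset.sum_mul, ← hJ J (Finset.Subset.refl _), mul_assoc, ← mul_pow,
        mul_inv_cancel₀ hs0, one_pow, mul_one]
    rw [h1, Finset.mul_sum]
    refine Submodule.sum_mem _ fun e _ => ?_
    have h2 : hc h.H e (y * s ^ m) ∈ RG k x e ∅ := hc_RG h.H hm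
    exact hhom (-σ - (M + e - m)).toNat m e _ h2 (Int.self_le_toNat _)
  -- the ideal
  set J : Set L := {r | r ∈ TG k x ∅ ∧ ∀ y ∈ BS k h.hx hs, r * y ∈ NT k h.hx v q ν F} with hJ
  have hxN : ∀ i, ∃ N : ℕ, x i ^ N ∈ J := by
    refine h.hs J (fun f hf => hf.1) ?_ ?_ ?_ ?_
    · rintro r ⟨hr1, hr2⟩ r' ⟨hr'1, hr'2⟩
      refine ⟨Submodule.add_mem _ hr1 hr'1, fun y hy => ?_⟩
      rw [add_mul]
      exact Submodule.add_mem _ (hr2 y hy) (hr'2 y hy)
    · rintro a ha r ⟨hr1, hr2⟩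
      refine ⟨TG_mul h.hx ha hr1, fun y hy => ?_⟩
      rw [mul_assoc]
      exact NT_mul h.hv ha (hr2 y hy)
    · refine ⟨x n ^ M, ⟨?_, hM'⟩, pow_ne_zero _ (h.hx n)⟩
      have h3 : x n ^ M = mon x (Pi.single n (M : ℤ)) := by
        rw [mon_single, zpow_natCast]
      rw [h3]
      refine mon_mem_Sp fun i _ => ?_
      by_cases hi : i = n
      · subst hi; rw [Pi.single_eq_same]; exact Int.natCast_nonneg M
      · rw [Pi.single_eq_of_ne hi]
    · intro M' D hD t
      induction t using Nat.strong_induction_on with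
      | _ t ih =>
        intro ht r hr
        refine ⟨hD t ht r hr.1, fun y hy => ?_⟩
        rw [D.leib_top ht]
        refine Submodule.sub_mem _ (h.NT_hs hν hF hD ht (hr.2 y hy))
          (Submodule.sum_mem _ fun i hi => ?_)
        rw [Finset.mem_range] at hi
        exact (ih i hi (by omega) r hr).2 _ (BS_hs hD (t - i) (by omega) y hy)
  -- the unit ideal
  let I : Ideal (BS k h.hx hs) :=
    { carrier := {b | ∀ y ∈ BS k h.hx hs, (b : L) * y ∈ NT k h.hx v q ν F}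
      add_mem' := by
        intro a b ha hb y hy
        have : ((a + b : BS k h.hx hs) : L) * y = a * y + b * y := by
          rw [Subalgebra.coe_add, add_mul]
        rw [this]
        exact Submodule.add_mem _ (ha y hy) (hb y hy)
      zero_mem' := by
        intro y _
        rw [Subalgebra.coe_zero, zero_mul]
        exact Submodule.zero_mem _
      smul_mem' := by
        intro a b hb y hy
        have : ((a • b : BS k h.hx hs) : L) * y = b * (a * y) := by
          rw [smul_eq_mul, Subalgebra.coe_mul]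
          ring
        rw [this]
        exact hb _ (Subalgebra.mul_mem _ a.2 hy) }
  let X : ι → BS k h.hx hs := fun i => ⟨x i, TG_BS (x_mem_TGe i)⟩
  have hXr : ∀ i, X i ∈ I.radical := by
    intro i
    obtain ⟨N, hN⟩ := hxN i
    refine ⟨N, fun y hy => ?_⟩
    have : ((X i ^ N : BS k h.hx hs) : L) = x i ^ N := by
      rw [Subalgebra.coe_pow]
    rw [this]
    exact hN.2 y hy
  have hsr : (⟨s, TG_BS hs⟩ : BS k h.hx hs) ∈ I.radical := by
    have h1 : (⟨s, TG_BS hs⟩ : BS k h.hx hs) = ∑ i, c i • X i := by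
      apply Subtype.ext
      rw [AddSubmonoidClass.coe_finsetSum]
      exact hs_eq
    rw [h1]
    refine Submodule.sum_mem _ fun i _ => ?_
    rw [Algebra.smul_def]
    exact Ideal.mul_mem_left _ _ (hXr i)
  have hsinv : s⁻¹ ∈ BS k h.hx hs := by
    refine ⟨1, ?_⟩
    rw [pow_one, inv_mul_cancel₀ hs0]
    exact one_mem_TG ∅
  have htop : I.radical = ⊤ := by
    rw [Ideal.eq_top_iff_one]
    have h1 := Ideal.mul_mem_left I.radical (⟨s⁻¹, hsinv⟩ : BS k h.hx hs) hsr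
    have h2 : (⟨s⁻¹, hsinv⟩ : BS k h.hx hs) * ⟨s, TG_BS hs⟩ = 1 := by
      apply Subtype.ext
      exact inv_mul_cancel₀ hs0
    rwa [h2] at h1
  have h1I : (1 : BS k h.hx hs) ∈ I := by
    rw [← Ideal.eq_top_iff_one]
    exact Ideal.radical_eq_top.mp htop
  have h1 := h1I 1 (Subalgebra.one_mem _)
  rw [Subalgebra.coe_one, one_mul] at h1
  exact NT_TG hF h1 (one_mem_TG F)

end Pool.Agent.MP8049
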