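import Mathlib
import Pool.Agent.Lib.MP_8049df_ag.Mon

set_option autoImplicit false

/-! Transfer of exactness: from the faces containing a face to its link, from an extension field
to the base field, and along an order embedding. -/

namespace Pool.Agent.MP8049

/-- exactness of the cochain complex of a family of finite sets -/
def CE {α : Type*} [LinearOrder α] (P : Finset α → Prop) (R : Type*) [Field R] (q : ℕ) : Prop :=
  ∀ z : Finset α → R, (∀ G, z G ≠ 0 → P G ∧ G.card = q) →
    (∀ G, P G → G.card = q + 1 → cd z G = 0) →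
    ∃ s : Finset α → R, (∀ G, s G ≠ 0 → P G ∧ G.card + 1 = q) ∧
      ∀ G, P G → G.card = q → cd s G = z G

section link

variable {α : Type*} [LinearOrder α] {R : Type*} [Field R] {F : Finset α}

/-- the sign between a set and its union with `F` -/
def eps (F G : Finset α) : ℤ := ∏ w ∈ G, sg F w

lemma eps_mul_self (F G : Finset α) : eps F G * eps F G = 1 := by
  unfold eps
  rw [← Finset.prod_mul_distrib]
  exact Finset.prod_eq_one fun w _ => sg_mul_self F w

lemma eps_erase {G : Finset α} {g : α} (hg : g ∈ G) : eps F (G.erase g) = eps F G * sg F g := by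
  unfold eps
  rw [← Finset.mul_prod_erase _ _ hg, mul_comm (sg F g), mul_assoc, sg_mul_self, mul_one]

lemma sg_union {G : Finset α} (hG : Disjoint G F) (g : α) : sg (G ∪ F) g = sg G g * sg F g := by
  unfold sg
  rw [Finset.filter_union, Finset.card_union_of_disjoint, pow_add]
  exact Finset.disjoint_filter_filter hG

lemma cd_union {S s : Finset α → R} (hS : ∀ H, S H ≠ 0 → F ⊆ H)
    (hs : ∀ G, Disjoint G F → s G = eps F G • S (G ∪ F)) {G : Finset α} (hG : Disjoint G F) :
    cd s G = eps F G • cd S (G ∪ F) := by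
  rw [cd_apply, cd_apply, Finset.sum_union hG]
  have h1 : ∑ g ∈ F, sg (G ∪ F) g • S ((G ∪ F).erase g) = 0 := by
    refine Finset.sum_eq_zero fun g hg => ?_
    have h2 : S ((G ∪ F).erase g) = 0 := by
      by_contra hne
      exact Finset.notMem_erase g _ (hS _ hne hg)
    rw [h2, smul_zero]
  rw [h1, add_zero, Finset.smul_sum]
  refine Finset.sum_congr rfl fun g hg => ?_
  have hgF : g ∉ F := Finset.disjoint_left.mp hG hg
  rw [hs _ (Finset.disjoint_of_subset_left (Finset.erase_subset g G) hG), eps_erase hg,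
    sg_union hG, Finset.erase_union_distrib, Finset.erase_eq_of_notMem hgF, smul_smul, smul_smul]
  congr 1
  ring

lemma CE_link {Face : Finset α → Prop} (q : ℕ)
    (h : CE (fun G => F ⊆ G ∧ Face G) R (q + F.card)) :
    CE (fun G => G ∩ F = ∅ ∧ Face (G ∪ F)) R q := by
  classical
  intro z hz1 hz2
  have hsdu : ∀ G : Finset α, Disjoint G F → (G ∪ F) \ F = G := by
    intro G hG
    rw [Finset.union_sdiff_right]
    exact Finset.sdiff_eq_self_of_disjoint hG
  set Z : Finset α → R := fun H => if F ⊆ H then eps F (H \ F) • z (H \ F) else 0 with hZ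
  have hZu : ∀ G : Finset α, Disjoint G F → z G = eps F G • Z (G ∪ F) := by
    intro G hG
    simp only [hZ, Finset.subset_union_right, if_true, hsdu G hG]
    rw [smul_smul, eps_mul_self, one_smul]
  have hZF : ∀ H, Z H ≠ 0 → F ⊆ H := by
    intro H hH
    by_contra hn
    exact hH (if_neg hn)
  obtain ⟨S, hS1, hS2⟩ := h Z (by
    intro H hH
    have hF := hZF H hH
    have h1 : z (H \ F) ≠ 0 := by
      intro h0
      apply hH
      simp only [hZ, hF, if_true, h0, smul_zero]
    obtain ⟨⟨h2, h3⟩, h4⟩ := hz1 _ h1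
    rw [Finset.sdiff_union_of_subset hF] at h3
    refine ⟨⟨hF, h3⟩, ?_⟩
    have h5 := Finset.card_sdiff_add_card_eq_card hF
    omega) (by
    rintro H ⟨hF, hFace⟩ hc
    have hdis : Disjoint (H \ F) F := Finset.sdiff_disjoint
    have h1 := cd_union hZF hZu hdis
    rw [Finset.sdiff_union_of_subset hF] at h1
    have h2 : cd z (H \ F) = 0 := by
      refine hz2 _ ⟨?_, ?_⟩ ?_
      · exact Finset.disjoint_iff_inter_eq_empty.mp hdis
      · rwa [Finset.sdiff_union_of_subset hF]
      · have h5 := Finset.card_sdiff_add_card_eq_card hF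
        omega
    rw [h2] at h1
    have h3 := congrArg (fun r => eps F (H \ F) • r) h1
    simp only [smul_zero, smul_smul, eps_mul_self, one_smul] at h3
    exact h3.symm)
  refine ⟨fun G => if Disjoint G F then eps F G • S (G ∪ F) else 0, ?_, ?_⟩
  · intro G hG
    by_cases hd : Disjoint G F
    · have h1 : S (G ∪ F) ≠ 0 := by
        intro h0
        apply hG
        simp only [hd, if_true, h0, smul_zero]
      obtain ⟨⟨_, h3⟩, h4⟩ := hS1 _ h1
      rw [Finset.card_union_of_disjoint hd] at h4
      exact ⟨⟨Finset.disjoint_iff_inter_eq_empty.mp hd, h3⟩, by omega⟩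
    · exact absurd (if_neg hd) hG
  · rintro G ⟨h1, h2⟩ h3
    have hd : Disjoint G F := Finset.disjoint_iff_inter_eq_empty.mpr h1
    have h4 := cd_union (F := F) (S := S)
      (s := fun G => if Disjoint G F then eps F G • S (G ∪ F) else 0)
      (fun H hH => (hS1 H hH).1.1) (fun G hG => if_pos hG) hd
    rw [h4, hS2 _ ⟨Finset.subset_union_right, h2⟩ (by
      rw [Finset.card_union_of_disjoint hd]
      omega), ← hZu G hd]

lemma CE_descend {K k : Type*} [Field K] [Field k] [Algebra K k] {P : Finset α → Prop} {q : ℕ}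
    (h : CE P k q) : CE P K q := by
  intro z hz1 hz2
  obtain ⟨π, hπ⟩ := LinearMap.exists_leftInverse_of_injective (Algebra.linearMap K k)
    (LinearMap.ker_eq_bot.mpr (algebraMap K k).injective)
  have hπ' : ∀ c : K, π (algebraMap K k c) = c := fun c => by
    have := LinearMap.congr_fun hπ c
    exact this
  obtain ⟨s, hs1, hs2⟩ := h (fun G => algebraMap K k (z G)) (by
    intro G hG
    refine hz1 G fun h0 => hG ?_
    rw [h0, map_zero]) (by
    intro G hG hc
    have h1 := congrFun (cd_map (algebraMap K k).toAddMonoidHom z) G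
    refine h1.trans ?_
    rw [hz2 G hG hc, map_zero])
  refine ⟨fun G => π (s G), ?_, ?_⟩
  · intro G hG
    refine hs1 G fun h0 => hG ?_
    show π (s G) = 0
    rw [h0, map_zero]
  · intro G hG hc
    have h1 := congrFun (cd_map π.toAddMonoidHom s) G
    refine h1.trans ?_
    rw [hs2 G hG hc]
    exact hπ' (z G)

end link

section emb

variable {α β : Type*} [LinearOrder α] [LinearOrder β] {R : Type*} [Field R]

lemma sg_map (e : α ↪o β) (G : Finset α) (g : α) : sg (G.map e.toEmbedding) (e g) = sg G g := by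
  unfold sg
  rw [Finset.filter_map, Finset.card_map]
  congr 2
  ext u
  simp

lemma cd_map_emb (e : α ↪o β) (c : Finset β → R) (G : Finset α) :
    cd c (G.map e.toEmbedding) = cd (fun G => c (G.map e.toEmbedding)) G := by
  rw [cd_apply, cd_apply, Finset.sum_map]
  refine Finset.sum_congr rfl fun g _ => ?_
  rw [← Finset.map_erase]
  congr 1
  exact sg_map e G g

lemma CE_map (e : α ↪o β) {P : Finset β → Prop} (hP : ∀ G, P G → ∀ i ∈ G, i ∈ Set.range e)
    {q : ℕ} (h : CE (fun G => P (G.map e.toEmbedding)) R q) : CE P R q := by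
  classical
  intro z hz1 hz2
  have hpre : ∀ H, P H → ∃ G : Finset α, G.map e.toEmbedding = H := by
    intro H hH
    refine ⟨H.preimage e e.injective.injOn, ?_⟩
    ext i
    rw [Finset.mem_map]
    constructor
    · rintro ⟨a, ha, rfl⟩
      exact Finset.mem_preimage.mp ha
    · intro hi
      obtain ⟨a, rfl⟩ := hP H hH i hi
      exact ⟨a, Finset.mem_preimage.mpr hi, rfl⟩
  obtain ⟨s, hs1, hs2⟩ := h (fun G => z (G.map e.toEmbedding)) (by
    intro G hG
    obtain ⟨h1, h2⟩ := hz1 _ hG
    rw [Finset.card_map] at h2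
    exact ⟨h1, h2⟩) (by
    intro G hG hc
    rw [← cd_map_emb]
    exact hz2 _ hG (by rw [Finset.card_map]; exact hc))
  set S : Finset β → R := fun H =>
    if h : ∃ G : Finset α, G.map e.toEmbedding = H then s h.choose else 0 with hSdef
  have hS : ∀ G : Finset α, S (G.map e.toEmbedding) = s G := by
    intro G
    have hex : ∃ G' : Finset α, G'.map e.toEmbedding = G.map e.toEmbedding := ⟨G, rfl⟩
    simp only [hSdef, hex, dif_pos]
    congr 1
    exact Finset.map_injective _ hex.choose_spec
  refine ⟨S, ?_, ?_⟩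
  · intro H hH
    by_cases hex : ∃ G : Finset α, G.map e.toEmbedding = H
    · obtain ⟨G, rfl⟩ := hex
      rw [hS] at hH
      obtain ⟨h1, h2⟩ := hs1 G hH
      rw [Finset.card_map]
      exact ⟨h1, h2⟩
    · exact absurd (dif_neg hex) hH
  · intro H hH hc
    obtain ⟨G, rfl⟩ := hpre H hH
    rw [cd_map_emb]
    have h1 : (fun G : Finset α => S (G.map e.toEmbedding)) = s := funext hS
    rw [h1]
    rw [Finset.card_map] at hc
    exact hs2 G hH hc

end emb

end Pool.Agent.MP8049
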