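import Mathlib
import Pool.Agent.Lib.MP_8049df_ag.Top
import Pool.Agent.Lib.MP_8049df_ag.HyperState
import Pool.Agent.Lib.MP_8049df_ag.Connect
import Pool.Agent.Lib.MP_8049df_ag.Transfer
import Pool.Agent.Lib.MP_8049df_ag.FromIdeal
import Pool.Agent.Lib.MP_8049df_ag.Ranks


/-! ## Part Induct -/

set_option autoImplicit false

/-! Induction over generic hyperplane sections. -/

namespace Pool.Agent.MP8049

variable {ι : Type} [Fintype ι] [LinearOrder ι]

/-- constant cochains -/
def kc (L : Type) [Field L] {k : Type} [Field k] [Algebra k L] (z : Finset ι → k) :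
    Finset ι → L := fun G => algebraMap k L (z G)

lemma kc_mem_RG {L : Type} [Field L] {k : Type} [Field k] [Algebra k L] {x : ι → L} (c : k)
    (G : Finset ι) : algebraMap k L c ∈ RG k x 0 G := by
  rw [Algebra.algebraMap_eq_smul_one, ← mon_zero x]
  exact Submodule.smul_mem _ _ (mon_mem_Sp ⟨fun _ _ => le_refl _, dg_zero⟩)

/-- The top degree. -/
theorem IsState.top {K₀ k L : Type} [Field K₀] [Field k] [Field L] [Algebra K₀ k]
    [Algebra K₀ L] [Algebra k L] [IsScalarTower K₀ k L] {x : ι → L} {q : ℕ} {σ : ℤ}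
    (h : IsState K₀ k x q σ) (hq : 2 ≤ q) {v : ι → ℝ} (hv : ∀ i, 0 < v i)
    (hinj : ∀ a : ι → ℤ, wt v a = 0 → a = 0) {z : Finset ι → k}
    (hz : ∀ G, z G ≠ 0 → G.card = q) (ν : ℝ) :
    ∃ y ∈ Coch (RF k x v 0 ν) q, kc L z - y ∈ Bdy (RG k x 0) q := by
  classical
  obtain ⟨ν₀, τ, hT⟩ := h.topHyp hv hinj
  have hinf : Infinite k := h.inf
  set ν' := max ν (ν₀ + 1) with hν'
  have hν₀ : ν₀ < ν' := lt_of_lt_of_le (by linarith) (le_max_right _ _)
  have hunit : ∀ F : Finset ι, F.card = q → dlt F (1 : L) ∈ NN k x v q ν' := by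
    intro F hF
    by_cases hind : AlgebraicIndependent k (fun i : F => x i)
    · have htb : IsTranscendenceBasis k (fun i : F => x i) := by
        refine AlgebraicIndependent.isTranscendenceBasis_of_trdeg_le_of_finite hind ?_
        rw [h.tr, Cardinal.mk_coe_finset, hF]
      exact hT.unit hq h.fr hν₀ hF htb
    · obtain ⟨ε, hε, h1⟩ := one_mem_of_dep h.hx hinj h.hom hind
      have h2 := TG_le_TF_of_one h.hx hε h1 ν' (one_mem_TG F)
      exact Submodule.mem_sup_right (dlt_mem (P := TF k x v ν') hF h2)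
  have hsum : kc L z = ∑ F : Finset ι, z F • dlt F (1 : L) := by
    funext G
    rw [Finset.sum_apply, Finset.sum_eq_single G]
    · simp only [kc, dlt, Pi.smul_apply, if_true, Algebra.algebraMap_eq_smul_one]
    · intro F _ hFG
      simp only [dlt, Pi.smul_apply, if_neg (Ne.symm hFG), smul_zero]
    · intro hn
      exact absurd (Finset.mem_univ G) hn
  have hNN : kc L z ∈ NN k x v q ν' := by
    rw [hsum]
    refine Submodule.sum_mem _ fun F _ => ?_
    by_cases hzF : z F = 0
    · rw [hzF, zero_smul]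
      exact Submodule.zero_mem _
    · exact Submodule.smul_mem _ _ (hunit F (hz F hzF))
  obtain ⟨b, hb, y, hy, he⟩ := Submodule.mem_sup.mp hNN
  refine ⟨fun G => (hc h.hom 0).toAddMonoidHom (y G), ?_, ?_⟩
  · refine Coch_mono (RF_anti x v 0 (le_max_left ν (ν₀ + 1))) q ?_
    refine Coch_map (P := TF k x v ν') (Q := RF k x v 0 ν') (hc h.hom 0).toAddMonoidHom
      (fun G u hu => ?_) hy
    have h2 := hc_mem h.hom (j := 0) hu
    refine Sp_mono ?_ h2
    rintro a ⟨⟨ha1, ha2⟩, ha3⟩
    exact ⟨⟨ha1, ha3⟩, ha2⟩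
  · have h1 : kc L z - (fun G => (hc h.hom 0).toAddMonoidHom (y G)) =
        fun G => (hc h.hom 0).toAddMonoidHom (b G) := by
      funext G
      have h2 : b G = kc L z G - y G := by rw [← he, Pi.add_apply, add_sub_cancel_right]
      have h3 : hc h.hom 0 (kc L z G) = kc L z G :=
        hc_of_mem h.hom (j := 0) Set.inter_subset_right (kc_mem_RG (x := x) (z G) G)
      rw [h2, map_sub]
      show kc L z G - _ = hc h.hom 0 (kc L z G) - _
      rw [h3]
    rw [h1]
    exact Bdy_map (hc h.hom 0).toAddMonoidHom (fun G u hu => hc_RG h.hom hu) hb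

/-- The full statement, by induction on the number of hyperplane sections. -/
theorem IsState.triv (r : ℕ) : ∀ {K₀ k L : Type} [Field K₀] [Field k] [Field L] [Algebra K₀ k]
    [Algebra K₀ L] [Algebra k L] [IsScalarTower K₀ k L] [Nonempty ι] {x : ι → L} {q : ℕ} {σ : ℤ}
    (_ : 0 ≤ σ) (_ : IsState K₀ k x (q + r) σ) (_ : 2 ≤ q) {v : ι → ℝ} (_ : ∀ i, 0 < v i)
    (_ : ∀ a : ι → ℤ, wt v a = 0 → a = 0) {z : Finset ι → k}
    (_ : ∀ G, z G ≠ 0 → G.card = q)
    (_ : ∀ ν : ℝ, ∃ y ∈ Coch (RF k x v 0 ν) q, kc L z - y ∈ Cyc (RG k x 0) q) (ν : ℝ),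
    ∃ y ∈ Coch (RF k x v 0 ν) q, kc L z - y ∈ Bdy (RG k x 0) q := by
  induction r with
  | zero =>
    intro K₀ k L _ _ _ _ _ _ _ _ x q σ _ h hq v hv hinj z hz _ ν
    exact h.top hq hv hinj hz ν
  | succ r ih =>
    intro K₀ k L _ _ _ _ _ _ _ _ x q σ hσ h hq v hv hinj z hz hzc ν
    obtain ⟨p, rfl⟩ : ∃ p, q = p + 1 := ⟨q - 1, by omega⟩
    have h' : IsState K₀ k x ((p + r) + 2) σ := by
      have : p + 1 + (r + 1) = (p + r) + 2 := by ring
      rwa [this] at h
    obtain ⟨L', _, _, _, _, _, _, u, hst, hinjc⟩ := h'.hyper hσ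
    have htow : IsScalarTower K₀ (kx k u) L' := IsScalarTower.of_algebraMap_eq (fun _ => rfl)
    have hst' : IsState K₀ (kx k u) (xx L' x) ((p + 1) + r) σ := by
      have : p + r + 1 = (p + 1) + r := by ring
      rwa [this] at hst
    obtain ⟨ρ, hρ, htog⟩ := exists_tog (k := kx k u) hst.hx v
    set ν' := max ν ((ρ - 1) * VV v + 1) with hν'
    obtain ⟨y, hy, hyc⟩ := hzc ν'
    -- transfer of cochains
    have htr : ∀ {j : ℤ} {μ : ℝ} {c : Finset ι → L}, c ∈ Coch (RF k x v j μ) (p + 1) →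
        (fun G => (algebraMap L L').toAddMonoidHom (c G)) ∈
          Coch (RF (kx k u) (xx L' x) v j μ) (p + 1) := by
      intro j μ c hcc
      exact Coch_map (algebraMap L L').toAddMonoidHom (fun G w hw => algebraMap_mem_SpX u hw) hcc
    have htrc : ∀ {j : ℤ} {c : Finset ι → L}, c ∈ Cyc (RG k x j) (p + 1) →
        (fun G => (algebraMap L L').toAddMonoidHom (c G)) ∈
          Cyc (RG (kx k u) (xx L' x) j) (p + 1) := by
      intro j c hcc
      exact Cyc_map (algebraMap L L').toAddMonoidHom (fun G w hw => algebraMap_mem_SpX u hw) hcc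
    set z' : Finset ι → kx k u := fun G => algebraMap k (kx k u) (z G) with hz'
    have hkc : ∀ y : Finset ι → L, (fun G => (algebraMap L L').toAddMonoidHom ((kc L z - y) G)) =
        kc L' z' - (fun G => (algebraMap L L').toAddMonoidHom (y G)) := by
      intro y
      funext G
      rw [Pi.sub_apply, map_sub]
      congr 1
      show algebraMap L L' (algebraMap k L (z G)) = algebraMap (kx k u) L' (algebraMap k _ (z G))
      rw [← IsScalarTower.algebraMap_apply k L L', ← IsScalarTower.algebraMap_apply k (kx k u) L']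
    obtain ⟨y'', hy'', hyb⟩ := ih (q := p + 1) hσ hst' hq hv hinj (z := z') (fun G hG => hz G (by
      intro h0
      apply hG
      rw [hz']
      simp only [h0, map_zero])) (fun μ => by
      obtain ⟨w, hw1, hw2⟩ := hzc μ
      refine ⟨_, htr hw1, ?_⟩
      rw [← hkc]
      exact htrc hw2) ν'
    -- comparison of the two error terms
    have hcyc1 := htrc hyc
    rw [hkc] at hcyc1
    have hcyc2 := Bdy_le_Cyc (RG_FMono (k := kx k u) (xx L' x) 0) (p + 1) hyb
    have hdiff : y'' - (fun G => (algebraMap L L').toAddMonoidHom (y G)) ∈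
        Cyc (RF (kx k u) (xx L' x) v 0 ν') (p + 1) := by
      refine ⟨Submodule.sub_mem _ hy'' (htr hy), ?_⟩
      have h1 : cd (kc L' z' - (fun G => (algebraMap L L').toAddMonoidHom (y G))) = 0 := hcyc1.2
      have h2 : cd (kc L' z' - y'') = 0 := hcyc2.2
      show cd (y'' - (fun G => (algebraMap L L').toAddMonoidHom (y G))) = 0
      have h3 : y'' - (fun G => (algebraMap L L').toAddMonoidHom (y G)) =
          (kc L' z' - (fun G => (algebraMap L L').toAddMonoidHom (y G))) - (kc L' z' - y'') := by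
        abel
      rw [h3, cd_sub, h1, h2, sub_zero]
    have hex : Ex (RF (kx k u) (xx L' x) v 0 ν') (p + 1) := by
      refine acyc_RF hst.hx hinj (by omega) htog 0 (p + 1) ν' fun a _ ha => ?_
      by_contra hcon
      push Not at hcon
      have h1 : wt v a ≤ (ρ - 1) * VV v := by
        unfold wt VV
        rw [Finset.mul_sum]
        refine Finset.sum_le_sum fun i _ => mul_le_mul_of_nonneg_right ?_ (hv i).le
        have h2 : a i ≤ ρ - 1 := by have := hcon i; omega
        exact_mod_cast h2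
      have h2 : (ρ - 1) * VV v + 1 ≤ ν' := le_max_right _ _
      linarith
    have hB := Bdy_mono (RF_le_RG (k := kx k u) (xx L' x) v 0 ν') (p + 1) (hex hdiff)
    have hfin : (fun G => algebraMap L L' ((kc L z - y) G)) ∈
        Bdy (RG (kx k u) (xx L' x) 0) (p + 1) := by
      have h1 : (fun G => algebraMap L L' ((kc L z - y) G)) =
          (kc L' z' - y'') + (y'' - (fun G => (algebraMap L L').toAddMonoidHom (y G))) := by
        rw [sub_add_sub_cancel, ← hkc]
        rfl
      rw [h1]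
      exact Submodule.add_mem _ hyb hB
    refine ⟨y, Coch_mono (RF_anti x v 0 (le_max_left _ _)) (p + 1) hy, ?_⟩
    exact hinjc p (by omega) _ hyc hfin

end Pool.Agent.MP8049


/-! ## Part ExactEmpty -/

set_option autoImplicit false

/-! Exactness of the complex of all faces. -/

namespace Pool.Agent.MP8049

variable {ι : Type} [Fintype ι] [LinearOrder ι]
variable {L : Type} [Field L] {k : Type} [Field k] [Algebra k L]
variable {x : ι → L} {v : ι → ℝ} {Face : Finset ι → Prop}

theorem Stage0.exact_empty {K₀ : Type} [Field K₀] [Algebra K₀ k] [Algebra K₀ L]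
    [IsScalarTower K₀ k L] [Nonempty ι] (h : Stage0 K₀ k x v Face) (q : ℕ) {z : Finset ι → k}
    (hz : Coc Face ∅ q z) : Cob Face ∅ q z := by
  obtain ⟨g, hsq⟩ := h.toSq
  rcases Nat.lt_or_ge q 2 with hq2 | hq2
  · interval_cases q
    · exact hsq.connect0 hz
    · exact hsq.connect1 hz
  · obtain ⟨F₀, hF₀, hmax⟩ := exists_max_face h.emp
    by_cases hqD : q ≤ F₀.card
    · obtain ⟨r, hr⟩ := Nat.exists_eq_add_of_le hqD
      have hst := h.isState hF₀ hmax
      rw [hr] at hst
      have hsp0 : sp (0 : ι → ℤ) = ∅ := by simp [sp]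
      have hkc : ∀ G, kc L z G = zm x z 0 G := by
        intro G
        rw [kc, zm, mon_zero, Algebra.algebraMap_eq_smul_one]
      have hkc' : kc L z = zm x z 0 := funext hkc
      obtain ⟨y, hy, hyb⟩ := IsState.triv r (σ := Fintype.card ι) (by positivity) hst hq2 h.hv
        h.hinj (z := z) (fun G hG => (hz.1 G hG).2.2) (fun ν => by
          obtain ⟨l, hl1, hl2⟩ := hsq.exists_lift (a := 0) (fun _ => le_refl _) (q := q) (z := z)
            (by rw [hsp0]; exact hz) ν
          rw [dg_zero] at hl1 hl2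
          refine ⟨zm x z 0 - l, hl2, ?_⟩
          rw [hkc', sub_sub_cancel]
          exact hl1) 1
      have h1 := hsq.lfi (a := 0) (fun _ => le_refl _) (q := q) (z := z)
        (by rw [hsp0]; exact hz) (c := kc L z - y) (by rw [dg_zero]; exact hyb) (by
          intro G
          have h2 : (kc L z - y) G - z G • mon x 0 = -(y G) := by
            rw [Pi.sub_apply, hkc]
            simp only [zm]
            ring
          rw [h2, dg_zero]
          refine Submodule.neg_mem _ (Sp_mono ?_ (hy G).1)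
          rintro b ⟨hb1, hb2⟩
          refine ⟨hb1, ?_⟩
          have hb2' : (1 : ℝ) ≤ wt v b := hb2
          show wt v 0 < wt v b
          rw [wt_zero]
          linarith)
      rwa [hsp0] at h1
    · refine ⟨0, fun G hG => absurd rfl hG, fun G _ hG hc => ?_⟩
      have := hmax G hG
      omega

end Pool.Agent.MP8049


/-! ## Part Final -/

set_option autoImplicit false

/-! Assembly: exactness of the cochain complexes of the links over the ground field. -/

namespace Pool.Agent.MP8049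

section

variable {ι : Type} [Fintype ι] [LinearOrder ι]
variable {L : Type} [Field L] {k : Type} [Field k] [Algebra k L]
variable {x : ι → L} {v : ι → ℝ} {Face : Finset ι → Prop}

lemma CE_of_Coc {F : Finset ι} {q : ℕ}
    (h : ∀ z : Finset ι → k, Coc Face F q z → Cob Face F q z) :
    CE (fun G => F ⊆ G ∧ Face G) k q := by
  intro z hz1 hz2
  obtain ⟨s, hs1, hs2⟩ := h z ⟨fun G hG => by
      obtain ⟨⟨h1, h2⟩, h3⟩ := hz1 G hG
      exact ⟨h1, h2, h3⟩, fun G h1 h2 h3 => hz2 G ⟨h1, h2⟩ h3⟩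
  refine ⟨s, fun G hG => ?_, fun G h1 h2 => hs2 G h1.1 h1.2 h2⟩
  obtain ⟨h1, h2, h3⟩ := hs1 G hG
  exact ⟨⟨h1, h2⟩, h3⟩

end

/-- Exactness over the ground field. -/
theorem exact_all {K : Type} [Field K] {n : ℕ} (Δ : Finset (Finset (Fin n)))
    (hdown : ∀ F ∈ Δ, ∀ G : Finset (Fin n), G ⊆ F → G ∈ Δ)
    (I : Ideal (MvPolynomial (Fin n) K)) (ord : MonomialOrder (Fin n))
    (hhom : ∀ f ∈ I, ∀ d : ℕ, MvPolynomial.homogeneousComponent d f ∈ I)
    (hprime : I.IsPrime)
    (hX : ∃ i : Fin n, MvPolynomial.X i ∉ I)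
    (hsm : ∀ i : Fin n, Algebra.Smooth K
        (Localization.Away (Ideal.Quotient.mk I (MvPolynomial.X i))))
    (hin : Ideal.span {p : MvPolynomial (Fin n) K | ∃ f ∈ I, f ≠ 0 ∧
          p = MvPolynomial.monomial (ord.degree f) (1 : K)} =
        Ideal.span {p : MvPolynomial (Fin n) K | ∃ S : Finset (Fin n), S ∉ Δ ∧
          p = MvPolynomial.monomial (∑ i ∈ S, Finsupp.single i 1) (1 : K)}) :
    (∀ F ∈ Δ, F.Nonempty → ∀ q : ℕ, (∃ G ∈ Δ, G ∩ F = ∅ ∧ G ∪ F ∈ Δ ∧ q < G.card) →
      CE (fun G => G ∈ Δ.filter (fun G => G ∩ F = ∅ ∧ G ∪ F ∈ Δ)) K q) ∧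
    ∀ q : ℕ, CE (fun G => G ∈ Δ) K q := by
  classical
  obtain ⟨ι, _, _, e, k, L, _, _, _, _, _, _, x, v, hne, hst, hrange⟩ :=
    exists_stage0 Δ hdown I ord hhom hprime hX hsm hin
  obtain ⟨g, hsq⟩ := hst.toSq
  have hs : HSSimple (TG k x ∅ : Set L) x := hsSimple_of_smAt x hst.hx hst.fr hst.sm
  have hmapex : ∀ H : Finset (Fin n), (∀ i ∈ H, i ∈ Set.range e) →
      ∃ G : Finset ι, G.map e.toEmbedding = H := by
    intro H hH
    refine ⟨H.preimage e e.injective.injOn, ?_⟩
    ext i
    rw [Finset.mem_map]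
    constructor
    · rintro ⟨a, ha, rfl⟩
      exact Finset.mem_preimage.mp ha
    · intro hi
      obtain ⟨a, rfl⟩ := hH i hi
      exact ⟨a, Finset.mem_preimage.mpr hi, rfl⟩
  constructor
  · intro F hF hFne q hq
    obtain ⟨G₀, hG₀, hG₀F, hG₀U, hG₀c⟩ := hq
    obtain ⟨F', hF'⟩ := hmapex F (hrange F hF)
    obtain ⟨U', hU'⟩ := hmapex (G₀ ∪ F) (hrange _ hG₀U)
    have hF'ne : F'.Nonempty := by
      rw [← Finset.map_nonempty (f := e.toEmbedding), hF']
      exact hFne
    have hFcard : F'.card = F.card := by rw [← hF', Finset.card_map]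
    have hUcard : U'.card = G₀.card + F.card := by
      rw [← Finset.card_map e.toEmbedding, hU',
        Finset.card_union_of_disjoint (Finset.disjoint_iff_inter_eq_empty.mpr hG₀F)]
    have h1 : CE (fun G => F' ⊆ G ∧ G.map e.toEmbedding ∈ Δ) k (q + F'.card) :=
      CE_of_Coc fun z hz => hsq.link_exact hs (F₀ := U') (by
        show U'.map e.toEmbedding ∈ Δ
        rw [hU']
        exact hG₀U) (by omega) hF'ne hz
    have h2 := CE_descend (K := K) (CE_link q h1)
    refine CE_map e (P := fun G => G ∈ Δ.filter (fun G => G ∩ F = ∅ ∧ G ∪ F ∈ Δ))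
      (fun G hG => hrange G (Finset.mem_filter.mp hG).1) ?_
    have h3 : (fun G : Finset ι => G.map e.toEmbedding ∈
        Δ.filter (fun G => G ∩ F = ∅ ∧ G ∪ F ∈ Δ)) =
        (fun G => G ∩ F' = ∅ ∧ (G ∪ F').map e.toEmbedding ∈ Δ) := by
      funext G
      rw [Finset.mem_filter, ← hF', ← Finset.map_inter, ← Finset.map_union, Finset.map_eq_empty]
      apply propext
      constructor
      · rintro ⟨_, h⟩
        exact h
      · rintro ⟨h4, h5⟩
        exact ⟨hdown _ h5 _ (Finset.map_subset_map.mpr Finset.subset_union_left), h4, h5⟩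
    rw [h3]
    exact h2
  · intro q
    refine CE_map e (P := fun G => G ∈ Δ) (fun G hG => hrange G hG) ?_
    have h1 : CE (fun G => ∅ ⊆ G ∧ G.map e.toEmbedding ∈ Δ) k q :=
      CE_of_Coc fun z hz => hst.exact_empty q hz
    have h2 : (fun G : Finset ι => ∅ ⊆ G ∧ G.map e.toEmbedding ∈ Δ) =
        (fun G => G.map e.toEmbedding ∈ Δ) := by
      funext G
      apply propext
      constructor
      · rintro ⟨_, h⟩
        exact h
      · intro h
        exact ⟨Finset.empty_subset _, h⟩
    rw [h2] at h1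
    exact CE_descend h1

end Pool.Agent.MP8049
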